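import Mathlib
import Pool.Agent.H765.GK.Def

/-! The Ohtsuki series of `1/n`-surgeries on a knot. -/

namespace Pool.Agent.H765.MM

open PowerSeries GK

noncomputable section

/-- The coefficient of `h^m` in `(e^h - e^{-h}) J(N)`, as a polynomial of degree at most `m` in the
colour `N` (the one with the right values at `N = 0, ..., m`). -/
def mmPoly (J : ℤ → ℚ⟦X⟧) (m : ℕ) : Polynomial ℚ :=
  Lagrange.interpolate (Finset.range (m + 1)) (fun i : ℕ => (i : ℚ))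
    (fun i : ℕ => coeff m ((hexp 1 - hexp (-1)) * J i))

/-- The coefficient of `y^l h^b`, where `y = N h`, in the Melvin-Morton expansion `F(y, h)` of
`(e^h - e^{-h}) J(N)`. -/
def mmCoeff (J : ℤ → ℚ⟦X⟧) (l b : ℕ) : ℚ := (mmPoly J (l + b)).coeff l

/-- `E_n[2 sinh(y/n) F(y, h)]` for `F = ∑ f l b y^l h^b`, where `E_n[y^{2k}] = (2k-1)!! (-n h)^k`
(Gaussian with variance `- n h`). -/
def gauss (n : ℤ) (f : ℕ → ℕ → ℚ) : ℚ⟦X⟧ := PowerSeries.mk fun m =>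
  ∑ k ∈ Finset.range (m + 1), ((2 * k - 1).doubleFactorial : ℚ) * (-(n : ℚ)) ^ k *
    ∑ s ∈ Finset.range (2 * k + 1), (1 - (-1) ^ s) / ((s.factorial : ℚ) * (n : ℚ) ^ s) *
      f (2 * k - s) (m - k)

/-- `(f - f(0))/h` -/
def shift (f : ℚ⟦X⟧) : ℚ⟦X⟧ := PowerSeries.mk fun m => coeff (m + 1) f

/-- The Ohtsuki series (perturbative `SO(3)` invariant) in `h`, `q = e^{2h}`, of the `1/n`-surgery
on a knot with coloured Jones function `J`:
`(e^h - e^{-h}) τ = - 1/2 e^{(n + 1/n) h/2} E_n[2 sinh(y/n) F(y, h)]` (and `1` for `S^3`, `n = 0`). -/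
def ohtsuki (n : ℤ) (J : ℤ → ℚ⟦X⟧) : ℚ⟦X⟧ :=
  if n = 0 then 1 else
    shift (C (-1 / 2) * hexp ((n + 1 / n) / 2) * gauss n (mmCoeff J)) *
      (shift (hexp 1 - hexp (-1)))⁻¹

end

end Pool.Agent.H765.MM
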