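import Mathlib
import Pool.Agent.H765.ST.Ops

/-! Families of power series whose coefficients are polynomials in the colour with a degree bound. -/

namespace Pool.Agent.H765.MM

open PowerSeries GK DB Pool.Agent.H765.ST

noncomputable section

/-- every coefficient of `h^n` in `f N` is a polynomial of degree at most `a n + s` in `N` -/
def Bd (a s : ℕ) (f : ℤ → ℚ⟦X⟧) : Prop :=
  ∀ n, ∃ P : Polynomial ℚ, P.natDegree ≤ a * n + s ∧ ∀ N : ℤ, coeff n (f N) = P.eval (N : ℚ)

variable {a s t : ℕ}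

theorem Bd.congr {f g : ℤ → ℚ⟦X⟧} (hf : Bd a s f) (h : ∀ N, f N = g N) : Bd a s g := by
  have : f = g := funext h
  rwa [← this]

theorem Bd.pf {f : ℤ → ℚ⟦X⟧} (hf : Bd a s f) : PF f := fun n =>
  let ⟨P, _, h⟩ := hf n
  ⟨P, h⟩

theorem Bd.mono (hst : s ≤ t) {f : ℤ → ℚ⟦X⟧} (hf : Bd a s f) : Bd a t f := fun n =>
  let ⟨P, h1, h⟩ := hf n
  ⟨P, by omega, h⟩

theorem Bd.slope {b : ℕ} (hab : a ≤ b) {f : ℤ → ℚ⟦X⟧} (hf : Bd a s f) : Bd b s f := fun n =>
  let ⟨P, h1, h⟩ := hf n
  ⟨P, h1.trans (by have := Nat.mul_le_mul_right n hab; omega), h⟩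

theorem Bd.add {f g : ℤ → ℚ⟦X⟧} (hf : Bd a s f) (hg : Bd a s g) :
    Bd a s (fun N => f N + g N) := by
  intro n
  obtain ⟨P, hP', hP⟩ := hf n
  obtain ⟨Q, hQ', hQ⟩ := hg n
  exact ⟨P + Q, (Polynomial.natDegree_add_le _ _).trans (max_le hP' hQ'),
    fun N => by rw [map_add, hP, hQ, Polynomial.eval_add]⟩

theorem Bd.sub {f g : ℤ → ℚ⟦X⟧} (hf : Bd a s f) (hg : Bd a s g) :
    Bd a s (fun N => f N - g N) := by
  intro n
  obtain ⟨P, hP', hP⟩ := hf n
  obtain ⟨Q, hQ', hQ⟩ := hg n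
  exact ⟨P - Q, (Polynomial.natDegree_sub_le _ _).trans (max_le hP' hQ'),
    fun N => by rw [map_sub, hP, hQ, Polynomial.eval_sub]⟩

theorem Bd.mul {f g : ℤ → ℚ⟦X⟧} (hf : Bd a s f) (hg : Bd a t g) :
    Bd a (s + t) (fun N => f N * g N) := by
  choose P hP' hP using hf
  choose Q hQ' hQ using hg
  intro n
  refine ⟨∑ k ∈ Finset.range (n + 1), P k * Q (n - k), ?_, fun N => ?_⟩
  · apply Polynomial.natDegree_sum_le_of_forall_le
    intro k hk
    have h1 := hP' k
    have h2 := hQ' (n - k)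
    have h3 : k ≤ n := by simpa [Nat.lt_succ_iff] using hk
    have h4 : a * n = a * k + a * (n - k) := by rw [← mul_add]; congr 1; omega
    exact (Polynomial.natDegree_mul_le).trans (by omega)
  · rw [coeff_mul_range, Polynomial.eval_finsetSum]
    apply Finset.sum_congr rfl
    intro k _
    rw [hP, hQ, Polynomial.eval_mul]

theorem Bd.const (b : ℚ⟦X⟧) : Bd a 0 (fun _ => b) := fun n =>
  ⟨Polynomial.C (coeff n b), by simp, fun N => by rw [Polynomial.eval_C]⟩

theorem Bd.const_mul (b : ℚ⟦X⟧) {f : ℤ → ℚ⟦X⟧} (hf : Bd a s f) :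
    Bd a s (fun N => b * f N) := by
  have := (Bd.const b).mul hf
  rwa [zero_add] at this

theorem Bd.hexp_lin (c : ℚ) : Bd 1 0 (fun N => GK.hexp (c * N)) := by
  intro n
  refine ⟨(Polynomial.C c * Polynomial.X) ^ n * Polynomial.C (1 / (n.factorial : ℚ)), ?_,
    fun N => ?_⟩
  · refine (Polynomial.natDegree_mul_le).trans ?_
    rw [Polynomial.natDegree_C, add_zero, add_zero]
    refine (Polynomial.natDegree_pow_le).trans ?_
    have : (Polynomial.C c * Polynomial.X).natDegree ≤ 1 :=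
      (Polynomial.natDegree_C_mul_le _ _).trans Polynomial.natDegree_X_le
    nlinarith
  · rw [coeff_hexp]
    simp

theorem Bd.comp {f : ℤ → ℚ⟦X⟧} (hf : Bd a s f) (x y : ℤ) :
    Bd a s (fun N => f (x * N + y)) := by
  intro n
  obtain ⟨P, hP', hP⟩ := hf n
  refine ⟨P.comp (Polynomial.C (x : ℚ) * Polynomial.X + Polynomial.C (y : ℚ)), ?_, fun N => ?_⟩
  · refine (Polynomial.natDegree_comp_le).trans ?_
    have : (Polynomial.C (x : ℚ) * Polynomial.X + Polynomial.C (y : ℚ)).natDegree ≤ 1 :=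
      Polynomial.natDegree_linear_le
    nlinarith
  · rw [hP, Polynomial.eval_comp, Polynomial.eval_add, Polynomial.eval_mul, Polynomial.eval_C,
      Polynomial.eval_X, Polynomial.eval_C]
    push_cast
    rfl

theorem Bd.X_mul {f : ℤ → ℚ⟦X⟧} (hf : Bd a (s + a) f) : Bd a s (fun N => X * f N) := by
  intro n
  rcases n with _ | n
  · exact ⟨0, by simp, fun N => by simp⟩
  · obtain ⟨P, hP', hP⟩ := hf n
    refine ⟨P, by rw [mul_add]; omega, fun N => ?_⟩
    beta_reduce
    rw [mul_comm, coeff_succ_mul_X, hP]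

theorem Bd.of_X_mul {f : ℤ → ℚ⟦X⟧} (hf : Bd a s (fun N => X * f N)) : Bd a (s + a) f := by
  intro n
  obtain ⟨P, hP', hP⟩ := hf (n + 1)
  rw [mul_add] at hP'
  refine ⟨P, by omega, fun N => ?_⟩
  have := hP N
  beta_reduce at this
  rw [mul_comm, coeff_succ_mul_X] at this
  exact this

theorem Bd.inv {f : ℤ → ℚ⟦X⟧} (hf : Bd a 0 f) (h1 : ∀ N, constantCoeff (f N) = 1) :
    Bd a 0 (fun N => (f N)⁻¹) := by
  intro n
  induction n using Nat.strong_induction_on with
  | _ n ih =>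
    rcases Nat.eq_zero_or_pos n with rfl | h
    · refine ⟨1, by simp, fun N => ?_⟩
      rw [coeff_inv, if_pos rfl, h1]
      simp
    · choose P hP' hP using hf
      have ih' : ∀ m, ∃ Q : Polynomial ℚ, m < n → Q.natDegree ≤ a * m + 0 ∧
          ∀ N : ℤ, coeff m (f N)⁻¹ = Q.eval (N : ℚ) := by
        intro m
        by_cases hm : m < n
        · obtain ⟨Q, hQ⟩ := ih m hm
          exact ⟨Q, fun _ => hQ⟩
        · exact ⟨0, fun h => absurd h hm⟩
      choose Q hQ using ih'
      refine ⟨- ∑ x ∈ Finset.HasAntidiagonal.antidiagonal n,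
        if x.2 < n then P x.1 * Q x.2 else 0, ?_, fun N => ?_⟩
      · rw [Polynomial.natDegree_neg]
        apply Polynomial.natDegree_sum_le_of_forall_le
        intro x hx
        have hx' := Finset.HasAntidiagonal.mem_antidiagonal.mp hx
        split_ifs with h2
        · have a1 := hP' x.1
          have a2 := (hQ x.2 h2).1
          have a3 : a * n = a * x.1 + a * x.2 := by rw [← mul_add, hx']
          exact (Polynomial.natDegree_mul_le).trans (by omega)
        · simp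
      · rw [coeff_inv, if_neg h.ne', h1, Polynomial.eval_neg, Polynomial.eval_finsetSum, inv_one,
          neg_one_mul]
        congr 1
        apply Finset.sum_congr rfl
        intro x _
        split_ifs with hx
        · rw [hP, (hQ x.2 hx).2, Polynomial.eval_mul]
        · simp

/-- division by the colour -/
theorem Bd.div {J : ℤ → ℚ⟦X⟧} (h : Bd a (s + 1) J) (h0 : J 0 = 0) :
    ∃ j : ℤ → ℚ⟦X⟧, Bd a s j ∧ ∀ N : ℤ, J N = C (N : ℚ) * j N := by
  choose P hP' hP using h
  have hX : ∀ n, ∃ Q : Polynomial ℚ, P n = Polynomial.X * Q := by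
    intro n
    have h1 := hP n 0
    rw [h0, map_zero] at h1
    have h2 : Polynomial.X ∣ P n := by
      rw [Polynomial.X_dvd_iff, Polynomial.coeff_zero_eq_eval_zero]
      simpa using h1.symm
    obtain ⟨Q, hQ⟩ := h2
    exact ⟨Q, hQ⟩
  choose Q hQ using hX
  refine ⟨fun N => PowerSeries.mk fun n => (Q n).eval (N : ℚ), fun n => ⟨Q n, ?_, fun N => ?_⟩, ?_⟩
  · have h1 := hP' n
    rcases eq_or_ne (Q n) 0 with h2 | h2
    · rw [h2]; simp
    · rw [hQ, Polynomial.natDegree_X_mul h2] at h1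
      omega
  · rw [coeff_mk]
  · intro N
    ext n
    rw [coeff_C_mul, coeff_mk, hP, hQ, Polynomial.eval_mul, Polynomial.eval_X]

/-- multiplication by the colour -/
theorem Bd.N_mul {f : ℤ → ℚ⟦X⟧} (hf : Bd a s f) : Bd a (s + 1) (fun N => C (N : ℚ) * f N) := by
  intro n
  obtain ⟨P, hP', hP⟩ := hf n
  refine ⟨Polynomial.X * P, ?_, fun N => ?_⟩
  · refine (Polynomial.natDegree_mul_le).trans ?_
    have := Polynomial.natDegree_X_le (R := ℚ)
    omega
  · rw [coeff_C_mul, hP, Polynomial.eval_mul, Polynomial.eval_X]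

/-- `(e^h - e^{-h})/h` -/
def dd : ℚ⟦X⟧ := PowerSeries.mk fun n => coeff (n + 1) (hexp 1 - hexp (-1))

theorem X_mul_dd : X * dd = hexp 1 - hexp (-1) := by
  ext n
  rcases n with _ | n
  · rw [mul_comm, coeff_zero_mul_X, map_sub, coeff_hexp, coeff_hexp]
    simp
  · rw [mul_comm, coeff_succ_mul_X, dd, coeff_mk]

theorem dd_const : constantCoeff dd = 2 := by
  rw [← coeff_zero_eq_constantCoeff_apply, dd, coeff_mk, map_sub, coeff_hexp, coeff_hexp]
  norm_num

theorem dd_inv : dd⁻¹ * dd = 1 := PowerSeries.inv_mul_cancel _ (by rw [dd_const]; norm_num)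

theorem Bd.unknot1 : Bd 1 1 unknotJ := by
  have h1 : Bd 1 0 (fun N : ℤ => GK.hexp (1 * N) - GK.hexp (-1 * N)) :=
    (Bd.hexp_lin 1).sub (Bd.hexp_lin (-1))
  have h2 : Bd 1 0 (fun N : ℤ => X * (dd * unknotJ N)) := by
    apply h1.congr
    intro N
    rw [← mul_assoc, X_mul_dd, unknotJ_mul, one_mul, neg_one_mul]
  have h3 := h2.of_X_mul.const_mul dd⁻¹
  rw [zero_add] at h3
  apply h3.congr
  intro N
  rw [← mul_assoc, dd_inv, one_mul]

theorem Bd.unknot (ha : 1 ≤ a) : Bd a 1 unknotJ := Bd.unknot1.slope ha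

theorem unknot_div (ha : 1 ≤ a) : ∃ u : ℤ → ℚ⟦X⟧, Bd a 0 u ∧
    (∀ N : ℤ, unknotJ N = C (N : ℚ) * u N) ∧ ∀ N, constantCoeff (u N) = 1 := by
  obtain ⟨u, hu, eu⟩ := Bd.div (s := 0) (Bd.unknot ha) unknotJ_zero
  refine ⟨u, hu, eu, ?_⟩
  obtain ⟨P, hPd, hP⟩ := hu 0
  have h1 : P = 1 := by
    apply Polynomial.eq_of_infinite_eval_eq
    have hi : Set.Infinite (Set.range fun k : ℕ => ((k + 1 : ℕ) : ℚ)) := by
      apply Set.infinite_range_of_injective
      intro a b hab
      have hab' : ((a + 1 : ℕ) : ℚ) = ((b + 1 : ℕ) : ℚ) := hab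
      have : (a + 1 : ℕ) = b + 1 := by exact_mod_cast hab'
      omega
    refine hi.mono ?_
    rintro _ ⟨k, rfl⟩
    have h2 := congrArg constantCoeff (eu (k + 1))
    rw [coeff_zero_unknotJ, map_mul, constantCoeff_C] at h2
    have h3 := hP (k + 1)
    rw [coeff_zero_eq_constantCoeff_apply] at h3
    rw [h3] at h2
    push_cast at h2
    have h4 : ((k : ℚ) + 1) ≠ 0 := by positivity
    have h5 : (1 : ℚ) = Polynomial.eval ((k : ℚ) + 1) P := by
      apply mul_left_cancel₀ h4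
      rw [← h2, mul_one]
    simp only [Set.mem_ofPred_eq, Polynomial.eval_one]
    push_cast
    exact h5.symm
  intro N
  have := hP N
  rw [h1, Polynomial.eval_one, coeff_zero_eq_constantCoeff_apply] at this
  exact this

theorem Bd.sum (ha : 1 ≤ a) {J J' : ℤ → ℚ⟦X⟧} (h : Bd a 1 J) (h0 : J 0 = 0) (h' : Bd a 1 J')
    (h0' : J' 0 = 0) : Bd a 1 (fun N => J N * J' N * (unknotJ N)⁻¹) := by
  obtain ⟨j, hj, e⟩ := Bd.div (s := 0) h h0
  obtain ⟨j', hj', e'⟩ := Bd.div (s := 0) h' h0'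
  obtain ⟨u, hu, eu, hu1⟩ := unknot_div ha
  have key : Bd a 1 (fun N : ℤ => C (N : ℚ) * (j N * (j' N * (u N)⁻¹))) :=
    Bd.N_mul (s := 0) (hj.mul (s := 0) (t := 0) (hj'.mul (s := 0) (t := 0) (hu.inv hu1)))
  apply key.congr
  intro N
  rcases eq_or_ne N 0 with rfl | hN
  · rw [h0]; simp
  · have hN' := unknotJ_ne hN
    apply mul_left_cancel₀ hN'
    have e1 : u N * (u N)⁻¹ = 1 := PowerSeries.mul_inv_cancel _ (by rw [hu1]; exact one_ne_zero)
    have e2 := mul_unknotJ_cancel hN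
    have e3 : unknotJ N * (J N * J' N * (unknotJ N)⁻¹) = J N * J' N := by
      linear_combination (J N * J' N) * e2
    rw [e3, e N, e' N, eu N]
    linear_combination (C (N : ℚ) * C (N : ℚ) * j N * j' N) * e1

/-- the difference operator lowers the degree by exactly one -/
theorem natDegree_le_diff {Q S : Polynomial ℚ}
    (h : ∀ m : ℤ, Q.eval ((m : ℚ) + 1) - Q.eval ((m : ℚ) - 1) = S.eval (m : ℚ)) :
    Q.natDegree ≤ S.natDegree + 1 := by
  by_contra hlt
  push Not at hlt
  obtain ⟨d, hd⟩ : ∃ d, Q.natDegree = d + 1 := ⟨Q.natDegree - 1, by omega⟩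
  have hS : S = Polynomial.taylor 1 Q - Polynomial.taylor (-1) Q := by
    apply Polynomial.eq_of_infinite_eval_eq
    have hi : Set.Infinite (Set.range fun k : ℕ => (k : ℚ)) :=
      Set.infinite_range_of_injective Nat.cast_injective
    refine hi.mono ?_
    rintro _ ⟨k, rfl⟩
    have := h k
    simp only [Set.mem_ofPred_eq, Polynomial.eval_sub, Polynomial.taylor_eval]
    push_cast at this
    rw [← this]
    ring_nf
  have hc : S.coeff d = 2 * ((d + 1) * Q.coeff (d + 1)) := by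
    rw [hS, Polynomial.coeff_sub, Polynomial.taylor_coeff, Polynomial.taylor_coeff]
    have hdeg : (Polynomial.hasseDeriv d Q).natDegree ≤ 1 := by
      refine (Polynomial.natDegree_hasseDeriv_le _ _).trans ?_
      omega
    rw [Polynomial.eq_X_add_C_of_natDegree_le_one hdeg]
    simp only [Polynomial.eval_add, Polynomial.eval_mul, Polynomial.eval_C, Polynomial.eval_X,
      Polynomial.hasseDeriv_coeff]
    have hch : (1 + d).choose d = d + 1 := by rw [add_comm, Nat.choose_succ_self_right]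
    rw [hch, add_comm 1 d]
    push_cast
    ring
  have h1 : S.coeff d ≠ 0 := by
    rw [hc]
    have : Q.coeff (d + 1) ≠ 0 := by
      rw [← hd]
      apply Polynomial.leadingCoeff_ne_zero.mpr
      rintro rfl
      simp at hd
    have h2 : ((d : ℚ) + 1) ≠ 0 := by positivity
    positivity
  have := Polynomial.le_natDegree_of_ne_zero h1
  omega

end

end Pool.Agent.H765.MM
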