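import Mathlib
import Pool.Agent.H765.MM.Basic
import Pool.Agent.H765.MM.Def

/-! The Ohtsuki series: generalities. -/

namespace Pool.Agent.H765.MM

open PowerSeries GK DB Pool.Agent.H765.ST

noncomputable section

theorem shift_X_mul (f : ℚ⟦X⟧) : shift (X * f) = f := by
  ext n
  rw [shift, coeff_mk, mul_comm, coeff_succ_mul_X]

theorem X_mul_shift {f : ℚ⟦X⟧} (h : constantCoeff f = 0) : X * shift f = f := by
  ext n
  rcases n with _ | n
  · rw [mul_comm, coeff_zero_mul_X, coeff_zero_eq_constantCoeff_apply, h]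
  · rw [mul_comm, coeff_succ_mul_X, shift, coeff_mk]

theorem gauss_const (n : ℤ) (f : ℕ → ℕ → ℚ) : constantCoeff (gauss n f) = 0 := by
  rw [← coeff_zero_eq_constantCoeff_apply, gauss, coeff_mk]
  simp

theorem D_mul_ohtsuki {n : ℤ} (hn : n ≠ 0) (J : ℤ → ℚ⟦X⟧) :
    (hexp 1 - hexp (-1)) * ohtsuki n J =
      C (-1 / 2) * hexp ((n + 1 / n) / 2) * gauss n (mmCoeff J) := by
  rw [ohtsuki, if_neg hn]
  have h1 : shift (hexp 1 - hexp (-1)) = dd := rfl
  have h2 : X * shift (C (-1 / 2) * hexp ((n + 1 / n) / 2) * gauss n (mmCoeff J)) =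
      C (-1 / 2) * hexp ((n + 1 / n) / 2) * gauss n (mmCoeff J) := by
    apply X_mul_shift
    rw [map_mul, gauss_const, mul_zero]
  rw [h1, ← X_mul_dd]
  have h3 := dd_inv
  linear_combination h2 + (X * shift (C (-1 / 2) * hexp ((n + 1 / n) / 2) *
    gauss n (mmCoeff J))) * h3

theorem injOn_cast (n : ℕ) : Set.InjOn (fun i : ℕ => (i : ℚ)) (Finset.range n : Set ℕ) :=
  fun _ _ _ _ h => Nat.cast_injective h

/-- the coefficient polynomials are unique -/
theorem mmPoly_eq {J : ℤ → ℚ⟦X⟧} {m : ℕ} {P : Polynomial ℚ} (hP' : P.natDegree ≤ m)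
    (hP : ∀ i : ℕ, coeff m ((hexp 1 - hexp (-1)) * J i) = P.eval (i : ℚ)) : mmPoly J m = P := by
  unfold mmPoly
  symm
  apply Lagrange.eq_interpolate_of_eval_eq _ (injOn_cast _)
  · rw [Finset.card_range]
    refine lt_of_le_of_lt (Polynomial.degree_le_natDegree) ?_
    exact_mod_cast Nat.lt_succ_of_le hP'
  · intro i _
    exact (hP i).symm

theorem mmPoly_eval {J : ℤ → ℚ⟦X⟧} (h : Bd 1 0 (fun N => (hexp 1 - hexp (-1)) * J N)) (m : ℕ)
    (N : ℤ) : coeff m ((hexp 1 - hexp (-1)) * J N) = (mmPoly J m).eval (N : ℚ) := by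
  obtain ⟨P, hP', hP⟩ := h m
  rw [mmPoly_eq (by simpa using hP') (fun i => by simpa using hP i)]
  exact hP N

theorem mmPoly_natDegree (J : ℤ → ℚ⟦X⟧) (m : ℕ) : (mmPoly J m).natDegree ≤ m := by
  have h := Lagrange.degree_interpolate_le (fun i : ℕ => coeff m ((hexp 1 - hexp (-1)) * J i))
    (injOn_cast (m + 1))
  rw [Finset.card_range, Nat.add_sub_cancel] at h
  exact Polynomial.natDegree_le_of_degree_le h

theorem mmPoly_sub (J J' : ℤ → ℚ⟦X⟧) (m : ℕ) :
    mmPoly J m - mmPoly J' m = mmPoly (fun N => J N - J' N) m := by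
  unfold mmPoly
  rw [← map_sub]
  congr 1
  funext i
  rw [Pi.sub_apply, mul_sub, map_sub]

theorem mmCoeff_sub (J J' : ℤ → ℚ⟦X⟧) (l b : ℕ) :
    mmCoeff J l b - mmCoeff J' l b = mmCoeff (fun N => J N - J' N) l b := by
  unfold mmCoeff
  rw [← mmPoly_sub, Polynomial.coeff_sub]

theorem gauss_sub (n : ℤ) (f g : ℕ → ℕ → ℚ) :
    gauss n f - gauss n g = gauss n (fun l b => f l b - g l b) := by
  ext m
  unfold gauss
  rw [map_sub, coeff_mk, coeff_mk, coeff_mk, ← Finset.sum_sub_distrib]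
  apply Finset.sum_congr rfl
  intro k _
  rw [← mul_sub, ← Finset.sum_sub_distrib]
  congr 1
  apply Finset.sum_congr rfl
  intro s _
  ring

theorem D_mul_ohtsuki_sub {n : ℤ} (hn : n ≠ 0) (J J' : ℤ → ℚ⟦X⟧) :
    (hexp 1 - hexp (-1)) * (ohtsuki n J - ohtsuki n J') =
      C (-1 / 2) * hexp ((n + 1 / n) / 2) * gauss n (mmCoeff (fun N => J N - J' N)) := by
  rw [mul_sub, D_mul_ohtsuki hn, D_mul_ohtsuki hn, ← mul_sub, gauss_sub]
  congr 2
  funext l b
  rw [mmCoeff_sub]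

/-- the coefficients of the Gaussian integral of a series of high order -/
theorem gauss_lead (n : ℤ) (f : ℕ → ℕ → ℚ) (e : ℕ)
    (hf : ∀ k b : ℕ, 1 ≤ k → (2 * k - 1) + b < e + k → f (2 * k - 1) b = 0) :
    (∀ r ≤ e, coeff r (gauss n f) = 0) ∧
    coeff (e + 1) (gauss n f) = ∑ k ∈ Finset.range (e + 1),
      (((2 * (k + 1) - 1).doubleFactorial : ℚ) * (-(n : ℚ)) ^ (k + 1)) * (2 / (n : ℚ) *
        f (2 * (k + 1) - 1) (e + 1 - (k + 1))) := by
  have hodd : ∀ (r k s : ℕ), r ≤ e + 1 → k ≤ r → s ≤ 2 * k → (s ≠ 1 ∨ r ≤ e) →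
      (1 - (-1) ^ s) / ((s.factorial : ℚ) * (n : ℚ) ^ s) * f (2 * k - s) (r - k) = 0 := by
    intro r k s hr hk hs h1
    rcases Nat.even_or_odd s with h2 | h2
    · rw [h2.neg_one_pow, sub_self, zero_div, zero_mul]
    · obtain ⟨c, hc⟩ := h2
      have h3 : 2 * k - s = 2 * (k - c) - 1 := by omega
      rw [h3, hf (k - c) (r - k) (by omega) (by omega), mul_zero]
  refine ⟨fun r hr => ?_, ?_⟩
  · rw [gauss, coeff_mk]
    apply Finset.sum_eq_zero
    intro k hk
    have hk' := Finset.mem_range.mp hk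
    rw [Finset.sum_eq_zero, mul_zero]
    intro s hs
    have hs' := Finset.mem_range.mp hs
    exact hodd r k s (by omega) (by omega) (by omega) (Or.inr hr)
  · rw [gauss, coeff_mk, Finset.sum_range_succ']
    have h0 : ((2 * 0 - 1).doubleFactorial : ℚ) * (-(n : ℚ)) ^ 0 *
      ∑ s ∈ Finset.range (2 * 0 + 1), (1 - (-1) ^ s) / ((s.factorial : ℚ) * (n : ℚ) ^ s) *
        f (2 * 0 - s) (e + 1 - 0) = 0 := by simp
    rw [h0, add_zero]
    apply Finset.sum_congr rfl
    intro k hk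
    have hk' := Finset.mem_range.mp hk
    congr 1
    rw [Finset.sum_eq_single 1]
    · simp only [pow_one, Nat.factorial_one, Nat.cast_one, one_mul]
      norm_num
    · intro s hs h1
      have hs' := Finset.mem_range.mp hs
      exact hodd (e + 1) (k + 1) s le_rfl (by omega) (by omega) (Or.inl h1)
    · intro h1
      exfalso
      apply h1
      rw [Finset.mem_range]
      omega

end

end Pool.Agent.H765.MM
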