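import Mathlib
import Pool.Agent.H765.MM.Basic

/-! The degree bound of slope two for all cables, sums and plumbings. -/

namespace Pool.Agent.H765.MM

open PowerSeries GK DB Pool.Agent.H765.ST

noncomputable section

variable {a s t : ℕ}

theorem deg_term (c : ℚ) (k : ℕ) {Q R : Polynomial ℚ} (hR : R.natDegree ≤ 1) :
    ((Polynomial.C c * Polynomial.X) ^ (k + 1) * Polynomial.C (1 / ((k + 1).factorial : ℚ)) *
      Q.comp R).natDegree ≤ (k + 1) + Q.natDegree := by
  refine (Polynomial.natDegree_mul_le).trans ?_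
  apply add_le_add
  · refine (Polynomial.natDegree_mul_le).trans ?_
    rw [Polynomial.natDegree_C, add_zero]
    refine (Polynomial.natDegree_pow_le).trans ?_
    have : (Polynomial.C c * Polynomial.X).natDegree ≤ 1 :=
      (Polynomial.natDegree_C_mul_le _ _).trans Polynomial.natDegree_X_le
    nlinarith
  · refine (Polynomial.natDegree_comp_le).trans ?_
    nlinarith

/-- solutions of difference equations -/
theorem Bd.of_diff {A : ℤ → ℚ⟦X⟧} {c : ℚ} (hA : ∀ m, A (-m) = - A m)
    (h : Bd 2 s (fun m => GK.hexp (c * m) * A (m + 1) - GK.hexp (-(c * m)) * A (m - 1))) :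
    Bd 2 (s + 1) A := by
  have hPF : PF A := PF.of_diff hA h.pf
  choose Q hQ using hPF
  choose R hR' hR using h
  have key : ∀ n, (Q n).natDegree ≤ 2 * n + (s + 1) := by
    intro n
    induction n using Nat.strong_induction_on with
    | _ n ih =>
      let S : Polynomial ℚ := R n -
        (∑ k ∈ Finset.range n, (Polynomial.C c * Polynomial.X) ^ (k + 1) *
          Polynomial.C (1 / ((k + 1).factorial : ℚ)) *
          (Q (n - (k + 1))).comp (Polynomial.X + Polynomial.C 1)) +
        (∑ k ∈ Finset.range n, (Polynomial.C (-c) * Polynomial.X) ^ (k + 1) *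
          Polynomial.C (1 / ((k + 1).factorial : ℚ)) *
          (Q (n - (k + 1))).comp (Polynomial.X + Polynomial.C (-1)))
      have hS : S.natDegree ≤ 2 * n + s := by
        refine (Polynomial.natDegree_add_le _ _).trans (max_le ?_ ?_)
        · refine (Polynomial.natDegree_sub_le _ _).trans (max_le (hR' n) ?_)
          apply Polynomial.natDegree_sum_le_of_forall_le
          intro k hk
          have hk' := Finset.mem_range.mp hk
          have h1 := ih (n - (k + 1)) (by omega)
          exact (deg_term c k (by rw [Polynomial.natDegree_X_add_C])).trans (by omega)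
        · apply Polynomial.natDegree_sum_le_of_forall_le
          intro k hk
          have hk' := Finset.mem_range.mp hk
          have h1 := ih (n - (k + 1)) (by omega)
          exact (deg_term (-c) k (by rw [Polynomial.natDegree_X_add_C])).trans (by omega)
      have h2 : ∀ m : ℤ, (Q n).eval ((m : ℚ) + 1) - (Q n).eval ((m : ℚ) - 1) = S.eval (m : ℚ) := by
        intro m
        have h1 := hR n m
        beta_reduce at h1
        rw [map_sub, coeff_mul_range, coeff_mul_range, Finset.sum_range_succ',
          Finset.sum_range_succ'] at h1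
        simp only [coeff_hexp, Nat.sub_zero] at h1
        have e1 : ∀ k ∈ Finset.range n, (c * (m : ℚ)) ^ (k + 1) * (1 / ((k + 1).factorial : ℚ)) *
            coeff (n - (k + 1)) (A (m + 1)) = ((Polynomial.C c * Polynomial.X) ^ (k + 1) *
          Polynomial.C (1 / ((k + 1).factorial : ℚ)) *
          (Q (n - (k + 1))).comp (Polynomial.X + Polynomial.C 1)).eval (m : ℚ) := by
          intro k _
          rw [hQ (n - (k + 1))]
          simp [Polynomial.eval_comp]
        have e2 : ∀ k ∈ Finset.range n, (-(c * (m : ℚ))) ^ (k + 1) *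
            (1 / ((k + 1).factorial : ℚ)) *
            coeff (n - (k + 1)) (A (m - 1)) = ((Polynomial.C (-c) * Polynomial.X) ^ (k + 1) *
          Polynomial.C (1 / ((k + 1).factorial : ℚ)) *
          (Q (n - (k + 1))).comp (Polynomial.X + Polynomial.C (-1))).eval (m : ℚ) := by
          intro k _
          rw [hQ (n - (k + 1))]
          simp [Polynomial.eval_comp, sub_eq_add_neg]
        rw [Finset.sum_congr rfl e1, Finset.sum_congr rfl e2] at h1
        simp only [S, Polynomial.eval_add, Polynomial.eval_sub, Polynomial.eval_finsetSum]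
        have a1 := hQ n (m + 1)
        have a2 := hQ n (m - 1)
        push_cast at a1 a2
        rw [← h1, ← a1, ← a2, pow_zero, pow_zero, Nat.factorial_zero, Nat.cast_one, div_one,
          one_mul, one_mul]
        ring
      have := natDegree_le_diff h2
      omega
  exact fun n => ⟨Q n, key n, hQ n⟩

/-- an even polynomial has even degree -/
theorem even_deg {P : Polynomial ℚ} (h : ∀ N : ℤ, P.eval (-(N : ℚ)) = P.eval (N : ℚ)) {n : ℕ}
    (hn : P.natDegree ≤ 2 * n + 1) : P.natDegree ≤ 2 * n := by
  have hP : P.comp (Polynomial.C (-1) * Polynomial.X) = P := by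
    apply Polynomial.eq_of_infinite_eval_eq
    have hi : Set.Infinite (Set.range fun k : ℕ => (k : ℚ)) :=
      Set.infinite_range_of_injective Nat.cast_injective
    refine hi.mono ?_
    rintro _ ⟨k, rfl⟩
    have := h k
    simp only [Set.mem_ofPred_eq, Polynomial.eval_comp, Polynomial.eval_mul, Polynomial.eval_C,
      Polynomial.eval_X, neg_one_mul]
    exact_mod_cast this
  have h1 : P.coeff (2 * n + 1) = 0 := by
    have h2 := congrArg (fun p => Polynomial.coeff p (2 * n + 1)) hP
    simp only [Polynomial.comp_C_mul_X_coeff] at h2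
    rw [Odd.neg_one_pow ⟨n, rfl⟩] at h2
    linarith
  rcases Nat.lt_or_ge P.natDegree (2 * n + 1) with h2 | h2
  · omega
  · have h3 : P.natDegree = 2 * n + 1 := le_antisymm hn h2
    rw [← h3] at h1
    have : P = 0 := Polynomial.leadingCoeff_eq_zero.mp h1
    rw [this] at h3
    simp at h3

theorem Bd.even {c : ℕ} {f : ℤ → ℚ⟦X⟧} (hf : Bd 2 (2 * c + 1) f) (h : ∀ N, f (-N) = f N) :
    Bd 2 (2 * c) f := by
  intro n
  obtain ⟨P, hP', hP⟩ := hf n
  refine ⟨P, ?_, hP⟩
  have := even_deg (P := P) (fun N => by
    have h1 := hP (-N)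
    rw [h, hP] at h1
    push_cast at h1
    exact h1.symm) (n := n + c) (by omega)
  omega

theorem Bd.cable2 {c : ℕ} {J : ℤ → ℚ⟦X⟧} (hJ : ∀ N, J (-N) = - J N) (h : Bd 2 (2 * c + 1) J)
    (p : ℕ) (q : ℤ) : Bd 2 (2 * c + 1) (cableJ p q J) := by
  apply Bd.of_diff (s := 2 * c) (c := p * q) (cableJ_neg _ _ _)
  have h1 : Bd 2 (2 * c + 1) (fun m : ℤ => GK.hexp (q * m) * J (p * m + 1) -
      GK.hexp (-q * m) * J (p * m + (-1))) := by
    have := (((Bd.hexp_lin (q : ℚ)).slope one_le_two).mul (h.comp p 1)).sub
      (((Bd.hexp_lin (-q : ℚ)).slope one_le_two).mul (h.comp p (-1)))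
    rwa [zero_add] at this
  have h2 := h1.even (fun m => by
    have e1 : (p : ℤ) * (-m) + 1 = -(p * m + (-1)) := by ring
    have e2 : (p : ℤ) * (-m) + (-1) = -(p * m + 1) := by ring
    rw [e1, e2, hJ, hJ]
    push_cast
    rw [show (q : ℚ) * -(m : ℚ) = -q * m by ring, show -(q : ℚ) * -(m : ℚ) = q * m by ring]
    ring)
  apply h2.congr
  intro m
  rw [cableJ_diff hJ m, neg_mul, ← sub_eq_add_neg]

/-- `[N] ∏_{j=1}^i [N+j] [N-j]` -/
theorem Bd.prod (ha : 1 ≤ a) (i : ℕ) : Bd a (2 * i + 1) (fun N : ℤ =>
    unknotJ N * ∏ j ∈ Finset.range i, unknotJ (N + (j + 1)) * unknotJ (N - (j + 1))) := by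
  induction i with
  | zero => simpa using Bd.unknot ha
  | succ i ih =>
    have h1 : Bd a (1 + 1) (fun N : ℤ => unknotJ (1 * N + (i + 1)) * unknotJ (1 * N + (-(i + 1)))) :=
      ((Bd.unknot ha).comp 1 (i + 1)).mul ((Bd.unknot ha).comp 1 (-(i + 1)))
    have h2 := ih.mul h1
    rw [show 2 * i + 1 + (1 + 1) = 2 * (i + 1) + 1 by ring] at h2
    apply h2.congr
    intro N
    rw [Finset.prod_range_succ, one_mul, ← sub_eq_add_neg]
    ring

end

end Pool.Agent.H765.MM
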