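import Mathlib
import Pool.Agent.H765.MM.Slope2

/-! The order of vanishing of the coefficients of an annulus. -/

namespace Pool.Agent.H765.MM

open PowerSeries GK DB Pool.Agent.H765.ST

noncomputable section

/-- coefficients which are polynomials in `k (k + 1)` with a degree bound -/
def Bx (a s : ℕ) (g : ℕ → ℚ⟦X⟧) : Prop :=
  ∀ n, ∃ P : Polynomial ℚ, 2 * P.natDegree ≤ a * n + s ∧
    ∀ k : ℕ, coeff n (g k) = P.eval ((k : ℚ) * (k + 1))

variable {a s t : ℕ}

theorem Bx.congr {f g : ℕ → ℚ⟦X⟧} (hf : Bx a s f) (h : ∀ N, f N = g N) : Bx a s g := by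
  have : f = g := funext h
  rwa [← this]

theorem Bx.mono (hst : s ≤ t) {f : ℕ → ℚ⟦X⟧} (hf : Bx a s f) : Bx a t f := fun n =>
  let ⟨P, h1, h⟩ := hf n
  ⟨P, by omega, h⟩

theorem Bx.slope {b : ℕ} (hab : a ≤ b) {f : ℕ → ℚ⟦X⟧} (hf : Bx a s f) : Bx b s f := fun n =>
  let ⟨P, h1, h⟩ := hf n
  ⟨P, h1.trans (by have := Nat.mul_le_mul_right n hab; omega), h⟩

theorem Bx.add {f g : ℕ → ℚ⟦X⟧} (hf : Bx a s f) (hg : Bx a s g) :
    Bx a s (fun N => f N + g N) := by
  intro n
  obtain ⟨P, hP', hP⟩ := hf n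
  obtain ⟨Q, hQ', hQ⟩ := hg n
  refine ⟨P + Q, ?_, fun N => by rw [map_add, hP, hQ, Polynomial.eval_add]⟩
  have := Polynomial.natDegree_add_le P Q
  have h2 : max P.natDegree Q.natDegree ≤ (a * n + s) / 2 := max_le (by omega) (by omega)
  omega

theorem Bx.const (b : ℚ⟦X⟧) : Bx a 0 (fun _ => b) := fun n =>
  ⟨Polynomial.C (coeff n b), by simp, fun N => by rw [Polynomial.eval_C]⟩

theorem Bx.mul {f g : ℕ → ℚ⟦X⟧} (hf : Bx a s f) (hg : Bx a t g) :
    Bx a (s + t) (fun N => f N * g N) := by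
  choose P hP' hP using hf
  choose Q hQ' hQ using hg
  intro n
  refine ⟨∑ k ∈ Finset.range (n + 1), P k * Q (n - k), ?_, fun N => ?_⟩
  · have : (∑ k ∈ Finset.range (n + 1), P k * Q (n - k)).natDegree ≤ (a * n + (s + t)) / 2 := by
      apply Polynomial.natDegree_sum_le_of_forall_le
      intro k hk
      have h1 := hP' k
      have h2 := hQ' (n - k)
      have h3 : k ≤ n := by simpa [Nat.lt_succ_iff] using hk
      have h4 : a * n = a * k + a * (n - k) := by rw [← mul_add]; congr 1; omega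
      exact (Polynomial.natDegree_mul_le).trans (by omega)
    omega
  · rw [coeff_mul_range, Polynomial.eval_finsetSum]
    apply Finset.sum_congr rfl
    intro k _
    rw [hP, hQ, Polynomial.eval_mul]

theorem Bx.const_mul (b : ℚ⟦X⟧) {f : ℕ → ℚ⟦X⟧} (hf : Bx a s f) :
    Bx a s (fun N => b * f N) := by
  have := (Bx.const b).mul hf
  rwa [zero_add] at this

theorem Bx.sub {f g : ℕ → ℚ⟦X⟧} (hf : Bx a s f) (hg : Bx a s g) :
    Bx a s (fun N => f N - g N) := by
  apply (hf.add (hg.const_mul (-1))).congr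
  intro N
  ring

theorem Bx.of_X_mul {f : ℕ → ℚ⟦X⟧} (hf : Bx a s (fun N => X * f N)) : Bx a (s + a) f := by
  intro n
  obtain ⟨P, hP', hP⟩ := hf (n + 1)
  rw [mul_add] at hP'
  refine ⟨P, by omega, fun N => ?_⟩
  have := hP N
  beta_reduce at this
  rw [mul_comm, coeff_succ_mul_X] at this
  exact this

theorem Bx.hexp (c : ℚ) : Bx 2 0 (fun k => GK.hexp (c * ((k : ℚ) * (k + 1)))) := by
  intro n
  refine ⟨(Polynomial.C c * Polynomial.X) ^ n * Polynomial.C (1 / (n.factorial : ℚ)), ?_,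
    fun N => ?_⟩
  · have : ((Polynomial.C c * Polynomial.X) ^ n *
        Polynomial.C (1 / (n.factorial : ℚ))).natDegree ≤ n := by
      refine (Polynomial.natDegree_mul_le).trans ?_
      rw [Polynomial.natDegree_C, add_zero]
      refine (Polynomial.natDegree_pow_le).trans ?_
      have : (Polynomial.C c * Polynomial.X).natDegree ≤ 1 :=
        (Polynomial.natDegree_C_mul_le _ _).trans Polynomial.natDegree_X_le
      nlinarith
    omega
  · rw [coeff_hexp]
    simp

/-- splitting off the constant term -/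
theorem Bx.split {g : ℕ → ℚ⟦X⟧} (hg : Bx a s g) : ∃ (p : Polynomial ℚ) (g' : ℕ → ℚ⟦X⟧),
    2 * p.natDegree ≤ s ∧ Bx a (s + a) g' ∧
    ∀ k : ℕ, g k = C (p.eval ((k : ℚ) * (k + 1))) + X * g' k := by
  obtain ⟨p, hp', hp⟩ := hg 0
  refine ⟨p, fun k => PowerSeries.mk fun n => coeff (n + 1) (g k), by simpa using hp',
    fun n => ?_, fun k => ?_⟩
  · obtain ⟨P, hP', hP⟩ := hg (n + 1)
    rw [mul_add] at hP'
    exact ⟨P, by omega, fun k => by rw [coeff_mk, hP]⟩
  · ext n
    rcases n with _ | n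
    · rw [map_add, mul_comm X, coeff_zero_mul_X, add_zero, ← hp]
      simp
    · rw [map_add, mul_comm X, coeff_succ_mul_X, coeff_mk, coeff_C]
      simp

/-- `[k][k+1]` -/
theorem Bx.kk : Bx 1 2 (fun k : ℕ => unknotJ k * unknotJ ((k : ℤ) + 1)) := by
  have h0 : Bx 1 0 (fun k : ℕ => X * (X * (dd * (dd * (unknotJ k * unknotJ ((k : ℤ) + 1)))))) := by
    have e : ∀ k : ℕ, X * (X * (dd * (dd * (unknotJ k * unknotJ ((k : ℤ) + 1))))) =
        GK.hexp (2 * k + 1) + GK.hexp (-(2 * k + 1)) - GK.hexp 1 - GK.hexp (-1) := by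
      intro k
      have e1 : X * (X * (dd * (dd * (unknotJ k * unknotJ ((k : ℤ) + 1))))) =
          ((X * dd) * unknotJ k) * ((X * dd) * unknotJ ((k : ℤ) + 1)) := by ring
      rw [e1, X_mul_dd, unknotJ_mul, unknotJ_mul, sub_mul, mul_sub, mul_sub, ← hexp_add,
        ← hexp_add, ← hexp_add, ← hexp_add]
      push_cast
      rw [show ((k : ℚ) + (k + 1)) = 2 * k + 1 by ring, show ((k : ℚ) + -(k + 1)) = -1 by ring,
        show (-(k : ℚ) + (k + 1)) = 1 by ring, show (-(k : ℚ) + -(k + 1)) = -(2 * k + 1) by ring]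
      ring
    intro n
    rcases Nat.even_or_odd n with ⟨j, hj⟩ | ⟨j, hj⟩
    · refine ⟨Polynomial.C (2 / (n.factorial : ℚ)) *
        ((Polynomial.C 4 * Polynomial.X + Polynomial.C 1) ^ j - 1), ?_, fun k => ?_⟩
      · have : (Polynomial.C (2 / (n.factorial : ℚ)) *
            ((Polynomial.C 4 * Polynomial.X + Polynomial.C 1) ^ j - 1)).natDegree ≤ j := by
          refine (Polynomial.natDegree_C_mul_le _ _).trans ?_
          refine (Polynomial.natDegree_sub_le _ _).trans (max_le ?_ (by simp))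
          refine (Polynomial.natDegree_pow_le).trans ?_
          have : (Polynomial.C (4 : ℚ) * Polynomial.X + Polynomial.C 1).natDegree ≤ 1 :=
            Polynomial.natDegree_linear_le
          nlinarith
        omega
      · beta_reduce
        rw [e, map_sub, map_sub, map_add, coeff_hexp, coeff_hexp, coeff_hexp, coeff_hexp]
        have hn : Even n := ⟨j, hj⟩
        rw [hn.neg_pow, hn.neg_pow, one_pow]
        simp only [Polynomial.eval_mul, Polynomial.eval_C, Polynomial.eval_sub,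
          Polynomial.eval_pow, Polynomial.eval_add, Polynomial.eval_X, Polynomial.eval_one]
        have e2 : (2 * (k : ℚ) + 1) ^ n = (4 * ((k : ℚ) * (k + 1)) + 1) ^ j := by
          rw [hj, ← two_mul, pow_mul]
          congr 1
          ring
        rw [e2]
        ring
    · refine ⟨0, by simp, fun k => ?_⟩
      beta_reduce
      rw [e, map_sub, map_sub, map_add, coeff_hexp, coeff_hexp, coeff_hexp, coeff_hexp]
      have hn : Odd n := ⟨j, hj⟩
      rw [hn.neg_pow, hn.neg_pow, one_pow, Polynomial.eval_zero]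
      ring
  have h1 := (h0.of_X_mul.of_X_mul.const_mul dd⁻¹).const_mul dd⁻¹
  apply h1.congr
  intro k
  have := dd_inv
  linear_combination (dd⁻¹ * dd * (unknotJ k * unknotJ ((k : ℤ) + 1)) +
    (unknotJ k * unknotJ ((k : ℤ) + 1))) * this

theorem Bx.ph (r : ℕ) : Bx 1 (2 * r) (ph r) := by
  induction r with
  | zero => exact (Bx.const 1).congr fun k => (ph_zero k).symm
  | succ r ih =>
    have h1 := ih.mul (Bx.kk.sub ((Bx.const (unknotJ r * unknotJ ((r : ℤ) + 1))).mono
      (Nat.zero_le 2)))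
    apply h1.congr
    intro k
    rw [ph_succ, q_diff]

/-- the Newton basis -/
def nb (r : ℕ) : Polynomial ℚ :=
  ∏ j ∈ Finset.range r, (Polynomial.X - Polynomial.C ((j : ℚ) * (j + 1)))

theorem nb_monic (r : ℕ) : (nb r).Monic := by
  unfold nb
  apply Polynomial.monic_prod_of_monic
  intro j _
  exact Polynomial.monic_X_sub_C _

theorem nb_natDegree (r : ℕ) : (nb r).natDegree = r := by
  unfold nb
  rw [Polynomial.natDegree_prod_of_monic _ _ (fun j _ => Polynomial.monic_X_sub_C _),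
    Finset.sum_congr rfl (fun j _ => Polynomial.natDegree_X_sub_C _)]
  simp

theorem ph_const (r k : ℕ) : constantCoeff (ph r k) = (nb r).eval ((k : ℚ) * (k + 1)) := by
  unfold ph nb
  rw [map_prod, Polynomial.eval_prod]
  apply Finset.prod_congr rfl
  intro j _
  rw [map_mul, coeff_zero_unknotJ, coeff_zero_unknotJ, Polynomial.eval_sub, Polynomial.eval_X,
    Polynomial.eval_C]
  push_cast
  ring

/-- `C (nb r (x)) = ph r - X * g'` -/
theorem nb_split (r : ℕ) : ∃ g' : ℕ → ℚ⟦X⟧, Bx 1 (2 * r + 1) g' ∧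
    ∀ k : ℕ, C ((nb r).eval ((k : ℚ) * (k + 1))) = ph r k - X * g' k := by
  obtain ⟨p, g', _, hg', h⟩ := (Bx.ph r).split
  refine ⟨g', hg', fun k => ?_⟩
  have h1 := congrArg constantCoeff (h k)
  rw [ph_const, map_add, map_mul, constantCoeff_X, zero_mul, add_zero, constantCoeff_C] at h1
  rw [h1, h k]
  ring

theorem deg_lt_of_coeff {r : Polynomial ℚ} {d : ℕ} (h1 : r.natDegree ≤ d + 1)
    (h2 : r.coeff (d + 1) = 0) : r.natDegree ≤ d := by
  rcases Nat.lt_or_ge r.natDegree (d + 1) with h3 | h3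
  · omega
  · have h4 := le_antisymm h1 h3
    rw [← h4] at h2
    have h5 := Polynomial.leadingCoeff_eq_zero.mp h2
    rw [h5] at h4
    simp at h4

theorem deg_reduce {p q : Polynomial ℚ} {d : ℕ} (hp : p.natDegree ≤ d + 1) (hq : q.Monic)
    (hq' : q.natDegree = d + 1) : (p - Polynomial.C (p.coeff (d + 1)) * q).natDegree ≤ d := by
  have h1 : (p - Polynomial.C (p.coeff (d + 1)) * q).natDegree ≤ d + 1 := by
    refine (Polynomial.natDegree_sub_le _ _).trans (max_le hp ?_)
    refine (Polynomial.natDegree_C_mul_le _ _).trans ?_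
    rw [hq']
  have h2 : (p - Polynomial.C (p.coeff (d + 1)) * q).coeff (d + 1) = 0 := by
    rw [Polynomial.coeff_sub, Polynomial.coeff_C_mul]
    have h3 : q.coeff (d + 1) = 1 := by
      rw [Polynomial.Monic, Polynomial.leadingCoeff, hq'] at hq
      exact hq
    rw [h3]
    ring
  exact deg_lt_of_coeff h1 h2

theorem poly_expand (d : ℕ) : ∀ p : Polynomial ℚ, p.natDegree ≤ d →
    ∃ G g' : ℕ → ℚ⟦X⟧, (∀ i, d < i → T i G = 0) ∧ Bx 1 (2 * d + 1) g' ∧
      ∀ k : ℕ, C (p.eval ((k : ℚ) * (k + 1))) = G k + X * g' k := by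
  induction d with
  | zero =>
    intro p hp
    rw [Polynomial.eq_C_of_natDegree_le_zero hp]
    refine ⟨fun _ => C (p.coeff 0) * 1, fun _ => 0, fun i hi => ?_, ?_, fun k => ?_⟩
    · rw [T_mul, T_one (by omega), mul_zero]
    · exact (Bx.const 0).mono (Nat.zero_le _)
    · simp
  | succ d ih =>
    intro p hp
    have hd := deg_reduce hp (nb_monic (d + 1)) (nb_natDegree (d + 1))
    obtain ⟨G, g', hG, hg', he⟩ := ih _ hd
    obtain ⟨g'', hg'', he'⟩ := nb_split (d + 1)
    refine ⟨fun k => G k + C (p.coeff (d + 1)) * ph (d + 1) k,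
      fun k => g' k - C (p.coeff (d + 1)) * g'' k, fun i hi => ?_, ?_, fun k => ?_⟩
    · rw [T_add i, T_mul, hG i (by omega), T_ph_lt (i - d - 2) i (d + 1) (by omega)]
      simp
    · exact (hg'.mono (by omega)).sub (hg''.const_mul _)
    · have h1 := he k
      have h2 := he' k
      rw [Polynomial.eval_sub, Polynomial.eval_mul, Polynomial.eval_C, map_sub, map_mul] at h1
      linear_combination h1 + C (p.coeff (d + 1)) * h2

/-- the main estimate -/
theorem T_coeff_zero (ha : 1 ≤ a) : ∀ (n s : ℕ) (g : ℕ → ℚ⟦X⟧), Bx a s g →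
    ∀ i, a * n + s < 2 * i → coeff n (T i g) = 0 := by
  intro n
  induction n with
  | zero =>
    intro s g hg i hi
    obtain ⟨p, g', hp, hg', he⟩ := hg.split
    obtain ⟨G, g'', hG, hg'', he'⟩ := poly_expand p.natDegree p le_rfl
    have h1 : T i g = T i (fun k => G k + X * (g'' k + g' k)) := by
      apply T_congr
      intro k _
      rw [he, he']
      ring
    rw [h1, T_add i, T_mul, hG i (by omega), zero_add, mul_comm, coeff_zero_mul_X]
  | succ n ih =>
    intro s g hg i hi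
    obtain ⟨p, g', hp, hg', he⟩ := hg.split
    obtain ⟨G, g'', hG, hg'', he'⟩ := poly_expand p.natDegree p le_rfl
    have h1 : T i g = T i (fun k => G k + X * (g'' k + g' k)) := by
      apply T_congr
      intro k _
      rw [he, he']
      ring
    rw [mul_add] at hi
    rw [h1, T_add i, T_mul, hG i (by omega), zero_add, mul_comm, coeff_succ_mul_X]
    apply ih (s + a)
    · exact ((hg''.slope ha).mono (by omega)).add hg'
    · omega

theorem T_dvd (ha : 1 ≤ a) {s : ℕ} {g : ℕ → ℚ⟦X⟧} (hg : Bx a s g) {i r : ℕ}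
    (h : a * r + s < 2 * i + a) : X ^ r ∣ T i g := by
  rw [X_pow_dvd_iff]
  intro m hm
  apply T_coeff_zero ha m s g hg
  have : a * (m + 1) ≤ a * r := Nat.mul_le_mul_left a hm
  rw [mul_add] at this
  omega

end

end Pool.Agent.H765.MM
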