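import Mathlib
import Pool.Agent.H765.MM.Gauss
import Pool.Agent.H765.MM.TBound

/-! Cyclotomic expansions and the leading term of the Ohtsuki series. -/

namespace Pool.Agent.H765.MM

open PowerSeries GK DB Pool.Agent.H765.ST

noncomputable section

variable {a s t : ℕ}

/-- `[N] ∏_{j=1}^i [N+j] [N-j]` -/
def FF (i : ℕ) (N : ℤ) : ℚ⟦X⟧ :=
  unknotJ N * ∏ j ∈ Finset.range i, unknotJ (N + (j + 1)) * unknotJ (N - (j + 1))

theorem Bd.FF (ha : 1 ≤ a) (i : ℕ) : Bd a (2 * i + 1) (FF i) := Bd.prod ha i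

/-- `[N] ∑_{i < |N|} (-1)^i ∏_{j=1}^i [N+j] [N-j] γ_i` -/
def cyc (γ : ℕ → ℚ⟦X⟧) (N : ℤ) : ℚ⟦X⟧ := unknotJ N * ∑ i ∈ Finset.range N.natAbs, (-1) ^ i *
    (∏ j ∈ Finset.range i, unknotJ (N + (j + 1)) * unknotJ (N - (j + 1))) * γ i

theorem plumb_eq_cyc (J J' : ℤ → ℚ⟦X⟧) (m m' : ℤ) :
    plumbJ J m J' m' = cyc (fun i => annulus J m i * annulus J' m' i) := rfl

theorem FF_eq_zero {i : ℕ} {N : ℤ} (h : N.natAbs ≤ i) : FF i N = 0 := by
  rcases eq_or_ne N 0 with rfl | hN
  · rw [FF, unknotJ_zero, zero_mul]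
  · have : (∏ j ∈ Finset.range i, unknotJ (N + (j + 1)) * unknotJ (N - (j + 1))) = 0 := by
      apply Finset.prod_eq_zero (Finset.mem_range.mpr (show N.natAbs - 1 < i by omega))
      rcases Int.natAbs_eq N with h2 | h2
      · have : N - (((N.natAbs - 1 : ℕ) : ℤ) + 1) = 0 := by omega
        rw [this, unknotJ_zero, mul_zero]
      · have : N + (((N.natAbs - 1 : ℕ) : ℤ) + 1) = 0 := by omega
        rw [this, unknotJ_zero, zero_mul]
    rw [FF, this, mul_zero]

theorem cyc_eq_sum (γ : ℕ → ℚ⟦X⟧) {N : ℤ} {M : ℕ} (h : N.natAbs ≤ M) :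
    cyc γ N = ∑ i ∈ Finset.range M, (-1) ^ i * (FF i N * γ i) := by
  rw [cyc, Finset.mul_sum]
  have e : ∀ i ∈ Finset.range N.natAbs, unknotJ N * ((-1) ^ i *
    (∏ j ∈ Finset.range i, unknotJ (N + (j + 1)) * unknotJ (N - (j + 1))) * γ i) =
      (-1) ^ i * (FF i N * γ i) := by
    intro i _
    rw [FF]
    ring
  rw [Finset.sum_congr rfl e]
  apply Finset.sum_subset (Finset.range_subset_range.mpr h)
  intro i _ hi
  rw [Finset.mem_range, not_lt] at hi
  rw [FF_eq_zero hi]
  ring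

theorem cyc_trunc {γ : ℕ → ℚ⟦X⟧} {n M : ℕ} (hγ : ∀ i, M ≤ i → X ^ (n + 1) ∣ γ i) (N : ℤ) :
    X ^ (n + 1) ∣ cyc γ N - ∑ i ∈ Finset.range M, (-1) ^ i * (FF i N * γ i) := by
  rw [cyc_eq_sum γ (le_max_left N.natAbs M),
    ← Finset.sum_range_add_sum_Ico _ (le_max_right N.natAbs M), add_sub_cancel_left]
  apply Finset.dvd_sum
  intro i hi
  have hi' := (Finset.mem_Ico.mp hi).1
  exact Dvd.dvd.mul_left (Dvd.dvd.mul_left (hγ i hi') _) _

theorem cyc_sub (β β' : ℕ → ℚ⟦X⟧) (N : ℤ) :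
    cyc β N - cyc β' N = cyc (fun i => β i - β' i) N := by
  rw [cyc, cyc, cyc, ← mul_sub, ← Finset.sum_sub_distrib]
  congr 1
  apply Finset.sum_congr rfl
  intro i _
  ring

theorem cyc_neg (γ : ℕ → ℚ⟦X⟧) (N : ℤ) : cyc γ (-N) = - cyc γ N := by
  unfold cyc
  rw [unknotJ_neg, Int.natAbs_neg, neg_mul]
  congr 2
  apply Finset.sum_congr rfl
  intro i _
  congr 2
  apply Finset.prod_congr rfl
  intro j _
  rw [show (-N + ((j : ℤ) + 1)) = -(N - (j + 1)) by ring,
    show (-N - ((j : ℤ) + 1)) = -(N + (j + 1)) by ring, unknotJ_neg, unknotJ_neg]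
  ring

theorem Bd.X_pow_mul {r : ℕ} : ∀ {s : ℕ} {f : ℤ → ℚ⟦X⟧}, Bd a (s + a * r) f →
    Bd a s (fun N => X ^ r * f N) := by
  induction r with
  | zero =>
    intro s f hf
    apply hf.congr
    intro N
    simp
  | succ r ih =>
    intro s f hf
    have h1 : Bd a (s + a * r) (fun N => X * f N) := by
      apply Bd.X_mul
      rwa [mul_add, mul_one, ← add_assoc] at hf
    apply (ih h1).congr
    intro N
    ring

theorem Bd.mul_of_dvd {r : ℕ} {f : ℤ → ℚ⟦X⟧} (hf : Bd a (s + a * r) f) {γ : ℚ⟦X⟧}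
    (h : X ^ r ∣ γ) : Bd a s (fun N => f N * γ) := by
  obtain ⟨δ, rfl⟩ := h
  apply (hf.X_pow_mul.const_mul δ).congr
  intro N
  ring

theorem Bd.finsum {f : ℕ → ℤ → ℚ⟦X⟧} {M : ℕ} (h : ∀ i < M, Bd a s (f i)) :
    Bd a s (fun N => ∑ i ∈ Finset.range M, f i N) := by
  induction M with
  | zero => simpa using (Bd.const 0).mono (Nat.zero_le s)
  | succ M ih =>
    apply ((ih fun i hi => h i (by omega)).add (h M (by omega))).congr
    intro N
    rw [Finset.sum_range_succ]

/-- cyclotomic expansions satisfy the degree bounds -/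
theorem Bd.cyc {γ : ℕ → ℚ⟦X⟧} {r : ℕ → ℕ} (hr : ∀ i, i ≤ r i + 1) (ha : 1 ≤ a)
    (h : ∀ i, X ^ r i ∣ γ i) (hs : ∀ i, 2 * i + 1 ≤ s + a * r i) : Bd a s (cyc γ) := by
  intro n
  have h1 : Bd a s (fun N => ∑ i ∈ Finset.range (n + 2), (-1) ^ i * (MM.FF i N * γ i)) :=
    Bd.finsum fun i _ => (((Bd.FF ha i).mono (hs i)).mul_of_dvd (h i)).const_mul _
  obtain ⟨P, hP', hP⟩ := h1 n
  refine ⟨P, hP', fun N => ?_⟩
  rw [← hP]
  have h2 := cyc_trunc (γ := γ) (n := n) (M := n + 2) (fun i hi =>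
    (pow_dvd_pow _ (by have := hr i; omega)).trans (h i)) N
  rw [X_pow_dvd_iff] at h2
  have h3 := h2 n (Nat.lt_succ_self n)
  rw [map_sub] at h3
  linarith

/-- leading polynomials -/
def lp (i : ℕ) : Polynomial ℚ := Polynomial.X *
  ∏ j ∈ Finset.range i, (Polynomial.X + Polynomial.C ((j : ℚ) + 1)) *
    (Polynomial.X - Polynomial.C ((j : ℚ) + 1))

theorem lp_monic (i : ℕ) : (lp i).Monic := by
  unfold lp
  apply Polynomial.monic_X.mul
  apply Polynomial.monic_prod_of_monic
  intro j _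
  exact (Polynomial.monic_X_add_C _).mul (Polynomial.monic_X_sub_C _)

theorem lp_natDegree (i : ℕ) : (lp i).natDegree = 2 * i + 1 := by
  unfold lp
  rw [Polynomial.natDegree_X_mul, Polynomial.natDegree_prod_of_monic,
    Finset.sum_congr rfl (fun j _ => (Polynomial.monic_X_add_C _).natDegree_mul
      (Polynomial.monic_X_sub_C _))]
  · rw [Finset.sum_congr rfl (g := fun _ => 2) (fun j _ => by
      rw [Polynomial.natDegree_X_add_C, Polynomial.natDegree_X_sub_C])]
    simp
    ring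
  · intro j _
    exact (Polynomial.monic_X_add_C _).mul (Polynomial.monic_X_sub_C _)
  · apply Polynomial.Monic.ne_zero
    apply Polynomial.monic_prod_of_monic
    intro j _
    exact (Polynomial.monic_X_add_C _).mul (Polynomial.monic_X_sub_C _)

theorem FF_const (i : ℕ) (N : ℤ) : constantCoeff (FF i N) = (lp i).eval (N : ℚ) := by
  unfold FF lp
  rw [map_mul, map_prod, Polynomial.eval_mul, Polynomial.eval_prod, Polynomial.eval_X,
    coeff_zero_unknotJ]
  congr 1
  apply Finset.prod_congr rfl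
  intro j _
  rw [map_mul, coeff_zero_unknotJ, coeff_zero_unknotJ, Polynomial.eval_mul, Polynomial.eval_add,
    Polynomial.eval_sub, Polynomial.eval_X, Polynomial.eval_C]
  push_cast
  rfl

theorem Bd.DF (i : ℕ) : Bd 1 (2 * i) (fun N => (hexp 1 - hexp (-1)) * MM.FF i N) := by
  have h1 : Bd 1 (2 * i) (fun N => X * (dd * MM.FF i N)) :=
    Bd.X_mul ((Bd.FF le_rfl i).const_mul dd)
  apply h1.congr
  intro N
  rw [← mul_assoc, X_mul_dd]

theorem poly_eq_of_int {P Q : Polynomial ℚ} (h : ∀ N : ℤ, P.eval (N : ℚ) = Q.eval (N : ℚ)) :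
    P = Q := by
  apply Polynomial.eq_of_infinite_eval_eq
  have hi : Set.Infinite (Set.range fun k : ℕ => (k : ℚ)) :=
    Set.infinite_range_of_injective Nat.cast_injective
  refine hi.mono ?_
  rintro _ ⟨k, rfl⟩
  have := h k
  simp only [Set.mem_ofPred_eq]
  exact_mod_cast this

/-- the coefficients of a cyclotomic expansion of high order -/
theorem cyc_coeff {γ : ℕ → ℚ⟦X⟧} {e : ℕ} (h1 : ∀ i, X ^ (2 * i) ∣ γ i)
    (h2 : ∀ i, X ^ (e + i) ∣ γ i) :
    (∀ k b : ℕ, 1 ≤ k → (2 * k - 1) + b < e + k → mmCoeff (cyc γ) (2 * k - 1) b = 0) ∧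
    ∀ k ≤ e, mmCoeff (cyc γ) (2 * (k + 1) - 1) (e + 1 - (k + 1)) =
      (-1) ^ k * 2 * coeff (e + k) (γ k) := by
  choose P hP' hP using fun i => Bd.DF i
  have hP0 : ∀ i, P i 0 = 0 := by
    intro i
    apply poly_eq_of_int
    intro N
    rw [← hP]
    beta_reduce
    rw [← X_mul_dd, mul_assoc, mul_comm X, coeff_zero_mul_X, Polynomial.eval_zero]
  have hP1 : ∀ i, P i 1 = Polynomial.C 2 * lp i := by
    intro i
    apply poly_eq_of_int
    intro N
    rw [← hP]
    beta_reduce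
    rw [← X_mul_dd, mul_assoc, mul_comm X, show (1 : ℕ) = 0 + 1 from rfl, coeff_succ_mul_X,
      coeff_zero_eq_constantCoeff_apply, map_mul, dd_const, FF_const, Polynomial.eval_mul,
      Polynomial.eval_C]
  have hm : ∀ m, mmPoly (cyc γ) m = ∑ i ∈ Finset.range (m + 1), ∑ c ∈ Finset.range (m + 1),
      Polynomial.C ((-1) ^ i * coeff (m - c) (γ i)) * P i c := by
    intro m
    apply mmPoly_eq
    · apply Polynomial.natDegree_sum_le_of_forall_le
      intro i _
      apply Polynomial.natDegree_sum_le_of_forall_le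
      intro c hc
      have hc' := Finset.mem_range.mp hc
      rcases Nat.lt_or_ge (m - c) (2 * i) with h3 | h3
      · have := h1 i
        rw [X_pow_dvd_iff] at this
        rw [this _ h3]
        simp
      · refine (Polynomial.natDegree_C_mul_le _ _).trans ((hP' i c).trans ?_)
        omega
    · intro N
      have h3 := cyc_trunc (γ := γ) (n := m) (M := m + 1) (fun i hi =>
        (pow_dvd_pow _ (by omega)).trans (h1 i)) N
      have h4 := Dvd.dvd.mul_left h3 (hexp 1 - hexp (-1))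
      rw [X_pow_dvd_iff] at h4
      have h5 := h4 m (Nat.lt_succ_self m)
      rw [mul_sub, map_sub] at h5
      rw [sub_eq_zero.mp h5, Finset.mul_sum, map_sum, Polynomial.eval_finsetSum]
      apply Finset.sum_congr rfl
      intro i _
      rw [show (hexp 1 - hexp (-1)) * ((-1 : ℚ⟦X⟧) ^ i * (FF i N * γ i)) =
        C ((-1) ^ i) * (((hexp 1 - hexp (-1)) * FF i N) * γ i) by
          rw [map_pow, map_neg, map_one]; ring, coeff_C_mul, coeff_mul_range, Finset.mul_sum,
        Polynomial.eval_finsetSum]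
      apply Finset.sum_congr rfl
      intro c _
      have := hP i c N
      beta_reduce at this
      rw [this, Polynomial.eval_mul, Polynomial.eval_C]
      push_cast
      ring
  have hdeg : ∀ i c k, c + 2 * i < 2 * k - 1 → (P i c).coeff (2 * k - 1) = 0 := by
    intro i c k h
    apply Polynomial.coeff_eq_zero_of_natDegree_lt
    have := hP' i c
    omega
  refine ⟨fun k b hk hb => ?_, fun k hk => ?_⟩
  · rw [mmCoeff, hm, Polynomial.finsetSum_coeff]
    apply Finset.sum_eq_zero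
    intro i _
    rw [Polynomial.finsetSum_coeff]
    apply Finset.sum_eq_zero
    intro c hc
    have hc' := Finset.mem_range.mp hc
    rw [Polynomial.coeff_C_mul]
    rcases Nat.eq_zero_or_pos c with h3 | h3
    · rw [h3, hP0]; simp
    rcases Nat.lt_or_ge (2 * k - 1 + b - c) (e + i) with h4 | h4
    · have := h2 i
      rw [X_pow_dvd_iff] at this
      rw [this _ h4]
      simp
    · rw [hdeg i c k (by omega), mul_zero]
  · rw [mmCoeff, hm, Polynomial.finsetSum_coeff]
    have em : 2 * (k + 1) - 1 + (e + 1 - (k + 1)) = e + k + 1 := by omega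
    rw [em, Finset.sum_eq_single k]
    · rw [Polynomial.finsetSum_coeff, Finset.sum_eq_single 1]
      · rw [Polynomial.coeff_C_mul, hP1, Polynomial.coeff_C_mul, Nat.add_sub_cancel]
        have h3 : (lp k).coeff (2 * (k + 1) - 1) = 1 := by
          have := lp_monic k
          rw [Polynomial.Monic, Polynomial.leadingCoeff, lp_natDegree] at this
          rw [show 2 * (k + 1) - 1 = 2 * k + 1 by omega]
          exact this
        rw [h3]
        ring
      · intro c hc h3
        have hc' := Finset.mem_range.mp hc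
        rw [Polynomial.coeff_C_mul]
        rcases Nat.eq_zero_or_pos c with h5 | h5
        · rw [h5, hP0]; simp
        · have := h2 k
          rw [X_pow_dvd_iff] at this
          rw [this _ (by omega)]
          simp
      · intro h3
        exfalso
        apply h3
        rw [Finset.mem_range]
        omega
    · intro i _ h3
      rw [Polynomial.finsetSum_coeff]
      apply Finset.sum_eq_zero
      intro c hc
      have hc' := Finset.mem_range.mp hc
      rw [Polynomial.coeff_C_mul]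
      rcases Nat.eq_zero_or_pos c with h5 | h5
      · rw [h5, hP0]; simp
      rcases Nat.lt_or_ge (e + k + 1 - c) (e + i) with h4 | h4
      · have := h2 i
        rw [X_pow_dvd_iff] at this
        rw [this _ h4]
        simp
      · rw [hdeg i c (k + 1) (by omega), mul_zero]
    · intro h3
      exfalso
      apply h3
      rw [Finset.mem_range]
      omega

theorem coeff_lead (e : ℕ) (f : ℚ⟦X⟧) : coeff e (X ^ e * f) = constantCoeff f := by
  have := coeff_X_pow_mul f e 0
  rwa [zero_add, coeff_zero_eq_constantCoeff_apply] at this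

/-- the leading term of the difference of two Ohtsuki series -/
theorem ohtsuki_lead {β β' : ℕ → ℚ⟦X⟧} {e : ℕ} (h1 : ∀ i, X ^ (2 * i) ∣ β i)
    (h1' : ∀ i, X ^ (2 * i) ∣ β' i) (h2 : ∀ i, X ^ (e + i) ∣ β i - β' i) {n : ℤ} (hn : n ≠ 0) :
    X ^ e ∣ ohtsuki n (cyc β) - ohtsuki n (cyc β') ∧
    coeff e (ohtsuki n (cyc β) - ohtsuki n (cyc β')) = ∑ i ∈ Finset.range (e + 1),
      ((2 * i + 1).doubleFactorial : ℚ) * (n : ℚ) ^ i * coeff (e + i) (β i - β' i) := by
  have hn' : (n : ℚ) ≠ 0 := by exact_mod_cast hn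
  obtain ⟨c1, c2⟩ := cyc_coeff (fun i => dvd_sub (h1 i) (h1' i)) h2
  obtain ⟨g1, g2⟩ := gauss_lead n (mmCoeff (cyc fun i => β i - β' i)) e c1
  have h3 := D_mul_ohtsuki_sub hn (cyc β) (cyc β')
  have e0 : (fun N => cyc β N - cyc β' N) = cyc (fun i => β i - β' i) :=
    funext fun N => cyc_sub β β' N
  rw [e0] at h3
  set T := ohtsuki n (cyc β) - ohtsuki n (cyc β') with hT
  set G := gauss n (mmCoeff (cyc fun i => β i - β' i)) with hG
  have hG1 : X ^ (e + 1) ∣ G := by
    rw [X_pow_dvd_iff]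
    intro m hm
    exact g1 m (by omega)
  obtain ⟨H, hH⟩ := hG1
  have h4 : dd * T = X ^ e * (C (-1 / 2) * hexp ((n + 1 / n) / 2) * H) := by
    apply mul_left_cancel₀ (X_ne_zero (R := ℚ))
    rw [← mul_assoc, X_mul_dd, h3, hH]
    ring
  have h5 : T = X ^ e * (dd⁻¹ * (C (-1 / 2) * hexp ((n + 1 / n) / 2) * H)) := by
    have := dd_inv
    linear_combination dd⁻¹ * h4 - T * this
  refine ⟨⟨_, h5⟩, ?_⟩
  have h6 : coeff e T = -(1 / 4) * constantCoeff H := by
    rw [h5, coeff_lead]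
    simp only [map_mul, constantCoeff_C]
    have e1 : constantCoeff (dd⁻¹) = 1 / 2 := by
      have := congrArg constantCoeff dd_inv
      rw [map_mul, dd_const, map_one] at this
      linarith
    have e2 : constantCoeff (hexp (((n : ℚ) + 1 / n) / 2)) = 1 := by
      rw [← coeff_zero_eq_constantCoeff_apply, coeff_hexp]
      simp
    rw [e1, e2]
    ring
  have h7 : constantCoeff H = coeff (e + 1) G := by
    rw [hH, coeff_lead]
  rw [h6, h7, g2, Finset.mul_sum]
  apply Finset.sum_congr rfl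
  intro i hi
  have hi' := Finset.mem_range.mp hi
  rw [c2 i (by omega), show 2 * (i + 1) - 1 = 2 * i + 1 by omega]
  have e3 : (-(n : ℚ)) ^ (i + 1) * (-1) ^ i = -(n : ℚ) ^ (i + 1) := by
    rw [neg_pow, pow_succ (-1 : ℚ) i]
    have : ((-1 : ℚ) ^ i) * (-1) ^ i = 1 := by rw [← mul_pow]; simp
    linear_combination (-(n : ℚ) ^ (i + 1)) * this
  have e4 : -(1 / 4) * (((2 * i + 1).doubleFactorial : ℚ) * (-(n : ℚ)) ^ (i + 1) *
      (2 / (n : ℚ) * ((-1) ^ i * 2 * coeff (e + i) (β i - β' i)))) =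
      -(((2 * i + 1).doubleFactorial : ℚ) * coeff (e + i) (β i - β' i) / n) *
        ((-(n : ℚ)) ^ (i + 1) * (-1) ^ i) := by ring
  rw [e4, e3, pow_succ]
  field_simp

end

end Pool.Agent.H765.MM
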