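import Mathlib
import Pool.Agent.H765.MM.Cyc

/-! The Melvin-Morton bound for cables. -/

namespace Pool.Agent.H765.MM

open PowerSeries GK DB Pool.Agent.H765.ST

noncomputable section

theorem symSum_tele {M : Type*} [AddCommGroup M] (g : ℤ → M) (a : ℤ) (t : ℕ) :
    symSum (fun s => g (a + s + 1) - g (a + s - 1)) t = g (a + t) - g (a - t) := by
  unfold symSum
  have h := Finset.sum_range_sub (fun i : ℕ => g (a + 2 * i - t)) t
  rw [show a + 2 * (t : ℤ) - t = a + t by ring, show a + 2 * ((0 : ℕ) : ℤ) - t = a - t by simp] at h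
  rw [← h]
  apply Finset.sum_congr rfl
  intro i _
  have e1 : a + (2 * (i : ℤ) - ((t : ℤ) - 1)) + 1 = a + 2 * ((i + 1 : ℕ) : ℤ) - t := by
    push_cast; ring
  have e2 : a + (2 * (i : ℤ) - ((t : ℤ) - 1)) - 1 = a + 2 * (i : ℤ) - t := by ring
  beta_reduce
  rw [e1, e2]

theorem hexp_congr {a b c a' b' c' : ℚ} (h1 : a + b = a' + b') (h2 : a + c = a' + c') :
    hexp a * (hexp b - hexp c) = hexp a' * (hexp b' - hexp c') := by
  rw [mul_sub, mul_sub, ← hexp_add, ← hexp_add, ← hexp_add, ← hexp_add, h1, h2]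

theorem symSum_comm' {M : Type*} [AddCommMonoid M] (f : ℤ → ℤ → M) (t N : ℕ) :
    symSum (fun j => symSum (fun s => f j s) t) N = symSum (fun s => symSum (fun j => f j s) N) t := by
  unfold symSum
  exact Finset.sum_comm

theorem mul_symSum (c : ℚ⟦X⟧) (f : ℤ → ℚ⟦X⟧) (t : ℕ) :
    c * symSum f t = symSum (fun s => c * f s) t := by
  unfold symSum
  exact Finset.mul_sum _ _ _

/-- the cable of an exponential -/
def cexp (p : ℕ) (q : ℤ) (t : ℕ) (N : ℤ) : ℚ⟦X⟧ :=
  symSum (fun s => hexp (p * q * (1 - t ^ 2) / 2 + p * q * s ^ 2 / 2 + q * s) *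
    (hexp ((p * q * s + q) * N) - hexp (-(p * q * s + q) * N))) t

theorem cable_exp (p : ℕ) (q : ℤ) (t N : ℕ) :
    cableJ p q (fun M => hexp (q * t * M) - hexp (-(q * t) * M)) N = cexp p q t N := by
  rw [cableJ_natCast]
  let G : ℤ → ℚ⟦X⟧ := fun u => hexp (p * q / 2 * u ^ 2 + q * u)
  have e1 : ∀ j : ℤ, hexp (q * j * (p * j + 2) / 2) *
      (hexp (q * t * ((p * j + 1 : ℤ) : ℚ)) - hexp (-(q * t) * ((p * j + 1 : ℤ) : ℚ))) =
      hexp (-(p * q * t ^ 2 / 2)) * symSum (fun s => G (j + s + 1) - G (j + s - 1)) t := by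
    intro j
    rw [symSum_tele G j t]
    simp only [G]
    apply hexp_congr
    · push_cast; ring
    · push_cast; ring
  have e2 : (symSum (fun j => hexp (q * j * (p * j + 2) / 2) *
      (hexp (q * t * ((p * j + 1 : ℤ) : ℚ)) - hexp (-(q * t) * ((p * j + 1 : ℤ) : ℚ)))) N) =
      hexp (-(p * q * t ^ 2 / 2)) * symSum (fun s => G (s + N) - G (s - N)) t := by
    have e3 : (fun j : ℤ => hexp (q * j * (p * j + 2) / 2) *
      (hexp (q * t * ((p * j + 1 : ℤ) : ℚ)) - hexp (-(q * t) * ((p * j + 1 : ℤ) : ℚ)))) =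
      fun j => hexp (-(p * q * t ^ 2 / 2)) *
        symSum (fun s => G (j + s + 1) - G (j + s - 1)) t := funext e1
    rw [e3, ← mul_symSum, symSum_comm']
    congr 2
    funext s
    rw [← symSum_tele G s N]
    congr 1
    funext j
    rw [add_comm j s]
  rw [e2, ← mul_assoc, ← hexp_add, mul_symSum]
  unfold cexp
  congr 1
  funext s
  simp only [G]
  apply hexp_congr
  · push_cast; ring
  · push_cast; ring

theorem Bd.cexp (p : ℕ) (q : ℤ) (t : ℕ) : Bd 1 0 (cexp p q t) := by
  unfold MM.cexp symSum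
  apply Bd.finsum
  intro i _
  exact ((Bd.hexp_lin _).sub (Bd.hexp_lin _)).const_mul _

/-- orthogonality -/
theorem lag_orth (n : ℕ) {c : ℚ} (hc : c ≠ 0) {r : ℕ} (hr : r ≤ n) (l : ℕ) :
    ∑ i ∈ Finset.range (n + 1), (c * i) ^ r *
      (Lagrange.basis (Finset.range (n + 1)) (fun i : ℕ => c * i) i).coeff l =
      if l = r then 1 else 0 := by
  have hinj : Set.InjOn (fun i : ℕ => c * (i : ℚ)) (Finset.range (n + 1) : Set ℕ) := by
    intro a _ b _ hab
    have := mul_left_cancel₀ hc hab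
    exact_mod_cast this
  have h := Lagrange.eq_interpolate_of_eval_eq (f := (Polynomial.X : Polynomial ℚ) ^ r)
    (fun i : ℕ => (c * i) ^ r) hinj (by
      rw [Finset.card_range, Polynomial.degree_X_pow]
      exact_mod_cast Nat.lt_succ_of_le hr) (fun i _ => by simp)
  have h2 := congrArg (fun p => Polynomial.coeff p l) h
  simp only [Lagrange.interpolate_apply, Polynomial.finsetSum_coeff, Polynomial.coeff_C_mul,
    Polynomial.coeff_X_pow] at h2
  exact h2.symm

/-- approximation by exponentials -/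
theorem approx {f : ℤ → ℚ⟦X⟧} (hf : Bd 1 0 f) (hodd : ∀ N, f (-N) = - f N) {c : ℚ} (hc : c ≠ 0)
    (n : ℕ) : ∃ B : ℕ → ℚ⟦X⟧, ∀ M : ℤ, X ^ (n + 1) ∣ f M - ∑ i ∈ Finset.range (n + 1),
      B i * (hexp (c * i * M) - hexp (-(c * i) * M)) := by
  choose P hP' hP using hf
  let A : ℕ → ℚ⟦X⟧ := fun l => PowerSeries.mk fun b => (P (l + b)).coeff l
  let w : ℕ → ℕ → ℚ := fun l i =>
    (Lagrange.basis (Finset.range (n + 1)) (fun i : ℕ => c * i) i).coeff l
  let B : ℕ → ℚ⟦X⟧ := fun i => ∑ l ∈ Finset.range (n + 1), C ((l.factorial : ℚ) * w l i) * A l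
  have key : ∀ M : ℤ, X ^ (n + 1) ∣ f M - ∑ i ∈ Finset.range (n + 1), B i * hexp (c * i * M) := by
    intro M
    rw [X_pow_dvd_iff]
    intro m hm
    rw [map_sub, map_sum, sub_eq_zero, hP]
    have e1 : ∀ i ∈ Finset.range (n + 1), coeff m (B i * hexp (c * i * M)) =
        ∑ l ∈ Finset.range (n + 1), ∑ r ∈ Finset.range (m + 1),
          ((c * i) ^ r * w l i) * ((l.factorial : ℚ) * ((M : ℚ) ^ r / (r.factorial : ℚ) *
            (P (l + (m - r))).coeff l)) := by
      intro i _
      simp only [B]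
      rw [Finset.sum_mul, map_sum]
      apply Finset.sum_congr rfl
      intro l _
      rw [mul_assoc, coeff_C_mul, mul_comm (A l), coeff_mul_range, Finset.mul_sum]
      apply Finset.sum_congr rfl
      intro r _
      rw [coeff_hexp]
      simp only [A, coeff_mk]
      ring
    rw [Finset.sum_congr rfl e1, Finset.sum_comm]
    have e2 : ∀ l ∈ Finset.range (n + 1), ∑ i ∈ Finset.range (n + 1),
        ∑ r ∈ Finset.range (m + 1), ((c * i) ^ r * w l i) * ((l.factorial : ℚ) *
          ((M : ℚ) ^ r / (r.factorial : ℚ) * (P (l + (m - r))).coeff l)) =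
        if l < m + 1 then (M : ℚ) ^ l * (P m).coeff l else 0 := by
      intro l _
      rw [Finset.sum_comm]
      have e3 : ∀ r ∈ Finset.range (m + 1), ∑ i ∈ Finset.range (n + 1),
          ((c * i) ^ r * w l i) * ((l.factorial : ℚ) *
            ((M : ℚ) ^ r / (r.factorial : ℚ) * (P (l + (m - r))).coeff l)) =
          if l = r then (M : ℚ) ^ r * (P (l + (m - r))).coeff l else 0 := by
        intro r hr
        have hr' := Finset.mem_range.mp hr
        rw [← Finset.sum_mul]
        simp only [w]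
        rw [lag_orth n hc (by omega) l]
        split_ifs with h
        · subst h
          have : (l.factorial : ℚ) ≠ 0 := by exact_mod_cast l.factorial_ne_zero
          field_simp
        · ring
      rw [Finset.sum_congr rfl e3]
      split_ifs with h
      · rw [Finset.sum_eq_single l]
        · rw [if_pos rfl, show l + (m - l) = m by omega]
        · intro r _ hr
          rw [if_neg (Ne.symm hr)]
        · intro h2
          exfalso
          apply h2
          rw [Finset.mem_range]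
          exact h
      · apply Finset.sum_eq_zero
        intro r hr
        have hr' := Finset.mem_range.mp hr
        rw [if_neg (by omega)]
    rw [Finset.sum_congr rfl e2, Polynomial.eval_eq_sum_range' (n := m + 1)
      (Nat.lt_succ_of_le (by simpa using hP' m))]
    rw [← Finset.sum_subset (Finset.range_subset_range.mpr (show m + 1 ≤ n + 1 by omega))]
    · apply Finset.sum_congr rfl
      intro l hl
      have hl' := Finset.mem_range.mp hl
      rw [if_pos hl']
      ring
    · intro l _ hl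
      rw [Finset.mem_range] at hl
      rw [if_neg hl]
  refine ⟨fun i => C (1 / 2) * B i, fun M => ?_⟩
  obtain ⟨u, hu⟩ := key M
  obtain ⟨v, hv⟩ := key (-M)
  refine ⟨C (1 / 2) * (u - v), ?_⟩
  have e4 : ∑ i ∈ Finset.range (n + 1), C (1 / 2) * B i *
      (hexp (c * i * M) - hexp (-(c * i) * M)) =
      C (1 / 2) * (∑ i ∈ Finset.range (n + 1), B i * hexp (c * i * M) -
        ∑ i ∈ Finset.range (n + 1), B i * hexp (c * i * ((-M : ℤ) : ℚ))) := by
    rw [← Finset.sum_sub_distrib, Finset.mul_sum]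
    apply Finset.sum_congr rfl
    intro i _
    rw [show (c * i * ((-M : ℤ) : ℚ)) = -(c * i) * M by push_cast; ring]
    ring
  have e5 : (C (1 / 2) : ℚ⟦X⟧) * 2 = 1 := by
    rw [show (2 : ℚ⟦X⟧) = C 2 from (map_ofNat C 2).symm, ← map_mul]
    norm_num
  rw [e4]
  have h1 := hodd M
  rw [h1] at hv
  linear_combination C (1 / 2) * hu - C (1 / 2) * hv - f M * e5

/-- The Melvin-Morton bound is inherited by cables. -/
theorem Bd.cable1 {f : ℤ → ℚ⟦X⟧} (hodd : ∀ N, f (-N) = - f N) (hf : Bd 1 0 f) (p : ℕ) {q : ℤ}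
    (hq : q ≠ 0) : Bd 1 0 (cableJ p q f) := by
  intro n
  obtain ⟨Q, hQ⟩ := PF.cable hodd hf.pf p q n
  obtain ⟨B, hB⟩ := approx hf hodd (c := q) (by exact_mod_cast hq) n
  have h1 : Bd 1 0 (fun N => ∑ i ∈ Finset.range (n + 1), B i * MM.cexp p q i N) :=
    Bd.finsum fun i _ => (Bd.cexp p q i).const_mul _
  obtain ⟨R, hR', hR⟩ := h1 n
  have h2 : Q = R := by
    apply Polynomial.eq_of_infinite_eval_eq
    have hi : Set.Infinite (Set.range fun k : ℕ => (k : ℚ)) :=
      Set.infinite_range_of_injective Nat.cast_injective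
    refine hi.mono ?_
    rintro _ ⟨k, rfl⟩
    simp only [Set.mem_ofPred_eq]
    have e1 := hQ k
    have e2 := hR k
    have e3 : X ^ (n + 1) ∣ cableJ p q f k - ∑ i ∈ Finset.range (n + 1), B i * MM.cexp p q i k := by
      have e4 : ∀ i ∈ Finset.range (n + 1), B i * MM.cexp p q i k =
          hexp (-(p * q * ((k : ℚ) ^ 2 - 1)) / 2) * symSum (fun j =>
            hexp (q * j * (p * j + 2) / 2) * (B i * (hexp (q * i * ((p * j + 1 : ℤ) : ℚ)) -
              hexp (-(q * i) * ((p * j + 1 : ℤ) : ℚ))))) k := by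
        intro i _
        rw [← cable_exp, cableJ_natCast, mul_left_comm, mul_symSum]
        congr 2
        funext j
        ring
      rw [Finset.sum_congr rfl e4, cableJ_natCast, ← Finset.mul_sum, ← mul_sub]
      apply Dvd.dvd.mul_left
      unfold symSum
      rw [Finset.sum_comm, ← Finset.sum_sub_distrib]
      apply Finset.dvd_sum
      intro j _
      rw [← Finset.mul_sum, ← mul_sub]
      exact Dvd.dvd.mul_left (hB _) _
    rw [X_pow_dvd_iff] at e3
    have e5 := e3 n (Nat.lt_succ_self n)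
    rw [map_sub] at e5
    push_cast at e1 e2
    rw [← e1, ← e2]
    linarith
  exact ⟨Q, h2 ▸ hR', hQ⟩

theorem cableJ_X_mul (p : ℕ) (q : ℤ) (J : ℤ → ℚ⟦X⟧) (N : ℤ) :
    cableJ p q (fun M => X * J M) N = X * cableJ p q J N := by
  unfold cableJ
  have e : symSum (fun j => hexp (q * j * (p * j + 2) / 2) * (X * J (p * j + 1))) N.natAbs =
      X * symSum (fun j => hexp (q * j * (p * j + 2) / 2) * J (p * j + 1)) N.natAbs := by
    rw [mul_symSum]
    congr 1
    funext j
    ring
  rw [e, mul_smul_comm, mul_left_comm]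

theorem Bd.cable {J : ℤ → ℚ⟦X⟧} (hodd : ∀ N, J (-N) = - J N) (h : Bd 1 1 J) (p : ℕ) {q : ℤ}
    (hq : q ≠ 0) : Bd 1 1 (cableJ p q J) := by
  have h1 : Bd 1 0 (fun N => X * J N) := Bd.X_mul h
  have h2 := Bd.cable1 (f := fun N => X * J N) (fun N => by rw [hodd, mul_neg]) h1 p hq
  exact (h2.congr (cableJ_X_mul p q J)).of_X_mul

end

end Pool.Agent.H765.MM
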