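import Mathlib
import Pool.Agent.H765.MM.Gauss

/-! The Ohtsuki series of `S^3`. -/

namespace Pool.Agent.H765.MM

open PowerSeries GK DB Pool.Agent.H765.ST

noncomputable section

theorem mmCoeff_unknot (l b : ℕ) :
    mmCoeff unknotJ l b = if b = 0 then (1 - (-1) ^ l) / (l.factorial : ℚ) else 0 := by
  have h : ∀ m, mmPoly unknotJ m =
      Polynomial.C ((1 - (-1) ^ m) / (m.factorial : ℚ)) * Polynomial.X ^ m := by
    intro m
    apply mmPoly_eq (Polynomial.natDegree_C_mul_X_pow_le _ _)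
    intro i
    rw [unknotJ_mul, map_sub, coeff_hexp, coeff_hexp, Polynomial.eval_mul, Polynomial.eval_C,
      Polynomial.eval_pow, Polynomial.eval_X]
    push_cast
    rw [neg_pow]
    ring
  rw [mmCoeff, h, Polynomial.coeff_C_mul, Polynomial.coeff_X_pow]
  split_ifs with h1 h2 h2
  · rw [h2, add_zero, mul_one]
  · omega
  · omega
  · ring

theorem dfac (m : ℕ) : ((2 * m - 1).doubleFactorial : ℚ) * (2 ^ m * m.factorial) =
    (2 * m).factorial := by
  rcases Nat.eq_zero_or_pos m with rfl | h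
  · simp
  · obtain ⟨k, rfl⟩ : ∃ k, m = k + 1 := ⟨m - 1, by omega⟩
    have h1 := Nat.factorial_eq_mul_doubleFactorial (2 * k + 1)
    have h2 := Nat.doubleFactorial_two_mul (k + 1)
    rw [show 2 * (k + 1) = 2 * k + 1 + 1 by ring] at h2 ⊢
    rw [h1, h2, Nat.add_sub_cancel]
    push_cast
    ring

theorem binom_sum (x y : ℚ) (m : ℕ) :
    ∑ s ∈ Finset.range (m + 1), x ^ s / (s.factorial : ℚ) * (y ^ (m - s) / ((m - s).factorial : ℚ)) =
      (x + y) ^ m / (m.factorial : ℚ) := by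
  rw [add_pow, Finset.sum_div]
  apply Finset.sum_congr rfl
  intro s hs
  have hs' : s ≤ m := by simpa [Nat.lt_succ_iff] using hs
  rw [Nat.cast_choose ℚ hs']
  have h1 : (m.factorial : ℚ) ≠ 0 := by exact_mod_cast m.factorial_ne_zero
  have h2 : (s.factorial : ℚ) ≠ 0 := by exact_mod_cast s.factorial_ne_zero
  have h3 : ((m - s).factorial : ℚ) ≠ 0 := by exact_mod_cast (m - s).factorial_ne_zero
  field_simp

theorem gauss_unknot {n : ℤ} (hn : n ≠ 0) : gauss n (mmCoeff unknotJ) =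
    C 2 * (hexp (-((n + 1 / n) / 2) - 1) - hexp (-((n + 1 / n) / 2) + 1)) := by
  have hn' : (n : ℚ) ≠ 0 := by exact_mod_cast hn
  ext m
  rw [gauss, coeff_mk, Finset.sum_range_succ, Finset.sum_eq_zero, zero_add]
  · rw [Nat.sub_self]
    have e1 : ∀ s ∈ Finset.range (2 * m + 1), (1 - (-1 : ℚ) ^ s) /
        ((s.factorial : ℚ) * (n : ℚ) ^ s) * mmCoeff unknotJ (2 * m - s) 0 =
        2 * ((1 / (n : ℚ)) ^ s / (s.factorial : ℚ) *
          (1 ^ (2 * m - s) / ((2 * m - s).factorial : ℚ)) -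
        (-(1 / (n : ℚ))) ^ s / (s.factorial : ℚ) *
          (1 ^ (2 * m - s) / ((2 * m - s).factorial : ℚ))) := by
      intro s hs
      have hs' := Finset.mem_range.mp hs
      rw [mmCoeff_unknot, if_pos rfl]
      have h2 : (-1 : ℚ) ^ (2 * m - s) = (-1) ^ s := by
        have h3 : (-1 : ℚ) ^ (2 * m - s) * (-1) ^ s = 1 := by
          rw [← pow_add, show 2 * m - s + s = 2 * m by omega, pow_mul]
          simp
        have h4 : (-1 : ℚ) ^ s * (-1) ^ s = 1 := by rw [← mul_pow]; simp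
        linear_combination (-1) ^ s * h3 - (-1) ^ (2 * m - s) * h4
      rw [h2, neg_pow (1 / (n : ℚ)), one_pow, one_div_pow]
      have h4 : (-1 : ℚ) ^ s * (-1) ^ s = 1 := by rw [← mul_pow]; simp
      have h5 : (s.factorial : ℚ) ≠ 0 := by exact_mod_cast s.factorial_ne_zero
      have h6 : ((2 * m - s).factorial : ℚ) ≠ 0 := by exact_mod_cast (2 * m - s).factorial_ne_zero
      field_simp
      linear_combination h4
    rw [Finset.sum_congr rfl e1, ← Finset.mul_sum, Finset.sum_sub_distrib, binom_sum, binom_sum,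
      coeff_C_mul, map_sub, coeff_hexp, coeff_hexp]
    have h7 := dfac m
    have h8 : ((2 * m).factorial : ℚ) ≠ 0 := by exact_mod_cast (2 * m).factorial_ne_zero
    have h9 : (m.factorial : ℚ) ≠ 0 := by exact_mod_cast m.factorial_ne_zero
    have h10 : ((2 * m - 1).doubleFactorial : ℚ) / (2 * m).factorial = 1 / (2 ^ m * m.factorial) := by
      rw [div_eq_div_iff h8 (by positivity), ← h7]
      ring
    have h11 : (-((n : ℚ) + 1 / n) / 2 - 1) = (-(n : ℚ)) * (1 / n + 1) ^ 2 / 2 := by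
      field_simp
      ring
    have h12 : (-((n : ℚ) + 1 / n) / 2 + 1) = (-(n : ℚ)) * (-(1 / n) + 1) ^ 2 / 2 := by
      field_simp
      ring
    rw [show (-(((n : ℚ) + 1 / n) / 2) - 1) = (-((n : ℚ) + 1 / n) / 2 - 1) by ring, h11,
      show (-(((n : ℚ) + 1 / n) / 2) + 1) = (-((n : ℚ) + 1 / n) / 2 + 1) by ring, h12,
      div_pow, div_pow, mul_pow, mul_pow, ← pow_mul, ← pow_mul]
    have h13 : ((2 * m - 1).doubleFactorial : ℚ) * (-(n : ℚ)) ^ m *
        (2 * ((1 / (n : ℚ) + 1) ^ (2 * m) / ((2 * m).factorial : ℚ) -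
          (-(1 / (n : ℚ)) + 1) ^ (2 * m) / ((2 * m).factorial : ℚ))) =
        2 * (-(n : ℚ)) ^ m * ((1 / (n : ℚ) + 1) ^ (2 * m) - (-(1 / (n : ℚ)) + 1) ^ (2 * m)) *
          (((2 * m - 1).doubleFactorial : ℚ) / (2 * m).factorial) := by ring
    rw [h13, h10]
    ring
  · intro k hk
    have hk' := Finset.mem_range.mp hk
    rw [Finset.sum_eq_zero, mul_zero]
    intro s _
    rw [mmCoeff_unknot, if_neg (by omega), mul_zero]

theorem D_cancel {f g : ℚ⟦X⟧} (h : (hexp 1 - hexp (-1)) * f = (hexp 1 - hexp (-1)) * g) : f = g :=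
  mul_left_cancel₀ D_ne h

/-- surgery on the unknot gives `S^3` -/
theorem ohtsuki_unknot (n : ℤ) : ohtsuki n unknotJ = 1 := by
  rcases eq_or_ne n 0 with rfl | hn
  · rw [ohtsuki, if_pos rfl]
  · apply D_cancel
    rw [D_mul_ohtsuki hn, gauss_unknot hn]
    have e1 : C (-1 / 2 : ℚ) * hexp (((n : ℚ) + 1 / n) / 2) *
        (C 2 * (hexp (-(((n : ℚ) + 1 / n) / 2) - 1) - hexp (-(((n : ℚ) + 1 / n) / 2) + 1))) =
        (C (-1 / 2 : ℚ) * C 2) * (hexp (((n : ℚ) + 1 / n) / 2) *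
          hexp (-(((n : ℚ) + 1 / n) / 2) - 1) - hexp (((n : ℚ) + 1 / n) / 2) *
            hexp (-(((n : ℚ) + 1 / n) / 2) + 1)) := by ring
    rw [e1, ← hexp_add, ← hexp_add, ← map_mul]
    rw [show (((n : ℚ) + 1 / n) / 2 + (-(((n : ℚ) + 1 / n) / 2) - 1)) = -1 by ring,
      show (((n : ℚ) + 1 / n) / 2 + (-(((n : ℚ) + 1 / n) / 2) + 1)) = 1 by ring,
      show (-1 / 2 * 2 : ℚ) = -1 by norm_num, map_neg, map_one]
    ring

theorem ohtsuki_zero (J : ℤ → ℚ⟦X⟧) : ohtsuki 0 J = 1 := by rw [ohtsuki, if_pos rfl]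

end

end Pool.Agent.H765.MM
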