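import Mathlib
import Pool.Agent.H765.MM.Cable
import Pool.Agent.H765.MM.Unknot

/-! The coefficients of annuli with core a knot. -/

namespace Pool.Agent.H765.MM

open PowerSeries GK DB Pool.Agent.H765.ST

noncomputable section

variable {a s t : ℕ}

/-- even polynomials in `2k+1` are polynomials in `k(k+1)` -/
theorem even_poly {P : Polynomial ℚ} (h : ∀ N : ℤ, P.eval (-(N : ℚ)) = P.eval (N : ℚ)) {m : ℕ}
    (hm : P.natDegree ≤ m) : ∃ Q : Polynomial ℚ, 2 * Q.natDegree ≤ m ∧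
      ∀ k : ℕ, P.eval (2 * (k : ℚ) + 1) = Q.eval ((k : ℚ) * (k + 1)) := by
  have hP : P.comp (Polynomial.C (-1) * Polynomial.X) = P := by
    apply poly_eq_of_int
    intro N
    rw [Polynomial.eval_comp]
    simp only [Polynomial.eval_mul, Polynomial.eval_C, Polynomial.eval_X, neg_one_mul]
    exact h N
  have hc : ∀ l, ¬ 2 ∣ l → P.coeff l = 0 := by
    intro l hl
    have h2 := congrArg (fun p => Polynomial.coeff p l) hP
    simp only [Polynomial.comp_C_mul_X_coeff] at h2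
    have h3 : Odd l := by
      rw [← Nat.not_even_iff_odd]
      exact fun h => hl h.two_dvd
    rw [h3.neg_one_pow] at h2
    linarith
  have he : Polynomial.expand ℚ 2 (Polynomial.contract 2 P) = P := by
    ext l
    rw [Polynomial.coeff_expand two_pos]
    split_ifs with h1
    · rw [Polynomial.coeff_contract two_ne_zero, Nat.div_mul_cancel h1]
    · rw [hc l h1]
  set R := Polynomial.contract 2 P with hR
  have hd : 2 * R.natDegree ≤ m := by
    have := Polynomial.natDegree_expand 2 R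
    rw [he] at this
    omega
  refine ⟨R.comp (Polynomial.C 4 * Polynomial.X + Polynomial.C 1), ?_, fun k => ?_⟩
  · have h1 : (R.comp (Polynomial.C 4 * Polynomial.X + Polynomial.C 1)).natDegree ≤
        R.natDegree := by
      refine (Polynomial.natDegree_comp_le).trans ?_
      have : (Polynomial.C (4 : ℚ) * Polynomial.X + Polynomial.C 1).natDegree ≤ 1 :=
        Polynomial.natDegree_linear_le
      nlinarith
    omega
  · conv_lhs => rw [← he]
    rw [Polynomial.expand_eval, Polynomial.eval_comp]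
    simp only [Polynomial.eval_mul, Polynomial.eval_C, Polynomial.eval_X, Polynomial.eval_add]
    congr 1
    ring

theorem Bd.toBx {f : ℤ → ℚ⟦X⟧} (hf : Bd a s f) (h : ∀ N, f (-N) = f N) :
    Bx a s (fun k : ℕ => f (2 * k + 1)) := by
  intro n
  obtain ⟨P, hP', hP⟩ := hf n
  obtain ⟨Q, hQ', hQ⟩ := even_poly (P := P) (fun N => by
    have h1 := hP (-N)
    rw [h, hP] at h1
    push_cast at h1
    exact h1.symm) hP'
  refine ⟨Q, hQ', fun k => ?_⟩
  rw [hP, ← hQ]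
  push_cast
  rfl

theorem zero_of_odd {J : ℤ → ℚ⟦X⟧} (hJ : ∀ N, J (-N) = - J N) : J 0 = 0 := by
  have h1 := hJ 0
  rw [neg_zero] at h1
  have h2 : (2 : ℚ) • J 0 = 0 := by
    rw [two_smul]
    nth_rewrite 1 [h1]
    exact neg_add_cancel _
  exact (smul_eq_zero.mp h2).resolve_left two_ne_zero

/-- division by the function of the unknot at odd colours -/
theorem exists_g (ha : 1 ≤ a) {J : ℤ → ℚ⟦X⟧} (hJ : ∀ N, J (-N) = - J N) (h : Bd a (s + 1) J) :
    ∃ g : ℕ → ℚ⟦X⟧, Bx a s g ∧ ∀ k : ℕ, J (2 * k + 1) = unknotJ (2 * k + 1) * g k := by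
  obtain ⟨j, hj, e⟩ := Bd.div h (zero_of_odd hJ)
  obtain ⟨u, hu, eu, hu1⟩ := unknot_div ha
  have hCne : ∀ N : ℤ, N ≠ 0 → (C (N : ℚ) : ℚ⟦X⟧) ≠ 0 := by
    intro N hN h1
    have := congrArg constantCoeff h1
    rw [constantCoeff_C, map_zero] at this
    exact hN (by exact_mod_cast this)
  have hev : ∀ f : ℤ → ℚ⟦X⟧, Bd a s f ∨ Bd a 0 f → ∀ F : ℤ → ℚ⟦X⟧, (∀ N, F (-N) = - F N) →
      (∀ N : ℤ, F N = C (N : ℚ) * f N) → ∀ N, f (-N) = f N := by
    intro f _ F hF hf N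
    rcases eq_or_ne N 0 with rfl | hN
    · rw [neg_zero]
    · apply mul_left_cancel₀ (hCne N hN)
      have h1 := hf (-N)
      rw [hF, hf N] at h1
      push_cast at h1
      rw [map_neg] at h1
      linear_combination h1
  have hje := hev j (Or.inl hj) J hJ e
  have hue := hev u (Or.inr hu) unknotJ unknotJ_neg eu
  have hg : Bd a s (fun N => j N * (u N)⁻¹) := by
    have := hj.mul (hu.inv hu1)
    rwa [add_zero] at this
  refine ⟨fun k => j (2 * k + 1) * (u (2 * k + 1))⁻¹, hg.toBx (fun N => by rw [hje, hue]),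
    fun k => ?_⟩
  rw [e, eu]
  have := PowerSeries.mul_inv_cancel (u (2 * (k : ℤ) + 1)) (by rw [hu1]; exact one_ne_zero)
  linear_combination (-(C (((2 * (k : ℤ) + 1 : ℤ) : ℚ)) * j (2 * k + 1))) * this

theorem annulus_eq {J : ℤ → ℚ⟦X⟧} {g : ℕ → ℚ⟦X⟧}
    (h : ∀ k : ℕ, J (2 * k + 1) = unknotJ (2 * k + 1) * g k) (m : ℤ) (i : ℕ) :
    annulus J m i = qfac i * T i (fun k => hexp (2 * m * ((k : ℚ) * (k + 1))) * g k) := by
  unfold annulus T
  congr 1
  apply Finset.sum_congr rfl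
  intro k _
  rw [h k, show (2 * (m : ℚ) * k * (k + 1)) = 2 * m * ((k : ℚ) * (k + 1)) by ring]
  ring

/-- `b_i = O(h^i)` -/
theorem annulus_dvd {J : ℤ → ℚ⟦X⟧} (hJ : ∀ N, J (-N) = - J N) (h : Bd 2 1 J) (m : ℤ) (i : ℕ) :
    X ^ i ∣ annulus J m i := by
  obtain ⟨g, hg, e⟩ := exists_g (s := 0) one_le_two hJ h
  rw [annulus_eq e]
  apply Dvd.dvd.mul_left
  apply T_dvd one_le_two (s := 0 + 0) ((Bx.hexp (2 * m)).mul hg)
  omega

/-- `b_i = O(h^{2i})` without framing -/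
theorem annulus_dvd0 {J : ℤ → ℚ⟦X⟧} (hJ : ∀ N, J (-N) = - J N) (h : Bd 1 1 J) (i : ℕ) :
    X ^ (2 * i) ∣ annulus J 0 i := by
  obtain ⟨g, hg, e⟩ := exists_g (s := 0) le_rfl hJ h
  rw [annulus_eq e]
  apply Dvd.dvd.mul_left
  have h1 : T i (fun k => hexp (2 * ((0 : ℤ) : ℚ) * ((k : ℚ) * (k + 1))) * g k) = T i g := by
    apply T_congr
    intro k _
    rw [show (2 * ((0 : ℤ) : ℚ) * ((k : ℚ) * (k + 1))) = 0 by simp, hexp_zero, one_mul]
  rw [h1]
  apply T_dvd le_rfl (s := 0) hg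
  omega

/-- the function is that of the unknot up to terms of order `d` of slope two -/
def S2 (J : ℤ → ℚ⟦X⟧) (d : ℕ) : Prop :=
  ∃ R : ℤ → ℚ⟦X⟧, Bd 2 3 R ∧ (∀ N, R (-N) = - R N) ∧ ∀ N, J N = unknotJ N + X ^ d * R N

theorem annulus_S2 {J : ℤ → ℚ⟦X⟧} {d : ℕ} (h : S2 J d) {i : ℕ} (hi : 1 ≤ i) :
    X ^ (d + (i - 1)) ∣ annulus J 0 i := by
  obtain ⟨R, hR, hodd, hJ⟩ := h
  obtain ⟨g, hg, e⟩ := exists_g (s := 2) one_le_two hodd hR
  have h1 : ∀ k : ℕ, J (2 * k + 1) = unknotJ (2 * k + 1) * (1 + X ^ d * g k) := by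
    intro k
    rw [hJ, e]
    ring
  rw [annulus_eq h1]
  apply Dvd.dvd.mul_left
  have h2 : T i (fun k => hexp (2 * ((0 : ℤ) : ℚ) * ((k : ℚ) * (k + 1))) * (1 + X ^ d * g k)) =
      X ^ d * T i g := by
    have h3 : T i (fun k => hexp (2 * ((0 : ℤ) : ℚ) * ((k : ℚ) * (k + 1))) * (1 + X ^ d * g k)) =
        T i (fun k => 1 + X ^ d * g k) := by
      apply T_congr
      intro k _
      rw [show (2 * ((0 : ℤ) : ℚ) * ((k : ℚ) * (k + 1))) = 0 by simp, hexp_zero, one_mul]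
    rw [h3, T_add i (fun _ => 1), T_one hi, zero_add, T_mul]
  rw [h2, pow_add]
  apply mul_dvd_mul_left
  apply T_dvd one_le_two (s := 2) hg
  omega

/-- plumbings satisfy the Melvin-Morton bound -/
theorem Bd.plumb {J J' : ℤ → ℚ⟦X⟧} (hJ : ∀ N, J (-N) = - J N) (h : Bd 2 1 J)
    (hJ' : ∀ N, J' (-N) = - J' N) (h' : Bd 2 1 J') (m m' : ℤ) : Bd 1 1 (plumbJ J m J' m') := by
  rw [plumb_eq_cyc]
  apply Bd.cyc (r := fun i => 2 * i) (fun i => by omega) le_rfl
  · intro i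
    rw [two_mul, pow_add]
    exact mul_dvd_mul (annulus_dvd hJ h m i) (annulus_dvd hJ' h' m' i)
  · intro i
    omega

theorem graph_bd (K : GraphKnot) : Bd 1 1 (colouredJones K) := by
  induction K with
  | unknot => exact Bd.unknot1
  | cable p q hp hq K ih =>
    apply Bd.cable (colouredJones_odd K) ih p
    rintro rfl
    rw [isCoprime_zero_right] at hq
    have := Int.isUnit_iff.mp hq
    omega
  | sum K L hK hL => exact Bd.sum le_rfl hK (colouredJones_zero K) hL (colouredJones_zero L)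

end

end Pool.Agent.H765.MM
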