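import Mathlib
import Pool.Agent.H765.MM.Ann

/-! Surgeries on the doubles of two knots. -/

namespace Pool.Agent.H765.MM

open PowerSeries GK DB Pool.Agent.H765.ST

noncomputable section

theorem annulus_sub (J J' : ℤ → ℚ⟦X⟧) (m : ℤ) (i : ℕ) :
    annulus J m i - annulus J' m i = annulus (fun N => J N - J' N) m i := by
  unfold annulus
  rw [← mul_sub, ← Finset.sum_sub_distrib]
  congr 1
  apply Finset.sum_congr rfl
  intro k _
  ring

theorem annulus_order_of {E : ℤ → ℚ⟦X⟧} {e : ℕ} (h : ∀ N, X ^ e ∣ E N) (m : ℤ) (i : ℕ) :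
    X ^ e ∣ annulus E m i := by
  unfold annulus
  apply Dvd.dvd.mul_left
  apply Finset.dvd_sum
  intro k _
  exact Dvd.dvd.mul_right (Dvd.dvd.mul_left (h _) _) _

/-- the leading coefficients do not depend on the framing -/
theorem annulus_frame {E : ℤ → ℚ⟦X⟧} {e : ℕ} (h : ∀ N, X ^ e ∣ E N) (m : ℤ) (i : ℕ) :
    coeff e (annulus E m i) = coeff e (annulus E 0 i) := by
  have h1 : X ^ (e + 1) ∣ annulus E m i - annulus E 0 i := by
    unfold annulus
    rw [← mul_sub, ← Finset.sum_sub_distrib]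
    apply Dvd.dvd.mul_left
    apply Finset.dvd_sum
    intro k _
    have h2 := mul_dvd_mul (X_dvd_hexp_sub (2 * m * k * (k + 1))) (h (2 * k + 1))
    rw [← pow_succ'] at h2
    have h3 := Dvd.dvd.mul_left h2 ((-1) ^ (i - k) * (qfac (i - k) * qfac (i + k + 1))⁻¹)
    refine dvd_of_eq_of_dvd ?_ h3
    rw [show (2 * ((0 : ℤ) : ℚ) * k * (k + 1)) = 0 by simp, hexp_zero]
    ring
  rw [X_pow_dvd_iff] at h1
  have := h1 e (Nat.lt_succ_self e)
  rw [map_sub] at this
  linarith

/-- the coefficients of the annuli determine the leading term at odd colours -/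
theorem annulus_determines_lead {E : ℤ → ℚ⟦X⟧} {e : ℕ} (h : ∀ N, X ^ e ∣ E N)
    (h0 : ∀ i, coeff e (annulus E 0 i) = 0) (k : ℕ) : coeff e (E (2 * k + 1)) = 0 := by
  have hdv : ∀ i, X ^ (e + 1) ∣ annulus E 0 i := by
    intro i
    rw [X_pow_dvd_iff]
    intro j hj
    rcases Nat.lt_or_ge j e with h1 | h1
    · have := annulus_order_of h 0 i
      rw [X_pow_dvd_iff] at this
      exact this j h1
    · rw [show j = e by omega]
      exact h0 i
  have key : X ^ (e + 1) ∣ E (2 * k + 1) := by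
    induction k using Nat.strong_induction_on with
    | _ k ih =>
      have h1 := hdv k
      unfold annulus at h1
      rw [Finset.sum_range_succ, mul_add] at h1
      have h2 : X ^ (e + 1) ∣ qfac k * ∑ x ∈ Finset.range k, (-1) ^ (k - x) *
          hexp (2 * ((0 : ℤ) : ℚ) * x * (x + 1)) * E (2 * x + 1) *
            (qfac (k - x) * qfac (k + x + 1))⁻¹ := by
        apply Dvd.dvd.mul_left
        apply Finset.dvd_sum
        intro x hx
        exact Dvd.dvd.mul_right (Dvd.dvd.mul_left (ih x (Finset.mem_range.mp hx)) _) _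
      have h3 := (dvd_add_right h2).mp h1
      have hc : constantCoeff (qfac (k - k) * qfac (k + k + 1)) ≠ 0 := by
        rw [map_mul]
        exact mul_ne_zero (constCoeff_qfac_ne _) (constCoeff_qfac_ne _)
      have h4 := PowerSeries.mul_inv_cancel _ hc
      have h5 := PowerSeries.mul_inv_cancel _ (constCoeff_qfac_ne k)
      have h6 := Dvd.dvd.mul_left h3 ((qfac k)⁻¹ * (qfac (k - k) * qfac (k + k + 1)))
      refine dvd_of_eq_of_dvd ?_ h6
      rw [show (2 * ((0 : ℤ) : ℚ) * k * (k + 1)) = 0 by simp, hexp_zero, Nat.sub_self, pow_zero]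
      rw [Nat.sub_self] at h4
      linear_combination (-(E (2 * k + 1))) * h5 -
        (E (2 * k + 1)) * (qfac k * (qfac k)⁻¹) * h4
  rw [X_pow_dvd_iff] at key
  exact key e (Nat.lt_succ_self e)

theorem dl_lead (ε : ℤ) : ∃ w : ℚ⟦X⟧, dl ε = X * w ∧ constantCoeff w = 2 * ε := by
  obtain ⟨w, hw⟩ := dl_dvd ε
  refine ⟨w, hw, ?_⟩
  have h1 := congrArg (coeff 1) hw
  rw [mul_comm, show (1 : ℕ) = 0 + 1 from rfl, coeff_succ_mul_X, coeff_zero_eq_constantCoeff_apply]
    at h1
  rw [← h1, dl, map_sub, coeff_hexp, coeff_hexp]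
  norm_num
  ring

theorem clasp_lead {ε : ℤ} (hε : ε = 1 ∨ ε = -1) (i : ℕ) : ∃ v : ℚ⟦X⟧,
    annulus unknotJ ε i = X ^ i * v ∧ constantCoeff v = (2 * ε) ^ i := by
  obtain ⟨w, hw, hc⟩ := dl_lead ε
  refine ⟨hexp (ε * (i * (i + 3)) / 2) * w ^ i, ?_, ?_⟩
  · rw [annulus_clasp hε, hw, mul_pow]
    ring
  · rw [map_mul, map_pow, hc, ← coeff_zero_eq_constantCoeff_apply, coeff_hexp]
    simp

/-- what is needed of a coloured Jones function -/
structure JF (J : ℤ → ℚ⟦X⟧) : Prop where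
  odd : ∀ N, J (-N) = - J N
  one : J 1 = 1
  bd : Bd 1 1 J
  two : ∀ N, X ^ 2 ∣ J N - unknotJ N

/-- The differences of the leading coefficients. -/
def del (J J' : ℤ → ℚ⟦X⟧) (e i : ℕ) : ℚ := coeff e (annulus (fun N => J N - J' N) 0 i)

/-- The leading term of the difference of the series of the surgeries on the doubles. -/
theorem double_lead {J J' : ℤ → ℚ⟦X⟧} (h : JF J) (h' : JF J') {e : ℕ}
    (he : ∀ N, X ^ e ∣ J N - J' N) {ε : ℤ} (hε : ε = 1 ∨ ε = -1) (m : ℤ) {n : ℤ} (hn : n ≠ 0) :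
    coeff e (ohtsuki n (doubleJ m ε J) - ohtsuki n (doubleJ m ε J')) =
      ∑ i ∈ Finset.range (e + 1), ((2 * i + 1).doubleFactorial : ℚ) * (n : ℚ) ^ i *
        ((2 * ε) ^ i * del J J' e i) := by
  have hb : ∀ {J : ℤ → ℚ⟦X⟧}, JF J → ∀ i, X ^ (2 * i) ∣ annulus J m i * annulus unknotJ ε i := by
    intro J h i
    rw [two_mul, pow_add]
    exact mul_dvd_mul (annulus_dvd h.odd (h.bd.slope one_le_two) m i) (clasp_dvd hε i)
  have hd : ∀ i, annulus J m i * annulus unknotJ ε i - annulus J' m i * annulus unknotJ ε i =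
      annulus (fun N => J N - J' N) m i * annulus unknotJ ε i := by
    intro i
    rw [← sub_mul, annulus_sub]
  have key := ohtsuki_lead (β := fun i => annulus J m i * annulus unknotJ ε i)
    (β' := fun i => annulus J' m i * annulus unknotJ ε i) (e := e) (hb h) (hb h')
    (fun i => by
      rw [hd, pow_add]
      exact mul_dvd_mul (annulus_order_of he m i) (clasp_dvd hε i)) hn
  have e1 : ∀ J : ℤ → ℚ⟦X⟧, doubleJ m ε J = cyc fun i => annulus J m i * annulus unknotJ ε i :=
    fun J => rfl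
  rw [e1, e1, key.2]
  apply Finset.sum_congr rfl
  intro i _
  congr 1
  rw [hd]
  obtain ⟨v, hv, hvc⟩ := clasp_lead hε i
  obtain ⟨u, hu⟩ := annulus_order_of he m i
  rw [del, ← annulus_frame he m i, hu, hv,
    show X ^ e * u * (X ^ i * v) = X ^ (e + i) * (u * v) by rw [pow_add]; ring, coeff_lead,
    coeff_lead, map_mul, hvc]
  ring

/-- the polynomial in `n` -/
def Lp (J J' : ℤ → ℚ⟦X⟧) (e : ℕ) (ε : ℤ) : Polynomial ℚ := ∑ i ∈ Finset.range (e + 1),
  Polynomial.monomial i (((2 * i + 1).doubleFactorial : ℚ) * ((2 * ε) ^ i * del J J' e i))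

theorem Lp_eval (J J' : ℤ → ℚ⟦X⟧) (e : ℕ) (ε : ℤ) (n : ℚ) : (Lp J J' e ε).eval n =
    ∑ i ∈ Finset.range (e + 1), ((2 * i + 1).doubleFactorial : ℚ) * n ^ i *
        ((2 * ε) ^ i * del J J' e i) := by
  rw [Lp, Polynomial.eval_finsetSum]
  apply Finset.sum_congr rfl
  intro i _
  rw [Polynomial.eval_monomial]
  ring

theorem Lp_coeff (J J' : ℤ → ℚ⟦X⟧) (e : ℕ) (ε : ℤ) {i : ℕ} (hi : i ≤ e) :
    (Lp J J' e ε).coeff i = ((2 * i + 1).doubleFactorial : ℚ) * ((2 * ε) ^ i * del J J' e i) := by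
  rw [Lp, Polynomial.finsetSum_coeff, Finset.sum_eq_single i]
  · rw [Polynomial.coeff_monomial, if_pos rfl]
  · intro j _ hj
    rw [Polynomial.coeff_monomial, if_neg hj]
  · intro h
    exfalso
    apply h
    rw [Finset.mem_range]
    omega

theorem exists_del_ne {J J' : ℤ → ℚ⟦X⟧} (h : JF J) (h' : JF J') {e : ℕ}
    (he : ∀ N, X ^ e ∣ J N - J' N) (hne : ∃ N, coeff e (J N - J' N) ≠ 0) :
    ∃ i, i ≤ e ∧ del J J' e i ≠ 0 := by
  by_contra hall
  push Not at hall
  have h0 : ∀ i, del J J' e i = 0 := by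
    intro i
    rcases Nat.lt_or_ge e i with hi | hi
    · unfold del
      have h1 : X ^ i ∣ annulus (fun N => J N - J' N) 0 i := by
        rw [← annulus_sub]
        exact dvd_sub (annulus_dvd h.odd (h.bd.slope one_le_two) 0 i)
          (annulus_dvd h'.odd (h'.bd.slope one_le_two) 0 i)
      rw [X_pow_dvd_iff] at h1
      exact h1 e hi
    · exact hall i hi
  obtain ⟨P, _, hP⟩ := (h.bd.sub h'.bd) e
  have h1 : P = 0 := by
    apply Polynomial.eq_of_infinite_eval_eq
    have hi : Set.Infinite (Set.range fun k : ℕ => ((2 * k + 1 : ℕ) : ℚ)) := by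
      apply Set.infinite_range_of_injective
      intro a b hab
      have hab' : ((2 * a + 1 : ℕ) : ℚ) = ((2 * b + 1 : ℕ) : ℚ) := hab
      have : (2 * a + 1 : ℕ) = 2 * b + 1 := by exact_mod_cast hab'
      omega
    refine hi.mono ?_
    rintro _ ⟨k, rfl⟩
    have h2 := annulus_determines_lead he h0 k
    have h3 := hP (2 * k + 1)
    beta_reduce at h3
    rw [h2] at h3
    simp only [Set.mem_ofPred_eq, Polynomial.eval_zero]
    push_cast at h3 ⊢
    exact h3.symm
  obtain ⟨N, hN⟩ := hne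
  apply hN
  have := hP N
  beta_reduce at this
  rw [this, h1, Polynomial.eval_zero]

theorem exists_first {J J' : ℤ → ℚ⟦X⟧} (hne : J ≠ J') :
    ∃ e, (∀ N, X ^ e ∣ J N - J' N) ∧ ∃ N, coeff e (J N - J' N) ≠ 0 := by
  have hex : ∃ n, ∃ N : ℤ, coeff n (J N - J' N) ≠ 0 := by
    by_contra hall
    push Not at hall
    apply hne
    funext N
    ext n
    have := hall n N
    rw [map_sub] at this
    linarith
  classical
  refine ⟨Nat.find hex, fun N => ?_, Nat.find_spec hex⟩
  rw [X_pow_dvd_iff]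
  intro m hm
  by_contra hc
  exact Nat.find_min hex hm ⟨N, hc⟩

/-- outside a finite set of `n` (independent of `m`) the surgeries are separated -/
theorem double_finite {J J' : ℤ → ℚ⟦X⟧} (h : JF J) (h' : JF J') (hne : J ≠ J') {ε : ℤ}
    (hε : ε = 1 ∨ ε = -1) : {n : ℤ | n ≠ 0 ∧ ∃ m : ℤ,
      ohtsuki n (doubleJ m ε J) = ohtsuki n (doubleJ m ε J')}.Finite := by
  obtain ⟨e, he, hne'⟩ := exists_first hne
  obtain ⟨i, hi, hdi⟩ := exists_del_ne h h' he hne'
  have hLp : Lp J J' e ε ≠ 0 := by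
    intro h0
    have h1 := Lp_coeff J J' e ε hi
    rw [h0, Polynomial.coeff_zero] at h1
    have h2 : ((2 * i + 1).doubleFactorial : ℚ) ≠ 0 := by
      exact_mod_cast (Nat.doubleFactorial_pos _).ne'
    have h3 : ((2 * (ε : ℚ)) ^ i) ≠ 0 := by
      apply pow_ne_zero
      rcases hε with rfl | rfl <;> norm_num
    exact (mul_ne_zero h2 (mul_ne_zero h3 hdi)) h1.symm
  have hfin : ((fun n : ℤ => (n : ℚ)) ⁻¹' {x : ℚ | (Lp J J' e ε).IsRoot x}).Finite := by
    apply Set.Finite.preimage (Int.cast_injective.injOn)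
    exact Polynomial.finite_setOfPred_isRoot hLp
  refine hfin.subset ?_
  rintro n ⟨hn, m, hm⟩
  change (Lp J J' e ε).IsRoot (n : ℚ)
  rw [Polynomial.IsRoot, Lp_eval, ← double_lead h h' he hε m hn, hm, sub_self, map_zero]

/-- no exceptional `n` if the functions differ in degree at most three -/
theorem double_ne {J J' : ℤ → ℚ⟦X⟧} (h : JF J) (h' : JF J')
    (hne : ∃ N, ¬ X ^ 4 ∣ J N - J' N) {ε : ℤ} (hε : ε = 1 ∨ ε = -1) {n : ℤ} (hn : n ≠ 0)
    (m : ℤ) : ohtsuki n (doubleJ m ε J) ≠ ohtsuki n (doubleJ m ε J') := by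
  intro hm
  have hJ : J ≠ J' := by
    rintro rfl
    obtain ⟨N, hN⟩ := hne
    rw [sub_self] at hN
    exact hN (dvd_zero _)
  obtain ⟨e, he, hne'⟩ := exists_first hJ
  have he3 : e ≤ 3 := by
    by_contra h4
    obtain ⟨N, hN⟩ := hne
    exact hN ((pow_dvd_pow _ (by omega)).trans (he N))
  obtain ⟨i, hi, hdi⟩ := exists_del_ne h h' he hne'
  have h2 : ∀ i, 2 ≤ i → del J J' e i = 0 := by
    intro i hi
    unfold del
    have h1 : X ^ (2 * i) ∣ annulus (fun N => J N - J' N) 0 i := by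
      rw [← annulus_sub]
      exact dvd_sub (annulus_dvd0 h.odd h.bd i) (annulus_dvd0 h'.odd h'.bd i)
    rw [X_pow_dvd_iff] at h1
    exact h1 e (by omega)
  have h0 : del J J' e 0 = 0 := by
    unfold del
    rw [← annulus_sub, annulus_zero h.one, annulus_zero h'.one, sub_self, map_zero]
  have hi1 : i = 1 := by
    by_contra hc
    rcases Nat.lt_or_ge i 2 with h3 | h3
    · rw [show i = 0 by omega] at hdi
      exact hdi h0
    · exact hdi (h2 i h3)
  subst hi1
  have key := double_lead h h' he hε m hn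
  rw [hm, sub_self, map_zero, Finset.sum_eq_single 1] at key
  · have h3 : ((2 * (ε : ℚ)) ^ 1) ≠ 0 := by
      apply pow_ne_zero
      rcases hε with rfl | rfl <;> norm_num
    have h4 : ((2 * 1 + 1).doubleFactorial : ℚ) ≠ 0 := by
      exact_mod_cast (Nat.doubleFactorial_pos _).ne'
    have h5 : (n : ℚ) ^ 1 ≠ 0 := pow_ne_zero _ (by exact_mod_cast hn)
    exact (mul_ne_zero (mul_ne_zero h4 h5) (mul_ne_zero h3 hdi)) key.symm
  · intro j _ hj
    rcases Nat.lt_or_ge j 2 with h3 | h3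
    · rw [show j = 0 by omega, h0]
      ring
    · rw [h2 j h3]
      ring
  · intro hc
    exfalso
    apply hc
    rw [Finset.mem_range]
    omega

/-- the coefficient of `h` (the Casson invariant) -/
theorem casson {J : ℤ → ℚ⟦X⟧} (h : JF J) {ε : ℤ} (hε : ε = 1 ∨ ε = -1) (m : ℤ) {n : ℤ}
    (hn : n ≠ 0) : coeff 1 (ohtsuki n (doubleJ m ε J)) = 12 * n * m * ε := by
  set β : ℕ → ℚ⟦X⟧ := fun i => annulus J m i * annulus unknotJ ε i with hβ
  have h0 : β 0 = 1 := by
    simp only [hβ]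
    rw [annulus_zero h.one, annulus_zero unknotJ_one, one_mul]
  have h2i : ∀ i, X ^ (2 * i) ∣ β i := by
    intro i
    rw [two_mul, pow_add]
    exact mul_dvd_mul (annulus_dvd h.odd (h.bd.slope one_le_two) m i) (clasp_dvd hε i)
  have hβ1 : coeff 2 (β 1) = 4 * m * ε := by
    have a1 := annulus_lead (AL_twisted h.two m) (i := 1) le_rfl
    obtain ⟨v, hv, hvc⟩ := clasp_lead hε 1
    rw [if_pos rfl] at a1
    obtain ⟨r, hr⟩ := a1
    have e1 : annulus J m 1 = X ^ 1 * (C (4 * ((m : ℚ) / 2)) + X * r) := by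
      linear_combination hr
    simp only [hβ]
    rw [e1, hv, show X ^ 1 * (C (4 * ((m : ℚ) / 2)) + X * r) * (X ^ 1 * v) =
      X ^ 2 * ((C (4 * ((m : ℚ) / 2)) + X * r) * v) by ring, coeff_lead, map_mul, map_add,
      constantCoeff_C, map_mul, constantCoeff_X, hvc]
    ring
  have key := ohtsuki_lead (β := β) (β' := fun i => if i = 0 then 1 else 0) (e := 1) h2i
    (fun i => by
      rcases Nat.eq_zero_or_pos i with rfl | hi
      · simp
      · rw [if_neg (by omega)]; exact dvd_zero _)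
    (fun i => by
      rcases Nat.eq_zero_or_pos i with rfl | hi
      · rw [h0, if_pos rfl, sub_self]; exact dvd_zero _
      · rw [if_neg (by omega), sub_zero]
        exact (pow_dvd_pow _ (by omega)).trans (h2i i)) hn
  have e0 : cyc (fun i => if i = 0 then (1 : ℚ⟦X⟧) else 0) = unknotJ := by
    funext N
    rw [cyc_eq_sum (M := N.natAbs + 1) _ (Nat.le_succ _), Finset.sum_range_succ',
      Finset.sum_eq_zero, zero_add]
    · simp [FF]
    · intro i _
      simp
  have e1 : doubleJ m ε J = cyc β := rfl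
  rw [e0, ohtsuki_unknot, ← e1] at key
  have k2 := key.2
  rw [map_sub, coeff_one, if_neg one_ne_zero, sub_zero, Finset.sum_range_succ,
    Finset.sum_range_one] at k2
  rw [k2, h0, if_pos rfl, sub_self, map_zero, if_neg one_ne_zero, sub_zero,
    show 1 + 1 = 2 from rfl, hβ1]
  norm_num [Nat.doubleFactorial]
  ring

end

end Pool.Agent.H765.MM
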