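import Mathlib
import Pool.Agent.H765.MM.Pairs

/-! Torus knots are distinguished by the Vassiliev invariants of order two and three. -/

namespace Pool.Agent.H765.MM

open PowerSeries GK DB Pool.Agent.H765.ST

noncomputable section

/-- the torus knot `T(p, q)` -/
abbrev torus (p : ℕ) (q : ℤ) (hp : 2 ≤ p) (hq : IsCoprime (p : ℤ) q) : GraphKnot :=
  GraphKnot.cable p q hp hq GraphKnot.unknot

theorem torus_two (p : ℕ) (q : ℤ) : cableJ p q unknotJ 2 =
    hexp (-(p * q)) * (hexp q * unknotJ (p + 1) - hexp (-q) * unknotJ (p - 1)) := by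
  have h := cableJ_natCast p q unknotJ 2
  rw [show ((2 : ℕ) : ℤ) = 2 from rfl] at h
  rw [h, show (2 : ℕ) = 0 + 2 from rfl, symSum_add_two, symSum_zero, zero_add]
  push_cast
  have e1 : (p : ℤ) * 1 + 1 = p + 1 := by ring
  have e2 : (p : ℤ) * -1 + 1 = -(p - 1) := by ring
  rw [e1, e2, unknotJ_neg, zero_add]
  have a1 : hexp (-(p * q * (2 ^ 2 - 1)) / 2) * hexp (q * 1 * (p * 1 + 2) / 2) =
      hexp (-(p * q : ℚ)) * hexp q := by
    rw [← hexp_add, ← hexp_add]
    congr 1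
    ring
  have a2 : hexp (-(p * q * (2 ^ 2 - 1)) / 2) * hexp (q * -1 * (p * -1 + 2) / 2) =
      hexp (-(p * q : ℚ)) * hexp (-q) := by
    rw [← hexp_add, ← hexp_add]
    congr 1
    ring
  linear_combination unknotJ (p + 1) * a1 - unknotJ (p - 1) * a2

theorem t4_torus (p : ℕ) (q : ℤ) : T4 (cableJ p q unknotJ 2) 2 0
    (1 - ((p : ℚ) ^ 2 - 1) * ((q : ℚ) ^ 2 - 1))
    (2 / 3 * ((p * q) * (((p : ℚ) ^ 2 - 1) * ((q : ℚ) ^ 2 - 1)))) := by
  rw [torus_two]
  have h := (t4_hexp (-(p * q))).mul (((t4_hexp q).mul (t4_unknotJ (p + 1))).sub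
    ((t4_hexp (-q)).mul (t4_unknotJ (p - 1))))
  obtain ⟨h0, h1, h2, h3⟩ := h
  refine ⟨h0.trans ?_, h1.trans ?_, h2.trans ?_, h3.trans ?_⟩
  · push_cast; ring
  · push_cast; ring
  · push_cast; ring
  · push_cast; ring

theorem torus_isotopic {p p' : ℕ} {q q' : ℤ} (hp : 2 ≤ p) (hq : IsCoprime (p : ℤ) q)
    (hp' : 2 ≤ p') (hq' : IsCoprime (p' : ℤ) q')
    (h1 : ((p : ℤ) ^ 2 - 1) * (q ^ 2 - 1) = ((p' : ℤ) ^ 2 - 1) * (q' ^ 2 - 1))
    (h2 : (p * q) * (((p : ℤ) ^ 2 - 1) * (q ^ 2 - 1)) =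
      (p' * q') * (((p' : ℤ) ^ 2 - 1) * (q' ^ 2 - 1))) :
    Isotopic (torus p q hp hq) (torus p' q' hp' hq') := by
  have hpz : (2 : ℤ) ≤ p := by exact_mod_cast hp
  have hpz' : (2 : ℤ) ≤ p' := by exact_mod_cast hp'
  by_cases h0 : ((p : ℤ) ^ 2 - 1) * (q ^ 2 - 1) = 0
  · have hu : ∀ (p : ℕ) (q : ℤ) (hp : 2 ≤ p) (hq : IsCoprime (p : ℤ) q),
        ((p : ℤ) ^ 2 - 1) * (q ^ 2 - 1) = 0 → Isotopic (torus p q hp hq) GraphKnot.unknot := by
      intro p q hp hq h0
      have hpz : (2 : ℤ) ≤ p := by exact_mod_cast hp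
      have h3 : q ^ 2 - 1 = 0 := by
        rcases mul_eq_zero.mp h0 with h | h
        · nlinarith
        · exact h
      have h4 : q = 1 ∨ q = -1 := by
        have : (q - 1) * (q + 1) = 0 := by linarith [h3, (by ring : (q - 1) * (q + 1) = q ^ 2 - 1)]
        rcases mul_eq_zero.mp this with h | h
        · left; linarith
        · right; linarith
      exact Isotopic.torus_one p q h4 hp hq
    exact (hu p q hp hq h0).trans (hu p' q' hp' hq' (h1 ▸ h0)).symm
  · have hP : (p : ℤ) * q = p' * q' := by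
      rw [← h1] at h2
      exact mul_right_cancel₀ h0 h2
    have hq0 : q ≠ 0 := by
      rintro rfl
      rw [isCoprime_zero_right] at hq
      have := Int.isUnit_iff.mp hq
      omega
    have hq0' : q' ≠ 0 := by
      rintro rfl
      rw [isCoprime_zero_right] at hq'
      have := Int.isUnit_iff.mp hq'
      omega
    have hS : (p : ℤ) ^ 2 + q ^ 2 = p' ^ 2 + q' ^ 2 := by
      have e : ((p : ℤ) * q) ^ 2 = (p' * q') ^ 2 := by rw [hP]
      nlinarith
    have hprod : ((p : ℤ) ^ 2 - p' ^ 2) * ((p : ℤ) ^ 2 - q' ^ 2) = 0 := by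
      have e : ((p : ℤ) * q) ^ 2 = (p' * q') ^ 2 := by rw [hP]
      have e2 : q ^ 2 = (p' : ℤ) ^ 2 + q' ^ 2 - p ^ 2 := by linarith
      have e3 : (p : ℤ) ^ 2 * q ^ 2 = p' ^ 2 * q' ^ 2 := by nlinarith
      rw [e2] at e3
      nlinarith
    rcases mul_eq_zero.mp hprod with h3 | h3
    · have hpp : (p : ℤ) = p' := by
        have : ((p : ℤ) - p') * (p + p') = 0 := by linarith [h3,
          (by ring : ((p : ℤ) - p') * (p + p') = (p : ℤ) ^ 2 - p' ^ 2)]
        rcases mul_eq_zero.mp this with h | h <;> linarith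
      have hpp' : p = p' := by exact_mod_cast hpp
      subst hpp'
      have hqq : q = q' := mul_left_cancel₀ (by positivity) hP
      subst hqq
      exact Isotopic.refl _
    · have h4 : q' = p ∨ q' = -p := by
        have : ((q' : ℤ) - p) * (q' + p) = 0 := by linarith [h3,
          (by ring : ((q' : ℤ) - p) * (q' + p) = -((p : ℤ) ^ 2 - q' ^ 2))]
        rcases mul_eq_zero.mp this with h | h
        · left; linarith
        · right; linarith
      have hpne : (p : ℤ) ≠ 0 := by positivity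
      rcases h4 with h4 | h4
      · have hqq : q = p' := by
          rw [h4] at hP
          apply mul_left_cancel₀ hpne
          rw [hP]; ring
        have e1 : q = 1 * (p' : ℤ) := by rw [hqq, one_mul]
        have e2 : q' = 1 * (p : ℤ) := by rw [h4, one_mul]
        subst e1 e2
        exact Isotopic.torus_swap p p' 1 (Or.inl rfl) hp hp' hq hq'
      · have hqq : q = -p' := by
          rw [h4] at hP
          apply mul_left_cancel₀ hpne
          rw [hP]; ring
        have e1 : q = (-1) * (p' : ℤ) := by rw [hqq]; ring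
        have e2 : q' = (-1) * (p : ℤ) := by rw [h4]; ring
        subst e1 e2
        exact Isotopic.torus_swap p p' (-1) (Or.inr rfl) hp hp' hq hq'

theorem torus_differ {p p' : ℕ} {q q' : ℤ} (hp : 2 ≤ p) (hq : IsCoprime (p : ℤ) q)
    (hp' : 2 ≤ p') (hq' : IsCoprime (p' : ℤ) q')
    (h : ¬ Isotopic (torus p q hp hq) (torus p' q' hp' hq')) :
    ¬ X ^ 4 ∣ colouredJones (torus p q hp hq) 2 - colouredJones (torus p' q' hp' hq') 2 := by
  intro hd
  apply h
  have h1 : T4 (colouredJones (torus p' q' hp' hq') 2) _ _ _ _ := t4_torus p' q'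
  have h2 := T4.of_dvd hd h1
  obtain ⟨_, _, e1, e2⟩ := h2.unique (t4_torus p q)
  apply torus_isotopic
  · have : ((p : ℚ) ^ 2 - 1) * ((q : ℚ) ^ 2 - 1) = ((p' : ℚ) ^ 2 - 1) * ((q' : ℚ) ^ 2 - 1) := by
      linarith
    exact_mod_cast this
  · have : ((p : ℚ) * q) * (((p : ℚ) ^ 2 - 1) * ((q : ℚ) ^ 2 - 1)) =
        (p' * q') * (((p' : ℚ) ^ 2 - 1) * ((q' : ℚ) ^ 2 - 1)) := by
      linarith
    exact_mod_cast this

theorem jf_graph (K : GraphKnot) : JF (colouredJones K) :=
  ⟨colouredJones_odd K, colouredJones_one K, graph_bd K, (knotFn_graph K).two⟩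

/-- torus knots and the unknot are separated in degree at most three -/
theorem torus_unknot {p : ℕ} {q : ℤ} (hp : 2 ≤ p) (hq : IsCoprime (p : ℤ) q)
    (h : ¬ Isotopic (torus p q hp hq) GraphKnot.unknot) :
    ¬ X ^ 4 ∣ colouredJones (torus p q hp hq) 2 - unknotJ 2 := by
  intro hd
  apply h
  have h2 := T4.of_dvd hd (t4_unknotJ 2)
  obtain ⟨_, _, e1, _⟩ := h2.unique (t4_torus p q)
  have h0 : ((p : ℚ) ^ 2 - 1) * ((q : ℚ) ^ 2 - 1) = 0 := by
    push_cast at e1
    linarith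
  have h0' : ((p : ℤ) ^ 2 - 1) * (q ^ 2 - 1) = 0 := by exact_mod_cast h0
  have hpz : (2 : ℤ) ≤ p := by exact_mod_cast hp
  have h3 : q ^ 2 - 1 = 0 := by
    rcases mul_eq_zero.mp h0' with h | h
    · nlinarith
    · exact h
  have h4 : q = 1 ∨ q = -1 := by
    have : (q - 1) * (q + 1) = 0 := by linarith [h3, (by ring : (q - 1) * (q + 1) = q ^ 2 - 1)]
    rcases mul_eq_zero.mp this with h | h
    · left; linarith
    · right; linarith
  exact Isotopic.torus_one p q h4 hp hq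

end

end Pool.Agent.H765.MM
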