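import Mathlib
import Pool.Agent.H765.GK.Def
import Pool.Agent.H765.ST.Ops

/-! The functional `P ↦ (P(d/dy) u)(0)` and its integrality. -/

namespace Pool.Agent.H765.MM

open PowerSeries GK

noncomputable section

/-- `(P(d/dy) u)(0)` -/
def Phi (u : ℚ⟦X⟧) : Polynomial ℚ →ₗ[ℚ] ℚ :=
  Polynomial.lsum fun j => ((j.factorial : ℚ) * coeff j u) • LinearMap.id

theorem Phi_monomial (u : ℚ⟦X⟧) (j : ℕ) (a : ℚ) :
    Phi u (Polynomial.monomial j a) = j.factorial * coeff j u * a := by
  simp [Phi, Polynomial.lsum_apply, Polynomial.sum_monomial_index]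

theorem Phi_X_pow (u : ℚ⟦X⟧) (j : ℕ) : Phi u (Polynomial.X ^ j) = j.factorial * coeff j u := by
  rw [Polynomial.X_pow_eq_monomial, Phi_monomial, mul_one]

theorem Phi_add_left (u v : ℚ⟦X⟧) (P : Polynomial ℚ) : Phi (u + v) P = Phi u P + Phi v P := by
  induction P using Polynomial.induction_on' with
  | add P Q hP hQ => rw [map_add, map_add, map_add, hP, hQ]; ring
  | monomial j a => rw [Phi_monomial, Phi_monomial, Phi_monomial, map_add]; ring

theorem Phi_smul_left (c : ℚ) (u : ℚ⟦X⟧) (P : Polynomial ℚ) : Phi (C c * u) P = c * Phi u P := by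
  induction P using Polynomial.induction_on' with
  | add P Q hP hQ => rw [map_add, map_add, hP, hQ]; ring
  | monomial j a => rw [Phi_monomial, Phi_monomial, coeff_C_mul]; ring

theorem Phi_zero_left (P : Polynomial ℚ) : Phi 0 P = 0 := by
  have := Phi_smul_left 0 0 P
  simpa using this

theorem Phi_sum_left {ι : Type*} (s : Finset ι) (f : ι → ℚ⟦X⟧) (P : Polynomial ℚ) :
    Phi (∑ i ∈ s, f i) P = ∑ i ∈ s, Phi (f i) P := by
  classical
  induction s using Finset.induction_on with
  | empty => simp [Phi_zero_left]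
  | insert a s ha ih => rw [Finset.sum_insert ha, Finset.sum_insert ha, Phi_add_left, ih]

/-- multiplication by an exponential -/
theorem Phi_hexp_mul (b : ℚ) (u : ℚ⟦X⟧) (P : Polynomial ℚ) :
    Phi (hexp b * u) P = Phi u (P.comp (Polynomial.X + Polynomial.C b)) := by
  induction P using Polynomial.induction_on' with
  | add P Q hP hQ => rw [map_add, hP, hQ, Polynomial.add_comp, map_add]
  | monomial j a =>
    rw [Phi_monomial, Polynomial.monomial_comp, ← Polynomial.smul_eq_C_mul, map_smul, smul_eq_mul,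
      add_pow, map_sum, coeff_mul, Finset.Nat.sum_antidiagonal_eq_sum_range_succ_mk,
      ← Finset.sum_range_reflect, Finset.mul_sum, Finset.sum_mul, Finset.mul_sum]
    apply Finset.sum_congr rfl
    intro k hk
    have hk' : k ≤ j := by
      have := Finset.mem_range.mp hk
      omega
    have e1 : j + 1 - 1 - k = j - k := by omega
    have e2 : j - (j - k) = k := by omega
    simp only [e1, e2]
    have e3 : Polynomial.X ^ k * Polynomial.C b ^ (j - k) * ((j.choose k : ℕ) : Polynomial ℚ) =
        (b ^ (j - k) * (j.choose k : ℚ)) • (Polynomial.X : Polynomial ℚ) ^ k := by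
      rw [Polynomial.smul_eq_C_mul, Polynomial.C_mul, Polynomial.C_pow]
      rw [show (Polynomial.C ((j.choose k : ℕ) : ℚ) : Polynomial ℚ) = ((j.choose k : ℕ) :
        Polynomial ℚ) from Polynomial.C_eq_natCast _]
      ring
    rw [e3, map_smul, Phi_X_pow, smul_eq_mul, coeff_hexp]
    have h1 : ((j.choose k : ℕ) : ℚ) = (j.factorial : ℚ) / ((k.factorial : ℚ) *
        ((j - k).factorial : ℚ)) := Nat.cast_choose ℚ hk'
    have h2 : (k.factorial : ℚ) ≠ 0 := by exact_mod_cast k.factorial_ne_zero
    have h3 : ((j - k).factorial : ℚ) ≠ 0 := by exact_mod_cast (j - k).factorial_ne_zero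
    rw [h1]
    field_simp

theorem Phi_one (P : Polynomial ℚ) : Phi 1 P = P.eval 0 := by
  induction P using Polynomial.induction_on' with
  | add P Q hP hQ => rw [map_add, hP, hQ, Polynomial.eval_add]
  | monomial j a =>
    rw [Phi_monomial, coeff_one, Polynomial.eval_monomial]
    rcases Nat.eq_zero_or_pos j with rfl | h
    · simp
    · rw [if_neg h.ne', zero_pow h.ne']
      ring

theorem Phi_hexp (b : ℚ) (P : Polynomial ℚ) : Phi (hexp b) P = P.eval b := by
  have := Phi_hexp_mul b 1 P
  rw [mul_one, Phi_one, Polynomial.eval_comp] at this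
  rw [this]
  simp

/-- the derivative -/
theorem Phi_deriv (u : ℚ⟦X⟧) (P : Polynomial ℚ) :
    Phi (PowerSeries.derivative ℚ u) P = Phi u (Polynomial.X * P) := by
  induction P using Polynomial.induction_on' with
  | add P Q hP hQ => rw [map_add, hP, hQ, mul_add, map_add]
  | monomial j a =>
    rw [Phi_monomial, Polynomial.X_mul_monomial, Phi_monomial]
    rw [PowerSeries.coeff_derivative, Nat.factorial_succ]
    push_cast
    ring

/-- evaluation of polynomials at `e^y` -/
def ev : Polynomial ℤ →+* ℚ⟦X⟧ := Polynomial.eval₂RingHom (Int.castRingHom _) (hexp 1)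

theorem hexp_nat (i : ℕ) : hexp 1 ^ i = hexp i := by
  induction i with
  | zero => simp [hexp_zero]
  | succ i ih => rw [pow_succ, ih, ← hexp_add]; push_cast; rfl

theorem ev_eq (L : Polynomial ℤ) : ev L = ∑ i ∈ Finset.range (L.natDegree + 1),
    C ((L.coeff i : ℤ) : ℚ) * hexp i := by
  rw [ev, Polynomial.coe_eval₂RingHom, Polynomial.eval₂_eq_sum_range]
  apply Finset.sum_congr rfl
  intro i _
  rw [hexp_nat]
  congr 1
  simp

theorem Phi_ev_mul (L : Polynomial ℤ) (u : ℚ⟦X⟧) (P : Polynomial ℚ) :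
    Phi (ev L * u) P = ∑ i ∈ Finset.range (L.natDegree + 1),
      (L.coeff i : ℚ) * Phi u (P.comp (Polynomial.X + Polynomial.C (i : ℚ))) := by
  rw [ev_eq, Finset.sum_mul, Phi_sum_left]
  apply Finset.sum_congr rfl
  intro i _
  rw [mul_assoc, Phi_smul_left, Phi_hexp_mul]

theorem Phi_ev (L : Polynomial ℤ) (P : Polynomial ℚ) :
    Phi (ev L) P = ∑ i ∈ Finset.range (L.natDegree + 1), (L.coeff i : ℚ) * P.eval (i : ℚ) := by
  have := Phi_ev_mul L 1 P
  rw [mul_one] at this
  rw [this]
  apply Finset.sum_congr rfl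
  intro i _
  rw [Phi_one, Polynomial.eval_comp]
  simp

end

end Pool.Agent.H765.MM
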