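import Mathlib
import Pool.Agent.H765.MM.Phi

/-! Divisibility by powers of a prime in the rational numbers; integrality of the functional. -/

namespace Pool.Agent.H765.MM

open PowerSeries GK

noncomputable section

/-- `x` is `p^N` times a `p`-integral rational number. -/
def Sm (p N : ℕ) (x : ℚ) : Prop := ∃ a b : ℤ, ¬ (p : ℤ) ∣ b ∧ x * b = (p : ℚ) ^ N * a

variable {p : ℕ}

theorem Sm.zero (hp : p.Prime) (N : ℕ) : Sm p N 0 :=
  ⟨0, 1, fun h => hp.one_lt.ne' (by exact_mod_cast Int.eq_one_of_dvd_one (by positivity) h),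
    by simp⟩

theorem Sm.int (hp : p.Prime) {N : ℕ} {x : ℤ} (h : (p : ℤ) ^ N ∣ x) : Sm p N x := by
  obtain ⟨a, ha⟩ := h
  refine ⟨a, 1, fun h => hp.one_lt.ne' (by
    exact_mod_cast Int.eq_one_of_dvd_one (by positivity) h), ?_⟩
  rw [ha]
  push_cast
  ring

theorem Sm.int0 (hp : p.Prime) (x : ℤ) : Sm p 0 x := Sm.int hp (by simp)

theorem Sm.add (hp : p.Prime) {N : ℕ} {x y : ℚ} (hx : Sm p N x) (hy : Sm p N y) :
    Sm p N (x + y) := by
  obtain ⟨a, b, hb, h⟩ := hx
  obtain ⟨a', b', hb', h'⟩ := hy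
  refine ⟨a * b' + a' * b, b * b', ?_, ?_⟩
  · intro hd
    rcases (Nat.prime_iff_prime_int.mp hp).dvd_or_dvd hd with h1 | h1
    · exact hb h1
    · exact hb' h1
  · push_cast
    linear_combination (b' : ℚ) * h + (b : ℚ) * h'

theorem Sm.mul (hp : p.Prime) {N M : ℕ} {x y : ℚ} (hx : Sm p N x) (hy : Sm p M y) :
    Sm p (N + M) (x * y) := by
  obtain ⟨a, b, hb, h⟩ := hx
  obtain ⟨a', b', hb', h'⟩ := hy
  refine ⟨a * a', b * b', ?_, ?_⟩
  · intro hd
    rcases (Nat.prime_iff_prime_int.mp hp).dvd_or_dvd hd with h1 | h1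
    · exact hb h1
    · exact hb' h1
  · push_cast
    rw [pow_add]
    linear_combination (y * b') * h + (p : ℚ) ^ N * a * h'

theorem Sm.neg {N : ℕ} {x : ℚ} (hx : Sm p N x) : Sm p N (-x) := by
  obtain ⟨a, b, hb, h⟩ := hx
  refine ⟨-a, b, hb, ?_⟩
  push_cast
  linear_combination -h

theorem Sm.sub (hp : p.Prime) {N : ℕ} {x y : ℚ} (hx : Sm p N x) (hy : Sm p N y) :
    Sm p N (x - y) := by
  rw [sub_eq_add_neg]
  exact hx.add hp hy.neg

theorem Sm.mono {N M : ℕ} (h : N ≤ M) {x : ℚ} (hx : Sm p M x) : Sm p N x := by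
  obtain ⟨a, b, hb, h1⟩ := hx
  refine ⟨p ^ (M - N) * a, b, hb, ?_⟩
  rw [h1]
  push_cast
  rw [← mul_assoc, ← pow_add, show N + (M - N) = M by omega]

theorem Sm.sum (hp : p.Prime) {ι : Type*} {s : Finset ι} {N : ℕ} {f : ι → ℚ}
    (h : ∀ i ∈ s, Sm p N (f i)) : Sm p N (∑ i ∈ s, f i) := by
  classical
  induction s using Finset.induction_on with
  | empty => simpa using Sm.zero hp N
  | insert a s ha ih =>
    rw [Finset.sum_insert ha]
    exact (h a (Finset.mem_insert_self a s)).add hp (ih fun i hi => h i (Finset.mem_insert_of_mem hi))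

theorem Sm.mul0 (hp : p.Prime) {N : ℕ} {x y : ℚ} (hx : Sm p 0 x) (hy : Sm p N y) :
    Sm p N (x * y) := by
  have := hx.mul hp hy
  rwa [zero_add] at this

theorem Sm.mul_zero' (hp : p.Prime) {N : ℕ} {x y : ℚ} (hx : Sm p N x) (hy : Sm p 0 y) :
    Sm p N (x * y) := by
  have := hx.mul hp hy
  rwa [add_zero] at this

theorem Sm.pow (hp : p.Prime) {x : ℚ} (hx : Sm p 0 x) (k : ℕ) : Sm p 0 (x ^ k) := by
  induction k with
  | zero => simpa using Sm.int0 hp 1
  | succ k ih => rw [pow_succ]; exact ih.mul0 hp hx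

/-- congruences -/
theorem Sm.pow_sub (hp : p.Prime) {N : ℕ} {x y : ℚ} (hx : Sm p 0 x) (hy : Sm p 0 y)
    (h : Sm p N (x - y)) (k : ℕ) : Sm p N (x ^ k - y ^ k) := by
  induction k with
  | zero => simpa using Sm.zero hp N
  | succ k ih =>
    rw [show x ^ (k + 1) - y ^ (k + 1) = x * (x ^ k - y ^ k) + (x - y) * y ^ k by ring]
    exact (hx.mul0 hp ih).add hp (h.mul_zero' hp (hy.pow hp k))

theorem Sm.dvd_int (hp : p.Prime) {N : ℕ} {x : ℤ} (h : Sm p N x) : (p : ℤ) ^ N ∣ x := by
  obtain ⟨a, b, hb, h1⟩ := h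
  have h2 : x * b = (p : ℤ) ^ N * a := by exact_mod_cast h1
  have h3 : IsCoprime ((p : ℤ) ^ N) b := by
    apply IsCoprime.pow_left
    exact (Prime.coprime_iff_not_dvd (Nat.prime_iff_prime_int.mp hp)).mpr hb
  exact h3.dvd_of_dvd_mul_right ⟨a, h2⟩

/-- every rational number has a `p`-integral multiple by a power of `p` -/
theorem exists_Sm (hp : p.Prime) (x : ℚ) : ∃ M, Sm p 0 ((p : ℚ) ^ M * x) := by
  obtain ⟨M, d, hd, h⟩ := Nat.exists_eq_pow_mul_and_not_dvd x.den_nz p hp.ne_one
  refine ⟨M, x.num, d, fun hc => hd (by exact_mod_cast hc), ?_⟩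
  have h1 : x * x.den = x.num := Rat.mul_den_eq_num x
  rw [h] at h1
  push_cast at h1 ⊢
  linear_combination h1

theorem exists_Sm_eval (hp : p.Prime) (F : Polynomial ℚ) :
    ∃ M, ∀ r : ℤ, Sm p 0 ((p : ℚ) ^ M * F.eval (r : ℚ)) := by
  induction F using Polynomial.induction_on' with
  | add P Q hP hQ =>
    obtain ⟨M, hM⟩ := hP
    obtain ⟨M', hM'⟩ := hQ
    refine ⟨M + M', fun r => ?_⟩
    rw [Polynomial.eval_add, show (p : ℚ) ^ (M + M') * (P.eval (r : ℚ) + Q.eval (r : ℚ)) =
      (p : ℚ) ^ M' * ((p : ℚ) ^ M * P.eval (r : ℚ)) + (p : ℚ) ^ M * ((p : ℚ) ^ M' * Q.eval (r : ℚ))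
      by ring]
    have h1 : Sm p 0 ((p : ℚ) ^ M') := by exact_mod_cast (Sm.int0 hp (p ^ M'))
    have h2 : Sm p 0 ((p : ℚ) ^ M) := by exact_mod_cast (Sm.int0 hp (p ^ M))
    exact (h1.mul0 hp (hM r)).add hp (h2.mul0 hp (hM' r))
  | monomial j a =>
    obtain ⟨M, hM⟩ := exists_Sm hp a
    refine ⟨M, fun r => ?_⟩
    rw [Polynomial.eval_monomial, ← mul_assoc]
    exact hM.mul0 hp ((Sm.int0 hp r).pow hp j)

/-- `P` takes values in `p^N ℤ_(p)` at all integers. -/
def Val (p N : ℕ) (P : Polynomial ℚ) : Prop := ∀ m : ℤ, Sm p N (P.eval (m : ℚ))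

theorem taylor_sub_degree (P : Polynomial ℚ) (hP : P ≠ 0) (r : ℚ) :
    (P.comp (Polynomial.X + Polynomial.C r) - P).degree < P.degree := by
  rw [← Polynomial.taylor_apply]
  have := Polynomial.degree_sub_lt_left (p := Polynomial.taylor r P) (q := P)
    (Polynomial.degree_taylor P r) (by rwa [Ne, Polynomial.taylor_eq_zero])
    (Polynomial.leadingCoeff_taylor r P)
  rwa [Polynomial.degree_taylor] at this

/-- integrality of the functional -/
theorem Phi_int (hp : p.Prime) {w : ℚ⟦X⟧} {A B : Polynomial ℤ} (hB : B.eval 1 = 1)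
    (h : ev B * w = ev A) {N : ℕ} {P : Polynomial ℚ} (hP : Val p N P) : Sm p N (Phi w P) := by
  have key : ∀ n : ℕ, ∀ P : Polynomial ℚ, P.degree < n → Val p N P → Sm p N (Phi w P) := by
    intro n
    induction n with
    | zero =>
      intro P hd _
      have h0 : P = 0 := by
        rw [Nat.cast_zero] at hd
        exact Polynomial.degree_eq_bot.mp (Nat.WithBot.lt_zero_iff.mp hd)
      rw [h0, map_zero]
      exact Sm.zero hp N
    | succ n ih =>
      intro P hd hP
      rcases eq_or_ne P 0 with h0 | h0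
      · rw [h0, map_zero]
        exact Sm.zero hp N
      have h1 := Phi_ev_mul B w P
      rw [h, Phi_ev] at h1
      have hs : ∑ i ∈ Finset.range (B.natDegree + 1), (B.coeff i : ℚ) = 1 := by
        have := hB
        rw [Polynomial.eval_eq_sum_range] at this
        simp only [one_pow, mul_one] at this
        exact_mod_cast this
      have h2 : Phi w P = ∑ i ∈ Finset.range (A.natDegree + 1), (A.coeff i : ℚ) * P.eval (i : ℚ) -
          ∑ i ∈ Finset.range (B.natDegree + 1), (B.coeff i : ℚ) *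
            Phi w (P.comp (Polynomial.X + Polynomial.C (i : ℚ)) - P) := by
        rw [h1, ← Finset.sum_sub_distrib]
        calc Phi w P = (∑ i ∈ Finset.range (B.natDegree + 1), (B.coeff i : ℚ)) * Phi w P := by
              rw [hs, one_mul]
          _ = _ := by
              rw [Finset.sum_mul]
              apply Finset.sum_congr rfl
              intro i _
              rw [map_sub]
              ring
      rw [h2]
      refine Sm.sub hp (Sm.sum hp fun i _ => ?_) (Sm.sum hp fun i _ => ?_)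
      · exact (Sm.int0 hp _).mul0 hp (by exact_mod_cast hP i)
      · refine (Sm.int0 hp _).mul0 hp (ih _ ?_ ?_)
        · refine lt_of_lt_of_le (taylor_sub_degree P h0 i) ?_
          rw [Polynomial.degree_eq_natDegree h0] at hd ⊢
          have h5 : P.natDegree < n + 1 := by exact_mod_cast hd
          exact_mod_cast Nat.lt_succ_iff.mp h5
        · intro m
          rw [Polynomial.eval_sub, Polynomial.eval_comp, Polynomial.eval_add, Polynomial.eval_X,
            Polynomial.eval_C]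
          refine Sm.sub hp ?_ (hP m)
          have := hP (m + i)
          push_cast at this
          exact this
  exact key (P.natDegree + 1) P (by
    rw [Nat.cast_succ]
    exact lt_of_le_of_lt Polynomial.degree_le_natDegree (by exact_mod_cast Nat.lt_succ_self _)) hP

end

end Pool.Agent.H765.MM
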