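import Mathlib
import Pool.Agent.H765.MM.Sm

/-! The `p`-adic argument. -/

namespace Pool.Agent.H765.MM

open PowerSeries GK

noncomputable section

variable {p : ℕ}

theorem Val.add (hp : p.Prime) {N : ℕ} {P Q : Polynomial ℚ} (hP : Val p N P) (hQ : Val p N Q) :
    Val p N (P + Q) := fun m => by
  rw [Polynomial.eval_add]
  exact (hP m).add hp (hQ m)

theorem Val.mul (hp : p.Prime) {N M : ℕ} {P Q : Polynomial ℚ} (hP : Val p N P) (hQ : Val p M Q) :
    Val p (N + M) (P * Q) := fun m => by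
  rw [Polynomial.eval_mul]
  exact (hP m).mul hp (hQ m)

theorem Val.X (hp : p.Prime) : Val p 0 Polynomial.X := fun m => by
  rw [Polynomial.eval_X]
  exact Sm.int0 hp m

theorem Val.mul0 (hp : p.Prime) {N : ℕ} {P Q : Polynomial ℚ} (hP : Val p 0 P) (hQ : Val p N Q) :
    Val p N (P * Q) := by
  have := hP.mul hp hQ
  rwa [zero_add] at this

theorem Val.mul_zero' (hp : p.Prime) {N : ℕ} {P Q : Polynomial ℚ} (hP : Val p N P)
    (hQ : Val p 0 Q) : Val p N (P * Q) := by
  have := hP.mul hp hQ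
  rwa [add_zero] at this

theorem Phi_odd {w : ℚ⟦X⟧} (h : ∀ k, Even k → coeff k w = 0) (F : Polynomial ℚ) :
    Phi w (F.comp (-Polynomial.X)) = - Phi w F := by
  induction F using Polynomial.induction_on' with
  | add P Q hP hQ => rw [Polynomial.add_comp, map_add, map_add, hP, hQ]; ring
  | monomial j a =>
    rw [Polynomial.monomial_comp, Phi_monomial, neg_pow, ← mul_assoc,
      show Polynomial.C a * (-1) ^ j = Polynomial.C (a * (-1) ^ j) by simp, ←
      Polynomial.smul_eq_C_mul, map_smul, Phi_X_pow, smul_eq_mul]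
    rcases Nat.even_or_odd j with hj | hj
    · rw [h j hj]
      ring
    · rw [hj.neg_one_pow]
      ring

/-- an even polynomial is a polynomial in `X^2` -/
theorem exists_even {P : Polynomial ℚ} (h : P.comp (-Polynomial.X) = P) :
    ∃ P₀ : Polynomial ℚ, P = P₀.comp (Polynomial.X ^ 2) := by
  refine ⟨Polynomial.contract 2 P, ?_⟩
  rw [← Polynomial.expand_eq_comp_X_pow]
  ext n
  rw [Polynomial.coeff_expand two_pos]
  split_ifs with hn
  · rw [Polynomial.coeff_contract two_ne_zero, Nat.div_mul_cancel hn]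
  · have h1 := congrArg (fun q => Polynomial.coeff q n) h
    have h2 : (P.comp (-Polynomial.X)).coeff n = P.coeff n * (-1) ^ n := by
      rw [show (-Polynomial.X : Polynomial ℚ) = Polynomial.C (-1) * Polynomial.X by simp,
        Polynomial.comp_C_mul_X_coeff]
    beta_reduce at h1
    rw [h2, (Nat.not_even_iff_odd.mp (fun hc => hn hc.two_dvd)).neg_one_pow] at h1
    linarith

/-- Fermat-Euler -/
theorem one_sub_pow (hp : p.Prime) {s : ℤ} (hs : ¬ (p : ℤ) ∣ s) (M : ℕ) :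
    (p : ℤ) ^ (M + 1) ∣ 1 - s ^ ((p - 1) * p ^ M) := by
  have hc : IsCoprime s p := ((Prime.coprime_iff_not_dvd (Nat.prime_iff_prime_int.mp hp)).mpr
    hs).symm
  have h1 : (p : ℤ) ∣ 1 - s ^ (p - 1) :=
    (Int.modEq_iff_dvd.mp (Int.ModEq.pow_card_sub_one_eq_one hp hc))
  have h2 := dvd_sub_pow_of_dvd_sub (R := ℤ) (p := p) h1 M
  rwa [one_pow, ← pow_mul] at h2

/-- the relation between the two functionals -/
def Rel (w₁ w₂ : ℚ⟦X⟧) (lam : ℚ) : Prop := ∀ P : Polynomial ℚ,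
  Phi w₁ (Polynomial.X * P.comp (1 - Polynomial.X ^ 2)) =
    Phi w₂ (Polynomial.X * P.comp (Polynomial.C lam * (1 - Polynomial.X ^ 2)))

/-- the projection to a class -/
theorem proj_class (hp : p.Prime) (h2 : p ≠ 2) {w₁ w₂ : ℚ⟦X⟧} {A₁ B₁ A₂ B₂ : Polynomial ℤ}
    (hB₁ : B₁.eval 1 = 1) (h₁ : ev B₁ * w₁ = ev A₁) (hB₂ : B₂.eval 1 = 1)
    (h₂ : ev B₂ * w₂ = ev A₂) (hodd : ∀ k, Even k → coeff k w₂ = 0) {lam : ℚ} (hlam : lam ≠ 0)
    (hrel : Rel w₁ w₂ lam) {l : ℤ} (hl : Sm p 1 (lam - l)) {a : ℤ}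
    (ha : ∀ m : ℤ, ¬ (p : ℤ) ∣ 1 - m ^ 2 - a) {R : Polynomial ℚ}
    (hR : ∀ m : ℤ, Sm p 1 (R.eval (m : ℚ) - if (p : ℤ) ∣ l * (1 - m ^ 2) - a then 1 else 0))
    {P : Polynomial ℚ} (hP : Val p 0 P) : Sm p 1 (Phi w₂ (Polynomial.X * (R * P))) := by
  have half : Sm p 0 (1 / 2) := by
    refine ⟨1, 2, ?_, by norm_num⟩
    intro hd
    have : p ∣ 2 := by exact_mod_cast hd
    exact h2 ((Nat.prime_dvd_prime_iff_eq hp Nat.prime_two).mp this)
  have hlamI : Sm p 0 lam := by
    have := (hl.mono (Nat.zero_le 1)).add hp (Sm.int0 hp l)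
    simpa using this
  -- the even part
  set Pe : Polynomial ℚ := Polynomial.C (1 / 2) * (P + P.comp (-Polynomial.X)) with hPe
  have hPe_even : Pe.comp (-Polynomial.X) = Pe := by
    rw [hPe, Polynomial.mul_comp, Polynomial.add_comp, Polynomial.comp_assoc, Polynomial.C_comp]
    simp only [Polynomial.neg_comp, Polynomial.X_comp, neg_neg, Polynomial.comp_X]
    ring
  obtain ⟨P₀, hP₀⟩ := exists_even hPe_even
  set F₀ : Polynomial ℚ := P₀.comp (1 - Polynomial.C (lam⁻¹) * Polynomial.X) with hF₀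
  have hF : F₀.comp (Polynomial.C lam * (1 - Polynomial.X ^ 2)) = Pe := by
    rw [hF₀, Polynomial.comp_assoc, hP₀]
    congr 1
    simp only [Polynomial.sub_comp, Polynomial.one_comp, Polynomial.mul_comp, Polynomial.C_comp,
      Polynomial.X_comp]
    rw [← mul_assoc, ← Polynomial.C_mul, inv_mul_cancel₀ hlam, Polynomial.C_1]
    ring
  obtain ⟨M, hM⟩ := exists_Sm_eval hp F₀
  set E : ℕ := (p - 1) * p ^ M with hE
  have hE0 : E ≠ 0 := by
    have := hp.two_le
    have h3 : 0 < p ^ M := pow_pos hp.pos M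
    have h4 : 0 < p - 1 := by omega
    exact (Nat.mul_pos h4 h3).ne'
  -- the left hand side
  have hL : Val p 1 (Polynomial.X * ((1 - (Polynomial.X - Polynomial.C (a : ℚ)) ^ E) * F₀).comp
      (1 - Polynomial.X ^ 2)) := by
    intro m
    simp only [Polynomial.eval_mul, Polynomial.eval_X, Polynomial.eval_comp, Polynomial.eval_sub,
      Polynomial.eval_one, Polynomial.eval_pow, Polynomial.eval_C]
    refine (Sm.int0 hp m).mul0 hp ?_
    obtain ⟨z, hz⟩ := one_sub_pow hp (ha m) M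
    have e1 : (1 : ℚ) - (1 - (m : ℚ) ^ 2 - a) ^ E = (p : ℚ) ^ (M + 1) * z := by exact_mod_cast hz
    rw [e1]
    have e2 := hM (1 - m ^ 2)
    push_cast at e2
    rw [show (p : ℚ) ^ (M + 1) * z * F₀.eval (1 - (m : ℚ) ^ 2) =
      (p * z) * ((p : ℚ) ^ M * F₀.eval (1 - (m : ℚ) ^ 2)) by ring]
    have e3 : Sm p 1 ((p : ℚ) * z) := by
      have := Sm.int (N := 1) hp (x := p * z) (by rw [pow_one]; exact Dvd.intro _ rfl)
      exact_mod_cast this
    exact e3.mul_zero' hp e2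
  have hS1 := Phi_int hp hB₁ h₁ hL
  rw [hrel, Polynomial.mul_comp, hF] at hS1
  set Q : Polynomial ℚ := (1 - (Polynomial.X - Polynomial.C (a : ℚ)) ^ E).comp
    (Polynomial.C lam * (1 - Polynomial.X ^ 2)) with hQ
  have hQe : Q.comp (-Polynomial.X) = Q := by
    rw [hQ, Polynomial.comp_assoc]
    congr 1
    simp
  have hQv : ∀ m : ℤ, Q.eval (m : ℚ) = 1 - (lam * (1 - (m : ℚ) ^ 2) - a) ^ E := by
    intro m
    simp [hQ]
  -- from the even part to `P`
  have h3 : Phi w₂ (Polynomial.X * (Q * Pe)) = Phi w₂ (Polynomial.X * (Q * P)) := by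
    have e1 := Phi_odd hodd (Polynomial.X * (Q * P))
    rw [Polynomial.mul_comp, Polynomial.mul_comp, hQe, Polynomial.X_comp] at e1
    have e2 : Polynomial.X * (Q * Pe) = Polynomial.C (1 / 2) * (Polynomial.X * (Q * P)) -
        Polynomial.C (1 / 2) * (-Polynomial.X * (Q * P.comp (-Polynomial.X))) := by
      rw [hPe]
      ring
    rw [e2, map_sub, ← Polynomial.smul_eq_C_mul, ← Polynomial.smul_eq_C_mul, map_smul, map_smul,
      e1, smul_eq_mul, smul_eq_mul]
    ring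
  rw [h3] at hS1
  have hdiff : Val p 1 (Polynomial.X * ((R - Q) * P)) := by
    refine (Val.X hp).mul0 hp (Val.mul_zero' hp ?_ hP)
    intro m
    rw [Polynomial.eval_sub, hQv]
    have e1 : Sm p 1 ((lam * (1 - (m : ℚ) ^ 2) - a) - ((l * (1 - m ^ 2) - a : ℤ) : ℚ)) := by
      have : (lam * (1 - (m : ℚ) ^ 2) - a) - ((l * (1 - m ^ 2) - a : ℤ) : ℚ) =
          (lam - l) * ((1 - m ^ 2 : ℤ) : ℚ) := by
        push_cast
        ring
      rw [this]
      exact hl.mul_zero' hp (Sm.int0 hp _)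
    have e2 : Sm p 0 (lam * (1 - (m : ℚ) ^ 2) - a) := by
      have := (e1.mono (Nat.zero_le 1)).add hp (Sm.int0 hp (l * (1 - m ^ 2) - a))
      simpa using this
    have e3 := Sm.pow_sub hp e2 (Sm.int0 hp (l * (1 - m ^ 2) - a)) e1 E
    have e4 : Sm p 1 ((1 - ((l * (1 - m ^ 2) - a : ℤ) : ℚ) ^ E) -
        if (p : ℤ) ∣ l * (1 - m ^ 2) - a then 1 else 0) := by
      split_ifs with hd
      · have : (1 - ((l * (1 - m ^ 2) - a : ℤ) : ℚ) ^ E) - 1 =
            ((-(l * (1 - m ^ 2) - a) ^ E : ℤ) : ℚ) := by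
          push_cast
          ring
        rw [this]
        apply Sm.int hp
        rw [pow_one]
        exact (dvd_pow hd hE0).neg_right
      · have := one_sub_pow hp hd M
        have h5 := Sm.int hp (N := 1) (x := 1 - (l * (1 - m ^ 2) - a) ^ E) (by
          refine (pow_dvd_pow _ ?_).trans this
          omega)
        rw [sub_zero]
        exact_mod_cast h5
    have e5 := ((hR m).sub hp e4).add hp e3
    refine (congrArg (Sm p 1) ?_).mp e5
    ring
  have h4 := (Phi_int hp hB₂ h₂ hdiff).add hp hS1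
  rwa [← map_add, show Polynomial.X * ((R - Q) * P) + Polynomial.X * (Q * P) =
    Polynomial.X * (R * P) by ring] at h4

/-- the functional is killed by polynomials which vanish modulo `p` outside the bad classes -/
theorem proj_bad (hp : p.Prime) (h2 : p ≠ 2) {w₁ w₂ : ℚ⟦X⟧} {A₁ B₁ A₂ B₂ : Polynomial ℤ}
    (hB₁ : B₁.eval 1 = 1) (h₁ : ev B₁ * w₁ = ev A₁) (hB₂ : B₂.eval 1 = 1)
    (h₂ : ev B₂ * w₂ = ev A₂) (hodd : ∀ k, Even k → coeff k w₂ = 0) {lam : ℚ} (hlam : lam ≠ 0)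
    (hrel : Rel w₁ w₂ lam) {l : ℤ} (hl : Sm p 1 (lam - l)) {q : Polynomial ℚ} (hq0 : Val p 0 q)
    (hq : ∀ m : ℤ, (∃ z : ℤ, (p : ℤ) ∣ 1 - l * (1 - m ^ 2) - z ^ 2) → Sm p 1 (q.eval (m : ℚ)))
    {P : Polynomial ℚ} (hP : Val p 0 P) : Sm p 1 (Phi w₂ (Polynomial.X * (q * P))) := by
  classical
  set A : Finset ℕ := (Finset.range p).filter fun a => ∀ z : ℤ, ¬ (p : ℤ) ∣ 1 - z ^ 2 - a with hA
  have hp0 : 0 < p := hp.pos
  set R : ℕ → Polynomial ℚ := fun a =>
    1 - (Polynomial.C (l : ℚ) * (1 - Polynomial.X ^ 2) - Polynomial.C (a : ℚ)) ^ (p - 1) with hRdef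
  have hR : ∀ (a : ℕ) (m : ℤ),
      Sm p 1 ((R a).eval (m : ℚ) - if (p : ℤ) ∣ l * (1 - m ^ 2) - (a : ℤ) then 1 else 0) := by
    intro a m
    have e1 : (R a).eval (m : ℚ) = ((1 - (l * (1 - m ^ 2) - a) ^ (p - 1) : ℤ) : ℚ) := by
      simp [hRdef]
    rw [e1]
    split_ifs with hd
    · have : ((1 - (l * (1 - m ^ 2) - a) ^ (p - 1) : ℤ) : ℚ) - 1 =
          ((-(l * (1 - m ^ 2) - a) ^ (p - 1) : ℤ) : ℚ) := by
        push_cast
        ring
      rw [this]
      apply Sm.int hp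
      rw [pow_one]
      have := hp.two_le
      exact (dvd_pow hd (by omega)).neg_right
    · rw [sub_zero]
      apply Sm.int hp
      have := one_sub_pow hp hd 0
      simpa using this
  have h3 : Sm p 1 (Phi w₂ (Polynomial.X * ((∑ a ∈ A, R a) * (q * P)))) := by
    rw [Finset.sum_mul, Finset.mul_sum, map_sum]
    apply Sm.sum hp
    intro a ha
    have ha' : ∀ m : ℤ, ¬ (p : ℤ) ∣ 1 - m ^ 2 - (a : ℤ) := (Finset.mem_filter.mp ha).2
    exact proj_class hp h2 hB₁ h₁ hB₂ h₂ hodd hlam hrel hl ha' (fun m => hR a m)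
      (hq0.mul0 hp hP)
  have h4 : Val p 1 (Polynomial.X * ((1 - ∑ a ∈ A, R a) * (q * P))) := by
    refine (Val.X hp).mul0 hp ?_
    rw [← mul_assoc]
    refine Val.mul_zero' hp ?_ hP
    intro m
    rw [Polynomial.eval_mul, Polynomial.eval_sub, Polynomial.eval_one, Polynomial.eval_finsetSum]
    have e1 : Sm p 1 (∑ a ∈ A, (R a).eval (m : ℚ) -
        ∑ a ∈ A, if (p : ℤ) ∣ l * (1 - m ^ 2) - (a : ℤ) then 1 else 0) := by
      rw [← Finset.sum_sub_distrib]
      exact Sm.sum hp fun a _ => hR a m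
    have e0 : Sm p 0 (∑ a ∈ A, (if (p : ℤ) ∣ l * (1 - m ^ 2) - (a : ℤ) then 1 else 0 : ℚ)) := by
      apply Sm.sum hp
      intro a _
      split_ifs
      · exact_mod_cast Sm.int0 hp 1
      · exact Sm.zero hp 0
    by_cases hb : ∃ z : ℤ, (p : ℤ) ∣ 1 - l * (1 - m ^ 2) - z ^ 2
    · have e2 := hq m hb
      refine Sm.mul0 hp ?_ e2
      have e3 := ((Sm.int0 hp 1).sub hp e0).sub hp (e1.mono (Nat.zero_le 1))
      refine (congrArg (Sm p 0) ?_).mp e3
      push_cast
      ring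
    · push Not at hb
      refine Sm.mul_zero' hp ?_ (hq0 m)
      -- exactly one class
      set a₀ : ℕ := ((l * (1 - m ^ 2)) % p).toNat with ha₀
      have hpz : (0 : ℤ) < p := by exact_mod_cast hp0
      have h5 : (a₀ : ℤ) = (l * (1 - m ^ 2)) % p :=
        Int.toNat_of_nonneg (Int.emod_nonneg _ hpz.ne')
      have h6 : (p : ℤ) ∣ l * (1 - m ^ 2) - a₀ := by
        rw [h5]
        exact Int.dvd_self_sub_emod
      have h7 : a₀ < p := by
        have := Int.emod_lt_of_pos (l * (1 - m ^ 2)) hpz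
        rw [← h5] at this
        exact_mod_cast this
      have h8 : a₀ ∈ A := by
        rw [hA, Finset.mem_filter, Finset.mem_range]
        refine ⟨h7, fun z hz => hb z ?_⟩
        have := dvd_sub hz h6
        rwa [show (1 - z ^ 2 - (a₀ : ℤ)) - (l * (1 - m ^ 2) - a₀) =
          1 - l * (1 - m ^ 2) - z ^ 2 by ring] at this
      have h9 : ∑ a ∈ A, (if (p : ℤ) ∣ l * (1 - m ^ 2) - (a : ℤ) then 1 else 0 : ℚ) = 1 := by
        rw [Finset.sum_eq_single a₀]
        · rw [if_pos h6]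
        · intro b hb' hne
          rw [if_neg]
          intro hd
          apply hne
          have h10 : (p : ℤ) ∣ (a₀ : ℤ) - b := by
            have := dvd_sub hd h6
            rwa [show (l * (1 - m ^ 2) - (b : ℤ)) - (l * (1 - m ^ 2) - a₀) = (a₀ : ℤ) - b by
              ring] at this
          have h11 : b < p := Finset.mem_range.mp (Finset.mem_filter.mp hb').1
          have h12 : (a₀ : ℤ) - b = 0 := by
            apply Int.eq_zero_of_abs_lt_dvd h10
            rw [abs_lt]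
            constructor <;> omega
          omega
        · intro h
          exact absurd h8 h
      rw [h9] at e1
      have e4 := e1.neg
      refine (congrArg (Sm p 1) ?_).mp e4
      ring
  have h5 := (Phi_int hp hB₂ h₂ h4).add hp h3
  rwa [← map_add, show Polynomial.X * ((1 - ∑ a ∈ A, R a) * (q * P)) +
    Polynomial.X * ((∑ a ∈ A, R a) * (q * P)) = Polynomial.X * (q * P) by ring] at h5

end

end Pool.Agent.H765.MM
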