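import Mathlib
import Pool.Agent.H765.MM.Padic

/-! The order of the poles of the derivatives of a rational function in characteristic `p`. -/

namespace Pool.Agent.H765.MM

open PowerSeries GK

noncomputable section

/-- the numerators of `(∂ - c_k) ... (∂ - c_1) (A/B)`, `∂ = T d/dT` -/
def Nl {R : Type*} [CommRing R] (B A : Polynomial R) : List R → Polynomial R
  | [] => A
  | c :: L => B * (Polynomial.X * Polynomial.derivative (Nl B A L)) -
      ((L.length : Polynomial R) + 1) * (Polynomial.X * Polynomial.derivative B) * Nl B A L -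
      Polynomial.C c * (B * Nl B A L)

theorem Nl_map {R S : Type*} [CommRing R] [CommRing S] (f : R →+* S) (B A : Polynomial R)
    (L : List R) : (Nl B A L).map f = Nl (B.map f) (A.map f) (L.map f) := by
  induction L with
  | nil => rfl
  | cons c L ih =>
    simp only [Nl, Polynomial.map_sub, Polynomial.map_mul, Polynomial.map_add,
      Polynomial.map_natCast, Polynomial.map_one, Polynomial.map_X, Polynomial.map_C,
      ← Polynomial.derivative_map, ih, List.map_cons, List.length_map]

/-- the orders of the poles -/
theorem pole {p : ℕ} {K : Type*} [Field K] [CharP K p] (B A : Polynomial K) {t : K}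
    (ht : t ≠ 0) (hB : B ≠ 0) (hBt : B.eval t = 0) (hA : A.eval t ≠ 0) (L : List K)
    (hL : B.natDegree + L.length ≤ p) : Nl B A L ≠ 0 := by
  obtain ⟨B₁, hB₁, hB₁'⟩ := Polynomial.exists_eq_pow_rootMultiplicity_mul_and_not_dvd B hB t
  set e := B.rootMultiplicity t with he
  have he1 : 1 ≤ e := by
    rw [he]
    exact (Polynomial.rootMultiplicity_pos hB).mpr hBt
  have heB : e ≤ B.natDegree := by
    have h1 : B₁ ≠ 0 := by
      rintro rfl
      exact hB₁' (dvd_zero _)
    have h2 := congrArg Polynomial.natDegree hB₁
    rw [Polynomial.natDegree_mul (pow_ne_zero _ (Polynomial.X_sub_C_ne_zero t)) h1,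
      Polynomial.natDegree_pow, Polynomial.natDegree_X_sub_C, mul_one] at h2
    omega
  have hB₁t : B₁.eval t ≠ 0 := fun h => hB₁' (Polynomial.dvd_iff_isRoot.mpr h)
  set r : Polynomial K := Polynomial.X - Polynomial.C t with hr
  have hr0 : r ≠ 0 := Polynomial.X_sub_C_ne_zero t
  have hrt : r.eval t = 0 := by simp [hr]
  have hrd : Polynomial.derivative r = 1 := by simp [hr]
  have rpow : ∀ (k : ℕ) (U : Polynomial K), r * Polynomial.derivative (r ^ k * U) =
      r ^ k * ((k : Polynomial K) * U + r * Polynomial.derivative U) := by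
    intro k U
    rw [Polynomial.derivative_mul, Polynomial.derivative_pow, hrd]
    rcases Nat.eq_zero_or_pos k with rfl | hk
    · simp
    · obtain ⟨j, rfl⟩ : ∃ j, k = j + 1 := ⟨k - 1, by omega⟩
      rw [Nat.add_sub_cancel]
      simp only [map_natCast]
      ring
  have key : ∀ L : List K, e + L.length ≤ p → ∃ U : Polynomial K,
      Nl B A L = r ^ ((e - 1) * L.length) * U ∧ U.eval t ≠ 0 := by
    intro L
    induction L with
    | nil =>
      intro _
      exact ⟨A, by simp [Nl], hA⟩
    | cons c L ih =>
      intro hL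
      rw [List.length_cons] at hL
      obtain ⟨U, hU, hUt⟩ := ih (by omega)
      set j := L.length with hj
      set k := (e - 1) * j with hk
      set W : Polynomial K := B₁ * (Polynomial.X * ((k : Polynomial K) * U +
        r * Polynomial.derivative U)) - ((j : Polynomial K) + 1) * (Polynomial.X *
          ((e : Polynomial K) * B₁ + r * Polynomial.derivative B₁)) * U -
        Polynomial.C c * (r * (B₁ * U)) with hW
      have h1 : r * Nl B A (c :: L) = r ^ (e + k) * W := by
        have a1 := rpow k U
        have a2 := rpow e B₁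
        rw [← hU] at a1
        rw [← hB₁] at a2
        simp only [Nl, ← hj]
        rw [pow_add, hW]
        have a3 : r * (B * (Polynomial.X * Polynomial.derivative (Nl B A L)) -
            ((j : Polynomial K) + 1) * (Polynomial.X * Polynomial.derivative B) * Nl B A L -
            Polynomial.C c * (B * Nl B A L)) =
            B * Polynomial.X * (r * Polynomial.derivative (Nl B A L)) -
            ((j : Polynomial K) + 1) * Polynomial.X * Nl B A L * (r * Polynomial.derivative B) -
            Polynomial.C c * r * (B * Nl B A L) := by ring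
        rw [a3, a1, a2, hU]
        linear_combination (Polynomial.X * (r ^ k * ((k : Polynomial K) * U +
          r * Polynomial.derivative U)) - Polynomial.C c * r * (r ^ k * U)) * hB₁
      refine ⟨W, ?_, ?_⟩
      · apply mul_left_cancel₀ hr0
        rw [h1, ← mul_assoc, ← pow_succ', List.length_cons, ← hj]
        congr 2
        rw [hk, mul_add, mul_one]
        omega
      · have h2 : W.eval t = -((e + j : ℕ) : K) * t * B₁.eval t * U.eval t := by
          rw [hW]
          simp only [Polynomial.eval_sub, Polynomial.eval_mul, Polynomial.eval_add,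
            Polynomial.eval_natCast, Polynomial.eval_X, Polynomial.eval_C, Polynomial.eval_one, hrt]
          have h3 : ((k : ℕ) : K) = ((e : K) - 1) * j := by
            rw [hk, Nat.cast_mul, Nat.cast_sub he1, Nat.cast_one]
          rw [h3]
          push_cast
          ring
        rw [h2]
        have h4 : ((e + j : ℕ) : K) ≠ 0 := by
          rw [Ne, CharP.cast_eq_zero_iff K p]
          intro hd
          have := Nat.le_of_dvd (by omega) hd
          omega
        exact mul_ne_zero (mul_ne_zero (mul_ne_zero (neg_ne_zero.mpr h4) ht) hB₁t) hUt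
  obtain ⟨U, hU, hUt⟩ := key L (by omega)
  rw [hU]
  refine mul_ne_zero (pow_ne_zero _ hr0) ?_
  rintro rfl
  exact hUt (Polynomial.eval_zero)

/-- the derivatives of a power series -/
def wl (w : ℚ⟦X⟧) : List ℤ → ℚ⟦X⟧
  | [] => w
  | c :: L => PowerSeries.derivative ℚ (wl w L) - C (c : ℚ) * wl w L

def ql : List ℤ → Polynomial ℚ
  | [] => 1
  | c :: L => (Polynomial.X - Polynomial.C (c : ℚ)) * ql L

theorem Phi_sub_left (u v : ℚ⟦X⟧) (P : Polynomial ℚ) : Phi (u - v) P = Phi u P - Phi v P := by
  have h := Phi_add_left (u - v) v P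
  rw [sub_add_cancel] at h
  rw [h]
  ring

theorem Phi_wl (w : ℚ⟦X⟧) (L : List ℤ) (P : Polynomial ℚ) : Phi (wl w L) P = Phi w (ql L * P) := by
  induction L generalizing P with
  | nil => simp [wl, ql]
  | cons c L ih =>
    rw [wl, Phi_sub_left, Phi_smul_left, Phi_deriv, ih, ih, ql]
    rw [show (Polynomial.X - Polynomial.C (c : ℚ)) * ql L * P = ql L * (Polynomial.X * P) -
      Polynomial.C (c : ℚ) * (ql L * P) by ring, map_sub, ← Polynomial.smul_eq_C_mul, map_smul,
      smul_eq_mul]

/-- the derivative of a polynomial in `e^y` -/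
theorem deriv_hexp (b : ℚ) : PowerSeries.derivative ℚ (hexp b) = C b * hexp b := by
  ext n
  rw [PowerSeries.coeff_derivative, coeff_C_mul, coeff_hexp, coeff_hexp, Nat.factorial_succ]
  have : (n.factorial : ℚ) ≠ 0 := by exact_mod_cast n.factorial_ne_zero
  have h2 : ((n : ℚ) + 1) ≠ 0 := by positivity
  push_cast
  field_simp
  ring

theorem ev_X : ev Polynomial.X = hexp 1 := by simp [ev]

theorem ev_C (a : ℤ) : ev (Polynomial.C a) = C (a : ℚ) := by simp [ev]

theorem ev_natCast (a : ℕ) : ev (a : Polynomial ℤ) = (a : ℚ⟦X⟧) := map_natCast _ _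

theorem deriv_ev (L : Polynomial ℤ) : PowerSeries.derivative ℚ (ev L) =
    ev (Polynomial.X * Polynomial.derivative L) := by
  induction L using Polynomial.induction_on' with
  | add P Q hP hQ => rw [map_add, map_add, hP, hQ, map_add, mul_add, map_add]
  | monomial j a =>
    rw [← Polynomial.C_mul_X_pow_eq_monomial, map_mul, ev_C, map_pow, ev_X, hexp_nat,
      Polynomial.derivative_C_mul_X_pow, ← PowerSeries.smul_eq_C_mul, Derivation.map_smul,
      deriv_hexp, PowerSeries.smul_eq_C_mul, map_mul, ev_X, map_mul, map_pow, ev_X, ev_C]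
    rcases Nat.eq_zero_or_pos j with rfl | hj
    · simp
    · obtain ⟨i, rfl⟩ : ∃ i, j = i + 1 := ⟨j - 1, by omega⟩
      rw [Nat.add_sub_cancel, ← hexp_nat (i + 1), pow_succ]
      push_cast
      rw [map_mul]
      ring

theorem ev_Nl {w : ℚ⟦X⟧} {A B : Polynomial ℤ} (h : ev B * w = ev A) (L : List ℤ) :
    ev B ^ (L.length + 1) * wl w L = ev (Nl B A L) := by
  induction L with
  | nil => simpa [wl, Nl] using h
  | cons c L ih =>
    have h1 := congrArg (PowerSeries.derivative ℚ) ih
    rw [Derivation.leibniz, Derivation.leibniz_pow, deriv_ev, deriv_ev] at h1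
    simp only [smul_eq_mul, nsmul_eq_mul, Nat.add_sub_cancel] at h1
    rw [List.length_cons, wl, Nl, map_sub, map_sub, map_mul ev B, map_mul ev _ (Nl B A L),
      map_mul ev _ (Polynomial.X * Polynomial.derivative B), map_mul ev (Polynomial.C c),
      map_mul ev B, ev_C, map_add, map_one, ev_natCast, ← h1, ← ih]
    push_cast
    ring

end

end Pool.Agent.H765.MM
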