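import Mathlib
import Pool.Agent.H765.MM.Pole

/-! Counting the classes, and the choice of the prime. -/

namespace Pool.Agent.H765.MM

open PowerSeries GK

noncomputable section

theorem card_sq {F : Type*} [Field F] [Fintype F] [DecidableEq F] (h2 : (2 : F) ≠ 0) {δ μ : F}
    (hδ : δ ≠ 0) (hμ : μ ≠ 0) :
    2 * (Finset.univ.filter fun c : F => ∃ z, z ^ 2 = δ + (μ * c) ^ 2).card ≤
      Fintype.card F + 4 := by
  classical
  set Z := Finset.univ.filter fun c : F => ∃ z, z ^ 2 = δ + (μ * c) ^ 2 with hZ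
  set V := Finset.univ.filter fun c : F => δ + (μ * c) ^ 2 = 0 with hV
  have hV2 : V.card ≤ 2 := by
    rcases V.eq_empty_or_nonempty with h | ⟨c₀, hc₀⟩
    · rw [h]; simp
    · have hsub : V ⊆ {c₀, -c₀} := by
        intro c hc
        have h3 : δ + (μ * c) ^ 2 = 0 := (Finset.mem_filter.mp hc).2
        have h4 : δ + (μ * c₀) ^ 2 = 0 := (Finset.mem_filter.mp hc₀).2
        have h5 : (μ * c) ^ 2 = (μ * c₀) ^ 2 := by linear_combination h3 - h4
        rw [Finset.mem_insert, Finset.mem_singleton]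
        rcases sq_eq_sq_iff_eq_or_eq_neg.mp h5 with h | h
        · exact Or.inl (mul_left_cancel₀ hμ h)
        · right
          apply mul_left_cancel₀ hμ
          rw [h]
          ring
      exact (Finset.card_le_card hsub).trans Finset.card_le_two
  have hZ' : ∀ c ∈ Z \ V, ∃ z, z ^ 2 = δ + (μ * c) ^ 2 ∧ z ≠ 0 := by
    intro c hc
    rw [Finset.mem_sdiff] at hc
    obtain ⟨z, hz⟩ := (Finset.mem_filter.mp hc.1).2
    refine ⟨z, hz, ?_⟩
    rintro rfl
    apply hc.2
    rw [hV, Finset.mem_filter]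
    exact ⟨Finset.mem_univ _, by rw [← hz]; ring⟩
  choose! z hz hz0 using hZ'
  have hcard : ((Z \ V) ×ˢ (Finset.univ : Finset Bool)).card ≤ Fintype.card F := by
    rw [← Finset.card_univ]
    apply Finset.card_le_card_of_injOn (fun x : F × Bool =>
      (if x.2 then z x.1 else - z x.1) - μ * x.1) (fun x _ => by simp)
    rintro ⟨c, b⟩ hc ⟨c', b'⟩ hc' heq
    have hc1 : c ∈ Z \ V := (Finset.mem_product.mp (Finset.mem_coe.mp hc)).1
    have hc1' : c' ∈ Z \ V := (Finset.mem_product.mp (Finset.mem_coe.mp hc')).1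
    dsimp only at heq
    set u := if b then z c else - z c with hu
    set u' := if b' then z c' else - z c' with hu'
    have e1 : u ^ 2 = δ + (μ * c) ^ 2 := by
      rw [hu]
      split_ifs
      · exact hz c hc1
      · rw [neg_sq]; exact hz c hc1
    have e2 : u' ^ 2 = δ + (μ * c') ^ 2 := by
      rw [hu']
      split_ifs
      · exact hz c' hc1'
      · rw [neg_sq]; exact hz c' hc1'
    have ht : u - μ * c ≠ 0 := by
      intro h
      apply hδ
      have : (u - μ * c) * (u + μ * c) = δ := by linear_combination e1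
      rw [← this, h, zero_mul]
    have e3 : (u - μ * c) * ((u + μ * c) - (u' + μ * c')) = 0 := by
      linear_combination e1 - e2 - (u' + μ * c') * heq
    have e4 : (u + μ * c) = (u' + μ * c') := by
      rcases mul_eq_zero.mp e3 with h | h
      · exact absurd h ht
      · exact sub_eq_zero.mp h
    have e5 : 2 * (μ * c) = 2 * (μ * c') := by linear_combination e4 - heq
    have e6 : c = c' := mul_left_cancel₀ hμ (mul_left_cancel₀ h2 e5)
    subst e6
    have e7 : u = u' := by linear_combination heq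
    rw [hu, hu'] at e7
    have hz1 := hz0 c hc1
    have hne : z c ≠ - z c := by
      intro h
      apply hz1
      have : 2 * z c = 0 := by linear_combination h
      exact (mul_eq_zero.mp this).resolve_left h2
    rcases b with _ | _ <;> rcases b' with _ | _
    · rfl
    · simp only [Bool.false_eq_true, if_false, if_true] at e7
      exact absurd e7.symm hne
    · simp only [Bool.false_eq_true, if_false, if_true] at e7
      exact absurd e7 hne
    · rfl
  rw [Finset.card_product, Finset.card_univ, Fintype.card_bool] at hcard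
  have h3 : Z.card ≤ (Z \ V).card + V.card := by
    exact Finset.card_le_card_sdiff_add_card
  omega

/-- the choice of the prime -/
theorem exists_prime {lam : ℚ} (h0 : lam ≠ 0) (h1 : lam ≠ 1) (K : ℕ) : ∃ p : ℕ, p.Prime ∧ K < p ∧
    ∃ l k : ℤ, Sm p 1 (lam - l) ∧ ¬ (p : ℤ) ∣ k ∧ (p : ℤ) ∣ l - k ^ 2 ∧ ¬ (p : ℤ) ∣ 1 - l := by
  set r : ℤ := lam.num with hr
  set s : ℤ := (lam.den : ℤ) with hs
  have hs0 : s ≠ 0 := by rw [hs]; exact_mod_cast lam.den_nz
  have hr0 : r ≠ 0 := by rw [hr]; exact Rat.num_ne_zero.mpr h0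
  have hrs : lam * s = r := by rw [hs, hr]; exact_mod_cast Rat.mul_den_eq_num lam
  have hrs' : r - s ≠ 0 := by
    intro h
    apply h1
    have h2 : (s : ℚ) ≠ 0 := by exact_mod_cast hs0
    have h3 : (r : ℚ) = s := by exact_mod_cast sub_eq_zero.mp h
    rw [h3] at hrs
    exact mul_right_cancel₀ h2 (by rw [hrs, one_mul])
  set M : ℕ := max (max K 2) (r - s).natAbs with hM
  set d : ℤ := r * s with hd
  have hd0 : d ≠ 0 := mul_ne_zero hr0 hs0
  set n : ℤ := d * (M.factorial : ℤ) ^ 2 - 1 with hn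
  have hM2 : 2 ≤ M := by rw [hM]; omega
  have hfac : (2 : ℤ) ≤ M.factorial := by
    have := Nat.self_le_factorial M
    exact_mod_cast hM2.trans this
  have hn1 : n.natAbs ≠ 1 := by
    intro h
    rcases Int.natAbs_eq_iff.mp h with h | h
    · -- d M!^2 = 2
      have h3 : d * (M.factorial : ℤ) ^ 2 = 2 := by
        have : (1 : ℕ) = (1 : ℤ) := by norm_num
        rw [this] at h
        linarith
      rcases lt_trichotomy d 0 with hd1 | hd1 | hd1
      · nlinarith [sq_nonneg (M.factorial : ℤ)]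
      · exact hd0 hd1
      · nlinarith
    · have h3 : d * (M.factorial : ℤ) ^ 2 = 0 := by
        have : (1 : ℕ) = (1 : ℤ) := by norm_num
        rw [this] at h
        linarith
      rcases mul_eq_zero.mp h3 with h4 | h4
      · exact hd0 h4
      · have := pow_eq_zero_iff (two_ne_zero) |>.mp h4
        linarith
  obtain ⟨p, hp, hpn⟩ := Int.exists_prime_and_dvd hn1
  set P := p.natAbs with hP
  have hPp : P.Prime := Int.prime_iff_natAbs_prime.mp hp
  have hPd : ∀ x : ℤ, (P : ℤ) ∣ x ↔ p ∣ x := fun x => by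
    rw [hP]
    exact Int.natAbs_dvd
  have hPn : (P : ℤ) ∣ n := (hPd n).mpr hpn
  have hPi : Prime (P : ℤ) := Nat.prime_iff_prime_int.mp hPp
  have hnu : ¬ (P : ℤ) ∣ 1 := fun h => hPi.not_isUnit (isUnit_of_dvd_one h)
  have hPM : M < P := by
    by_contra hc
    push Not at hc
    have h3 : (P : ℤ) ∣ M.factorial := by exact_mod_cast (hPp.dvd_factorial).mpr hc
    apply hnu
    have h4 : (P : ℤ) ∣ d * (M.factorial : ℤ) ^ 2 := Dvd.dvd.mul_left (dvd_pow h3 two_ne_zero) _
    have := dvd_sub h4 hPn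
    rwa [hn, sub_sub_cancel] at this
  have hPdd : ¬ (P : ℤ) ∣ d := by
    intro h
    apply hnu
    have h4 : (P : ℤ) ∣ d * (M.factorial : ℤ) ^ 2 := Dvd.dvd.mul_right h _
    have := dvd_sub h4 hPn
    rwa [hn, sub_sub_cancel] at this
  have hPs : ¬ (P : ℤ) ∣ s := fun h => hPdd (Dvd.dvd.mul_left h _)
  have hPr : ¬ (P : ℤ) ∣ r := fun h => hPdd (Dvd.dvd.mul_right h _)
  have hcop : IsCoprime s (P : ℤ) := ((Prime.coprime_iff_not_dvd hPi).mpr hPs).symm
  obtain ⟨u, v, huv⟩ := hcop
  have hPu : ¬ (P : ℤ) ∣ u := by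
    intro h
    apply hnu
    rw [← huv]
    exact dvd_add (Dvd.dvd.mul_right h _) (Dvd.intro_left _ rfl)
  refine ⟨P, hPp, by omega, r * u, d * M.factorial * u, ⟨r * v, s, hPs, ?_⟩, ?_, ?_, ?_⟩
  · have h5 : (u : ℚ) * s + v * P = 1 := by exact_mod_cast huv
    push_cast
    rw [sub_mul, hrs]
    linear_combination (-r : ℚ) * h5
  · intro h
    rcases hPi.dvd_or_dvd h with h | h
    · rcases hPi.dvd_or_dvd h with h | h
      · exact hPdd h
      · have h3 : P ∣ M.factorial := by exact_mod_cast h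
        have := (hPp.dvd_factorial).mp h3
        omega
    · exact hPu h
  · -- r u - d^2 M!^2 u^2 = r u - d u^2 (n + 1)
    have e : r * u - (d * M.factorial * u) ^ 2 = -(d * u ^ 2) * n + r * u * (v * P) := by
      have h6 : d * (M.factorial : ℤ) ^ 2 = n + 1 := by rw [hn]; ring
      have h7 : d * u = r * (1 - v * P) := by rw [hd]; linear_combination r * huv
      linear_combination (-(d * u ^ 2)) * h6 - u * h7
    rw [e]
    exact dvd_add (Dvd.dvd.mul_left hPn _) ⟨r * u * v, by ring⟩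
  · intro h
    have e : s * (1 - r * u) - (s - r) = - r * (1 - v * P) + r := by
      linear_combination (-r) * huv
    have h3 : (P : ℤ) ∣ s - r := by
      have h4 : (P : ℤ) ∣ s * (1 - r * u) := Dvd.dvd.mul_left h _
      have h5 : s - r = s * (1 - r * u) - P * (r * v) := by linear_combination -e
      rw [h5]
      exact dvd_sub h4 (Dvd.intro _ rfl)
    have h4 : (P : ℤ) ∣ r - s := by
      rw [← neg_sub]
      exact h3.neg_right
    have h5 : P ∣ (r - s).natAbs := Int.natCast_dvd.mp h4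
    have h6 := Nat.le_of_dvd (Int.natAbs_pos.mpr hrs') h5
    have h7 : (r - s).natAbs ≤ M := by rw [hM]; exact le_max_right _ _
    omega

/-- the list of good classes -/
theorem exists_list {p : ℕ} (hp : p.Prime) (h2 : p ≠ 2) {l k : ℤ} (hk : ¬ (p : ℤ) ∣ k)
    (hlk : (p : ℤ) ∣ l - k ^ 2) (h1 : ¬ (p : ℤ) ∣ 1 - l) : ∃ L : List ℤ, 2 * L.length ≤ p + 4 ∧
      ∀ m z : ℤ, (p : ℤ) ∣ 1 - l * (1 - m ^ 2) - z ^ 2 → ∃ c ∈ L, (p : ℤ) ∣ m - c := by
  classical
  have : Fact p.Prime := ⟨hp⟩
  have h2' : (2 : ZMod p) ≠ 0 := by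
    intro h
    have h3 : ((2 : ℕ) : ZMod p) = 0 := by exact_mod_cast h
    rw [ZMod.natCast_eq_zero_iff] at h3
    exact h2 ((Nat.prime_dvd_prime_iff_eq hp Nat.prime_two).mp h3)
  have hδ : ((1 - l : ℤ) : ZMod p) ≠ 0 := by
    rwa [Ne, ZMod.intCast_zmod_eq_zero_iff_dvd]
  have hμ : ((k : ℤ) : ZMod p) ≠ 0 := by
    rwa [Ne, ZMod.intCast_zmod_eq_zero_iff_dvd]
  have hc := card_sq h2' hδ hμ
  set Z := Finset.univ.filter fun c : ZMod p =>
    ∃ z, z ^ 2 = ((1 - l : ℤ) : ZMod p) + (((k : ℤ) : ZMod p) * c) ^ 2 with hZ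
  rw [ZMod.card] at hc
  refine ⟨Z.toList.map fun c => (c.val : ℤ), ?_, ?_⟩
  · rw [List.length_map, Finset.length_toList]
    exact hc
  · intro m z hmz
    refine ⟨((m : ZMod p).val : ℤ), ?_, ?_⟩
    · rw [List.mem_map]
      refine ⟨(m : ZMod p), ?_, rfl⟩
      rw [Finset.mem_toList, hZ, Finset.mem_filter]
      refine ⟨Finset.mem_univ _, (z : ZMod p), ?_⟩
      rw [← ZMod.intCast_zmod_eq_zero_iff_dvd] at hmz hlk
      push_cast at hmz hlk ⊢
      linear_combination -hmz + (m : ZMod p) ^ 2 * hlk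
    · rw [← ZMod.intCast_zmod_eq_zero_iff_dvd]
      push_cast
      rw [ZMod.natCast_val, ZMod.cast_id', id]
      ring

end

end Pool.Agent.H765.MM
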