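import Mathlib
import Pool.Agent.H765.MM.Count

/-! Two rational functions of `e^y` related by a rescaling: the scale is one. -/

namespace Pool.Agent.H765.MM

open PowerSeries GK

noncomputable section

/-- the binomial polynomials -/
def binom (k : ℕ) : Polynomial ℚ := Polynomial.C (1 / (k.factorial : ℚ)) * descPochhammer ℚ k

theorem binom_int (k : ℕ) (m : ℤ) : ∃ z : ℤ, (binom k).eval (m : ℚ) = z := by
  refine ⟨Ring.choose m k, ?_⟩
  have h1 := Ring.descPochhammer_eq_factorial_smul_choose m k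
  rw [← Polynomial.eval_eq_smeval] at h1
  have h2 := descPochhammer_eval_cast (R := ℚ) k m
  rw [h1, nsmul_eq_mul] at h2
  have h3 : (k.factorial : ℚ) ≠ 0 := by exact_mod_cast k.factorial_ne_zero
  rw [binom, Polynomial.eval_mul, Polynomial.eval_C, ← h2]
  push_cast
  field_simp

theorem binom_val {p : ℕ} (hp : p.Prime) (k : ℕ) : Val p 0 (binom k) := by
  intro m
  obtain ⟨z, hz⟩ := binom_int k m
  rw [hz]
  exact Sm.int0 hp z

theorem binom_lt {i k : ℕ} (h : i < k) : (binom k).eval (i : ℚ) = 0 := by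
  rw [binom, Polynomial.eval_mul, descPochhammer_eval_eq_descFactorial,
    Nat.descFactorial_eq_zero_iff_lt.mpr h]
  simp

theorem binom_self (k : ℕ) : (binom k).eval (k : ℚ) = 1 := by
  have h3 : (k.factorial : ℚ) ≠ 0 := by exact_mod_cast k.factorial_ne_zero
  rw [binom, Polynomial.eval_mul, descPochhammer_eval_eq_descFactorial, Nat.descFactorial_self,
    Polynomial.eval_C]
  field_simp

/-- a polynomial whose functional vanishes modulo `p` vanishes modulo `p` -/
theorem coeff_dvd {p : ℕ} (hp : p.Prime) {N : Polynomial ℤ}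
    (h : ∀ P : Polynomial ℚ, Val p 0 P → Sm p 1 (Phi (ev N) P)) (i : ℕ) : (p : ℤ) ∣ N.coeff i := by
  classical
  by_contra hi
  set S := (Finset.range (N.natDegree + 1)).filter fun j => ¬ (p : ℤ) ∣ N.coeff j with hS
  have hiS : i ∈ S := by
    rw [hS, Finset.mem_filter, Finset.mem_range]
    refine ⟨?_, hi⟩
    by_contra hc
    push Not at hc
    exact hi (by rw [Polynomial.coeff_eq_zero_of_natDegree_lt (by omega)]; exact dvd_zero _)
  obtain ⟨k, hkS, hk⟩ := S.exists_max_image id ⟨i, hiS⟩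
  have hk1 := (Finset.mem_filter.mp hkS)
  have h1 := h (binom k) (binom_val hp k)
  rw [Phi_ev, ← Finset.add_sum_erase _ _ hk1.1, binom_self, mul_one] at h1
  have h2 : Sm p 1 (∑ j ∈ (Finset.range (N.natDegree + 1)).erase k,
      (N.coeff j : ℚ) * (binom k).eval (j : ℚ)) := by
    apply Sm.sum hp
    intro j hj
    have hj' := Finset.mem_erase.mp hj
    rcases lt_trichotomy j k with h3 | h3 | h3
    · rw [binom_lt h3, mul_zero]
      exact Sm.zero hp 1
    · exact absurd h3 hj'.1
    · have h4 : (p : ℤ) ∣ N.coeff j := by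
        by_contra hc
        have := hk j (by rw [hS, Finset.mem_filter]; exact ⟨hj'.2, hc⟩)
        simp only [id] at this
        omega
      refine Sm.mul_zero' hp (Sm.int hp (by rwa [pow_one])) ?_
      have := binom_val hp k j
      exact_mod_cast this
  have h5 := h1.sub hp h2
  rw [add_sub_cancel_right] at h5
  have h6 := h5.dvd_int hp
  rw [pow_one] at h6
  exact hk1.2 h6

theorem ql_val {p : ℕ} (hp : p.Prime) (L : List ℤ) : Val p 0 (ql L) := by
  induction L with
  | nil =>
    intro m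
    simpa [ql] using Sm.int0 hp 1
  | cons c L ih =>
    refine Val.mul0 hp ?_ ih
    intro m
    have := Sm.int0 hp (m - c)
    simpa using this

theorem ql_dvd {p : ℕ} (hp : p.Prime) {L : List ℤ} {m : ℤ} (h : ∃ c ∈ L, (p : ℤ) ∣ m - c) :
    Sm p 1 ((ql L).eval (m : ℚ)) := by
  induction L with
  | nil =>
    obtain ⟨c, hc, _⟩ := h
    exact absurd hc (List.not_mem_nil)
  | cons c L ih =>
    rw [ql, Polynomial.eval_mul, Polynomial.eval_sub, Polynomial.eval_X, Polynomial.eval_C]
    obtain ⟨c', hc', hd⟩ := h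
    rcases List.mem_cons.mp hc' with h1 | h1
    · subst h1
      refine Sm.mul_zero' hp ?_ (ql_val hp L m)
      have := Sm.int (N := 1) hp (x := m - c') (by rwa [pow_one])
      simpa using this
    · refine Sm.mul0 hp ?_ (ih ⟨c', h1, hd⟩)
      have := Sm.int0 hp (m - c)
      simpa using this

/-- a root of the reduction -/
theorem exists_root_mod {p : ℕ} [Fact p.Prime] {B : Polynomial ℤ} (hB : B.eval 1 = 1) {i j : ℕ}
    (hij : i < j) (hi : ¬ (p : ℤ) ∣ B.coeff i) (hj : ¬ (p : ℤ) ∣ B.coeff j) :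
    ∃ s : AlgebraicClosure (ZMod p), s ≠ 0 ∧ s ≠ 1 ∧
      (B.map (Int.castRingHom (AlgebraicClosure (ZMod p)))).eval s = 0 := by
  set K := AlgebraicClosure (ZMod p)
  have hchar : CharP K p := charP_of_injective_algebraMap (algebraMap (ZMod p) K).injective p
  set b := B.map (Int.castRingHom K) with hb
  have hne : ∀ n, ¬ (p : ℤ) ∣ B.coeff n → b.coeff n ≠ 0 := by
    intro n hn h
    rw [hb, Polynomial.coeff_map, eq_intCast] at h
    exact hn ((CharP.intCast_eq_zero_iff K p _).mp h)
  have hb0 : b ≠ 0 := by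
    intro h
    apply hne i hi
    rw [h, Polynomial.coeff_zero]
  obtain ⟨b', hb', hb''⟩ := Polynomial.exists_eq_pow_rootMultiplicity_mul_and_not_dvd b hb0 0
  rw [Polynomial.C_0, sub_zero] at hb' hb''
  set m := b.rootMultiplicity 0
  have hdeg : b'.degree ≠ 0 := by
    intro hd
    obtain ⟨c, hc⟩ : ∃ c, b' = Polynomial.C c :=
      ⟨b'.coeff 0, Polynomial.eq_C_of_degree_le_zero hd.le⟩
    have h1 : ∀ n, b.coeff n ≠ 0 → n = m := by
      intro n hn
      by_contra hnm
      apply hn
      rw [hb', hc, mul_comm, Polynomial.coeff_C_mul, Polynomial.coeff_X_pow, if_neg hnm, mul_zero]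
    have h2 := h1 i (hne i hi)
    have h3 := h1 j (hne j hj)
    omega
  obtain ⟨s, hs⟩ := IsAlgClosed.exists_root b' hdeg
  rw [Polynomial.IsRoot] at hs
  refine ⟨s, ?_, ?_, ?_⟩
  · rintro rfl
    apply hb''
    rw [Polynomial.X_dvd_iff, Polynomial.coeff_zero_eq_eval_zero]
    exact hs
  · rintro rfl
    have h1 : b.eval 1 = 1 := by
      rw [hb, Polynomial.eval_one_map, hB, map_one]
    rw [hb', Polynomial.eval_mul, hs, mul_zero] at h1
    exact zero_ne_one h1
  · rw [hb', Polynomial.eval_mul, hs, mul_zero]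

/-- The scale is one. -/
theorem lam_eq_one {w₁ w₂ : ℚ⟦X⟧} {A₁ B₁ B : Polynomial ℤ} {k₂ : ℕ} (hB₁ : B₁.eval 1 = 1)
    (h₁ : ev B₁ * w₁ = ev A₁) (hB : B.eval 1 = 1)
    (h₂ : ev (Polynomial.expand ℤ 2 B) * w₂ = ev (Polynomial.X ^ k₂ * (Polynomial.X ^ 2 - 1)))
    (hodd : ∀ k, Even k → coeff k w₂ = 0) {i j : ℕ} (hij : i < j) (hi : B.coeff i ≠ 0)
    (hj : B.coeff j ≠ 0) {lam : ℚ} (hlam : lam ≠ 0) (hrel : Rel w₁ w₂ lam) : lam = 1 := by
  by_contra hlam1
  set K₀ := (B.coeff i).natAbs + (B.coeff j).natAbs + 4 * B.natDegree + 6 with hK₀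
  obtain ⟨p, hp, hpK, l, k, hl, hk, hlk, hl1⟩ := exists_prime hlam hlam1 K₀
  have : Fact p.Prime := ⟨hp⟩
  have hp2 : p ≠ 2 := by omega
  obtain ⟨L, hL, hLm⟩ := exists_list hp hp2 hk hlk hl1
  set B₂ := Polynomial.expand ℤ 2 B with hB₂
  set A₂ : Polynomial ℤ := Polynomial.X ^ k₂ * (Polynomial.X ^ 2 - 1) with hA₂
  have hB₂1 : B₂.eval 1 = 1 := by
    rw [hB₂, Polynomial.expand_eval]
    simpa using hB
  have hkill : ∀ P : Polynomial ℚ, Val p 0 P → Sm p 1 (Phi w₂ (Polynomial.X * (ql L * P))) := by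
    intro P hP
    exact proj_bad hp hp2 hB₁ h₁ hB₂1 h₂ hodd hlam hrel hl (ql_val hp L)
      (fun m ⟨z, hz⟩ => ql_dvd hp (hLm m z hz)) hP
  set L' : List ℤ := 0 :: L with hL'
  have hN := ev_Nl h₂ L'
  set N := Nl B₂ A₂ L' with hNdef
  have hNz : ∀ P : Polynomial ℚ, Val p 0 P → Sm p 1 (Phi (ev N) P) := by
    intro P hP
    rw [← hN, ← map_pow, Phi_ev_mul]
    apply Sm.sum hp
    intro r _
    refine Sm.mul0 hp (Sm.int0 hp _) ?_
    rw [Phi_wl, hL', ql]
    have h3 : Val p 0 (P.comp (Polynomial.X + Polynomial.C (r : ℚ))) := by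
      intro m
      rw [Polynomial.eval_comp, Polynomial.eval_add, Polynomial.eval_X, Polynomial.eval_C]
      have := hP (m + r)
      push_cast at this
      exact this
    have h4 := hkill _ h3
    rw [Int.cast_zero, Polynomial.C_0, sub_zero, mul_assoc]
    exact h4
  have hNd := coeff_dvd hp hNz
  -- the pole
  have hnd : ∀ n, B.coeff n ≠ 0 → (B.coeff n).natAbs < p → ¬ (p : ℤ) ∣ B.coeff n := by
    intro n hn hlt hd
    have := Nat.le_of_dvd (Int.natAbs_pos.mpr hn) (Int.natCast_dvd.mp hd)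
    omega
  obtain ⟨s, hs0, hs1, hs⟩ := exists_root_mod hB hij (hnd i hi (by omega)) (hnd j hj (by omega))
  have hchar : CharP (AlgebraicClosure (ZMod p)) p :=
    charP_of_injective_algebraMap (algebraMap (ZMod p) (AlgebraicClosure (ZMod p))).injective p
  obtain ⟨t, ht⟩ := IsAlgClosed.exists_pow_nat_eq s two_pos
  have ht0 : t ≠ 0 := by
    rintro rfl
    apply hs0
    rw [← ht]
    norm_num
  set f := Int.castRingHom (AlgebraicClosure (ZMod p)) with hf
  have hmap : N.map f = 0 := by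
    ext n
    rw [Polynomial.coeff_map, Polynomial.coeff_zero, hf, eq_intCast]
    exact (CharP.intCast_eq_zero_iff (AlgebraicClosure (ZMod p)) p _).mpr (hNd n)
  have hBt : (B₂.map f).eval t = 0 := by
    rw [hB₂, Polynomial.map_expand, Polynomial.expand_eval, ht]
    exact hs
  have hB0 : B₂.map f ≠ 0 := by
    intro h
    have h5 : (B₂.map f).eval 1 = 1 := by
      rw [Polynomial.eval_one_map, hB₂1, map_one]
    rw [h, Polynomial.eval_zero] at h5
    exact zero_ne_one h5
  have hAt : (A₂.map f).eval t ≠ 0 := by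
    rw [hA₂]
    simp only [Polynomial.map_mul, Polynomial.map_pow, Polynomial.map_X, Polynomial.map_sub,
      Polynomial.map_one, Polynomial.eval_mul, Polynomial.eval_pow, Polynomial.eval_X,
      Polynomial.eval_sub, Polynomial.eval_one]
    exact mul_ne_zero (pow_ne_zero _ ht0) (by rw [ht]; exact sub_ne_zero.mpr hs1)
  have hlen : (B₂.map f).natDegree + (L'.map f).length ≤ p := by
    have h6 : (B₂.map f).natDegree ≤ 2 * B.natDegree := by
      refine Polynomial.natDegree_map_le.trans ?_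
      rw [hB₂, Polynomial.natDegree_expand]
      omega
    rw [List.length_map, hL', List.length_cons]
    omega
  have hpole := pole (p := p) (B₂.map f) (A₂.map f) ht0 hB0 hBt hAt (L'.map f) hlen
  apply hpole
  rw [← Nl_map]
  exact hmap

end

end Pool.Agent.H765.MM
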