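import Mathlib
import Pool.Agent.H765.MM.Gauss
import Pool.Agent.H765.MM.LamOne

/-! The behaviour of the series of the `1/n`-surgeries for large `n`. -/

namespace Pool.Agent.H765.MM

open PowerSeries GK Filter Topology

noncomputable section

/-- the leading part of the Melvin-Morton expansion -/
def wf (J : ℤ → ℚ⟦X⟧) : ℚ⟦X⟧ := PowerSeries.mk fun l => mmCoeff J l 0

theorem tendsto_inv_int : Tendsto (fun n : ℤ => ((n : ℚ))⁻¹) cofinite (𝓝 0) := by
  rw [Metric.tendsto_nhds]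
  intro ε hε
  obtain ⟨M, hM⟩ := exists_nat_gt (1 / ε)
  have hfin : (Set.Icc (-(M : ℤ)) M).Finite := Set.finite_Icc _ _
  refine hfin.subset ?_
  intro n hn
  simp only [Set.mem_compl_iff, Set.mem_ofPred_eq] at hn
  by_contra hc
  apply hn
  rw [Set.mem_Icc, not_and_or, not_le, not_le] at hc
  have h1 : (M : ℤ) < |n| := by
    rcases hc with h | h
    · have := neg_le_abs n
      omega
    · exact lt_of_lt_of_le h (le_abs_self n)
  have h2 : (M : ℝ) < |(n : ℝ)| := by exact_mod_cast h1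
  change dist ((n : ℚ)⁻¹) 0 < ε
  rw [Rat.dist_eq]
  push_cast
  rw [sub_zero, abs_inv]
  have h3 : 1 / ε < |(n : ℝ)| := hM.trans h2
  have h4 : 0 < 1 / ε := by positivity
  calc |(n : ℝ)|⁻¹ < (1 / ε)⁻¹ := inv_strictAnti₀ h4 h3
    _ = ε := by rw [one_div, inv_inv]

theorem eventually_ne : ∀ᶠ n : ℤ in cofinite, n ≠ 0 :=
  (Set.finite_singleton (0 : ℤ)).subset (fun n hn => by
    simpa using hn)

theorem tendsto_pow_div {a b : ℕ} (h : a ≤ b) :
    Tendsto (fun n : ℤ => (n : ℚ) ^ a / (n : ℚ) ^ b) cofinite (𝓝 (if a = b then 1 else 0)) := by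
  obtain ⟨k, rfl⟩ := Nat.exists_eq_add_of_le h
  have h1 : Tendsto (fun n : ℤ => ((n : ℚ)⁻¹) ^ k) cofinite (𝓝 (0 ^ k)) := tendsto_inv_int.pow k
  have h2 : (if a = a + k then (1 : ℚ) else 0) = 0 ^ k := by
    rcases Nat.eq_zero_or_pos k with rfl | hk
    · simp
    · rw [if_neg (by omega), zero_pow hk.ne']
  rw [h2]
  refine h1.congr' ?_
  filter_upwards [eventually_ne] with n hn
  have hn' : (n : ℚ) ≠ 0 := by exact_mod_cast hn
  rw [pow_add, inv_pow]
  field_simp

/-- the scaled coefficients converge -/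
def SL (S : ℤ → ℚ⟦X⟧) (α : ℚ⟦X⟧) : Prop :=
  ∀ d, Tendsto (fun n : ℤ => coeff d (S n) / (n : ℚ) ^ d) cofinite (𝓝 (coeff d α))

theorem SL.mul {S T : ℤ → ℚ⟦X⟧} {α β : ℚ⟦X⟧} (h : SL S α) (h' : SL T β) :
    SL (fun n => S n * T n) (α * β) := by
  intro d
  rw [coeff_mul]
  have h1 : Tendsto (fun n : ℤ => ∑ x ∈ Finset.HasAntidiagonal.antidiagonal d,
      (coeff x.1 (S n) / (n : ℚ) ^ x.1) * (coeff x.2 (T n) / (n : ℚ) ^ x.2)) cofinite
      (𝓝 (∑ x ∈ Finset.HasAntidiagonal.antidiagonal d, coeff x.1 α * coeff x.2 β)) :=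
    tendsto_finsetSum _ fun x _ => (h x.1).mul (h' x.2)
  refine h1.congr fun n => ?_
  rw [coeff_mul, Finset.sum_div]
  apply Finset.sum_congr rfl
  intro x hx
  rw [← Finset.HasAntidiagonal.mem_antidiagonal.mp hx, pow_add, div_mul_div_comm]

theorem SL.const (b : ℚ⟦X⟧) : SL (fun _ => b) (C (constantCoeff b)) := by
  intro d
  have h1 := (tendsto_pow_div (Nat.zero_le d)).const_mul (coeff d b)
  have h2 : coeff d b * (if 0 = d then 1 else 0) = coeff d (C (constantCoeff b)) := by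
    rw [coeff_C]
    rcases Nat.eq_zero_or_pos d with rfl | hd
    · simp
    · rw [if_neg hd.ne, if_neg hd.ne', mul_zero]
  rw [h2] at h1
  refine h1.congr fun n => ?_
  rw [pow_zero, mul_one_div]

theorem SL.congr' {S T : ℤ → ℚ⟦X⟧} {α : ℚ⟦X⟧} (h : SL S α) (h' : ∀ n, n ≠ 0 → S n = T n) :
    SL T α := by
  intro d
  refine (h d).congr' ?_
  filter_upwards [eventually_ne] with n hn
  rw [h' n hn]

theorem SL_hexp : SL (fun n => hexp (((n : ℚ) + 1 / n) / 2)) (hexp (1 / 2)) := by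
  intro d
  have h1 : Tendsto (fun n : ℤ => (((1 : ℚ) + (n : ℚ)⁻¹ * (n : ℚ)⁻¹) / 2) ^ d *
      (1 / (d.factorial : ℚ))) cofinite (𝓝 ((((1 : ℚ) + 0 * 0) / 2) ^ d *
      (1 / (d.factorial : ℚ)))) :=
    ((((tendsto_const_nhds.add (tendsto_inv_int.mul tendsto_inv_int)).div_const 2).pow d).mul_const
      _)
  have h2 : coeff d (hexp (1 / 2)) = (((1 : ℚ) + 0 * 0) / 2) ^ d * (1 / (d.factorial : ℚ)) := by
    rw [coeff_hexp]
    norm_num
  rw [h2]
  refine h1.congr' ?_
  filter_upwards [eventually_ne] with n hn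
  have hn' : (n : ℚ) ≠ 0 := by exact_mod_cast hn
  rw [coeff_hexp, mul_div_right_comm, ← div_pow]
  congr 2
  field_simp

/-- the limit of the Gaussian integrals -/
def gtop (f : ℕ → ℕ → ℚ) : ℚ⟦X⟧ := PowerSeries.mk fun m =>
  if m = 0 then 0 else 2 * ((2 * m - 1).doubleFactorial : ℚ) * (-1) ^ m * f (2 * m - 1) 0

theorem SL_gauss (f : ℕ → ℕ → ℚ) : SL (fun n => C (n : ℚ) * gauss n f) (gtop f) := by
  intro m
  have hterm : ∀ k ∈ Finset.range (m + 1), ∀ s ∈ Finset.range (2 * k + 1),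
      Tendsto (fun n : ℤ => (((2 * k - 1).doubleFactorial : ℚ) * (-1) ^ k * ((1 - (-1) ^ s) /
        (s.factorial : ℚ) * f (2 * k - s) (m - k))) * ((n : ℚ) ^ (k + 1) / (n : ℚ) ^ (s + m)))
        cofinite (𝓝 (if k = m ∧ s = 1 then 2 * ((2 * m - 1).doubleFactorial : ℚ) * (-1) ^ m *
          f (2 * m - 1) 0 else 0)) := by
    intro k hk s hs
    have hk' := Finset.mem_range.mp hk
    rcases Nat.even_or_odd s with h | h
    · have hs1 : s ≠ 1 := by
        rintro rfl
        exact absurd h (by decide)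
      rw [if_neg (fun hc => hs1 hc.2), h.neg_one_pow, sub_self, zero_div, zero_mul, mul_zero]
      simp only [zero_mul]
      exact tendsto_const_nhds
    · have hs1 : 1 ≤ s := h.pos
      have h1 := (tendsto_pow_div (show k + 1 ≤ s + m by omega)).const_mul
        (((2 * k - 1).doubleFactorial : ℚ) * (-1) ^ k * ((1 - (-1) ^ s) /
        (s.factorial : ℚ) * f (2 * k - s) (m - k)))
      refine (congrArg (fun x => Tendsto _ cofinite (𝓝 x)) ?_).mp h1
      by_cases hc : k = m ∧ s = 1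
      · obtain ⟨rfl, rfl⟩ := hc
        rw [if_pos (by omega), if_pos ⟨rfl, rfl⟩, Nat.sub_self]
        norm_num
        ring
      · rw [if_neg hc, if_neg (by omega), mul_zero]
  have hsum := tendsto_finsetSum _ fun k hk => tendsto_finsetSum _ fun s hs => hterm k hk s hs
  have hval : ∑ k ∈ Finset.range (m + 1), ∑ s ∈ Finset.range (2 * k + 1),
      (if k = m ∧ s = 1 then 2 * ((2 * m - 1).doubleFactorial : ℚ) * (-1) ^ m *
          f (2 * m - 1) 0 else 0) = coeff m (gtop f) := by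
    rw [gtop, coeff_mk, Finset.sum_eq_single m]
    · rcases Nat.eq_zero_or_pos m with rfl | hm
      · simp
      · rw [if_neg hm.ne', Finset.sum_eq_single 1]
        · rw [if_pos ⟨rfl, rfl⟩]
        · intro s _ hs
          rw [if_neg (fun hc => hs hc.2)]
        · intro h
          exfalso
          apply h
          rw [Finset.mem_range]
          omega
    · intro k _ hk
      apply Finset.sum_eq_zero
      intro s _
      rw [if_neg (fun hc => hk hc.1)]
    · intro h
      exfalso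
      exact h (Finset.mem_range.mpr (Nat.lt_succ_self m))
  rw [hval] at hsum
  refine hsum.congr' ?_
  filter_upwards [eventually_ne] with n hn
  have hn' : (n : ℚ) ≠ 0 := by exact_mod_cast hn
  rw [coeff_C_mul, gauss, coeff_mk, Finset.mul_sum, Finset.sum_div]
  apply Finset.sum_congr rfl
  intro k _
  rw [Finset.mul_sum, Finset.mul_sum, Finset.sum_div]
  apply Finset.sum_congr rfl
  intro s _
  have hs : (s.factorial : ℚ) ≠ 0 := by exact_mod_cast s.factorial_ne_zero
  rw [neg_pow (n : ℚ) k, pow_add _ s m, pow_succ]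
  field_simp

theorem SL_ohtsuki (J : ℤ → ℚ⟦X⟧) : SL (fun n => ohtsuki n J)
    (shift (C (-1 / 2) * hexp (1 / 2) * gtop (mmCoeff J)) * C (1 / 2)) := by
  have h1 := ((SL.const (C (-1 / 2 : ℚ))).mul SL_hexp).mul (SL_gauss (mmCoeff J))
  rw [constantCoeff_C] at h1
  have h2 : SL (fun n => shift (C (-1 / 2) * hexp (((n : ℚ) + 1 / n) / 2) * gauss n (mmCoeff J)))
      (shift (C (-1 / 2) * hexp (1 / 2) * gtop (mmCoeff J))) := by
    intro d
    rw [shift, coeff_mk]
    refine (h1 (d + 1)).congr' ?_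
    filter_upwards [eventually_ne] with n hn
    have hn' : (n : ℚ) ≠ 0 := by exact_mod_cast hn
    rw [shift, coeff_mk, show C (-1 / 2) * hexp (((n : ℚ) + 1 / n) / 2) *
      (C (n : ℚ) * gauss n (mmCoeff J)) = C (n : ℚ) *
        (C (-1 / 2) * hexp (((n : ℚ) + 1 / n) / 2) * gauss n (mmCoeff J)) by ring, coeff_C_mul,
      pow_succ]
    field_simp
  have h3 : constantCoeff ((shift (hexp 1 - hexp (-1)))⁻¹) = 1 / 2 := by
    rw [constantCoeff_inv]
    have : constantCoeff (shift (hexp 1 - hexp (-1))) = 2 := dd_const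
    rw [this]
    norm_num
  have h4 := h2.mul (SL.const ((shift (hexp 1 - hexp (-1)))⁻¹))
  rw [h3] at h4
  apply h4.congr'
  intro n hn
  rw [ohtsuki, if_neg hn]

/-- the limit in terms of the leading part of the Melvin-Morton expansion -/
theorem top_coeff (J : ℤ → ℚ⟦X⟧) (d : ℕ) :
    coeff d (shift (C (-1 / 2) * hexp (1 / 2) * gtop (mmCoeff J)) * C (1 / 2)) =
      1 / (2 ^ (d + 1) * (d.factorial : ℚ)) *
        Phi (wf J) (Polynomial.X * (1 - Polynomial.X ^ 2) ^ d) := by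
  have hR : Polynomial.X * (1 - Polynomial.X ^ 2 : Polynomial ℚ) ^ d =
      ∑ k ∈ Finset.range (d + 1), ((-1) ^ k * (d.choose k : ℚ)) •
        (Polynomial.X : Polynomial ℚ) ^ (2 * k + 1) := by
    rw [show (1 - Polynomial.X ^ 2 : Polynomial ℚ) = -Polynomial.X ^ 2 + 1 by ring, add_pow,
      Finset.mul_sum]
    apply Finset.sum_congr rfl
    intro k _
    rw [Polynomial.smul_eq_C_mul, Polynomial.C_mul, Polynomial.C_pow, Polynomial.C_neg,
      Polynomial.C_1, neg_pow]
    rw [show (Polynomial.C ((d.choose k : ℕ) : ℚ) : Polynomial ℚ) = ((d.choose k : ℕ) :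
        Polynomial ℚ) from Polynomial.C_eq_natCast _]
    ring
  rw [hR, map_sum, mul_comm _ (C (1 / 2)), coeff_C_mul, shift, coeff_mk, mul_assoc, coeff_C_mul,
    mul_comm (hexp _), coeff_mul, Finset.Nat.sum_antidiagonal_eq_sum_range_succ_mk,
    Finset.sum_range_succ']
  have h0 : coeff 0 (gtop (mmCoeff J)) * coeff (d + 1 - 0) (hexp (1 / 2)) = 0 := by
    rw [gtop, coeff_mk, if_pos rfl, zero_mul]
  dsimp only
  rw [h0, add_zero, Finset.mul_sum, Finset.mul_sum, Finset.mul_sum]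
  apply Finset.sum_congr rfl
  intro k hk
  have hk' : k ≤ d := by
    have := Finset.mem_range.mp hk
    omega
  rw [map_smul, Phi_X_pow, smul_eq_mul, gtop, coeff_mk, if_neg (Nat.succ_ne_zero k), coeff_hexp,
    wf, coeff_mk, show 2 * (k + 1) - 1 = 2 * k + 1 by omega,
    show d + 1 - (k + 1) = d - k by omega]
  have h1 : (((2 * k + 1).factorial : ℕ) : ℚ) = ((2 * k + 1).doubleFactorial : ℚ) *
      (2 ^ k * (k.factorial : ℚ)) := by
    rw [Nat.factorial_eq_mul_doubleFactorial, Nat.doubleFactorial_two_mul]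
    push_cast
    ring
  have h2 : ((d.choose k : ℕ) : ℚ) = (d.factorial : ℚ) / ((k.factorial : ℚ) *
        ((d - k).factorial : ℚ)) := Nat.cast_choose ℚ hk'
  have h3 : (k.factorial : ℚ) ≠ 0 := by exact_mod_cast k.factorial_ne_zero
  have h4 : ((d - k).factorial : ℚ) ≠ 0 := by exact_mod_cast (d - k).factorial_ne_zero
  have h5 : (d.factorial : ℚ) ≠ 0 := by exact_mod_cast d.factorial_ne_zero
  have h6 : (2 : ℚ) ^ (d + 1) = 2 ^ (d - k) * 2 ^ k * 2 := by
    rw [← pow_add, ← pow_succ]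
    congr 1
    omega
  rw [h1, h2, h6, div_pow, one_pow]
  have h7 : ((2 : ℚ) ^ k) ≠ 0 := by positivity
  have h8 : ((2 : ℚ) ^ (d - k)) ≠ 0 := by positivity
  field_simp
  ring

end

end Pool.Agent.H765.MM
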