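import Mathlib
import Pool.Agent.H765.MM.Lim
import Pool.Agent.H765.MM.Ann

/-! The leading part of the Melvin-Morton expansion: cables and sums. -/

namespace Pool.Agent.H765.MM

open PowerSeries GK DB Pool.Agent.H765.ST

noncomputable section

/-- the coefficient of `h^n` is a polynomial in `N` of degree at most `n` whose coefficient of
`N^n` is the coefficient of `y^n` in `t` -/
def IsTop (f : ℤ → ℚ⟦X⟧) (t : ℚ⟦X⟧) : Prop := ∀ n, ∃ P : Polynomial ℚ, P.natDegree ≤ n ∧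
  P.coeff n = coeff n t ∧ ∀ N : ℤ, coeff n (f N) = P.eval (N : ℚ)

theorem poly_unique {P Q : Polynomial ℚ} (h : ∀ N : ℤ, P.eval (N : ℚ) = Q.eval (N : ℚ)) :
    P = Q := by
  apply Polynomial.eq_of_infinite_eval_eq
  have hi : Set.Infinite (Set.range fun k : ℕ => (k : ℚ)) :=
    Set.infinite_range_of_injective Nat.cast_injective
  refine hi.mono ?_
  rintro _ ⟨k, rfl⟩
  simpa using h k

theorem IsTop.unique {f : ℤ → ℚ⟦X⟧} {t t' : ℚ⟦X⟧} (h : IsTop f t) (h' : IsTop f t') : t = t' := by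
  ext n
  obtain ⟨P, _, h1, h2⟩ := h n
  obtain ⟨Q, _, h3, h4⟩ := h' n
  rw [← h1, ← h3, poly_unique (P := P) (Q := Q) (fun N => by rw [← h2, ← h4])]

theorem IsTop.congr {f g : ℤ → ℚ⟦X⟧} {t : ℚ⟦X⟧} (h : IsTop f t) (h' : ∀ N, f N = g N) :
    IsTop g t := by
  have : f = g := funext h'
  rwa [← this]

theorem IsTop.sub {f g : ℤ → ℚ⟦X⟧} {t u : ℚ⟦X⟧} (h : IsTop f t) (h' : IsTop g u) :
    IsTop (fun N => f N - g N) (t - u) := by
  intro n
  obtain ⟨P, h0, h1, h2⟩ := h n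
  obtain ⟨Q, h3, h4, h5⟩ := h' n
  exact ⟨P - Q, (Polynomial.natDegree_sub_le _ _).trans (max_le h0 h3),
    by rw [Polynomial.coeff_sub, h1, h4, map_sub],
    fun N => by rw [map_sub, h2, h5, Polynomial.eval_sub]⟩

theorem IsTop.mul {f g : ℤ → ℚ⟦X⟧} {t u : ℚ⟦X⟧} (h : IsTop f t) (h' : IsTop g u) :
    IsTop (fun N => f N * g N) (t * u) := by
  choose P h0 h1 h2 using h
  choose Q h3 h4 h5 using h'
  intro n
  refine ⟨∑ k ∈ Finset.range (n + 1), P k * Q (n - k), ?_, ?_, fun N => ?_⟩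
  · apply Polynomial.natDegree_sum_le_of_forall_le
    intro k hk
    have a1 := h0 k
    have a2 := h3 (n - k)
    have a3 : k ≤ n := by simpa [Nat.lt_succ_iff] using hk
    exact (Polynomial.natDegree_mul_le).trans (by omega)
  · rw [Polynomial.finsetSum_coeff, coeff_mul_range]
    apply Finset.sum_congr rfl
    intro k hk
    have a3 : k ≤ n := by simpa [Nat.lt_succ_iff] using hk
    have := Polynomial.coeff_mul_add_eq_of_natDegree_le (h0 k) (h3 (n - k))
    rw [show k + (n - k) = n by omega] at this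
    rw [this, h1, h4]
  · rw [coeff_mul_range, Polynomial.eval_finsetSum]
    apply Finset.sum_congr rfl
    intro k _
    rw [h2, h5, Polynomial.eval_mul]

theorem IsTop.hexp (c : ℚ) : IsTop (fun N => GK.hexp (c * N)) (GK.hexp c) := by
  intro n
  refine ⟨Polynomial.C (c ^ n * (1 / (n.factorial : ℚ))) * Polynomial.X ^ n, ?_, ?_, fun N => ?_⟩
  · exact Polynomial.natDegree_C_mul_X_pow_le _ _
  · rw [Polynomial.coeff_C_mul, Polynomial.coeff_X_pow, if_pos rfl, mul_one, coeff_hexp]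
  · rw [coeff_hexp]
    simp
    ring

theorem IsTop.comp {f : ℤ → ℚ⟦X⟧} {t : ℚ⟦X⟧} (h : IsTop f t) (x y : ℤ) :
    IsTop (fun N => f (x * N + y)) (rescale (x : ℚ) t) := by
  intro n
  obtain ⟨P, h0, h1, h2⟩ := h n
  have hlin : (Polynomial.C (x : ℚ) * Polynomial.X + Polynomial.C (y : ℚ)).natDegree ≤ 1 :=
    Polynomial.natDegree_linear_le
  refine ⟨P.comp (Polynomial.C (x : ℚ) * Polynomial.X + Polynomial.C (y : ℚ)), ?_, ?_,
    fun N => ?_⟩
  · refine (Polynomial.natDegree_comp_le).trans ?_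
    nlinarith
  · rw [coeff_rescale, ← h1, Polynomial.comp, Polynomial.eval₂_eq_sum_range'
      (n := n + 1) _ (Nat.lt_succ_of_le h0), Polynomial.finsetSum_coeff, Finset.sum_range_succ,
      Finset.sum_eq_zero, zero_add, Polynomial.coeff_C_mul]
    · have := Polynomial.coeff_pow_of_natDegree_le (m := n) hlin
      rw [mul_one] at this
      rw [this, Polynomial.coeff_add, Polynomial.coeff_C_mul, Polynomial.coeff_X_one,
        Polynomial.coeff_C_succ]
      ring
    · intro k hk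
      have hk' := Finset.mem_range.mp hk
      rw [Polynomial.coeff_C_mul, Polynomial.coeff_eq_zero_of_natDegree_lt (n := n), mul_zero]
      refine lt_of_le_of_lt (Polynomial.natDegree_pow_le) ?_
      nlinarith
  · rw [h2, Polynomial.eval_comp, Polynomial.eval_add, Polynomial.eval_mul, Polynomial.eval_C,
      Polynomial.eval_X, Polynomial.eval_C]
    push_cast
    rfl

theorem Bd.D_mul {J : ℤ → ℚ⟦X⟧} (h : Bd 1 1 J) :
    Bd 1 0 (fun N => (GK.hexp 1 - GK.hexp (-1)) * J N) := by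
  have h1 : Bd 1 0 (fun N => X * J N) := Bd.X_mul h
  have h2 := h1.const_mul dd
  apply h2.congr
  intro N
  rw [← X_mul_dd]
  ring

theorem wf_top {J : ℤ → ℚ⟦X⟧} (h : Bd 1 1 J) :
    IsTop (fun N => (GK.hexp 1 - GK.hexp (-1)) * J N) (wf J) := by
  intro n
  refine ⟨mmPoly J n, mmPoly_natDegree J n, ?_, fun N => mmPoly_eval h.D_mul n N⟩
  rw [wf, coeff_mk, mmCoeff, add_zero]

/-- cables -/
theorem wf_cable {J : ℤ → ℚ⟦X⟧} (hodd : ∀ N, J (-N) = - J N) (h : Bd 1 1 J) (p : ℕ) {q : ℤ}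
    (hq : q ≠ 0) : (GK.hexp (p * q) - GK.hexp (-(p * q))) * wf (cableJ p q J) =
      (GK.hexp q - GK.hexp (-q)) * rescale (p : ℚ) (wf J) := by
  have hC := wf_top (Bd.cable hodd h p hq)
  have hJ := wf_top h
  have a1 := ((IsTop.hexp (p * q)).mul (hC.comp 1 1)).sub
    ((IsTop.hexp (-(p * q))).mul (hC.comp 1 (-1)))
  have a2 := ((IsTop.hexp (q : ℚ)).mul (hJ.comp p 1)).sub
    ((IsTop.hexp (-(q : ℚ))).mul (hJ.comp p (-1)))
  have a3 := a1.congr (g := fun N : ℤ => GK.hexp (q * N) *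
      ((GK.hexp 1 - GK.hexp (-1)) * J (p * N + 1)) - GK.hexp (-q * N) *
      ((GK.hexp 1 - GK.hexp (-1)) * J (p * N + (-1)))) (by
    intro N
    have := cableJ_diff (p := p) (q := q) hodd N
    rw [one_mul, neg_mul, neg_mul, ← sub_eq_add_neg, ← sub_eq_add_neg]
    linear_combination (GK.hexp 1 - GK.hexp (-1)) * this)
  have := a3.unique a2
  rw [Int.cast_one, rescale_one, RingHom.id_apply, Int.cast_natCast] at this
  linear_combination this

/-- sums -/
theorem wf_sum {J J' : ℤ → ℚ⟦X⟧} (h : Bd 1 1 J) (h0 : J 0 = 0) (h' : Bd 1 1 J')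
    (h0' : J' 0 = 0) : (GK.hexp 1 - GK.hexp (-1)) * wf (fun N => J N * J' N * (unknotJ N)⁻¹) =
      wf J * wf J' := by
  have a1 := wf_top (Bd.sum le_rfl h h0 h' h0')
  have a2 := ((IsTop.hexp 1).sub (IsTop.hexp (-1))).mul a1
  have a3 := (wf_top h).mul (wf_top h')
  apply a2.unique
  apply a3.congr
  intro N
  rcases eq_or_ne N 0 with rfl | hN
  · rw [h0]; simp
  · have e1 := mul_unknotJ_cancel hN
    have e2 := unknotJ_mul N
    rw [one_mul, neg_one_mul]
    linear_combination ((GK.hexp 1 - GK.hexp (-1)) * (J N * J' N * (unknotJ N)⁻¹)) * e2 -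
      ((GK.hexp 1 - GK.hexp (-1)) ^ 2 * (J N * J' N)) * e1

theorem wf_unknot : wf unknotJ = GK.hexp 1 - GK.hexp (-1) := by
  have a1 := wf_top Bd.unknot1
  have a2 := (IsTop.hexp 1).sub (IsTop.hexp (-1))
  apply a1.unique
  apply a2.congr
  intro N
  rw [unknotJ_mul, one_mul, neg_one_mul]

theorem wf_odd {J : ℤ → ℚ⟦X⟧} (hodd : ∀ N, J (-N) = - J N) (h : Bd 1 1 J) :
    ∀ k, Even k → coeff k (wf J) = 0 := by
  intro k hk
  have a1 := (wf_top h).comp (-1) 0
  have a2 : IsTop (fun N => (GK.hexp 1 - GK.hexp (-1)) * J (-1 * N + 0)) (0 - wf J) := by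
    have a3 : IsTop (fun _ : ℤ => (0 : ℚ⟦X⟧)) 0 := fun n => ⟨0, by simp, by simp, fun N => by simp⟩
    apply (a3.sub (wf_top h)).congr
    intro N
    rw [add_zero, neg_one_mul, hodd]
    ring
  have a3 := congrArg (coeff k) (a1.unique a2)
  rw [coeff_rescale, zero_sub, map_neg] at a3
  push_cast at a3
  rw [hk.neg_one_pow, one_mul] at a3
  linarith

end

end Pool.Agent.H765.MM
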