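import Mathlib
import Pool.Agent.H765.MM.Top

/-! The leading part of the Melvin-Morton expansion of graph knots. -/

namespace Pool.Agent.H765.MM

open PowerSeries GK DB Pool.Agent.H765.ST

noncomputable section

/-- The Melvin-Morton-Rozansky theorem for the leading part: `(e^y - e^{-y})/Δ(e^{2y})`, where
`Δ(t) = t^{-k/2} B(t)` is a Laurent polynomial with integer coefficients and `Δ(1) = 1`. -/
def HasAlex (w : ℚ⟦X⟧) : Prop := ∃ (B : Polynomial ℤ) (k : ℤ), B.eval 1 = 1 ∧
  ev (Polynomial.expand ℤ 2 B) * w = hexp k * (hexp 1 - hexp (-1))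

theorem hexp_sub_ne {a : ℚ} (ha : a ≠ 0) : hexp a - hexp (-a) ≠ 0 := by
  intro h
  have h1 := congrArg (coeff 1) h
  rw [map_sub, coeff_hexp, coeff_hexp, map_zero] at h1
  apply ha
  norm_num at h1
  linarith

theorem hexp_ne_zero (a : ℚ) : hexp a ≠ 0 := by
  intro h
  have h1 := congrArg (coeff 0) h
  rw [coeff_hexp, map_zero] at h1
  norm_num at h1

theorem ev_expand (B : Polynomial ℤ) (m n : ℕ) :
    rescale (m : ℚ) (ev (Polynomial.expand ℤ n B)) = ev (Polynomial.expand ℤ (m * n) B) := by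
  induction B using Polynomial.induction_on' with
  | add P Q hP hQ => simp only [map_add, hP, hQ]
  | monomial j a =>
    rw [← Polynomial.C_mul_X_pow_eq_monomial]
    simp only [map_mul, map_pow, Polynomial.expand_C, Polynomial.expand_X, ev_C, ev_X]
    have h1 : rescale (m : ℚ) (C (a : ℚ)) = C (a : ℚ) := by
      ext n
      rw [coeff_rescale, coeff_C]
      split_ifs with h
      · rw [h, pow_zero, one_mul]
      · rw [mul_zero]
    have h2 : rescale (m : ℚ) (hexp 1) = hexp 1 ^ m := by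
      rw [hexp_nat]
      ext n
      rw [coeff_rescale, coeff_hexp, coeff_hexp]
      ring
    rw [h1, h2, ← pow_mul, ← pow_mul, ← pow_mul, ← mul_assoc]

/-- the Alexander polynomial of a torus knot, up to a unit -/
theorem torus_poly {p a : ℕ} (hp : 1 ≤ p) (ha : 1 ≤ a) (h : Nat.Coprime p a) :
    ∃ T : Polynomial ℤ, T.eval 1 = 1 ∧ (Polynomial.X ^ (p * a) - 1) * (Polynomial.X - 1) =
      T * (Polynomial.X ^ p - 1) * (Polynomial.X ^ a - 1) := by
  obtain ⟨x, y, hxy⟩ : ∃ x y, p * x = a * y + 1 := by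
    rcases Nat.lt_or_ge 1 a with h1 | h1
    · obtain ⟨x, _, hx⟩ := Nat.exists_mul_mod_eq_one_of_coprime h h1
      refine ⟨x, p * x / a, ?_⟩
      have := Nat.div_add_mod (p * x) a
      rw [hx] at this
      exact this.symm
    · obtain rfl : a = 1 := by omega
      exact ⟨1, p - 1, by omega⟩
  have hU : (Polynomial.X ^ p - 1 : Polynomial ℤ) ∣ Polynomial.X ^ (p * x) - 1 := by
    rw [pow_mul]
    exact sub_one_dvd_pow_sub_one _ _
  have hV : (Polynomial.X ^ a - 1 : Polynomial ℤ) ∣ Polynomial.X ^ (a * y) - 1 := by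
    rw [pow_mul]
    exact sub_one_dvd_pow_sub_one _ _
  have hW₁ : (Polynomial.X ^ a - 1 : Polynomial ℤ) ∣ Polynomial.X ^ (p * a) - 1 := by
    rw [mul_comm, pow_mul]
    exact sub_one_dvd_pow_sub_one _ _
  have hW₂ : (Polynomial.X ^ p - 1 : Polynomial ℤ) ∣ Polynomial.X ^ (p * a) - 1 := by
    rw [pow_mul]
    exact sub_one_dvd_pow_sub_one _ _
  obtain ⟨U, hU⟩ := hU
  obtain ⟨V, hV⟩ := hV
  obtain ⟨W₁, hW₁⟩ := hW₁
  obtain ⟨W₂, hW₂⟩ := hW₂
  have e : (Polynomial.X ^ (p * x) - 1 : Polynomial ℤ) - Polynomial.X *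
      (Polynomial.X ^ (a * y) - 1) = Polynomial.X - 1 := by
    rw [hxy, pow_succ]
    ring
  have key : (Polynomial.X ^ (p * a) - 1 : Polynomial ℤ) * (Polynomial.X - 1) =
      (U * W₁ - Polynomial.X * V * W₂) * (Polynomial.X ^ p - 1) * (Polynomial.X ^ a - 1) := by
    rw [← e, mul_sub]
    nth_rewrite 1 [hW₁]
    nth_rewrite 1 [hW₂]
    rw [hU, hV]
    ring
  refine ⟨_, ?_, key⟩
  set T := U * W₁ - Polynomial.X * V * W₂
  have h1 : ((Polynomial.X : Polynomial ℤ) - 1) ≠ 0 := by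
    have := Polynomial.X_sub_C_ne_zero (1 : ℤ)
    rwa [Polynomial.C_1] at this
  have h2 : (∑ i ∈ Finset.range (p * a), (Polynomial.X : Polynomial ℤ) ^ i) =
      T * (∑ i ∈ Finset.range p, (Polynomial.X : Polynomial ℤ) ^ i) *
        (∑ i ∈ Finset.range a, (Polynomial.X : Polynomial ℤ) ^ i) := by
    apply mul_right_cancel₀ h1
    apply mul_right_cancel₀ h1
    rw [geom_sum_mul, key, ← geom_sum_mul, ← geom_sum_mul]
    ring
  have h3 := congrArg (Polynomial.eval 1) h2
  simp only [Polynomial.eval_mul, Polynomial.eval_finsetSum, Polynomial.eval_pow,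
    Polynomial.eval_X, one_pow, Finset.sum_const, Finset.card_range, nsmul_eq_mul, mul_one] at h3
  push_cast at h3
  have h4 : ((p : ℤ) * a) ≠ 0 := by positivity
  apply mul_right_cancel₀ h4
  linarith

theorem HasAlex.cable {J : ℤ → ℚ⟦X⟧} (hodd : ∀ N, J (-N) = - J N) (h : Bd 1 1 J)
    (hA : HasAlex (wf J)) {p : ℕ} (hp : 2 ≤ p) {q : ℤ} (hq : IsCoprime (p : ℤ) q) :
    HasAlex (wf (cableJ p q J)) := by
  have hq0 : q ≠ 0 := by
    rintro rfl
    rw [isCoprime_zero_right, Int.isUnit_iff] at hq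
    omega
  obtain ⟨B, k, hB, hw⟩ := hA
  set a := q.natAbs with ha
  have ha1 : 1 ≤ a := Int.natAbs_pos.mpr hq0
  have hcop : Nat.Coprime p a := by
    rw [Int.isCoprime_iff_gcd_eq_one] at hq
    simpa [Int.gcd, ha] using hq
  obtain ⟨T, hT, hTe⟩ := torus_poly (by omega) ha1 hcop
  -- the relation for `a` instead of `q`
  have hc : (hexp (p * a) - hexp (-(p * a))) * wf (cableJ p q J) =
      (hexp a - hexp (-a)) * rescale (p : ℚ) (wf J) := by
    have h1 := wf_cable hodd h p hq0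
    rcases Int.natAbs_eq q with h2 | h2
    · rw [← ha] at h2
      have h3 : (q : ℚ) = a := by rw [h2]; push_cast; rfl
      rw [h3] at h1
      exact h1
    · rw [← ha] at h2
      have h3 : (q : ℚ) = -a := by rw [h2]; push_cast; ring
      rw [h3, neg_neg, mul_neg, neg_neg] at h1
      linear_combination -h1
  have hw' := congrArg (rescale (p : ℚ)) hw
  rw [map_mul, ev_expand, map_mul, map_sub] at hw'
  have hre : ∀ b : ℚ, rescale (p : ℚ) (hexp b) = hexp (p * b) := by
    intro b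
    ext n
    rw [coeff_rescale, coeff_hexp, coeff_hexp]
    ring
  rw [hre, hre, hre] at hw'
  have hTe2 := congrArg (fun L => ev (Polynomial.expand ℤ 2 L)) hTe
  simp only [map_mul, map_sub, map_pow, map_one, Polynomial.expand_X, ev_X, hexp_nat] at hTe2
  have hs : ∀ b : ℕ, hexp ((2 * b : ℕ) : ℚ) - 1 = hexp b * (hexp b - hexp (-b)) := by
    intro b
    rw [mul_sub, ← hexp_add, ← hexp_add, add_neg_cancel, hexp_zero]
    push_cast
    rw [two_mul]
  have hpow : ∀ b : ℕ, hexp ((2 : ℕ) : ℚ) ^ b = hexp ((2 * b : ℕ) : ℚ) := by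
    intro b
    rw [← hexp_nat 2, ← pow_mul, hexp_nat]
  have hs1 := hs 1
  rw [mul_one] at hs1
  rw [hpow, hpow, hpow, hs, hs, hs, hs1] at hTe2
  refine ⟨Polynomial.expand ℤ p B * T, k * p + p * a + 1 - p - a, ?_, ?_⟩
  · rw [Polynomial.eval_mul, Polynomial.expand_eval, one_pow, hB, hT, one_mul]
  · have hne : hexp (p * a) - hexp (-(p * a)) ≠ 0 := by
      apply hexp_sub_ne
      have h5 : (p : ℚ) ≠ 0 := by
        have : p ≠ 0 := by omega
        exact_mod_cast this
      have h6 : (a : ℚ) ≠ 0 := by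
        have : a ≠ 0 := by omega
        exact_mod_cast this
      exact mul_ne_zero h5 h6
    have hne2 : hexp ((p : ℚ) + a) ≠ 0 := hexp_ne_zero _
    apply mul_left_cancel₀ hne
    apply mul_left_cancel₀ hne2
    rw [map_mul, map_mul, ← Polynomial.expand_mul, mul_comm 2 p]
    have e1 : hexp ((p : ℚ) + a) = hexp p * hexp a := hexp_add _ _
    have e2 : hexp ((p : ℚ) + a) * hexp (((k * p + p * a + 1 - p - a : ℤ)) : ℚ) =
        hexp (p * k) * hexp ((p * a : ℕ) : ℚ) * hexp ((1 : ℕ) : ℚ) := by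
      rw [← hexp_add, ← hexp_add, ← hexp_add]
      congr 1
      push_cast
      ring
    have e3 : (hexp (p * a) : ℚ⟦X⟧) = hexp ((p * a : ℕ) : ℚ) := by
      push_cast
      rfl
    have e4 : (hexp (-(p * a)) : ℚ⟦X⟧) = hexp (-((p * a : ℕ) : ℚ)) := by
      push_cast
      rfl
    rw [e3, e4] at hc ⊢
    rw [mul_one] at hw'
    have e5 : (hexp ((p : ℚ) * -1) : ℚ⟦X⟧) = hexp (-p) := by
      rw [mul_neg_one]
    rw [e5] at hw'
    have e6 : (hexp ((1 : ℕ) : ℚ) : ℚ⟦X⟧) = hexp 1 := by norm_num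
    have e7 : (hexp (-((1 : ℕ) : ℚ)) : ℚ⟦X⟧) = hexp (-1) := by norm_num
    rw [e6, e7] at hTe2
    rw [e6] at e2
    linear_combination (hexp ((p : ℚ) + a) * ev (Polynomial.expand ℤ (p * 2) B) *
        ev (Polynomial.expand ℤ 2 T)) * hc +
      (hexp ((p : ℚ) + a) * ev (Polynomial.expand ℤ 2 T) * (hexp a - hexp (-a))) * hw' +
      (ev (Polynomial.expand ℤ 2 T) * (hexp a - hexp (-a)) * (hexp (p * k) *
        (hexp p - hexp (-p)))) * e1 -
      hexp (p * k) * hTe2 -
      ((hexp ((p * a : ℕ) : ℚ) - hexp (-((p * a : ℕ) : ℚ))) * (hexp 1 - hexp (-1))) * e2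

theorem graph_alex (K : GraphKnot) : HasAlex (wf (colouredJones K)) := by
  induction K with
  | unknot =>
    refine ⟨1, 0, by simp, ?_⟩
    change _ * wf unknotJ = _
    rw [wf_unknot, map_one, map_one, Int.cast_zero, hexp_zero]
  | cable p q hp hq K ih =>
    exact HasAlex.cable (colouredJones_odd K) (graph_bd K) ih hp hq
  | sum K L ihK ihL =>
    obtain ⟨B, k, hB, hw⟩ := ihK
    obtain ⟨B', k', hB', hw'⟩ := ihL
    have h0 : ∀ K : GraphKnot, colouredJones K 0 = 0 := by
      intro K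
      have := colouredJones_odd K 0
      rw [neg_zero] at this
      ext n
      have h1 := congrArg (coeff n) this
      rw [map_neg] at h1
      rw [map_zero]
      linarith
    have hs := wf_sum (graph_bd K) (h0 K) (graph_bd L) (h0 L)
    refine ⟨B * B', k + k', by rw [Polynomial.eval_mul, hB, hB', one_mul], ?_⟩
    have hne : hexp 1 - hexp (-1) ≠ 0 := hexp_sub_ne one_ne_zero
    apply mul_left_cancel₀ hne
    change _ * (_ * wf (fun N => colouredJones K N * colouredJones L N * (unknotJ N)⁻¹)) = _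
    rw [map_mul, map_mul]
    have e : hexp ((k + k' : ℤ) : ℚ) = hexp k * hexp k' := by
      rw [← hexp_add]
      push_cast
      rfl
    rw [e]
    linear_combination (ev (Polynomial.expand ℤ 2 B) * ev (Polynomial.expand ℤ 2 B')) * hs +
      (ev (Polynomial.expand ℤ 2 B') * wf (colouredJones L)) * hw +
      (hexp k * (hexp 1 - hexp (-1))) * hw'

end

end Pool.Agent.H765.MM
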