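import Mathlib
import Pool.Agent.H765.MM.Cable
import Pool.Agent.H765.MM.Unknot

/-! The Ohtsuki series of infinitely many `1/n`-surgeries determine the coloured Jones function. -/

namespace Pool.Agent.H765.MM

open PowerSeries GK DB Pool.Agent.H765.ST

noncomputable section

/-- the coefficients of the Laurent polynomials in `n` -/
def ac (k s : ℕ) : ℚ := ((2 * k - 1).doubleFactorial : ℚ) * (-1) ^ k * ((1 - (-1) ^ s) / s.factorial)

/-- `n^m` times the coefficient of `h^m`, as a polynomial in `n` -/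
def Qm (d : ℕ → ℕ → ℚ) (m : ℕ) : Polynomial ℚ := ∑ k ∈ Finset.range (m + 1),
  ∑ s ∈ Finset.range (2 * k + 1), Polynomial.monomial (m + k - s) (ac k s * d (2 * k - s) (m - k))

theorem Qm_eval (d : ℕ → ℕ → ℚ) (m : ℕ) {n : ℤ} (hn : n ≠ 0) :
    (Qm d m).eval (n : ℚ) = (n : ℚ) ^ m * coeff m (gauss n d) := by
  have hn' : (n : ℚ) ≠ 0 := by exact_mod_cast hn
  rw [Qm, gauss, coeff_mk, Polynomial.eval_finsetSum, Finset.mul_sum]
  apply Finset.sum_congr rfl
  intro k hk
  have hk' := Finset.mem_range.mp hk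
  rw [Polynomial.eval_finsetSum, Finset.mul_sum, Finset.mul_sum]
  apply Finset.sum_congr rfl
  intro s hs
  have hs' := Finset.mem_range.mp hs
  rw [Polynomial.eval_monomial, ac]
  have e1 : (n : ℚ) ^ (m + k - s) * (n : ℚ) ^ s = (n : ℚ) ^ m * (n : ℚ) ^ k := by
    rw [← pow_add, ← pow_add]
    congr 1
    omega
  have e2 : (-(n : ℚ)) ^ k = (-1) ^ k * (n : ℚ) ^ k := neg_pow _ _
  rw [e2]
  have h5 : (s.factorial : ℚ) ≠ 0 := by exact_mod_cast s.factorial_ne_zero
  field_simp
  linear_combination (d (2 * k - s) (m - k) * (1 - (-1) ^ s)) * e1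

theorem ac_one (k : ℕ) : ac k 1 ≠ 0 := by
  unfold ac
  have h1 : ((2 * k - 1).doubleFactorial : ℚ) ≠ 0 := by
    exact_mod_cast (Nat.doubleFactorial_pos _).ne'
  have h2 : ((-1 : ℚ)) ^ k ≠ 0 := pow_ne_zero _ (by norm_num)
  apply mul_ne_zero (mul_ne_zero h1 h2)
  norm_num

theorem ac_even {k s : ℕ} (h : Even s) : ac k s = 0 := by
  unfold ac
  rw [h.neg_one_pow, sub_self, zero_div, mul_zero]

theorem coeff_odd_zero {d : ℕ → ℕ → ℚ} (h : ∀ m, Qm d m = 0) :
    ∀ b k, 1 ≤ k → d (2 * k - 1) b = 0 := by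
  intro b
  induction b using Nat.strong_induction_on with
  | _ b ih =>
    intro k0 hk0
    have h1 := congrArg (fun p => Polynomial.coeff p (k0 + b + k0 - 1)) (h (k0 + b))
    simp only [Qm, Polynomial.finsetSum_coeff, Polynomial.coeff_monomial, Polynomial.coeff_zero]
      at h1
    rw [Finset.sum_eq_single k0] at h1
    · rw [Finset.sum_eq_single 1] at h1
      · rw [if_pos rfl, show k0 + b - k0 = b by omega] at h1
        exact (mul_eq_zero.mp h1).resolve_left (ac_one k0)
      · intro s hs hs1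
        rw [if_neg (by omega)]
      · intro hs
        exfalso
        apply hs
        rw [Finset.mem_range]
        omega
    · intro k hk hkk
      have hk' := Finset.mem_range.mp hk
      apply Finset.sum_eq_zero
      intro s hs
      have hs' := Finset.mem_range.mp hs
      split_ifs with h2
      · rcases Nat.even_or_odd s with h3 | h3
        · rw [ac_even h3, zero_mul]
        · obtain ⟨j, hj⟩ := h3
          have h4 : 2 * k - s = 2 * (k - j) - 1 := by omega
          rw [h4, ih (k0 + b - k) (by omega) (k - j) (by omega), mul_zero]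
      · rfl
    · intro hs
      exfalso
      apply hs
      rw [Finset.mem_range]
      omega

/-- If the coloured Jones functions `J, J'` differ, only finitely many `n` have equal series. -/
theorem finite_equal {J J' : ℤ → ℚ⟦X⟧} (hJ : ∀ N, J (-N) = - J N) (hJ' : ∀ N, J' (-N) = - J' N)
    (h : Bd 1 1 J) (h' : Bd 1 1 J') (hne : J ≠ J') :
    {n : ℤ | ohtsuki n J = ohtsuki n J'}.Finite := by
  by_contra hinf
  have hinf' : {n : ℤ | ohtsuki n J = ohtsuki n J'}.Infinite := hinf
  apply hne
  set E : ℤ → ℚ⟦X⟧ := fun N => J N - J' N with hE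
  have hEB : Bd 1 0 (fun N => (hexp 1 - hexp (-1)) * E N) := by
    have h1 : Bd 1 0 (fun N => X * (dd * E N)) := Bd.X_mul ((h.sub h').const_mul dd)
    apply h1.congr
    intro N
    rw [← mul_assoc, X_mul_dd]
  have hg : ∀ n : ℤ, n ≠ 0 → ohtsuki n J = ohtsuki n J' → gauss n (mmCoeff E) = 0 := by
    intro n hn he
    have h1 := D_mul_ohtsuki_sub hn J J'
    rw [he, sub_self, mul_zero] at h1
    have h2 : C (-1 / 2 : ℚ) * hexp (((n : ℚ) + 1 / n) / 2) ≠ 0 := by
      apply mul_ne_zero _ (hexp_ne _)
      intro h3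
      have := congrArg constantCoeff h3
      simp at this
    exact (mul_eq_zero.mp h1.symm).resolve_left h2
  have hQ : ∀ m, Qm (mmCoeff E) m = 0 := by
    intro m
    apply Polynomial.eq_zero_of_infinite_isRoot
    have h1 : ({n : ℤ | ohtsuki n J = ohtsuki n J'} \ {0}).Infinite :=
      hinf'.sdiff (Set.finite_singleton 0)
    refine (h1.image (f := fun n : ℤ => (n : ℚ)) (fun _ _ _ _ hab =>
      Int.cast_injective hab)).mono ?_
    rintro _ ⟨n, ⟨hn1, hn2⟩, rfl⟩
    change (Qm (mmCoeff E) m).IsRoot (n : ℚ)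
    rw [Polynomial.IsRoot, Qm_eval _ _ hn2, hg n hn2 hn1, map_zero, mul_zero]
  have hodd := coeff_odd_zero hQ
  have hP : ∀ m, mmPoly E m = 0 := by
    intro m
    have hneg : (mmPoly E m).comp (Polynomial.C (-1) * Polynomial.X) = - mmPoly E m := by
      apply poly_eq_of_int
      intro N
      have h1 := mmPoly_eval hEB m N
      have h2 := mmPoly_eval hEB m (-N)
      have h3 : E (-N) = - E N := by
        simp only [hE, hJ, hJ']
        ring
      rw [h3, mul_neg, map_neg, h1] at h2
      rw [Polynomial.eval_comp, Polynomial.eval_neg]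
      simp only [Polynomial.eval_mul, Polynomial.eval_C, Polynomial.eval_X, neg_one_mul]
      push_cast at h2
      exact h2.symm
    ext l
    rw [Polynomial.coeff_zero]
    rcases Nat.lt_or_ge m l with hl | hl
    · exact Polynomial.coeff_eq_zero_of_natDegree_lt ((mmPoly_natDegree E m).trans_lt hl)
    rcases Nat.even_or_odd l with h1 | ⟨j, hj⟩
    · have h2 := congrArg (fun p => Polynomial.coeff p l) hneg
      simp only [Polynomial.comp_C_mul_X_coeff, Polynomial.coeff_neg] at h2
      rw [h1.neg_one_pow, mul_one] at h2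
      linarith
    · have h2 := hodd (m - l) (j + 1) (by omega)
      rw [mmCoeff, show 2 * (j + 1) - 1 = l by omega, show l + (m - l) = m by omega] at h2
      exact h2
  funext N
  have h1 : (hexp 1 - hexp (-1)) * E N = 0 := by
    ext m
    rw [mmPoly_eval hEB, hP, Polynomial.eval_zero, map_zero]
  have h2 := (mul_eq_zero.mp h1).resolve_left D_ne
  exact sub_eq_zero.mp h2

end

end Pool.Agent.H765.MM
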