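import Mathlib
import Pool.Agent.H765.MM.Ann

/-! Surgeries on iterated doubles. -/

namespace Pool.Agent.H765.MM

open PowerSeries GK DB Pool.Agent.H765.ST

noncomputable section

/-- The coloured Jones function of a knot with a non-zero Vassiliev invariant of order two
(`d = 2`) or, that of order two being zero, of order three (`d = 3`); with the Melvin-Morton
bound. -/
structure Seed (J : ℤ → ℚ⟦X⟧) (c : ℚ) (d : ℕ) : Prop where
  odd : ∀ N, J (-N) = - J N
  one : J 1 = 1
  bd : Bd 1 1 J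
  lead : Lead J c d
  ne : c ≠ 0
  deg : d = 2 ∨ d = 3

theorem Seed.two_le {J : ℤ → ℚ⟦X⟧} {c : ℚ} {d : ℕ} (h : Seed J c d) : 2 ≤ d := by
  rcases h.deg with h | h <;> omega

theorem S2.unknot (d : ℕ) : S2 unknotJ d :=
  ⟨fun _ => 0, (Bd.const 0).mono (Nat.zero_le _), fun _ => by simp, fun _ => by simp⟩

theorem S2.seed {J : ℤ → ℚ⟦X⟧} {c : ℚ} {d : ℕ} (h : Seed J c d) : S2 J d := by
  have hd := h.deg
  have hdv : ∀ N, X ^ d ∣ J N - unknotJ N := by
    intro N
    have h1 : (X : ℚ⟦X⟧) ^ d ∣ J N - (unknotJ N + C (c * (N * (N ^ 2 - 1))) * X ^ d) :=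
      (pow_dvd_pow _ (by omega)).trans (h.lead N)
    have h2 : (X : ℚ⟦X⟧) ^ d ∣ C (c * (N * (N ^ 2 - 1))) * X ^ d := Dvd.intro_left _ rfl
    exact dvd_of_eq_of_dvd (by ring) (dvd_add h1 h2)
  choose R hR using hdv
  have hB : Bd 1 1 (fun N => J N - unknotJ N) := h.bd.sub Bd.unknot1
  refine ⟨R, ?_, fun N => ?_, fun N => by rw [← hR]; ring⟩
  · intro n
    rcases Nat.eq_zero_or_pos n with rfl | hn
    · refine ⟨Polynomial.C c * (Polynomial.X * (Polynomial.X ^ 2 - 1)), ?_, fun N => ?_⟩
      · refine (Polynomial.natDegree_C_mul_le _ _).trans ?_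
        refine (Polynomial.natDegree_mul_le).trans ?_
        have h1 : (Polynomial.X ^ 2 - 1 : Polynomial ℚ).natDegree ≤ 2 := by
          refine (Polynomial.natDegree_sub_le _ _).trans (max_le ?_ ?_)
          · exact Polynomial.natDegree_X_pow_le 2
          · rw [Polynomial.natDegree_one]; exact Nat.zero_le _
        have h2 := Polynomial.natDegree_X_le (R := ℚ)
        omega
      · have h1 := h.lead N
        rw [X_pow_dvd_iff] at h1
        have h2 := h1 d (Nat.lt_succ_self d)
        have h3 : J N - (unknotJ N + C (c * (N * (N ^ 2 - 1))) * X ^ d) =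
            X ^ d * (R N - C (c * (N * ((N : ℚ) ^ 2 - 1)))) := by
          have h4 := hR N
          linear_combination h4
        rw [h3, coeff_lead, map_sub, constantCoeff_C] at h2
        rw [coeff_zero_eq_constantCoeff_apply]
        simp only [Polynomial.eval_mul, Polynomial.eval_C, Polynomial.eval_X, Polynomial.eval_sub,
          Polynomial.eval_pow, Polynomial.eval_one]
        linarith
    · obtain ⟨P, hP', hP⟩ := hB (n + d)
      refine ⟨P, by omega, fun N => ?_⟩
      rw [← hP]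
      beta_reduce
      rw [hR, coeff_X_pow_mul]
  · have h1 := hR N
    have h2 := hR (-N)
    rw [h.odd, unknotJ_neg] at h2
    apply mul_left_cancel₀ (pow_ne_zero d (X_ne_zero (R := ℚ)))
    linear_combination -h2 - h1

theorem cableJ_add (p : ℕ) (q : ℤ) (J J' : ℤ → ℚ⟦X⟧) (N : ℤ) :
    cableJ p q (fun M => J M + J' M) N = cableJ p q J N + cableJ p q J' N := by
  unfold cableJ
  rw [← smul_add, ← mul_add]
  congr 2
  unfold symSum
  rw [← Finset.sum_add_distrib]
  apply Finset.sum_congr rfl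
  intro i _
  ring

theorem cableJ_mul (p : ℕ) (q : ℤ) (a : ℚ⟦X⟧) (J : ℤ → ℚ⟦X⟧) (N : ℤ) :
    cableJ p q (fun M => a * J M) N = a * cableJ p q J N := by
  unfold cableJ
  have e : symSum (fun j => hexp (q * j * (p * j + 2) / 2) * (a * J (p * j + 1))) N.natAbs =
      a * symSum (fun j => hexp (q * j * (p * j + 2) / 2) * J (p * j + 1)) N.natAbs := by
    rw [mul_symSum]
    congr 1
    funext j
    ring
  rw [e, mul_smul_comm, mul_left_comm]

theorem S2.cable {J : ℤ → ℚ⟦X⟧} {d : ℕ} (h : S2 J d) (p : ℕ) {ε : ℤ} (hε : ε = 1 ∨ ε = -1) :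
    S2 (cableJ p ε J) d := by
  obtain ⟨R, hR, hodd, hJ⟩ := h
  refine ⟨cableJ p ε R, Bd.cable2 (c := 1) hodd hR p ε, cableJ_neg _ _ _, fun N => ?_⟩
  have : J = fun M => unknotJ M + X ^ d * R M := funext hJ
  rw [this, cableJ_add, cableJ_mul, cableJ_one p ε hε]

/-- the function `cyc` with the coefficient of index `0` equal to one -/
theorem S2.cyc {β : ℕ → ℚ⟦X⟧} {d : ℕ} (h0 : β 0 = 1)
    (h : ∀ i, 1 ≤ i → X ^ (d + 2 * (i - 1)) ∣ β i) : S2 (cyc β) d := by
  have h' : ∀ i, ∃ r, 1 ≤ i → β i = X ^ (d + 2 * (i - 1)) * r := by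
    intro i
    by_cases hi : 1 ≤ i
    · obtain ⟨r, hr⟩ := h i hi
      exact ⟨r, fun _ => hr⟩
    · exact ⟨0, fun h => absurd h hi⟩
  choose r hr using h'
  let γ : ℕ → ℚ⟦X⟧ := fun i => if i = 0 then 0 else X ^ (2 * (i - 1)) * r i
  refine ⟨MM.cyc γ, ?_, cyc_neg γ, fun N => ?_⟩
  · have h1 : Bd 1 3 (MM.cyc γ) := by
      apply Bd.cyc (r := fun i => 2 * (i - 1)) (fun i => by omega) le_rfl
      · intro i
        simp only [γ]
        split_ifs with hi
        · exact dvd_zero _
        · exact Dvd.intro _ rfl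
      · intro i
        omega
    exact h1.slope one_le_two
  · have e1 : unknotJ N = MM.cyc (fun i => if i = 0 then 1 else 0) N := by
      rw [cyc_eq_sum (M := N.natAbs + 1) _ (Nat.le_succ _), Finset.sum_range_succ',
        Finset.sum_eq_zero, zero_add]
      · simp [FF]
      · intro i _
        simp
    rw [e1, cyc_eq_sum β le_rfl, cyc_eq_sum _ le_rfl, cyc_eq_sum _ le_rfl, Finset.mul_sum,
      ← Finset.sum_add_distrib]
    apply Finset.sum_congr rfl
    intro i _
    simp only [γ]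
    split_ifs with hi
    · rw [hi, h0]
      ring
    · rw [hr i (by omega), pow_add]
      ring

/-- `unknotJ` as a cyclotomic expansion -/
theorem unknot_eq_cyc : unknotJ = cyc (fun i => if i = 0 then 1 else 0) := by
  funext N
  rw [cyc_eq_sum (M := N.natAbs + 1) _ (Nat.le_succ _), Finset.sum_range_succ',
    Finset.sum_eq_zero, zero_add]
  · simp [FF]
  · intro i _
    simp

variable {ι : Type} {F : ι → ℤ → ℚ⟦X⟧} {c : ι → ℚ} {d : ι → ℕ}

theorem colJ_odd (hF : ∀ i, Seed (F i) (c i) (d i)) (K : Knot ι) (N : ℤ) :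
    colJ F K (-N) = - colJ F K N :=
  (main (fun i => (hF i).odd) (fun i => (hF i).one) (fun i => (hF i).ne)
    (fun i => (hF i).two_le) (fun i => (hF i).lead) K).1.odd N

theorem colJ_one (hF : ∀ i, Seed (F i) (c i) (d i)) (K : Knot ι) : colJ F K 1 = 1 :=
  (main (fun i => (hF i).odd) (fun i => (hF i).one) (fun i => (hF i).ne)
    (fun i => (hF i).two_le) (fun i => (hF i).lead) K).1.one

theorem colJ_bd (hF : ∀ i, Seed (F i) (c i) (d i)) (K : Knot ι) : Bd 2 1 (colJ F K) := by
  induction K with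
  | unknot => exact Bd.unknot one_le_two
  | seed i => exact (hF i).bd.slope one_le_two
  | cable p ε hp hε K ih => exact Bd.cable2 (c := 0) (colJ_odd hF K) ih p ε
  | plumb K m L n ihK ihL =>
    exact (Bd.plumb (colJ_odd hF K) ihK (colJ_odd hF L) ihL m n).slope one_le_two

/-- the order of the coefficients of an annulus -/
theorem annulus_order (hF : ∀ i, Seed (F i) (c i) (d i)) {K : Knot ι}
    (h : S2 (colJ F K) (K.deg d)) (m : ℤ) {i : ℕ} (hi : 1 ≤ i) :
    X ^ ((if m = 0 then K.deg d else 1) + (i - 1)) ∣ annulus (colJ F K) m i := by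
  split_ifs with hm
  · rw [hm]
    exact annulus_S2 h hi
  · rw [show 1 + (i - 1) = i by omega]
    exact annulus_dvd (colJ_odd hF K) (colJ_bd hF K) m i

theorem colJ_S2 (hF : ∀ i, Seed (F i) (c i) (d i)) (K : Knot ι) : S2 (colJ F K) (K.deg d) := by
  induction K with
  | unknot => exact S2.unknot _
  | seed i => exact S2.seed (hF i)
  | cable p ε hp hε K ih => exact ih.cable p hε
  | plumb K m L n ihK ihL =>
    change S2 (plumbJ (colJ F K) m (colJ F L) n)
      ((if m = 0 then K.deg d else 1) + (if n = 0 then L.deg d else 1))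
    rw [plumb_eq_cyc]
    apply S2.cyc
    · rw [annulus_zero (colJ_one hF K), annulus_zero (colJ_one hF L), one_mul]
    · intro i hi
      have h1 := mul_dvd_mul (annulus_order hF ihK m hi) (annulus_order hF ihL n hi)
      rw [← pow_add] at h1
      exact (pow_dvd_pow _ (by omega)).trans h1

/-- The Ohtsuki series of all surgeries on an iterated double. -/
theorem ohtsuki_plumb (hF : ∀ i, Seed (F i) (c i) (d i)) (K : Knot ι) (m : ℤ) (L : Knot ι) (m' : ℤ)
    (hD : ¬ (Knot.plumb K m L m').Trivial) (n : ℤ) :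
    X ^ (Knot.deg d (.plumb K m L m')) ∣ ohtsuki n (colJ F (.plumb K m L m')) -
      (1 - C (3 * Knot.lead c (.plumb K m L m') * n) *
        X ^ (Knot.deg d (.plumb K m L m') - 1)) := by
  rcases eq_or_ne n 0 with rfl | hn
  · rw [ohtsuki_zero]
    simp
  obtain ⟨_, _, hnt⟩ := main (fun i => (hF i).odd) (fun i => (hF i).one) (fun i => (hF i).ne)
    (fun i => (hF i).two_le) (fun i => (hF i).lead) (Knot.plumb K m L m')
  obtain ⟨hl, hdeg, hlead⟩ := hnt hD
  set D := Knot.deg d (.plumb K m L m') with hDdef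
  set ℓ := Knot.lead c (.plumb K m L m') with hℓ
  set β : ℕ → ℚ⟦X⟧ := fun i => annulus (colJ F K) m i * annulus (colJ F L) m' i with hβ
  have hJ : colJ F (.plumb K m L m') = cyc β := rfl
  obtain ⟨e, he⟩ : ∃ e, D = e + 1 := ⟨D - 1, by omega⟩
  have h0 : β 0 = 1 := by
    simp only [hβ]
    rw [annulus_zero (colJ_one hF K), annulus_zero (colJ_one hF L), one_mul]
  have h2i : ∀ i, X ^ (2 * i) ∣ β i := by
    intro i
    rw [two_mul, pow_add]
    exact mul_dvd_mul (annulus_dvd (colJ_odd hF K) (colJ_bd hF K) m i)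
      (annulus_dvd (colJ_odd hF L) (colJ_bd hF L) m' i)
  have hord : ∀ i, 1 ≤ i → X ^ (D + 2 * (i - 1)) ∣ β i := by
    intro i hi
    have h1 := mul_dvd_mul (annulus_order hF (colJ_S2 hF K) m hi)
      (annulus_order hF (colJ_S2 hF L) m' hi)
    rw [← pow_add] at h1
    refine (pow_dvd_pow _ ?_).trans h1
    have : D = (if m = 0 then K.deg d else 1) + (if m' = 0 then L.deg d else 1) := rfl
    omega
  -- the coefficient of index one
  have hβ1 : coeff D (β 1) = - ℓ := by
    have h1 := hlead 2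
    rw [hJ, cyc_eq_sum β le_rfl, show (2 : ℤ).natAbs = 2 from rfl, Finset.sum_range_succ,
      Finset.sum_range_one, h0, X_pow_dvd_iff] at h1
    have h2 := h1 D (Nat.lt_succ_self _)
    obtain ⟨r, hr⟩ := hord 1 le_rfl
    rw [Nat.sub_self, mul_zero, add_zero] at hr
    rw [hr] at h2 ⊢
    have e1 : (-1 : ℚ⟦X⟧) ^ 0 * (FF 0 2 * 1) + (-1) ^ 1 * (FF 1 2 * (X ^ D * r)) -
        (unknotJ 2 + C (ℓ * (((2 : ℤ) : ℚ) * (((2 : ℤ) : ℚ) ^ 2 - 1))) * X ^ D) =
        X ^ D * (-(FF 1 2 * r) - C (ℓ * 6)) := by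
      have : FF 0 2 = unknotJ 2 := by simp [FF]
      rw [this]
      push_cast
      rw [show (ℓ * (2 * (2 ^ 2 - 1))) = ℓ * 6 by ring]
      ring
    rw [e1, coeff_lead, map_sub, map_neg, map_mul, FF_const, constantCoeff_C] at h2
    rw [coeff_lead]
    have e3 : (lp 1).eval ((2 : ℤ) : ℚ) = 6 := by
      simp [lp]
      norm_num
    rw [e3] at h2
    linarith
  have key := ohtsuki_lead (β := β) (β' := fun i => if i = 0 then 1 else 0) (e := e) h2i
    (fun i => by
      rcases Nat.eq_zero_or_pos i with rfl | hi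
      · simp
      · rw [if_neg (by omega)]; exact dvd_zero _)
    (fun i => by
      rcases Nat.eq_zero_or_pos i with rfl | hi
      · rw [h0, if_pos rfl, sub_self]; exact dvd_zero _
      · rw [if_neg (by omega), sub_zero]
        exact (pow_dvd_pow _ (by omega)).trans (hord i hi)) hn
  rw [← unknot_eq_cyc, ohtsuki_unknot, ← hJ] at key
  obtain ⟨k1, k2⟩ := key
  have hsum : ∑ i ∈ Finset.range (e + 1), ((2 * i + 1).doubleFactorial : ℚ) * (n : ℚ) ^ i *
      coeff (e + i) (β i - (if i = 0 then 1 else 0 : ℚ⟦X⟧)) = -(3 * ℓ * n) := by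
    rw [Finset.sum_eq_single 1]
    · rw [if_neg one_ne_zero, sub_zero, ← he, hβ1]
      norm_num [Nat.doubleFactorial]
      ring
    · intro i _ hi1
      rcases Nat.eq_zero_or_pos i with rfl | hi
      · rw [h0, if_pos rfl, sub_self, map_zero, mul_zero]
      · rw [if_neg (by omega), sub_zero]
        have := hord i hi
        rw [X_pow_dvd_iff] at this
        rw [this _ (by omega), mul_zero]
    · intro h
      exfalso
      apply h
      rw [Finset.mem_range]
      omega
  rw [hsum] at k2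
  rw [he, Nat.add_sub_cancel, X_pow_dvd_iff]
  intro j hj
  have e4 : ohtsuki n (colJ F (.plumb K m L m')) - (1 - C (3 * ℓ * n) * X ^ e) =
      (ohtsuki n (colJ F (.plumb K m L m')) - 1) + C (3 * ℓ * n) * X ^ e := by ring
  rw [e4, map_add, coeff_C_mul_X_pow]
  rcases eq_or_ne j e with rfl | hje
  · rw [if_pos rfl, k2]
    ring
  · rw [if_neg hje, add_zero]
    rw [X_pow_dvd_iff] at k1
    exact k1 j (by omega)

end

end Pool.Agent.H765.MM
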