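import Mathlib
import Pool.Agent.H765.MM.Iter

/-! Exact formulas: the Gaussian integral is linear over `ℚ⟦X⟧`. -/

namespace Pool.Agent.H765.MM

open PowerSeries GK DB Pool.Agent.H765.ST

noncomputable section

theorem mmPoly_mul (a : ℚ⟦X⟧) {E : ℤ → ℚ⟦X⟧} (h : Bd 1 0 (fun N => (hexp 1 - hexp (-1)) * E N))
    (m : ℕ) : mmPoly (fun N => a * E N) m =
      ∑ j ∈ Finset.range (m + 1), Polynomial.C (coeff j a) * mmPoly E (m - j) := by
  apply mmPoly_eq
  · apply Polynomial.natDegree_sum_le_of_forall_le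
    intro j _
    exact (Polynomial.natDegree_C_mul_le _ _).trans ((mmPoly_natDegree E _).trans (Nat.sub_le _ _))
  · intro i
    rw [show (hexp 1 - hexp (-1)) * (a * E i) = a * ((hexp 1 - hexp (-1)) * E i) by ring,
      coeff_mul_range, Polynomial.eval_finsetSum]
    apply Finset.sum_congr rfl
    intro j _
    rw [mmPoly_eval h, Polynomial.eval_mul, Polynomial.eval_C]
    push_cast
    rfl

theorem mmCoeff_mul (a : ℚ⟦X⟧) {E : ℤ → ℚ⟦X⟧} (h : Bd 1 0 (fun N => (hexp 1 - hexp (-1)) * E N))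
    (l b : ℕ) : mmCoeff (fun N => a * E N) l b =
      ∑ j ∈ Finset.range (b + 1), coeff j a * mmCoeff E l (b - j) := by
  rw [mmCoeff, mmPoly_mul a h, Polynomial.finsetSum_coeff]
  rw [← Finset.sum_subset (Finset.range_subset_range.mpr (show b + 1 ≤ l + b + 1 by omega))]
  · apply Finset.sum_congr rfl
    intro j hj
    have hj' := Finset.mem_range.mp hj
    rw [Polynomial.coeff_C_mul, mmCoeff, show l + b - j = l + (b - j) by omega]
  · intro j hj1 hj
    rw [Finset.mem_range] at hj hj1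
    rw [Polynomial.coeff_C_mul, Polynomial.coeff_eq_zero_of_natDegree_lt, mul_zero]
    exact (mmPoly_natDegree E _).trans_lt (by omega)

theorem gauss_mul (n : ℤ) (a : ℚ⟦X⟧) {E : ℤ → ℚ⟦X⟧}
    (h : Bd 1 0 (fun N => (hexp 1 - hexp (-1)) * E N)) :
    gauss n (mmCoeff (fun N => a * E N)) = a * gauss n (mmCoeff E) := by
  ext m
  rw [coeff_mul_range]
  simp only [gauss, coeff_mk]
  have e1 : ∀ k ∈ Finset.range (m + 1), ((2 * k - 1).doubleFactorial : ℚ) * (-(n : ℚ)) ^ k *
      ∑ s ∈ Finset.range (2 * k + 1), (1 - (-1) ^ s) / ((s.factorial : ℚ) * (n : ℚ) ^ s) *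
        mmCoeff (fun N => a * E N) (2 * k - s) (m - k) =
      ∑ j ∈ Finset.range (m + 1), if j + k ≤ m then coeff j a *
        (((2 * k - 1).doubleFactorial : ℚ) * (-(n : ℚ)) ^ k *
          ∑ s ∈ Finset.range (2 * k + 1), (1 - (-1) ^ s) / ((s.factorial : ℚ) * (n : ℚ) ^ s) *
            mmCoeff E (2 * k - s) (m - j - k)) else 0 := by
    intro k hk
    have hk' := Finset.mem_range.mp hk
    have e2 : ∑ s ∈ Finset.range (2 * k + 1),
        (1 - (-1 : ℚ) ^ s) / ((s.factorial : ℚ) * (n : ℚ) ^ s) *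
          mmCoeff (fun N => a * E N) (2 * k - s) (m - k) =
        ∑ j ∈ Finset.range (m - k + 1), coeff j a * ∑ s ∈ Finset.range (2 * k + 1),
          (1 - (-1) ^ s) / ((s.factorial : ℚ) * (n : ℚ) ^ s) *
            mmCoeff E (2 * k - s) (m - j - k) := by
      simp only [Finset.mul_sum]
      rw [Finset.sum_comm]
      apply Finset.sum_congr rfl
      intro s _
      rw [mmCoeff_mul a h, Finset.mul_sum]
      apply Finset.sum_congr rfl
      intro j _
      rw [show m - k - j = m - j - k by omega]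
      ring
    rw [e2, Finset.mul_sum]
    rw [← Finset.sum_subset (Finset.range_subset_range.mpr (show m - k + 1 ≤ m + 1 by omega))]
    · apply Finset.sum_congr rfl
      intro j hj
      have hj' := Finset.mem_range.mp hj
      rw [if_pos (by omega)]
      ring
    · intro j _ hj
      rw [Finset.mem_range] at hj
      rw [if_neg (by omega)]
  rw [Finset.sum_congr rfl e1, Finset.sum_comm]
  apply Finset.sum_congr rfl
  intro j hj
  have hj' := Finset.mem_range.mp hj
  rw [Finset.mul_sum,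
    ← Finset.sum_subset (Finset.range_subset_range.mpr (show m - j + 1 ≤ m + 1 by omega))]
  · apply Finset.sum_congr rfl
    intro k hk
    have hk' := Finset.mem_range.mp hk
    rw [if_pos (by omega)]
  · intro k _ hk
    rw [Finset.mem_range] at hk
    rw [if_neg (by omega)]

theorem gauss_add' (n : ℤ) (f g : ℕ → ℕ → ℚ) :
    gauss n (fun l b => f l b + g l b) = gauss n f + gauss n g := by
  ext m
  unfold gauss
  rw [map_add, coeff_mk, coeff_mk, coeff_mk, ← Finset.sum_add_distrib]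
  apply Finset.sum_congr rfl
  intro k _
  rw [← mul_add, ← Finset.sum_add_distrib]
  congr 1
  apply Finset.sum_congr rfl
  intro s _
  ring

theorem mmPoly_add (J J' : ℤ → ℚ⟦X⟧) (m : ℕ) :
    mmPoly (fun N => J N + J' N) m = mmPoly J m + mmPoly J' m := by
  unfold mmPoly
  rw [← map_add]
  congr 1
  funext i
  rw [Pi.add_apply, mul_add, map_add]

theorem gauss_mm_add (n : ℤ) (J J' : ℤ → ℚ⟦X⟧) : gauss n (mmCoeff (fun N => J N + J' N)) =
    gauss n (mmCoeff J) + gauss n (mmCoeff J') := by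
  rw [← gauss_add']
  congr 1
  funext l b
  rw [mmCoeff, mmPoly_add, Polynomial.coeff_add, mmCoeff, mmCoeff]

theorem gauss_mm_sub (n : ℤ) (J J' : ℤ → ℚ⟦X⟧) : gauss n (mmCoeff (fun N => J N - J' N)) =
    gauss n (mmCoeff J) - gauss n (mmCoeff J') := by
  rw [gauss_sub]
  congr 1
  funext l b
  rw [mmCoeff_sub]

theorem mmCoeff_exp (c : ℤ) (l b : ℕ) : mmCoeff (fun N => unknotJ (c * N)) l b =
    if b = 0 then (1 - (-1) ^ l) * (c : ℚ) ^ l / (l.factorial : ℚ) else 0 := by
  have h : ∀ m, mmPoly (fun N => unknotJ (c * N)) m =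
      Polynomial.C ((1 - (-1) ^ m) * (c : ℚ) ^ m / (m.factorial : ℚ)) * Polynomial.X ^ m := by
    intro m
    apply mmPoly_eq (Polynomial.natDegree_C_mul_X_pow_le _ _)
    intro i
    rw [unknotJ_mul, map_sub, coeff_hexp, coeff_hexp, Polynomial.eval_mul, Polynomial.eval_C,
      Polynomial.eval_pow, Polynomial.eval_X]
    push_cast
    rw [neg_pow ((c : ℚ) * i), mul_pow]
    ring
  rw [mmCoeff, h, Polynomial.coeff_C_mul, Polynomial.coeff_X_pow]
  split_ifs with h1 h2 h2
  · rw [h2, add_zero, mul_one]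
  · omega
  · omega
  · ring

theorem gauss_exp (c : ℤ) {n : ℤ} (hn : n ≠ 0) : gauss n (mmCoeff (fun N => unknotJ (c * N))) =
    C 2 * (hexp (-((n * c ^ 2 + 1 / n) / 2) - c) - hexp (-((n * c ^ 2 + 1 / n) / 2) + c)) := by
  have hn' : (n : ℚ) ≠ 0 := by exact_mod_cast hn
  ext m
  rw [gauss, coeff_mk, Finset.sum_range_succ, Finset.sum_eq_zero, zero_add]
  · rw [Nat.sub_self]
    have e1 : ∀ s ∈ Finset.range (2 * m + 1), (1 - (-1 : ℚ) ^ s) /
        ((s.factorial : ℚ) * (n : ℚ) ^ s) * mmCoeff (fun N => unknotJ (c * N)) (2 * m - s) 0 =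
        2 * ((1 / (n : ℚ)) ^ s / (s.factorial : ℚ) *
          ((c : ℚ) ^ (2 * m - s) / ((2 * m - s).factorial : ℚ)) -
        (-(1 / (n : ℚ))) ^ s / (s.factorial : ℚ) *
          ((c : ℚ) ^ (2 * m - s) / ((2 * m - s).factorial : ℚ))) := by
      intro s hs
      have hs' := Finset.mem_range.mp hs
      rw [mmCoeff_exp, if_pos rfl]
      have h2 : (-1 : ℚ) ^ (2 * m - s) = (-1) ^ s := by
        have h3 : (-1 : ℚ) ^ (2 * m - s) * (-1) ^ s = 1 := by
          rw [← pow_add, show 2 * m - s + s = 2 * m by omega, pow_mul]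
          simp
        have h4 : (-1 : ℚ) ^ s * (-1) ^ s = 1 := by rw [← mul_pow]; simp
        linear_combination (-1) ^ s * h3 - (-1) ^ (2 * m - s) * h4
      rw [h2, neg_pow (1 / (n : ℚ)), one_div_pow]
      have h4 : (-1 : ℚ) ^ s * (-1) ^ s = 1 := by rw [← mul_pow]; simp
      have h5 : (s.factorial : ℚ) ≠ 0 := by exact_mod_cast s.factorial_ne_zero
      have h6 : ((2 * m - s).factorial : ℚ) ≠ 0 := by exact_mod_cast (2 * m - s).factorial_ne_zero
      field_simp
      linear_combination (c : ℚ) ^ (2 * m - s) * h4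
    rw [Finset.sum_congr rfl e1, ← Finset.mul_sum, Finset.sum_sub_distrib, binom_sum, binom_sum,
      coeff_C_mul, map_sub, coeff_hexp, coeff_hexp]
    have h7 := dfac m
    have h8 : ((2 * m).factorial : ℚ) ≠ 0 := by exact_mod_cast (2 * m).factorial_ne_zero
    have h9 : (m.factorial : ℚ) ≠ 0 := by exact_mod_cast m.factorial_ne_zero
    have h10 : ((2 * m - 1).doubleFactorial : ℚ) / (2 * m).factorial = 1 / (2 ^ m * m.factorial) := by
      rw [div_eq_div_iff h8 (by positivity), ← h7]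
      ring
    have h11 : (-(((n : ℚ) * c ^ 2 + 1 / n) / 2) - c) = (-(n : ℚ)) * (1 / n + c) ^ 2 / 2 := by
      field_simp
      ring
    have h12 : (-(((n : ℚ) * c ^ 2 + 1 / n) / 2) + c) = (-(n : ℚ)) * (-(1 / n) + c) ^ 2 / 2 := by
      field_simp
      ring
    rw [h11, h12, div_pow, div_pow, mul_pow, mul_pow, ← pow_mul, ← pow_mul]
    have h13 : ((2 * m - 1).doubleFactorial : ℚ) * (-(n : ℚ)) ^ m *
        (2 * ((1 / (n : ℚ) + c) ^ (2 * m) / ((2 * m).factorial : ℚ) -
          (-(1 / (n : ℚ)) + c) ^ (2 * m) / ((2 * m).factorial : ℚ))) =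
        2 * (-(n : ℚ)) ^ m * ((1 / (n : ℚ) + c) ^ (2 * m) - (-(1 / (n : ℚ)) + c) ^ (2 * m)) *
          (((2 * m - 1).doubleFactorial : ℚ) / (2 * m).factorial) := by ring
    rw [h13, h10]
    ring
  · intro k hk
    have hk' := Finset.mem_range.mp hk
    rw [Finset.sum_eq_zero, mul_zero]
    intro s _
    rw [mmCoeff_exp, if_neg (by omega), mul_zero]

theorem Bd.D_exp (c : ℤ) : Bd 1 0 (fun N => (hexp 1 - hexp (-1)) * unknotJ (c * N)) := by
  have h1 : Bd 1 0 (fun N : ℤ => GK.hexp (c * N) - GK.hexp (-c * N)) :=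
    (Bd.hexp_lin (c : ℚ)).sub (Bd.hexp_lin (-c : ℚ))
  apply h1.congr
  intro N
  rw [unknotJ_mul]
  push_cast
  rw [neg_mul]

/-- `D^2 [N] [N+1] [N-1] = [3N] - [3] [N]` -/
theorem FF_one (N : ℤ) : (hexp 1 - hexp (-1)) ^ 2 * FF 1 N =
    unknotJ (3 * N) - unknotJ 3 * unknotJ (1 * N) := by
  apply mul_left_cancel₀ D_ne
  have h := unknotJ_mul
  have e1 : (hexp 1 - hexp (-1)) * ((hexp 1 - hexp (-1)) ^ 2 * FF 1 N) =
      ((hexp 1 - hexp (-1)) * unknotJ N) * (((hexp 1 - hexp (-1)) * unknotJ (N + 1)) *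
        ((hexp 1 - hexp (-1)) * unknotJ (N - 1))) := by
    simp only [FF, Finset.prod_range_one, Nat.cast_zero, zero_add]
    ring
  have e2 : (hexp 1 - hexp (-1)) * (unknotJ (3 * N) - unknotJ 3 * unknotJ (1 * N)) =
      (hexp 1 - hexp (-1)) * unknotJ (3 * N) - unknotJ 3 * ((hexp 1 - hexp (-1)) * unknotJ N) := by
    rw [one_mul]
    ring
  have e3 : unknotJ 3 = hexp 2 + 1 + hexp (-2) := by
    have := unknotJ_natCast 3
    rw [show (3 : ℕ) = 1 + 2 from rfl, symSum_add_two, symSum_one] at this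
    push_cast at this
    rw [hexp_zero] at this
    rw [this]
    ring
  rw [e1, e2, h, h, h, h, e3]
  set V := hexp (N : ℚ) with hV
  set W := hexp (-(N : ℚ)) with hW
  have hVW : V * W = 1 := by rw [hV, hW, ← hexp_add, add_neg_cancel, hexp_zero]
  have a1 : hexp (((N + 1 : ℤ) : ℚ)) = V * hexp 1 := by
    rw [hV, ← hexp_add]; congr 1; push_cast; ring
  have a2 : hexp (-((N + 1 : ℤ) : ℚ)) = W * hexp (-1) := by
    rw [hW, ← hexp_add]; congr 1; push_cast; ring
  have a3 : hexp (((N - 1 : ℤ) : ℚ)) = V * hexp (-1) := by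
    rw [hV, ← hexp_add]; congr 1; push_cast; ring
  have a4 : hexp (-((N - 1 : ℤ) : ℚ)) = W * hexp 1 := by
    rw [hW, ← hexp_add]; congr 1; push_cast; ring
  have a5 : hexp (((3 * N : ℤ) : ℚ)) = V ^ 3 := by
    rw [show V ^ 3 = V * V * V by ring, hV, ← hexp_add, ← hexp_add]; congr 1; push_cast; ring
  have a6 : hexp (-((3 * N : ℤ) : ℚ)) = W ^ 3 := by
    rw [show W ^ 3 = W * W * W by ring, hW, ← hexp_add, ← hexp_add]; congr 1; push_cast; ring
  have b1 : hexp 1 * hexp (-1) = 1 := by rw [← hexp_add, add_neg_cancel, hexp_zero]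
  have b2 : hexp 2 = hexp 1 * hexp 1 := by rw [← hexp_add]; congr 1; norm_num
  have b3 : hexp (-2) = hexp (-1) * hexp (-1) := by rw [← hexp_add]; congr 1; norm_num
  rw [a1, a2, a3, a4, a5, a6, b2, b3]
  linear_combination (V ^ 3 - W ^ 3 - V ^ 2 * W + V * W ^ 2) * b1 +
    (-(V - W) * (hexp 1 * hexp 1 + hexp (-1) * hexp (-1)) - (V - W)) * hVW

end

end Pool.Agent.H765.MM
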