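import Mathlib
import Pool.Agent.H765.MM.Exact
import Pool.Agent.H765.MM.Almost

/-! The first two terms of the Ohtsuki series of surgeries on iterated doubles. -/

namespace Pool.Agent.H765.MM

open PowerSeries GK DB Pool.Agent.H765.ST

noncomputable section

/-- the function is that of the unknot up to terms of order `d` of slope one -/
def S1 (J : ℤ → ℚ⟦X⟧) (d : ℕ) : Prop :=
  ∃ R : ℤ → ℚ⟦X⟧, Bd 1 3 R ∧ (∀ N, R (-N) = - R N) ∧ ∀ N, J N = unknotJ N + X ^ d * R N

theorem S1.s2 {J : ℤ → ℚ⟦X⟧} {d : ℕ} (h : S1 J d) : S2 J d :=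
  let ⟨R, h1, h2, h3⟩ := h
  ⟨R, h1.slope one_le_two, h2, h3⟩

theorem S1.unknot (d : ℕ) : S1 unknotJ d :=
  ⟨fun _ => 0, (Bd.const 0).mono (Nat.zero_le _), fun _ => by simp, fun _ => by simp⟩

theorem S1.seed {J : ℤ → ℚ⟦X⟧} (hodd : ∀ N, J (-N) = - J N) (hb : Bd 1 1 J)
    (h2 : ∀ N, X ^ 2 ∣ J N - unknotJ N) : S1 J 2 := by
  choose R hR using h2
  have hB : Bd 1 1 (fun N => J N - unknotJ N) := hb.sub Bd.unknot1
  refine ⟨R, fun n => ?_, fun N => ?_, fun N => by rw [← hR]; ring⟩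
  · obtain ⟨P, hP', hP⟩ := hB (n + 2)
    refine ⟨P, by omega, fun N => ?_⟩
    rw [← hP]
    beta_reduce
    rw [hR, coeff_X_pow_mul]
  · have h1 := hR N
    have h2 := hR (-N)
    rw [hodd, unknotJ_neg] at h2
    apply mul_left_cancel₀ (pow_ne_zero 2 (X_ne_zero (R := ℚ)))
    linear_combination -h2 - h1

theorem S1.cable {J : ℤ → ℚ⟦X⟧} {d : ℕ} (h : S1 J d) (p : ℕ) {ε : ℤ} (hε : ε = 1 ∨ ε = -1) :
    S1 (cableJ p ε J) d := by
  obtain ⟨R, hR, hodd, hJ⟩ := h
  have hε0 : ε ≠ 0 := by rcases hε with rfl | rfl <;> norm_num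
  refine ⟨cableJ p ε R, ?_, cableJ_neg _ _ _, fun N => ?_⟩
  · have h1 : Bd 1 0 (fun N => X * (X * (X * R N))) := by
      apply Bd.X_mul
      apply Bd.X_mul
      apply Bd.X_mul
      exact hR
    have h2 := Bd.cable1 (f := fun N => X * (X * (X * R N))) (fun N => by rw [hodd]; ring) h1 p hε0
    have h3 : Bd 1 0 (fun N => X * (X * (X * cableJ p ε R N))) := by
      apply h2.congr
      intro N
      rw [cableJ_X_mul, cableJ_X_mul, cableJ_X_mul]
    exact h3.of_X_mul.of_X_mul.of_X_mul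
  · have : J = fun M => unknotJ M + X ^ d * R M := funext hJ
    rw [this, cableJ_add, cableJ_mul, cableJ_one p ε hε]

theorem S1.cyc {β : ℕ → ℚ⟦X⟧} {d : ℕ} (h0 : β 0 = 1)
    (h : ∀ i, 1 ≤ i → X ^ (d + 2 * (i - 1)) ∣ β i) : S1 (cyc β) d := by
  have h' : ∀ i, ∃ r, 1 ≤ i → β i = X ^ (d + 2 * (i - 1)) * r := by
    intro i
    by_cases hi : 1 ≤ i
    · obtain ⟨r, hr⟩ := h i hi
      exact ⟨r, fun _ => hr⟩
    · exact ⟨0, fun h => absurd h hi⟩
  choose r hr using h'
  let γ : ℕ → ℚ⟦X⟧ := fun i => if i = 0 then 0 else X ^ (2 * (i - 1)) * r i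
  refine ⟨MM.cyc γ, ?_, cyc_neg γ, fun N => ?_⟩
  · apply Bd.cyc (r := fun i => 2 * (i - 1)) (fun i => by omega) le_rfl
    · intro i
      simp only [γ]
      split_ifs with hi
      · exact dvd_zero _
      · exact Dvd.intro _ rfl
    · intro i
      omega
  · rw [unknot_eq_cyc, cyc_eq_sum β le_rfl, cyc_eq_sum _ le_rfl, cyc_eq_sum _ le_rfl,
      Finset.mul_sum, ← Finset.sum_add_distrib]
    apply Finset.sum_congr rfl
    intro i _
    simp only [γ]
    split_ifs with hi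
    · rw [hi, h0]
      ring
    · rw [hr i (by omega), pow_add]
      ring

theorem annulus_S1 {J : ℤ → ℚ⟦X⟧} {d : ℕ} (h : S1 J d) {i : ℕ} (hi : 1 ≤ i) :
    X ^ (d + 2 * (i - 1)) ∣ annulus J 0 i := by
  obtain ⟨R, hR, hodd, hJ⟩ := h
  obtain ⟨g, hg, e⟩ := exists_g (s := 2) le_rfl hodd hR
  have h1 : ∀ k : ℕ, J (2 * k + 1) = unknotJ (2 * k + 1) * (1 + X ^ d * g k) := by
    intro k
    rw [hJ, e]
    ring
  rw [annulus_eq h1]
  apply Dvd.dvd.mul_left
  have h2 : T i (fun k => hexp (2 * ((0 : ℤ) : ℚ) * ((k : ℚ) * (k + 1))) * (1 + X ^ d * g k)) =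
      X ^ d * T i g := by
    have h3 : T i (fun k => hexp (2 * ((0 : ℤ) : ℚ) * ((k : ℚ) * (k + 1))) * (1 + X ^ d * g k)) =
        T i (fun k => 1 + X ^ d * g k) := by
      apply T_congr
      intro k _
      rw [show (2 * ((0 : ℤ) : ℚ) * ((k : ℚ) * (k + 1))) = 0 by simp, hexp_zero, one_mul]
    rw [h3, T_add i (fun _ => 1), T_one hi, zero_add, T_mul]
  rw [h2, pow_add]
  apply mul_dvd_mul_left
  apply T_dvd le_rfl (s := 2) hg
  omega

/-- from the Gaussian integral to the series -/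
theorem ohtsuki_of_gauss {J J' : ℤ → ℚ⟦X⟧} {n : ℤ} (hn : n ≠ 0) {e : ℕ}
    (hG : X ^ (e + 1) ∣ gauss n (mmCoeff (fun N => J N - J' N))) :
    X ^ e ∣ ohtsuki n J - ohtsuki n J' ∧ coeff e (ohtsuki n J - ohtsuki n J') =
      -(1 / 4) * coeff (e + 1) (gauss n (mmCoeff (fun N => J N - J' N))) := by
  have h3 := D_mul_ohtsuki_sub hn J J'
  set T := ohtsuki n J - ohtsuki n J' with hT
  set G := gauss n (mmCoeff (fun N => J N - J' N)) with hGdef
  obtain ⟨H, hH⟩ := hG
  have h4 : dd * T = X ^ e * (C (-1 / 2) * hexp ((n + 1 / n) / 2) * H) := by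
    apply mul_left_cancel₀ (X_ne_zero (R := ℚ))
    rw [← mul_assoc, X_mul_dd, h3, hH]
    ring
  have h5 : T = X ^ e * (dd⁻¹ * (C (-1 / 2) * hexp ((n + 1 / n) / 2) * H)) := by
    have := dd_inv
    linear_combination dd⁻¹ * h4 - T * this
  refine ⟨⟨_, h5⟩, ?_⟩
  rw [hH, h5, coeff_lead, coeff_lead]
  simp only [map_mul, constantCoeff_C]
  have e1 : constantCoeff (dd⁻¹) = 1 / 2 := by
    have := congrArg constantCoeff dd_inv
    rw [map_mul, dd_const, map_one] at this
    linarith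
  have e2 : constantCoeff (hexp (((n : ℚ) + 1 / n) / 2)) = 1 := by
    rw [← coeff_zero_eq_constantCoeff_apply, coeff_hexp]
    simp
  rw [e1, e2]
  ring

/-- the first term for a function of slope one -/
theorem ohtsuki_first {J : ℤ → ℚ⟦X⟧} {c : ℚ} {d : ℕ} (hd : 2 ≤ d) (h : S1 J d)
    (hL : Lead J c d) (n : ℤ) :
    X ^ d ∣ ohtsuki n J - (1 - C (3 * c * n) * X ^ (d - 1)) := by
  rcases eq_or_ne n 0 with rfl | hn
  · rw [ohtsuki_zero]
    simp
  have hn' : (n : ℚ) ≠ 0 := by exact_mod_cast hn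
  obtain ⟨e, rfl⟩ : ∃ e, d = e + 1 := ⟨d - 1, by omega⟩
  obtain ⟨R, hR, hodd, hJ⟩ := h
  choose P hP' hP using hR.const_mul dd
  have hE : (fun N => J N - unknotJ N) = fun N => X ^ (e + 1) * R N := by
    funext N
    rw [hJ]
    ring
  have hm : ∀ m, mmPoly (fun N => J N - unknotJ N) m = if m < e + 2 then 0 else P (m - (e + 2)) := by
    intro m
    rw [hE]
    have e1 : ∀ i : ℕ, (hexp 1 - hexp (-1)) * (X ^ (e + 1) * R i) = X ^ (e + 2) * (dd * R i) := by
      intro i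
      rw [← X_mul_dd]
      ring
    split_ifs with hlt
    · apply mmPoly_eq
      · simp
      · intro i
        rw [e1, Polynomial.eval_zero]
        have : X ^ (e + 2) ∣ X ^ (e + 2) * (dd * R i) := Dvd.intro _ rfl
        rw [X_pow_dvd_iff] at this
        exact this m hlt
    · apply mmPoly_eq
      · have := hP' (m - (e + 2))
        omega
      · intro i
        rw [e1]
        have h1 := coeff_X_pow_mul (dd * R i) (e + 2) (m - (e + 2))
        rw [Nat.sub_add_cancel (by omega)] at h1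
        rw [h1]
        have := hP (m - (e + 2)) i
        push_cast at this
        exact this
  have hP0 : (P 0).coeff 3 = 2 * c := by
    have h1 : P 0 = Polynomial.C (2 * c) * (Polynomial.X ^ 3 - Polynomial.X) := by
      apply poly_eq_of_int
      intro N
      rw [← hP]
      have h2 := hL N
      have h3 : J N - (unknotJ N + C (c * (N * (N ^ 2 - 1))) * X ^ (e + 1)) =
          X ^ (e + 1) * (R N - C (c * (N * ((N : ℚ) ^ 2 - 1)))) := by
        rw [hJ]
        ring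
      rw [h3, X_pow_dvd_iff] at h2
      have h4 := h2 (e + 1) (Nat.lt_succ_self _)
      rw [coeff_lead, map_sub, constantCoeff_C] at h4
      rw [coeff_zero_eq_constantCoeff_apply, map_mul, dd_const]
      simp only [Polynomial.eval_mul, Polynomial.eval_C, Polynomial.eval_sub,
        Polynomial.eval_pow, Polynomial.eval_X]
      linear_combination 2 * h4
    rw [h1, Polynomial.coeff_C_mul, Polynomial.coeff_sub, Polynomial.coeff_X_pow,
      Polynomial.coeff_X]
    norm_num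
  have hz : ∀ k m, 1 ≤ k → m < e + k → (mmPoly (fun N => J N - unknotJ N) m).coeff (2 * k - 1) = 0 := by
    intro k m hk hmk
    rw [hm]
    split_ifs with hlt
    · rfl
    · apply Polynomial.coeff_eq_zero_of_natDegree_lt
      have := hP' (m - (e + 2))
      omega
  obtain ⟨g1, g2⟩ := gauss_lead n (mmCoeff (fun N => J N - unknotJ N)) e (fun k b hk hb => by
    rw [mmCoeff]
    exact hz k _ hk (by omega))
  have hG : X ^ (e + 1) ∣ gauss n (mmCoeff (fun N => J N - unknotJ N)) := by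
    rw [X_pow_dvd_iff]
    intro m hm
    exact g1 m (by omega)
  obtain ⟨k1, k2⟩ := ohtsuki_of_gauss hn hG
  have hs : ∑ k ∈ Finset.range (e + 1), (((2 * (k + 1) - 1).doubleFactorial : ℚ) *
      (-(n : ℚ)) ^ (k + 1)) * (2 / (n : ℚ) *
        mmCoeff (fun N => J N - unknotJ N) (2 * (k + 1) - 1) (e + 1 - (k + 1))) = 12 * c * n := by
    rw [Finset.sum_eq_single 1]
    · rw [mmCoeff, hm, if_neg (by omega),
        show 2 * (1 + 1) - 1 + (e + 1 - (1 + 1)) - (e + 2) = 0 by omega,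
        show 2 * (1 + 1) - 1 = 3 by norm_num, hP0]
      norm_num [Nat.doubleFactorial]
      field_simp
      ring
    · intro k hk hk1
      have hk' := Finset.mem_range.mp hk
      rw [mmCoeff, show 2 * (k + 1) - 1 + (e + 1 - (k + 1)) = e + 1 + k by omega, hm]
      split_ifs with hlt
      · rw [Polynomial.coeff_zero]
        ring
      · rw [Polynomial.coeff_eq_zero_of_natDegree_lt]
        · ring
        · have := hP' (e + 1 + k - (e + 2))
          omega
    · intro h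
      exfalso
      apply h
      rw [Finset.mem_range]
      omega
  rw [g2, hs, ohtsuki_unknot] at k2
  rw [ohtsuki_unknot] at k1
  rw [Nat.add_sub_cancel, X_pow_dvd_iff]
  intro j hj
  rw [show ohtsuki n J - (1 - C (3 * c * n) * X ^ e) =
    (ohtsuki n J - 1) + C (3 * c * n) * X ^ e by ring, map_add, coeff_C_mul_X_pow]
  rcases eq_or_ne j e with rfl | hje
  · rw [if_pos rfl, k2]
    ring
  · rw [if_neg hje, add_zero]
    rw [X_pow_dvd_iff] at k1
    exact k1 j (by omega)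

/-- the part of index one, exactly -/
theorem gauss_FF_one {n : ℤ} (hn : n ≠ 0) (a : ℚ⟦X⟧) :
    gauss n (mmCoeff (fun N => X ^ 2 * a * FF 1 N)) = a * (dd⁻¹ * dd⁻¹) *
      (C 2 * hexp (-((n + 1 / n) / 2)) * ((hexp 1 - hexp (-1)) * unknotJ 3 *
        (1 - hexp (-4 * n)))) := by
  have h1 : (fun N : ℤ => X ^ 2 * a * FF 1 N) = fun N : ℤ => (a * (dd⁻¹ * dd⁻¹)) *
      (unknotJ (3 * N) - unknotJ 3 * unknotJ (1 * N)) := by
    funext N
    rw [← FF_one, ← X_mul_dd]
    have := dd_inv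
    linear_combination (-(X ^ 2 * a * FF 1 N) * (dd⁻¹ * dd + 1)) * this
  have hb3 := Bd.D_exp 3
  have hb1 := Bd.D_exp 1
  have hb1' : Bd 1 0 (fun N => (hexp 1 - hexp (-1)) * (unknotJ 3 * unknotJ (1 * N))) := by
    apply (hb1.const_mul (unknotJ 3)).congr
    intro N
    ring
  have hb : Bd 1 0 (fun N => (hexp 1 - hexp (-1)) *
      (unknotJ (3 * N) - unknotJ 3 * unknotJ (1 * N))) := by
    apply (hb3.sub hb1').congr
    intro N
    ring
  rw [h1, gauss_mul n _ hb, gauss_mm_sub, gauss_mul n _ hb1, gauss_exp 3 hn, gauss_exp 1 hn]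
  have e3 : (hexp 1 - hexp (-1)) * unknotJ 3 = hexp 3 - hexp (-3) := by
    have := unknotJ_mul 3
    push_cast at this
    exact this
  push_cast
  have a1 : hexp (-(((n : ℚ) * 3 ^ 2 + 1 / n) / 2) - 3) =
      hexp (-((n + 1 / n) / 2)) * hexp (-4 * n) * hexp (-3) := by
    rw [← hexp_add, ← hexp_add]; congr 1; ring
  have a2 : hexp (-(((n : ℚ) * 3 ^ 2 + 1 / n) / 2) + 3) =
      hexp (-((n + 1 / n) / 2)) * hexp (-4 * n) * hexp 3 := by
    rw [← hexp_add, ← hexp_add]; congr 1; ring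
  have a3 : hexp (-(((n : ℚ) * 1 ^ 2 + 1 / n) / 2) - 1) =
      hexp (-((n + 1 / n) / 2)) * hexp (-1) := by
    rw [← hexp_add]; congr 1; ring
  have a4 : hexp (-(((n : ℚ) * 1 ^ 2 + 1 / n) / 2) + 1) =
      hexp (-((n + 1 / n) / 2)) * hexp 1 := by
    rw [← hexp_add]; congr 1; ring
  rw [a1, a2, a3, a4]
  linear_combination (-(a * (dd⁻¹ * dd⁻¹) * (C 2 * hexp (-((n + 1 / n) / 2))) *
    hexp (-4 * n))) * (-e3)

end

end Pool.Agent.H765.MM
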