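import Mathlib
import Pool.Agent.H765.MM.Two

/-! The second term, and the comparison of the surgeries on two iterated doubles. -/

namespace Pool.Agent.H765.MM

open PowerSeries GK DB Pool.Agent.H765.ST

noncomputable section

theorem t2_dd_inv : T2 dd⁻¹ (1 / 2) 0 := by
  have h := dd_inv
  have c0 : coeff 0 dd = 2 := by rw [coeff_zero_eq_constantCoeff_apply, dd_const]
  have c1 : coeff 1 dd = 0 := by
    rw [dd, coeff_mk, map_sub, coeff_hexp, coeff_hexp]
    norm_num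
  have e0 := congrArg (coeff 0) h
  have e1 := congrArg (coeff 1) h
  have hT : T2 (dd⁻¹ * dd) _ _ := T2.mul ⟨rfl, rfl⟩ ⟨c0, c1⟩
  rw [hT.1] at e0
  rw [hT.2] at e1
  rw [coeff_one, if_pos rfl] at e0
  rw [coeff_one, if_neg one_ne_zero] at e1
  exact ⟨by linarith, by linarith⟩

theorem t2_g (b : ℚ) : ∃ g : ℚ⟦X⟧, 1 - hexp b = X * g ∧ T2 g (-b) (-(b ^ 2 / 2)) := by
  refine ⟨PowerSeries.mk fun n => coeff (n + 1) (1 - hexp b), ?_, ?_, ?_⟩
  · ext n
    rcases n with _ | n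
    · rw [mul_comm, coeff_zero_mul_X, map_sub, coeff_hexp, coeff_one]
      simp
    · rw [mul_comm, coeff_succ_mul_X, coeff_mk]
  · rw [coeff_mk, map_sub, coeff_hexp, coeff_one]
    norm_num
  · rw [coeff_mk, map_sub, coeff_hexp, coeff_one]
    norm_num [Nat.factorial]
    ring

/-- the series for a single coefficient of index one -/
theorem ohtsuki_one {n : ℤ} (hn : n ≠ 0) {β : ℕ → ℚ⟦X⟧} (h0 : β 0 = 1) (h2 : ∀ i, 2 ≤ i → β i = 0)
    {a : ℚ⟦X⟧} (h1 : β 1 = X ^ 2 * a) : ohtsuki n (cyc β) =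
      1 + a * (dd⁻¹ * dd⁻¹) * unknotJ 3 * (1 - hexp (-4 * n)) := by
  have hE : (fun N => cyc β N - unknotJ N) = fun N => X ^ 2 * (-a) * FF 1 N := by
    funext N
    rw [cyc_eq_sum (M := N.natAbs + 2) _ (by omega), Finset.sum_range_succ',
      Finset.sum_range_succ', Finset.sum_eq_zero, zero_add, h0]
    · simp only [zero_add, pow_one, pow_zero]
      rw [h1]
      have : FF 0 N = unknotJ N := by simp [FF]
      rw [this]
      ring
    · intro i _
      rw [h2 (i + 1 + 1) (by omega)]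
      ring
  have h3 := D_mul_ohtsuki_sub hn (cyc β) unknotJ
  rw [hE, gauss_FF_one hn, ohtsuki_unknot] at h3
  have h4 : hexp (((n : ℚ) + 1 / n) / 2) * hexp (-(((n : ℚ) + 1 / n) / 2)) = 1 := by
    rw [← hexp_add, add_neg_cancel, hexp_zero]
  have h5 : (C (-1 / 2 : ℚ) : ℚ⟦X⟧) * C 2 = -1 := by
    rw [← map_mul, show (-1 / 2 * 2 : ℚ) = -1 by norm_num, map_neg, map_one]
  have h6 : ohtsuki n (cyc β) - 1 = a * (dd⁻¹ * dd⁻¹) * unknotJ 3 * (1 - hexp (-4 * n)) := by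
    apply D_cancel
    rw [h3]
    linear_combination (-(a * (dd⁻¹ * dd⁻¹) * ((hexp 1 - hexp (-1)) * unknotJ 3 *
      (1 - hexp (-4 * n))))) * (C (-1 / 2 : ℚ) * C 2) * h4 -
      (a * (dd⁻¹ * dd⁻¹) * ((hexp 1 - hexp (-1)) * unknotJ 3 * (1 - hexp (-4 * n)))) * h5
  linear_combination h6

/-- the first two terms -/
theorem ohtsuki_two {β : ℕ → ℚ⟦X⟧} {d : ℕ} (hd : 2 ≤ d) (h0 : β 0 = 1)
    (h2i : ∀ i, X ^ (2 * i) ∣ β i) (hord : ∀ i, 1 ≤ i → X ^ (d + 2 * (i - 1)) ∣ β i) {n : ℤ}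
    (hn : n ≠ 0) :
    X ^ (d - 1) ∣ ohtsuki n (cyc β) - 1 ∧
    coeff (d - 1) (ohtsuki n (cyc β) - 1) = 3 * n * coeff d (β 1) ∧
    coeff d (ohtsuki n (cyc β) - 1) = 3 * n * coeff (d + 1) (β 1) - 6 * n ^ 2 * coeff d (β 1) +
      15 * n ^ 2 * coeff (d + 2) (β 2) := by
  let β' : ℕ → ℚ⟦X⟧ := fun i => if i ≤ 1 then β i else 0
  have hβ' : ∀ i, β' i = if i ≤ 1 then β i else 0 := fun i => rfl
  obtain ⟨b, hb⟩ := hord 1 le_rfl
  rw [Nat.sub_self, mul_zero, add_zero] at hb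
  have hb' : β' 1 = X ^ 2 * (X ^ (d - 2) * b) := by
    rw [hβ', if_pos le_rfl, hb, ← mul_assoc, ← pow_add, show 2 + (d - 2) = d by omega]
  have key1 := ohtsuki_one hn (β := β') (by rw [hβ', if_pos (by omega), h0])
    (fun i hi => by rw [hβ', if_neg (by omega)]) hb'
  obtain ⟨g, hg, hg2⟩ := t2_g (-4 * n)
  have hc0 : coeff d (β 1) = coeff 0 b := by
    rw [hb, coeff_lead, coeff_zero_eq_constantCoeff_apply]
  have hc1 : coeff (d + 1) (β 1) = coeff 1 b := by
    rw [hb, show d + 1 = 1 + d by ring, coeff_X_pow_mul]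
  have hQ : ohtsuki n (cyc β') - 1 = X ^ (d - 1) * (b * (dd⁻¹ * dd⁻¹) * (unknotJ 3 * g)) := by
    rw [key1, hg, show d - 1 = (d - 2) + 1 by omega, pow_succ]
    ring
  have hT : T2 (b * (dd⁻¹ * dd⁻¹) * (unknotJ 3 * g)) _ _ :=
    T2.mul (T2.mul (⟨rfl, rfl⟩ : T2 b (coeff 0 b) (coeff 1 b)) (t2_dd_inv.mul t2_dd_inv))
      ((knotFn_unknot.t2 3).mul hg2)
  have key2 := ohtsuki_lead (β := β) (β' := β') (e := d) h2i
    (fun i => by
      rw [hβ']
      split_ifs with hi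
      · exact h2i i
      · exact dvd_zero _)
    (fun i => by
      rw [hβ']
      split_ifs with hi
      · rw [sub_self]; exact dvd_zero _
      · rw [sub_zero]
        exact (pow_dvd_pow _ (by omega)).trans (hord i (by omega))) hn
  obtain ⟨k1, k2⟩ := key2
  have hs : ∑ i ∈ Finset.range (d + 1), ((2 * i + 1).doubleFactorial : ℚ) * (n : ℚ) ^ i *
      coeff (d + i) (β i - β' i) = 15 * n ^ 2 * coeff (d + 2) (β 2) := by
    rw [Finset.sum_eq_single 2]
    · rw [hβ', if_neg (by omega), sub_zero]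
      norm_num [Nat.doubleFactorial]
    · intro i _ hi2
      rw [hβ']
      split_ifs with hi
      · rw [sub_self, map_zero, mul_zero]
      · have := hord i (by omega)
        rw [X_pow_dvd_iff] at this
        rw [sub_zero, this _ (by omega), mul_zero]
    · intro h
      exfalso
      apply h
      rw [Finset.mem_range]
      omega
  rw [hs] at k2
  have hsplit : ohtsuki n (cyc β) - 1 = (ohtsuki n (cyc β) - ohtsuki n (cyc β')) +
      X ^ (d - 1) * (b * (dd⁻¹ * dd⁻¹) * (unknotJ 3 * g)) := by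
    rw [← hQ]
    ring
  refine ⟨?_, ?_, ?_⟩
  · rw [hsplit]
    exact dvd_add ((pow_dvd_pow _ (by omega)).trans k1) (Dvd.intro _ rfl)
  · rw [X_pow_dvd_iff] at k1
    rw [hsplit, map_add, k1 _ (by omega), zero_add, coeff_lead,
      ← coeff_zero_eq_constantCoeff_apply, hT.1, hc0]
    push_cast
    ring
  · have hdd : d = 1 + (d - 1) := by omega
    have e1 : coeff d (X ^ (d - 1) * (b * (dd⁻¹ * dd⁻¹) * (unknotJ 3 * g))) =
        coeff 1 (b * (dd⁻¹ * dd⁻¹) * (unknotJ 3 * g)) := by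
      conv_lhs => rw [hdd]
      rw [Nat.add_sub_cancel_left, coeff_X_pow_mul]
    rw [hsplit, map_add, k2, e1, hT.2, hc0, hc1]
    push_cast
    ring

/-- the coefficient of index two of a twisted annulus -/
theorem annulus_two {J : ℤ → ℚ⟦X⟧} (hJ : ∀ N, J (-N) = - J N) (hb : Bd 1 1 J)
    (h2 : ∀ N, X ^ 2 ∣ J N - unknotJ N) (m : ℤ) : coeff 2 (annulus J m 2) = 4 * m ^ 2 := by
  obtain ⟨R, hR, hodd, hJR⟩ := S1.seed hJ hb h2
  obtain ⟨g, hg, e⟩ := exists_g (s := 2) le_rfl hodd hR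
  have h1 : ∀ k : ℕ, J (2 * k + 1) = unknotJ (2 * k + 1) * (1 + X ^ 2 * g k) := by
    intro k
    rw [hJR, e]
    ring
  rw [annulus_eq h1]
  have hx : ∀ b : ℚ, ∃ u : ℚ⟦X⟧, hexp b = 1 + C b * X + C (b ^ 2 / 2) * X ^ 2 + X ^ 3 * u := by
    intro b
    have : X ^ 3 ∣ hexp b - (1 + C b * X + C (b ^ 2 / 2) * X ^ 2) := by
      rw [X_pow_dvd_iff]
      intro j hj
      rw [map_sub, map_add, map_add, coeff_hexp, coeff_one, coeff_C_mul_X_pow, coeff_C_mul,
        coeff_X]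
      interval_cases j
      · simp
      · simp
      · norm_num [Nat.factorial]
        ring
    obtain ⟨u, hu⟩ := this
    exact ⟨u, by rw [← hu]; ring⟩
  choose u hu using hx
  let x : ℕ → ℚ := fun k => (k : ℚ) * (k + 1)
  have hG : T 2 (fun k => hexp (2 * m * ((k : ℚ) * (k + 1))) * (1 + X ^ 2 * g k)) =
      T 2 (fun _ => 1) + (X * T 2 (fun k => C (2 * m * x k)) + (X ^ 2 * T 2 g +
        (X ^ 2 * (C (2 * (m : ℚ) ^ 2) * T 2 (fun k => C ((nb 2).eval (x k)))) +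
        (X ^ 2 * (C (2 * (m : ℚ) ^ 2) * T 2 (fun k => C (2 * x k))) +
        X ^ 3 * T 2 (fun k => u (2 * m * x k) + C (2 * m * x k) * g k +
          X * (C ((2 * m * x k) ^ 2 / 2) * g k) + X ^ 2 * (u (2 * m * x k) * g k)))))) := by
    rw [← T_mul, ← T_mul, ← T_mul, ← T_mul, ← T_mul, ← T_mul, ← T_mul, ← T_add, ← T_add,
      ← T_add, ← T_add, ← T_add]
    apply T_congr
    intro k _
    have h3 := hu (2 * m * x k)
    have h4 : (C ((2 * m * x k) ^ 2 / 2) : ℚ⟦X⟧) =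
        C (2 * (m : ℚ) ^ 2) * C ((nb 2).eval (x k)) + C (2 * (m : ℚ) ^ 2) * C (2 * x k) := by
      rw [← map_mul, ← map_mul, ← map_add]
      congr 1
      simp [nb, Finset.prod_range_succ]
      ring
    change hexp (2 * m * x k) * (1 + X ^ 2 * g k) = _
    rw [h3]
    rw [← sub_eq_zero]
    have h5 : (1 + C (2 * m * x k) * X + C ((2 * m * x k) ^ 2 / 2) * X ^ 2 +
        X ^ 3 * u (2 * m * x k)) * (1 + X ^ 2 * g k) - (1 + (X * C (2 * m * x k) +
        (X ^ 2 * g k + (X ^ 2 * (C (2 * (m : ℚ) ^ 2) * C ((nb 2).eval (x k))) +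
        (X ^ 2 * (C (2 * (m : ℚ) ^ 2) * C (2 * x k)) +
        X ^ 3 * (u (2 * m * x k) + C (2 * m * x k) * g k +
          X * (C ((2 * m * x k) ^ 2 / 2) * g k) + X ^ 2 * (u (2 * m * x k) * g k))))))) =
        X ^ 2 * (C ((2 * m * x k) ^ 2 / 2) - (C (2 * (m : ℚ) ^ 2) * C ((nb 2).eval (x k)) +
          C (2 * (m : ℚ) ^ 2) * C (2 * x k))) := by ring
    rw [h5, h4]
    ring
  have c1 : Bx 1 2 (fun k => C (2 * m * x k)) := by
    intro n
    rcases Nat.eq_zero_or_pos n with rfl | hn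
    · refine ⟨Polynomial.C (2 * (m : ℚ)) * Polynomial.X, ?_, fun k => ?_⟩
      · have := (Polynomial.natDegree_C_mul_le (2 * (m : ℚ)) Polynomial.X).trans
          Polynomial.natDegree_X_le
        omega
      · simp [x]
    · exact ⟨0, by simp, fun k => by rw [coeff_C, if_neg hn.ne', Polynomial.eval_zero]⟩
  have c2 : Bx 1 2 (fun k => C (2 * x k)) := by
    intro n
    rcases Nat.eq_zero_or_pos n with rfl | hn
    · refine ⟨Polynomial.C 2 * Polynomial.X, ?_, fun k => ?_⟩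
      · have := (Polynomial.natDegree_C_mul_le (2 : ℚ) Polynomial.X).trans
          Polynomial.natDegree_X_le
        omega
      · simp [x]
    · exact ⟨0, by simp, fun k => by rw [coeff_C, if_neg hn.ne', Polynomial.eval_zero]⟩
  have t1 : coeff 1 (T 2 (fun k => C (2 * m * x k))) = 0 :=
    T_coeff_zero le_rfl 1 2 _ c1 2 (by norm_num)
  have t2 : coeff 0 (T 2 g) = 0 := T_coeff_zero le_rfl 0 2 _ hg 2 (by norm_num)
  have t3 : coeff 0 (T 2 (fun k => C (2 * x k))) = 0 :=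
    T_coeff_zero le_rfl 0 2 _ c2 2 (by norm_num)
  have t4 : coeff 0 (T 2 (fun k => C ((nb 2).eval (x k)))) = 1 := by
    obtain ⟨g', hg', he'⟩ := nb_split 2
    have : T 2 (fun k => C ((nb 2).eval (x k))) = T 2 (ph 2) + X * T 2 (fun k => -g' k) := by
      rw [← T_mul, ← T_add]
      apply T_congr
      intro k _
      rw [he' k]
      ring
    rw [this, T_ph_self, map_add, mul_comm X, coeff_zero_mul_X, add_zero, coeff_one, if_pos rfl]
  have hcoef : coeff 2 (T 2 (fun k => hexp (2 * m * ((k : ℚ) * (k + 1))) * (1 + X ^ 2 * g k))) =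
      2 * m ^ 2 := by
    rw [hG, T_one (by norm_num), zero_add, map_add, map_add, map_add, map_add, mul_comm X,
      show (2 : ℕ) = 1 + 1 from rfl, coeff_succ_mul_X]
    norm_num only
    have hcc : ∀ (a : ℚ) (f : ℚ⟦X⟧), constantCoeff (C a * f) = a * coeff 0 f := by
      intro a f
      rw [map_mul, constantCoeff_C, coeff_zero_eq_constantCoeff_apply]
    rw [t1, coeff_lead, coeff_lead, coeff_lead, ← coeff_zero_eq_constantCoeff_apply (T 2 g), t2,
      hcc, hcc, t4, t3]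
    have : X ^ 3 ∣ X ^ 3 * T 2 (fun k => u (2 * m * x k) + C (2 * m * x k) * g k +
          X * (C ((2 * m * x k) ^ 2 / 2) * g k) + X ^ 2 * (u (2 * m * x k) * g k)) :=
      Dvd.intro _ rfl
    rw [X_pow_dvd_iff] at this
    rw [this 2 (by norm_num)]
    ring
  have hdv : X ^ 2 ∣ T 2 (fun k => hexp (2 * m * ((k : ℚ) * (k + 1))) * (1 + X ^ 2 * g k)) := by
    have hB : Bx 2 0 (fun k => 1 + X ^ 2 * g k) := by
      intro n
      obtain ⟨g0, hg0, e0⟩ := exists_g (s := 0) le_rfl hJ hb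
      have : ∀ k, g0 k = 1 + X ^ 2 * g k := by
        intro k
        apply mul_left_cancel₀ (unknotJ_ne (show (2 * (k : ℤ) + 1) ≠ 0 by positivity))
        rw [← e0, ← h1]
      exact ((hg0.slope one_le_two).congr this) n
    exact T_dvd one_le_two (s := 0 + 0) ((Bx.hexp (2 * m)).mul hB) (by norm_num)
  obtain ⟨w, hw⟩ := hdv
  rw [hw] at hcoef ⊢
  rw [show qfac 2 * (X ^ 2 * w) = X ^ 2 * (qfac 2 * w) by ring, coeff_lead, map_mul,
    constCoeff_qfac]
  rw [coeff_lead] at hcoef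
  rw [hcoef]
  norm_num [Nat.factorial]
  ring

end

end Pool.Agent.H765.MM
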