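import Mathlib
import Pool.Agent.H765.MM.Second

/-! Surgeries on iterated doubles: the final statements. -/

namespace Pool.Agent.H765.MM

open PowerSeries GK DB Pool.Agent.H765.ST

noncomputable section

/-- Properties of the coloured Jones function of a knot with Casson invariant `a_2 ≠ 0`
(`c = - 4 a_2`): `J` is odd, `J(1) = 1`, the coefficient of `h^n` is a polynomial in `N` of degree
at most `n + 1` (Melvin-Morton bound) and `J(N) = [N] + c N (N^2 - 1) h^2 + O(h^3)`. -/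
structure SeedFn (J : ℤ → ℚ⟦X⟧) (c : ℚ) : Prop where
  odd : ∀ N, J (-N) = - J N
  one : J 1 = 1
  mm : ∀ n, ∃ P : Polynomial ℚ, P.natDegree ≤ n + 1 ∧ ∀ N : ℤ, coeff n (J N) = P.eval (N : ℚ)
  lead : Lead J c 2
  ne : c ≠ 0

theorem bd_of_mm {J : ℤ → ℚ⟦X⟧} (h : ∀ n, ∃ P : Polynomial ℚ, P.natDegree ≤ n + 1 ∧
    ∀ N : ℤ, coeff n (J N) = P.eval (N : ℚ)) : Bd 1 1 J := by
  intro n
  obtain ⟨P, h1, h2⟩ := h n
  exact ⟨P, by omega, h2⟩

theorem mm_of_bd {J : ℤ → ℚ⟦X⟧} (h : Bd 1 1 J) : ∀ n, ∃ P : Polynomial ℚ, P.natDegree ≤ n + 1 ∧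
    ∀ N : ℤ, coeff n (J N) = P.eval (N : ℚ) := by
  intro n
  obtain ⟨P, h1, h2⟩ := h n
  exact ⟨P, by omega, h2⟩

variable {ι : Type} {F : ι → ℤ → ℚ⟦X⟧} {c : ι → ℚ}

theorem cls (hF : ∀ i, SeedFn (F i) (c i)) (K : Knot ι) :
    Adm (colJ F K) ∧ (K.Trivial → colJ F K = unknotJ) ∧
      (¬ K.Trivial → K.lead c ≠ 0 ∧ 2 ≤ K.deg (fun _ => 2) ∧
        Lead (colJ F K) (K.lead c) (K.deg (fun _ => 2))) :=
  main (fun i => (hF i).odd) (fun i => (hF i).one) (fun i => (hF i).ne) (fun _ => le_rfl)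
    (fun i => (hF i).lead) K

theorem cls_bd (hF : ∀ i, SeedFn (F i) (c i)) (K : Knot ι) : Bd 1 1 (colJ F K) := by
  induction K with
  | unknot => exact Bd.unknot1
  | seed i => exact bd_of_mm (hF i).mm
  | cable p ε hp hε K ih =>
    exact Bd.cable (cls hF K).1.odd ih p (by rcases hε with rfl | rfl <;> norm_num)
  | plumb K m L n ihK ihL =>
    exact Bd.plumb (cls hF K).1.odd (ihK.slope one_le_two) (cls hF L).1.odd
      (ihL.slope one_le_two) m n

theorem cls_two (hF : ∀ i, SeedFn (F i) (c i)) (K : Knot ι) (N : ℤ) :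
    X ^ 2 ∣ colJ F K N - unknotJ N := by
  obtain ⟨_, ht, hn⟩ := cls hF K
  by_cases h : K.Trivial
  · rw [ht h, sub_self]
    exact dvd_zero _
  · obtain ⟨_, h2, h3⟩ := hn h
    exact h3.dvd_two h2 N

/-- orders of the coefficients of an annulus -/
theorem cls_annulus (hF : ∀ i, SeedFn (F i) (c i)) {K : Knot ι}
    (h : S1 (colJ F K) (K.deg (fun _ => 2))) (m : ℤ) {i : ℕ} (hi : 1 ≤ i) :
    X ^ ((if m = 0 then K.deg (fun _ => 2) + (i - 1) else 1) + (i - 1)) ∣
      annulus (colJ F K) m i := by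
  split_ifs with hm
  · rw [hm]
    exact (pow_dvd_pow _ (by omega)).trans (annulus_S1 h hi)
  · rw [show 1 + (i - 1) = i by omega]
    exact annulus_dvd (cls hF K).1.odd ((cls_bd hF K).slope one_le_two) m i

theorem cls_S1 (hF : ∀ i, SeedFn (F i) (c i)) (K : Knot ι) :
    S1 (colJ F K) (K.deg (fun _ => 2)) := by
  induction K with
  | unknot => exact S1.unknot _
  | seed i => exact S1.seed (hF i).odd (bd_of_mm (hF i).mm) (fun N => (hF i).lead.dvd_two le_rfl N)
  | cable p ε hp hε K ih => exact ih.cable p hε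
  | plumb K m L n ihK ihL =>
    change S1 (plumbJ (colJ F K) m (colJ F L) n)
      ((if m = 0 then K.deg (fun _ => 2) else 1) + (if n = 0 then L.deg (fun _ => 2) else 1))
    rw [plumb_eq_cyc]
    apply S1.cyc
    · rw [annulus_zero (cls hF K).1.one, annulus_zero (cls hF L).1.one, one_mul]
    · intro i hi
      have h1 := mul_dvd_mul (cls_annulus hF ihK m hi) (cls_annulus hF ihL n hi)
      rw [← pow_add] at h1
      refine (pow_dvd_pow _ ?_).trans h1
      split_ifs <;> omega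

/-- the first term of the series of a surgery -/
theorem cls_first (hF : ∀ i, SeedFn (F i) (c i)) {K : Knot ι} (hK : ¬ K.Trivial) (n : ℤ) :
    X ^ (K.deg (fun _ => 2)) ∣ ohtsuki n (colJ F K) -
      (1 - C (3 * K.lead c * n) * X ^ (K.deg (fun _ => 2) - 1)) := by
  obtain ⟨_, h2, h3⟩ := (cls hF K).2.2 hK
  exact ohtsuki_first h2 (cls_S1 hF K) h3 n

theorem cls_injective (hF : ∀ i, SeedFn (F i) (c i)) {K : Knot ι} (hK : ¬ K.Trivial) {n n' : ℤ}
    (h : ohtsuki n (colJ F K) = ohtsuki n' (colJ F K)) : n = n' := by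
  obtain ⟨h1, h2, _⟩ := (cls hF K).2.2 hK
  have a := cls_first hF hK n
  have a' := cls_first hF hK n'
  rw [h] at a
  have a2 := dvd_sub a' a
  set D := K.deg (fun _ => 2) with hD
  have e : ohtsuki n' (colJ F K) - (1 - C (3 * K.lead c * n') * X ^ (D - 1)) -
      (ohtsuki n' (colJ F K) - (1 - C (3 * K.lead c * n) * X ^ (D - 1))) =
      C (3 * K.lead c * (n' - n)) * X ^ (D - 1) := by
    rw [show (3 * K.lead c * ((n' : ℚ) - n)) = 3 * K.lead c * n' - 3 * K.lead c * n by ring,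
      map_sub]
    ring
  rw [e, X_pow_dvd_iff] at a2
  have a3 := a2 (D - 1) (by omega)
  rw [coeff_C_mul_X_pow, if_pos rfl] at a3
  have a4 : ((n' : ℚ) - n) = 0 := by
    rcases mul_eq_zero.mp a3 with h | h
    · exact absurd (mul_eq_zero.mp h) (by simp [h1])
    · exact h
  have a5 : (n : ℚ) = n' := by linarith
  exact_mod_cast a5

/-- the data of the first two terms -/
def Data (J : ℤ → ℚ⟦X⟧) (e : ℕ) (b b' : ℚ) : Prop := ∀ n : ℤ, n ≠ 0 →
  X ^ e ∣ ohtsuki n J - 1 ∧ coeff e (ohtsuki n J - 1) = 3 * n * b ∧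
    coeff (e + 1) (ohtsuki n J - 1) = 3 * n * b' - 6 * n ^ 2 * b +
      15 * n ^ 2 * (if e = 1 then b ^ 2 else 0)

theorem plumb_data (hF : ∀ i, SeedFn (F i) (c i)) (K : Knot ι) (m : ℤ) (L : Knot ι) (m' : ℤ)
    (hD : ¬ (Knot.plumb K m L m').Trivial) :
    ∃ e b b', b ≠ 0 ∧ Data (colJ F (.plumb K m L m')) e b b' := by
  obtain ⟨_, _, hnt⟩ := cls hF (Knot.plumb K m L m')
  obtain ⟨hl, hdeg, hlead⟩ := hnt hD
  set D := Knot.deg (fun _ => 2) (.plumb K m L m') with hDdef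
  set ℓ := Knot.lead c (.plumb K m L m') with hℓ
  set β : ℕ → ℚ⟦X⟧ := fun i => annulus (colJ F K) m i * annulus (colJ F L) m' i with hβ
  have hJ : colJ F (.plumb K m L m') = cyc β := rfl
  have hDe : D = (if m = 0 then K.deg (fun _ => 2) else 1) +
      (if m' = 0 then L.deg (fun _ => 2) else 1) := rfl
  have hℓe : ℓ = -16 * (if m = 0 then K.lead c else m / 2) *
      (if m' = 0 then L.lead c else m' / 2) := rfl
  have h0 : β 0 = 1 := by
    simp only [hβ]
    rw [annulus_zero (cls hF K).1.one, annulus_zero (cls hF L).1.one, one_mul]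
  have h2i : ∀ i, X ^ (2 * i) ∣ β i := by
    intro i
    rw [two_mul, pow_add]
    exact mul_dvd_mul (annulus_dvd (cls hF K).1.odd ((cls_bd hF K).slope one_le_two) m i)
      (annulus_dvd (cls hF L).1.odd ((cls_bd hF L).slope one_le_two) m' i)
  have hprod : ∀ i, 1 ≤ i → X ^ (((if m = 0 then K.deg (fun _ => 2) + (i - 1) else 1) + (i - 1)) +
      ((if m' = 0 then L.deg (fun _ => 2) + (i - 1) else 1) + (i - 1))) ∣ β i := by
    intro i hi
    have h1 := mul_dvd_mul (cls_annulus hF (cls_S1 hF K) m hi) (cls_annulus hF (cls_S1 hF L) m' hi)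
    rwa [← pow_add] at h1
  have hord : ∀ i, 1 ≤ i → X ^ (D + 2 * (i - 1)) ∣ β i := by
    intro i hi
    refine (pow_dvd_pow _ ?_).trans (hprod i hi)
    rw [hDe]
    split_ifs <;> omega
  have hβ1 : coeff D (β 1) = - ℓ := by
    have h1 := hlead 2
    rw [hJ, cyc_eq_sum β le_rfl, show (2 : ℤ).natAbs = 2 from rfl, Finset.sum_range_succ,
      Finset.sum_range_one, h0, X_pow_dvd_iff] at h1
    have h2 := h1 D (Nat.lt_succ_self _)
    obtain ⟨r, hr⟩ := hord 1 le_rfl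
    rw [Nat.sub_self, mul_zero, add_zero] at hr
    rw [hr] at h2 ⊢
    have e1 : (-1 : ℚ⟦X⟧) ^ 0 * (FF 0 2 * 1) + (-1) ^ 1 * (FF 1 2 * (X ^ D * r)) -
        (unknotJ 2 + C (ℓ * (((2 : ℤ) : ℚ) * (((2 : ℤ) : ℚ) ^ 2 - 1))) * X ^ D) =
        X ^ D * (-(FF 1 2 * r) - C (ℓ * 6)) := by
      have : FF 0 2 = unknotJ 2 := by simp [FF]
      rw [this]
      push_cast
      rw [show (ℓ * (2 * (2 ^ 2 - 1))) = ℓ * 6 by ring]
      ring
    rw [e1, coeff_lead, map_sub, map_neg, map_mul, FF_const, constantCoeff_C] at h2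
    rw [coeff_lead]
    have e3 : (lp 1).eval ((2 : ℤ) : ℚ) = 6 := by
      simp [lp]
      norm_num
    rw [e3] at h2
    linarith
  have hβ2 : coeff (D + 2) (β 2) = if D - 1 = 1 then (-ℓ) ^ 2 else 0 := by
    have hdegK : m = 0 → 2 ≤ K.deg (fun _ => 2) := by
      intro hm
      exact ((cls hF K).2.2 (fun hK => hD (Or.inl ⟨hK, hm⟩))).2.1
    have hdegL : m' = 0 → 2 ≤ L.deg (fun _ => 2) := by
      intro hm
      exact ((cls hF L).2.2 (fun hL => hD (Or.inr ⟨hL, hm⟩))).2.1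
    by_cases hm : m = 0
    · have := hdegK hm
      have h3 : 3 ≤ D := by
        rw [hDe, if_pos hm]
        split_ifs with hm'
        · have := hdegL hm'
          omega
        · omega
      rw [if_neg (by omega)]
      have h4 := hprod 2 (by norm_num)
      rw [if_pos hm] at h4
      rw [X_pow_dvd_iff] at h4
      apply h4
      rw [hDe, if_pos hm]
      split_ifs <;> omega
    · by_cases hm' : m' = 0
      · have := hdegL hm'
        have h3 : 3 ≤ D := by
          rw [hDe, if_neg hm, if_pos hm']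
          omega
        rw [if_neg (by omega)]
        have h4 := hprod 2 (by norm_num)
        rw [if_neg hm, if_pos hm'] at h4
        rw [X_pow_dvd_iff] at h4
        apply h4
        rw [hDe, if_neg hm, if_pos hm']
        omega
      · have h3 : D = 2 := by
          rw [hDe, if_neg hm, if_neg hm']
        rw [if_pos (by omega), h3]
        have a1 := annulus_two (cls hF K).1.odd (cls_bd hF K) (cls_two hF K) m
        have a2 := annulus_two (cls hF L).1.odd (cls_bd hF L) (cls_two hF L) m'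
        obtain ⟨u, hu⟩ := annulus_dvd (cls hF K).1.odd ((cls_bd hF K).slope one_le_two) m 2
        obtain ⟨v, hv⟩ := annulus_dvd (cls hF L).1.odd ((cls_bd hF L).slope one_le_two) m' 2
        simp only [hβ]
        rw [hu, coeff_lead] at a1
        rw [hv, coeff_lead] at a2
        rw [hu, hv, show X ^ 2 * u * (X ^ 2 * v) = X ^ (2 + 2) * (u * v) by ring, coeff_lead,
          map_mul, a1, a2, hℓe, if_neg hm, if_neg hm']
        ring
  obtain ⟨b, hb⟩ := hord 1 le_rfl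
  refine ⟨D - 1, -ℓ, coeff (D + 1) (β 1), neg_ne_zero.mpr hl, fun n hn => ?_⟩
  obtain ⟨k1, k2, k3⟩ := ohtsuki_two hdeg h0 h2i hord hn
  rw [hJ]
  refine ⟨k1, ?_, ?_⟩
  · rw [k2, hβ1]
  · rw [show D - 1 + 1 = D by omega, k3, hβ1, hβ2]

/-- comparison -/
theorem Data.compare {J J' : ℤ → ℚ⟦X⟧} {e e' : ℕ} {b b' g g' : ℚ} (h : Data J e b g)
    (h' : Data J' e' b' g') (hb : b ≠ 0) (hb' : b' ≠ 0) {n n' : ℤ} (hn : n ≠ 0) (hn' : n' ≠ 0)
    (heq : ohtsuki n J = ohtsuki n' J') :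
    (n : ℚ) * b = n' * b' ∧ g / b - 2 * n = g' / b' - 2 * n' := by
  obtain ⟨a1, a2, a3⟩ := h n hn
  obtain ⟨c1, c2, c3⟩ := h' n' hn'
  rw [heq] at a1 a2 a3
  have hnq : (n : ℚ) ≠ 0 := by exact_mod_cast hn
  have hnq' : (n' : ℚ) ≠ 0 := by exact_mod_cast hn'
  have hee : e = e' := by
    rcases lt_trichotomy e e' with hlt | heq' | hlt
    · exfalso
      rw [X_pow_dvd_iff] at c1
      rw [c1 e hlt] at a2
      exact (mul_ne_zero (mul_ne_zero three_ne_zero hnq) hb) a2.symm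
    · exact heq'
    · exfalso
      rw [X_pow_dvd_iff] at a1
      rw [a1 e' hlt] at c2
      exact (mul_ne_zero (mul_ne_zero three_ne_zero hnq') hb') c2.symm
  subst hee
  have h1 : (n : ℚ) * b = n' * b' := by
    rw [a2] at c2
    linarith
  refine ⟨h1, ?_⟩
  rw [a3] at c3
  have h2 : 15 * (n : ℚ) ^ 2 * (if e = 1 then b ^ 2 else 0) =
      15 * (n' : ℚ) ^ 2 * (if e = 1 then b' ^ 2 else 0) := by
    split_ifs
    · have : ((n : ℚ) * b) ^ 2 = (n' * b') ^ 2 := by rw [h1]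
      linarith
    · ring
  have h3 : (n : ℚ) * g - 2 * n ^ 2 * b = n' * g' - 2 * n' ^ 2 * b' := by linarith
  have h4 : ((n : ℚ) * b) * (g / b - 2 * n) = (n' * b') * (g' / b' - 2 * n') := by
    have e1 : ((n : ℚ) * b) * (g / b - 2 * n) = n * g - 2 * n ^ 2 * b := by
      field_simp
    have e2 : ((n' : ℚ) * b') * (g' / b' - 2 * n') = n' * g' - 2 * n' ^ 2 * b' := by
      field_simp
    rw [e1, e2, h3]
  rw [← h1] at h4
  exact mul_left_cancel₀ (mul_ne_zero hnq hb) h4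

/-- at most one coincidence off the diagonal -/
theorem Data.offdiag {J J' : ℤ → ℚ⟦X⟧} {e e' : ℕ} {b b' g g' : ℚ} (h : Data J e b g)
    (h' : Data J' e' b' g') (hb : b ≠ 0) (hb' : b' ≠ 0) {n n' k k' : ℤ} (hn : n ≠ 0)
    (hn' : n' ≠ 0) (hk : k ≠ 0) (hk' : k' ≠ 0) (hnn : n ≠ n')
    (h1 : ohtsuki n J = ohtsuki n' J') (h2 : ohtsuki k J = ohtsuki k' J') :
    n = k ∧ n' = k' := by
  obtain ⟨a1, a2⟩ := h.compare h' hb hb' hn hn' h1
  obtain ⟨c1, c2⟩ := h.compare h' hb hb' hk hk' h2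
  have hnq : (n : ℚ) ≠ n' := by exact_mod_cast hnn
  have hbb : b ≠ b' := by
    rintro rfl
    exact hnq (mul_right_cancel₀ hb a1)
  have h3 : ((n : ℚ) - k) * (b - b') = 0 := by
    have e1 : (n : ℚ) - n' = k - k' := by linarith
    have e2 : ((n : ℚ) - k) * b = (n' - k') * b' := by linarith
    have e3 : (n' : ℚ) - k' = n - k := by linarith
    rw [e3] at e2
    linarith
  have h4 : (n : ℚ) = k := by
    rcases mul_eq_zero.mp h3 with h | h
    · linarith
    · exact absurd (sub_eq_zero.mp h) hbb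
  have h5 : (n' : ℚ) = k' := by linarith
  exact ⟨by exact_mod_cast h4, by exact_mod_cast h5⟩

/-- finitely many coincidences -/
theorem cls_finite (hF : ∀ i, SeedFn (F i) (c i)) {K L K' L' : Knot ι} {m m1 m' m1' : ℤ}
    (hD : ¬ (Knot.plumb K m L m1).Trivial) (hD' : ¬ (Knot.plumb K' m' L' m1').Trivial)
    (hne : colJ F (.plumb K m L m1) ≠ colJ F (.plumb K' m' L' m1')) :
    {x : ℤ × ℤ | x.1 ≠ 0 ∧ x.2 ≠ 0 ∧ ohtsuki x.1 (colJ F (.plumb K m L m1)) =
      ohtsuki x.2 (colJ F (.plumb K' m' L' m1'))}.Finite := by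
  obtain ⟨e, b, g, hb, h⟩ := plumb_data hF K m L m1 hD
  obtain ⟨e', b', g', hb', h'⟩ := plumb_data hF K' m' L' m1' hD'
  have hdiag := finite_equal (cls hF _).1.odd (cls hF _).1.odd (cls_bd hF _) (cls_bd hF _) hne
  set S := {x : ℤ × ℤ | x.1 ≠ 0 ∧ x.2 ≠ 0 ∧ ohtsuki x.1 (colJ F (.plumb K m L m1)) =
      ohtsuki x.2 (colJ F (.plumb K' m' L' m1'))} with hS
  by_cases hoff : ∃ y ∈ S, y.1 ≠ y.2
  · obtain ⟨y, ⟨hy1, hy2, hy3⟩, hy4⟩ := hoff
    apply (Set.finite_singleton y).subset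
    rintro x ⟨hx1, hx2, hx3⟩
    obtain ⟨r1, r2⟩ := h.offdiag h' hb hb' hy1 hy2 hx1 hx2 hy4 hy3 hx3
    exact Prod.ext r1.symm r2.symm
  · push Not at hoff
    apply (hdiag.image (fun n : ℤ => (n, n))).subset
    intro x hx
    have h1 := hoff x hx
    obtain ⟨_, _, hx3⟩ := hx
    refine ⟨x.1, ?_, ?_⟩
    · change ohtsuki x.1 _ = ohtsuki x.1 _
      rw [hx3, ← h1]
    · exact Prod.ext rfl h1

end

end Pool.Agent.H765.MM
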