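import Mathlib
import Pool.Agent.H765.MM.Fin

/-! The first two coefficients of the Ohtsuki series of the surgeries on a knot. -/

namespace Pool.Agent.H765.MM

open PowerSeries GK DB Pool.Agent.H765.ST

noncomputable section

/-- The Vassiliev coefficients of order at most four which enter the first two coefficients:
`J(N) = [N] + N (N^2 - 1) (c h^2 + c' h^3 + (q N^2 + r) h^4) + O(h^5)`. -/
def Four (J : ℤ → ℚ⟦X⟧) (c c' q r : ℚ) : Prop := ∀ N : ℤ, X ^ 5 ∣ J N - (unknotJ N +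
  (C (c * (N * (N ^ 2 - 1))) * X ^ 2 + C (c' * (N * (N ^ 2 - 1))) * X ^ 3 +
    C ((q * N ^ 2 + r) * (N * (N ^ 2 - 1))) * X ^ 4))

/-- an odd polynomial of degree at most `3` vanishing at `1` -/
theorem cubic {P : Polynomial ℚ} (hd : P.natDegree ≤ 4)
    (hodd : ∀ N : ℤ, P.eval (-(N : ℚ)) = - P.eval (N : ℚ)) (h1 : P.eval 1 = 0) :
    ∃ c : ℚ, ∀ x : ℚ, P.eval x = c * (x * (x ^ 2 - 1)) := by
  have hc : ∀ l, Even l → P.coeff l = 0 := by
    intro l hl
    have hP : P.comp (Polynomial.C (-1) * Polynomial.X) = - P := by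
      apply poly_eq_of_int
      intro N
      rw [Polynomial.eval_comp, Polynomial.eval_neg]
      simp only [Polynomial.eval_mul, Polynomial.eval_C, Polynomial.eval_X, neg_one_mul]
      exact hodd N
    have h2 := congrArg (fun p => Polynomial.coeff p l) hP
    simp only [Polynomial.comp_C_mul_X_coeff, Polynomial.coeff_neg] at h2
    rw [hl.neg_one_pow] at h2
    linarith
  have he : ∀ x : ℚ, P.eval x = P.coeff 1 * x + P.coeff 3 * x ^ 3 := by
    intro x
    rw [Polynomial.eval_eq_sum_range' (n := 5) (by omega)]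
    simp only [Finset.sum_range_succ, Finset.sum_range_zero, zero_add]
    rw [hc 0 (by decide), hc 2 (by decide), hc 4 (by decide)]
    ring
  rw [he] at h1
  refine ⟨P.coeff 3, fun x => ?_⟩
  rw [he]
  linear_combination x * h1

theorem quintic {P : Polynomial ℚ} (hd : P.natDegree ≤ 5)
    (hodd : ∀ N : ℤ, P.eval (-(N : ℚ)) = - P.eval (N : ℚ)) (h1 : P.eval 1 = 0) :
    ∃ q r : ℚ, ∀ x : ℚ, P.eval x = (q * x ^ 2 + r) * (x * (x ^ 2 - 1)) := by
  have hc : ∀ l, Even l → P.coeff l = 0 := by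
    intro l hl
    have hP : P.comp (Polynomial.C (-1) * Polynomial.X) = - P := by
      apply poly_eq_of_int
      intro N
      rw [Polynomial.eval_comp, Polynomial.eval_neg]
      simp only [Polynomial.eval_mul, Polynomial.eval_C, Polynomial.eval_X, neg_one_mul]
      exact hodd N
    have h2 := congrArg (fun p => Polynomial.coeff p l) hP
    simp only [Polynomial.comp_C_mul_X_coeff, Polynomial.coeff_neg] at h2
    rw [hl.neg_one_pow] at h2
    linarith
  have he : ∀ x : ℚ, P.eval x = P.coeff 1 * x + P.coeff 3 * x ^ 3 + P.coeff 5 * x ^ 5 := by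
    intro x
    rw [Polynomial.eval_eq_sum_range' (n := 6) (by omega)]
    simp only [Finset.sum_range_succ, Finset.sum_range_zero, zero_add]
    rw [hc 0 (by decide), hc 2 (by decide), hc 4 (by decide)]
    ring
  rw [he] at h1
  refine ⟨P.coeff 5, P.coeff 5 + P.coeff 3, fun x => ?_⟩
  rw [he]
  linear_combination x * h1

/-- every function with the Melvin-Morton bound has this form -/
theorem exists_four {J : ℤ → ℚ⟦X⟧} (hodd : ∀ N, J (-N) = - J N) (h1 : J 1 = 1) (hb : Bd 1 1 J)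
    {c : ℚ} (hL : Lead J c 2) : ∃ c' q r, Four J c c' q r := by
  have hB : Bd 1 1 (fun N => J N - unknotJ N) := hb.sub Bd.unknot1
  have hEo : ∀ (n : ℕ) (P : Polynomial ℚ), (∀ N : ℤ, coeff n (J N - unknotJ N) =
      P.eval (N : ℚ)) → ∀ N : ℤ, P.eval (-(N : ℚ)) = - P.eval (N : ℚ) := by
    intro n P hP N
    have e1 := hP (-N)
    rw [hodd, unknotJ_neg, show -J N - -unknotJ N = -(J N - unknotJ N) by ring, map_neg, hP] at e1
    push_cast at e1
    exact e1.symm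
  have hE1 : ∀ (n : ℕ) (P : Polynomial ℚ), (∀ N : ℤ, coeff n (J N - unknotJ N) =
      P.eval (N : ℚ)) → P.eval 1 = 0 := by
    intro n P hP
    have e1 := hP 1
    rw [h1, unknotJ_one, sub_self, map_zero] at e1
    push_cast at e1
    exact e1.symm
  obtain ⟨P3, hP3', hP3⟩ := hB 3
  obtain ⟨P4, hP4', hP4⟩ := hB 4
  beta_reduce at hP3 hP4
  obtain ⟨c', hc'⟩ := cubic (by omega) (hEo 3 P3 hP3) (hE1 3 P3 hP3)
  obtain ⟨q, r, hqr⟩ := quintic (by omega) (hEo 4 P4 hP4) (hE1 4 P4 hP4)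
  refine ⟨c', q, r, fun N => ?_⟩
  rw [X_pow_dvd_iff]
  intro m hm
  have hLN := hL N
  rw [X_pow_dvd_iff] at hLN
  have e : J N - (unknotJ N + (C (c * (N * (N ^ 2 - 1))) * X ^ 2 +
      C (c' * (N * (N ^ 2 - 1))) * X ^ 3 + C ((q * N ^ 2 + r) * (N * (N ^ 2 - 1))) * X ^ 4)) =
      (J N - unknotJ N) - C (c * (N * (N ^ 2 - 1))) * X ^ 2 -
      C (c' * (N * (N ^ 2 - 1))) * X ^ 3 - C ((q * N ^ 2 + r) * (N * (N ^ 2 - 1))) * X ^ 4 := by
    ring
  rw [e, map_sub, map_sub, map_sub, coeff_C_mul_X_pow, coeff_C_mul_X_pow, coeff_C_mul_X_pow]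
  have hlow : ∀ m < 3, coeff m (J N - unknotJ N) = if m = 2 then c * (N * (N ^ 2 - 1)) else 0 := by
    intro m hm
    have := hLN m hm
    rw [show J N - (unknotJ N + C (c * (N * (N ^ 2 - 1))) * X ^ 2) =
      (J N - unknotJ N) - C (c * (N * (N ^ 2 - 1))) * X ^ 2 by ring, map_sub,
      coeff_C_mul_X_pow] at this
    linarith
  interval_cases m
  · rw [hlow 0 (by norm_num)]; simp
  · rw [hlow 1 (by norm_num)]; simp
  · rw [hlow 2 (by norm_num)]; simp
  · rw [hP3, hc']; simp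
  · rw [hP4, hqr]; simp

theorem gauss_coeffs {n : ℤ} (hn : n ≠ 0) (f : ℕ → ℕ → ℚ) :
    coeff 1 (gauss n f) = -2 * f 1 0 ∧
    coeff 2 (gauss n f) = -2 * f 1 1 + 6 * n * f 3 0 + f 1 0 / n ∧
    coeff 3 (gauss n f) = -2 * f 1 2 + 6 * n * f 3 1 + f 1 1 / n - 30 * n ^ 2 * f 5 0 - 5 * f 3 0 -
      f 1 0 / (4 * n ^ 2) := by
  have hn' : (n : ℚ) ≠ 0 := by exact_mod_cast hn
  refine ⟨?_, ?_, ?_⟩
  · rw [gauss, coeff_mk]
    simp [Finset.sum_range_succ, Nat.doubleFactorial, Nat.factorial]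
    field_simp
    ring
  · rw [gauss, coeff_mk]
    simp [Finset.sum_range_succ, Nat.doubleFactorial, Nat.factorial]
    field_simp
    ring
  · rw [gauss, coeff_mk]
    simp [Finset.sum_range_succ, Nat.doubleFactorial, Nat.factorial]
    field_simp
    ring

/-- `D = 2 h + h^3/3 + O(h^5)` -/
theorem D_expand : ∃ w : ℚ⟦X⟧, hexp 1 - hexp (-1) = C 2 * X + C (1 / 3) * X ^ 3 + X ^ 5 * w := by
  have : X ^ 5 ∣ (hexp 1 - hexp (-1)) - (C 2 * X + C (1 / 3) * X ^ 3) := by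
    rw [X_pow_dvd_iff]
    intro j hj
    rw [map_sub, map_sub, map_add, coeff_hexp, coeff_hexp, coeff_C_mul_X_pow, coeff_C_mul, coeff_X]
    interval_cases j <;> norm_num [Nat.factorial]
  obtain ⟨w, hw⟩ := this
  exact ⟨w, by rw [← hw]; ring⟩

theorem coeff_trunc {f : ℚ⟦X⟧} {a b c : ℚ} {s : ℚ⟦X⟧}
    (hf : f = C a * X ^ 3 + C b * X ^ 4 + C c * X ^ 5 + X ^ 6 * s) {m : ℕ} (hm : m < 6) :
    coeff m f = if m = 3 then a else if m = 4 then b else if m = 5 then c else 0 := by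
  have h : X ^ 6 ∣ X ^ 6 * s := Dvd.intro _ rfl
  rw [X_pow_dvd_iff] at h
  rw [hf, map_add, map_add, map_add, h m hm, coeff_C_mul_X_pow, coeff_C_mul_X_pow,
    coeff_C_mul_X_pow]
  interval_cases m <;> simp

/-- the first two coefficients in general -/
theorem ohtsuki_general {J : ℤ → ℚ⟦X⟧} {c c' q r : ℚ} (h : Four J c c' q r) {n : ℤ} (hn : n ≠ 0) :
    coeff 1 (ohtsuki n J) = -3 * c * n ∧
    coeff 2 (ohtsuki n J) = (15 * q - 3 / 2 * c) * n ^ 2 - 3 * c' * n := by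
  have hn' : (n : ℚ) ≠ 0 := by exact_mod_cast hn
  set E : ℤ → ℚ⟦X⟧ := fun N => J N - unknotJ N with hE
  have hDE : ∀ N : ℤ, ∃ s : ℚ⟦X⟧, (hexp 1 - hexp (-1)) * E N =
      C (2 * (c * (N * ((N : ℚ) ^ 2 - 1)))) * X ^ 3 +
      C (2 * (c' * (N * ((N : ℚ) ^ 2 - 1)))) * X ^ 4 +
      C (2 * ((q * N ^ 2 + r) * (N * ((N : ℚ) ^ 2 - 1))) + 1 / 3 * (c * (N * ((N : ℚ) ^ 2 - 1)))) *
        X ^ 5 + X ^ 6 * s := by
    intro N
    obtain ⟨w, hw⟩ := D_expand
    obtain ⟨s, hs⟩ := h N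
    have hEN : E N = C (c * (N * (N ^ 2 - 1))) * X ^ 2 + C (c' * (N * (N ^ 2 - 1))) * X ^ 3 +
        C ((q * N ^ 2 + r) * (N * (N ^ 2 - 1))) * X ^ 4 + X ^ 5 * s := by
      rw [hE]
      beta_reduce
      linear_combination hs
    have gen : ∀ A B G : ℚ, E N = C A * X ^ 2 + C B * X ^ 3 + C G * X ^ 4 + X ^ 5 * s →
        ∃ s : ℚ⟦X⟧, (hexp 1 - hexp (-1)) * E N = C (2 * A) * X ^ 3 + C (2 * B) * X ^ 4 +
          C (2 * G + 1 / 3 * A) * X ^ 5 + X ^ 6 * s := by
      intro A B G hEN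
      refine ⟨C 2 * s + C (1 / 3) * C B + C (1 / 3) * C G * X + C (1 / 3) * s * X ^ 2 +
        w * (C A * X + C B * X ^ 2 + C G * X ^ 3 + X ^ 4 * s), ?_⟩
      have h1 : C (2 * A) = C (2 : ℚ) * C A := map_mul _ _ _
      have h2 : C (2 * B) = C (2 : ℚ) * C B := map_mul _ _ _
      have h3 : C (2 * G + 1 / 3 * A) = C (2 : ℚ) * C G + C (1 / 3 : ℚ) * C A := by
        rw [map_add, map_mul, map_mul]
      rw [hw, hEN, h1, h2, h3]
      ring
    exact gen _ _ _ hEN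
  have hm : ∀ (m : ℕ) (P : Polynomial ℚ), m < 6 → P.natDegree ≤ m → (∀ N : ℤ, (if m = 3 then
      2 * (c * (N * ((N : ℚ) ^ 2 - 1))) else if m = 4 then 2 * (c' * (N * ((N : ℚ) ^ 2 - 1))) else
      if m = 5 then 2 * ((q * N ^ 2 + r) * (N * ((N : ℚ) ^ 2 - 1))) +
        1 / 3 * (c * (N * ((N : ℚ) ^ 2 - 1))) else 0) = P.eval (N : ℚ)) → mmPoly E m = P := by
    intro m P hm hd hP
    apply mmPoly_eq hd
    intro i
    obtain ⟨s, hs⟩ := hDE i
    rw [coeff_trunc hs hm]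
    have := hP i
    push_cast at this ⊢
    exact this
  have m1 : mmPoly E 1 = 0 := hm 1 0 (by norm_num) (by simp) (fun N => by simp)
  have m2 : mmPoly E 2 = 0 := hm 2 0 (by norm_num) (by simp) (fun N => by simp)
  have m3 : mmPoly E 3 = Polynomial.C (2 * c) * Polynomial.X ^ 3 -
      Polynomial.C (2 * c) * Polynomial.X :=
    hm 3 _ (by norm_num) (by compute_degree) (fun N => by simp; ring)
  have m4 : mmPoly E 4 = Polynomial.C (2 * c') * Polynomial.X ^ 3 -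
      Polynomial.C (2 * c') * Polynomial.X :=
    hm 4 _ (by norm_num) (by compute_degree!) (fun N => by simp; ring)
  have m5 : mmPoly E 5 = Polynomial.C (2 * q) * Polynomial.X ^ 5 +
      Polynomial.C (2 * r - 2 * q + 1 / 3 * c) * Polynomial.X ^ 3 -
      Polynomial.C (2 * r + 1 / 3 * c) * Polynomial.X :=
    hm 5 _ (by norm_num) (by compute_degree!) (fun N => by simp; ring)
  have f10 : mmCoeff E 1 0 = 0 := by rw [mmCoeff, m1, Polynomial.coeff_zero]
  have f11 : mmCoeff E 1 1 = 0 := by rw [mmCoeff, m2, Polynomial.coeff_zero]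
  have f12 : mmCoeff E 1 2 = -2 * c := by
    rw [mmCoeff, m3]
    simp only [Polynomial.coeff_sub, Polynomial.coeff_C_mul, Polynomial.coeff_X_pow,
      Polynomial.coeff_X]
    norm_num
  have f30 : mmCoeff E 3 0 = 2 * c := by
    rw [mmCoeff, m3]
    simp only [Polynomial.coeff_sub, Polynomial.coeff_C_mul, Polynomial.coeff_X_pow,
      Polynomial.coeff_X]
    norm_num
  have f31 : mmCoeff E 3 1 = 2 * c' := by
    rw [mmCoeff, m4]
    simp only [Polynomial.coeff_sub, Polynomial.coeff_C_mul, Polynomial.coeff_X_pow,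
      Polynomial.coeff_X]
    norm_num
  have f50 : mmCoeff E 5 0 = 2 * q := by
    rw [mmCoeff, m5]
    simp only [Polynomial.coeff_sub, Polynomial.coeff_add, Polynomial.coeff_C_mul,
      Polynomial.coeff_X_pow, Polynomial.coeff_X]
    norm_num
  obtain ⟨g1, g2, g3⟩ := gauss_coeffs hn (mmCoeff E)
  rw [f10] at g1 g2 g3
  rw [f11] at g2 g3
  rw [f30] at g2 g3
  rw [f12, f31, f50] at g3
  have h3 := D_mul_ohtsuki_sub hn J unknotJ
  rw [ohtsuki_unknot] at h3
  set G := gauss n (mmCoeff fun N => J N - unknotJ N) with hG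
  have hG4 : T4 G 0 (-2 * 0) (-2 * 0 + 6 * n * (2 * c) + 0 / n)
      (-2 * (-2 * c) + 6 * n * (2 * c') + 0 / n - 30 * n ^ 2 * (2 * q) - 5 * (2 * c) -
        0 / (4 * n ^ 2)) := by
    refine ⟨?_, g1, g2, g3⟩
    rw [coeff_zero_eq_constantCoeff_apply]
    exact gauss_const n _
  have hC : T4 (C (-1 / 2 : ℚ)) (-1 / 2) 0 0 0 := ⟨by rw [coeff_C]; simp, by rw [coeff_C]; simp,
    by rw [coeff_C]; simp, by rw [coeff_C]; simp⟩
  have hR := T4.mul (T4.mul hC (t4_hexp (((n : ℚ) + 1 / n) / 2))) hG4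
  have hD : T4 (hexp 1 - hexp (-1)) 0 2 0 (1 / 3) := by
    obtain ⟨a0, a1, a2, a3⟩ := (t4_hexp 1).sub (t4_hexp (-1))
    exact ⟨a0.trans (by norm_num), a1.trans (by norm_num), a2.trans (by norm_num),
      a3.trans (by norm_num)⟩
  set τ := ohtsuki n J with hτ
  have hL := hD.mul (⟨rfl, rfl, rfl, rfl⟩ : T4 (τ - 1) (coeff 0 (τ - 1)) (coeff 1 (τ - 1))
    (coeff 2 (τ - 1)) (coeff 3 (τ - 1)))
  rw [h3] at hL
  obtain ⟨_, u1, u2, u3⟩ := hL.unique hR
  have v0 : coeff 0 (τ - 1) = 0 := by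
    have : 2 * coeff 0 (τ - 1) = 0 := by
      have := u1
      linear_combination this
    linarith
  have e1 : coeff 1 (τ - 1) = coeff 1 τ := by
    rw [map_sub, coeff_one, if_neg one_ne_zero, sub_zero]
  have e2 : coeff 2 (τ - 1) = coeff 2 τ := by
    rw [map_sub, coeff_one, if_neg two_ne_zero, sub_zero]
  rw [v0, e1] at u2
  rw [v0, e1, e2] at u3
  constructor
  · linear_combination (1 / 2) * u2
  · have hinv : (n : ℚ) * (1 / n) = 1 := by field_simp
    linear_combination (1 / 2) * u3 - (3 / 2) * c * hinv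

end

end Pool.Agent.H765.MM
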