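import Mathlib
import Pool.Agent.H765.MM.Alex
import Pool.Agent.H765.MM.Gen
import Pool.Agent.H765.MM.Almost

/-! All pairs of surgeries on two knots. -/

namespace Pool.Agent.H765.MM

open PowerSeries GK DB Pool.Agent.H765.ST Filter Topology

noncomputable section

/-- Properties of the coloured Jones function of a knot with Casson invariant `a_2 = - c/4`: `J` is
odd, `J(1) = 1`, the coefficient of `h^n` is a polynomial in `N` of degree at most `n + 1`
(Melvin-Morton bound), `J(N) = [N] + c N (N^2 - 1) h^2 + O(h^3)`, and the leading part of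
`(e^h - e^{-h}) J(N)` is `(e^y - e^{-y})/Δ(e^{2y})`, `y = N h` (Melvin-Morton-Rozansky). -/
structure JonesFn (J : ℤ → ℚ⟦X⟧) (c : ℚ) : Prop where
  odd : ∀ N, J (-N) = - J N
  one : J 1 = 1
  mm : ∀ n, ∃ P : Polynomial ℚ, P.natDegree ≤ n + 1 ∧ ∀ N : ℤ, coeff n (J N) = P.eval (N : ℚ)
  lead : Lead J c 2
  alex : HasAlex (wf J)

theorem HasAlex.nonneg {w : ℚ⟦X⟧} (h : HasAlex w) : ∃ (B : Polynomial ℤ) (k : ℕ),
    B.eval 1 = 1 ∧ ev (Polynomial.expand ℤ 2 B) * w =
      ev (Polynomial.X ^ k * (Polynomial.X ^ 2 - 1)) := by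
  obtain ⟨B, k, hB, hw⟩ := h
  set g : ℕ := k.natAbs + 1 with hg
  obtain ⟨r, hr⟩ : ∃ r : ℕ, (r : ℤ) = 2 * g + k - 1 := by
    refine ⟨(2 * g + k - 1).toNat, Int.toNat_of_nonneg ?_⟩
    omega
  refine ⟨Polynomial.X ^ g * B, r, by simp [hB], ?_⟩
  rw [map_mul, map_mul, mul_assoc, hw, map_pow, Polynomial.expand_X, ← pow_mul, map_pow, ev_X,
    hexp_nat, map_mul, map_pow, map_sub, map_pow, map_one, ev_X, hexp_nat, hexp_nat, mul_sub,
    mul_sub, mul_sub, mul_one, ← hexp_add, ← hexp_add, ← hexp_add, ← hexp_add, ← hexp_add]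
  have hr' : (r : ℚ) = 2 * g + k - 1 := by exact_mod_cast hr
  rw [hr']
  congr 2
  · push_cast; ring
  · push_cast; ring

/-- a power series with non-zero second coefficient has a non-monomial Alexander polynomial -/
theorem not_monomial {w : ℚ⟦X⟧} {B : Polynomial ℤ} {k : ℕ} (hB : B.eval 1 = 1)
    (hw : ev (Polynomial.expand ℤ 2 B) * w = ev (Polynomial.X ^ k * (Polynomial.X ^ 2 - 1)))
    (hodd : ∀ k, Even k → coeff k w = 0)
    (hne : Phi w (Polynomial.X * (1 - Polynomial.X ^ 2)) ≠ 0) :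
    ∃ i j, i < j ∧ B.coeff i ≠ 0 ∧ B.coeff j ≠ 0 := by
  by_contra hc
  push Not at hc
  have hB0 : B ≠ 0 := by
    rintro rfl
    rw [Polynomial.eval_zero] at hB
    exact zero_ne_one hB
  set n := B.natDegree with hn
  have hlead : B.coeff n ≠ 0 := by
    rw [hn]
    exact Polynomial.leadingCoeff_ne_zero.mpr hB0
  have hmono : B = Polynomial.C (B.coeff n) * Polynomial.X ^ n := by
    ext i
    rw [Polynomial.coeff_C_mul, Polynomial.coeff_X_pow]
    rcases lt_trichotomy i n with h | h | h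
    · rw [if_neg h.ne, mul_zero]
      by_contra h2
      exact hlead (hc i n h h2)
    · rw [if_pos h, mul_one, h]
    · rw [if_neg h.ne', mul_zero]
      exact Polynomial.coeff_eq_zero_of_natDegree_lt h
  have hc1 : B.coeff n = 1 := by
    rw [hmono] at hB
    simpa using hB
  rw [hc1, Polynomial.C_1, one_mul] at hmono
  rw [hmono, map_pow, Polynomial.expand_X, ← pow_mul, map_pow, ev_X, hexp_nat, map_mul, map_pow,
    map_sub, map_pow, map_one, ev_X, hexp_nat, hexp_nat] at hw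
  set b : ℚ := (k : ℚ) + 1 - 2 * n with hb
  have hw2 : w = hexp b * (hexp 1 - hexp (-1)) := by
    have h1 : hexp (-((2 * n : ℕ) : ℚ)) * hexp ((2 * n : ℕ) : ℚ) = 1 := by
      rw [← hexp_add, neg_add_cancel, hexp_zero]
    have h2 : hexp (-((2 * n : ℕ) : ℚ)) * (hexp k * (hexp ((2 : ℕ) : ℚ) - 1)) =
        hexp b * (hexp 1 - hexp (-1)) := by
      rw [mul_sub, mul_sub, mul_sub, mul_one, ← hexp_add, ← hexp_add, ← hexp_add, ← hexp_add,
        ← hexp_add, hb]
      congr 2
      · push_cast; ring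
      · push_cast; ring
    linear_combination hexp (-((2 * n : ℕ) : ℚ)) * hw - w * h1 + h2
  have hPhi : ∀ P : Polynomial ℚ, Phi w P = P.eval (b + 1) - P.eval (b - 1) := by
    intro P
    rw [hw2, mul_sub, ← hexp_add, ← hexp_add, Phi_sub_left, Phi_hexp, Phi_hexp, sub_eq_add_neg b 1]
  have hb0 : b = 0 := by
    have h1 := hPhi (Polynomial.X ^ 2)
    rw [Phi_X_pow, hodd 2 (by decide), mul_zero] at h1
    simp only [Polynomial.eval_pow, Polynomial.eval_X] at h1
    linarith
  apply hne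
  rw [hPhi, hb0]
  simp

theorem lim_unique {f : ℤ → ℚ} {a b : ℚ} (h : Tendsto f cofinite (𝓝 a))
    (h' : ∀ n : ℤ, n ≠ 0 → f n = b) : a = b := by
  have h2 : Tendsto f cofinite (𝓝 b) := by
    refine tendsto_const_nhds.congr' ?_
    filter_upwards [eventually_ne] with n hn
    exact (h' n hn).symm
  exact tendsto_nhds_unique h h2

theorem JonesFn.first {J : ℤ → ℚ⟦X⟧} {c : ℚ} (h : JonesFn J c) {n : ℤ} (hn : n ≠ 0) :
    coeff 1 (ohtsuki n J) = -3 * c * n := by
  obtain ⟨c', q, r, hf⟩ := exists_four h.odd h.one (bd_of_mm h.mm) h.lead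
  exact (ohtsuki_general hf hn).1

theorem JonesFn.phi_one {J : ℤ → ℚ⟦X⟧} {c : ℚ} (h : JonesFn J c) :
    Phi (wf J) (Polynomial.X * (1 - Polynomial.X ^ 2)) = -12 * c := by
  have h1 := SL_ohtsuki J 1
  have h2 := lim_unique (b := -3 * c) h1 (fun n hn => by
    have hn' : (n : ℚ) ≠ 0 := by exact_mod_cast hn
    rw [h.first hn, pow_one]
    field_simp)
  rw [top_coeff, pow_one] at h2
  norm_num at h2
  linarith

/-- The relation between the leading parts. -/
theorem rel_of_infinite {J J' : ℤ → ℚ⟦X⟧} {lam : ℚ} (hlam : lam ≠ 0)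
    {S : Set (ℤ × ℤ)} (hS : S.Infinite) (h1 : ∀ x ∈ S, (x.2 : ℚ) = lam * x.1)
    (h2 : ∀ x ∈ S, ohtsuki x.1 J = ohtsuki x.2 J') : Rel (wf J) (wf J') lam := by
  set e := hS.natEmbedding S with he
  set a : ℕ → ℤ := fun i => (e i).1.1 with ha
  set b : ℕ → ℤ := fun i => (e i).1.2 with hb
  have hab : ∀ i, (b i : ℚ) = lam * a i := fun i => h1 _ (e i).2
  have hainj : Function.Injective a := by
    intro i j hij
    have h3 : b i = b j := by
      have := hab i
      rw [hij, ← hab j] at this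
      exact_mod_cast this
    exact e.injective (Subtype.ext (Prod.ext hij h3))
  have hbinj : Function.Injective b := by
    intro i j hij
    apply hainj
    have := hab i
    rw [hij, hab j] at this
    have h4 := mul_left_cancel₀ hlam this
    exact_mod_cast h4.symm
  have ta : Tendsto a atTop cofinite := by
    rw [← Nat.cofinite_eq_atTop]
    exact hainj.tendsto_cofinite
  have tb : Tendsto b atTop cofinite := by
    rw [← Nat.cofinite_eq_atTop]
    exact hbinj.tendsto_cofinite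
  have key : ∀ d : ℕ, Phi (wf J) (Polynomial.X * (1 - Polynomial.X ^ 2) ^ d) =
      lam ^ d * Phi (wf J') (Polynomial.X * (1 - Polynomial.X ^ 2) ^ d) := by
    intro d
    have l1 := (SL_ohtsuki J d).comp ta
    have l2 := ((SL_ohtsuki J' d).comp tb).const_mul (lam ^ d)
    have l3 := tendsto_nhds_unique l1 (l2.congr fun i => by
      simp only [Function.comp]
      rw [hab i, ← h2 _ (e i).2, mul_pow]
      have : lam ^ d ≠ 0 := pow_ne_zero d hlam
      field_simp
      rfl)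
    rw [top_coeff, top_coeff] at l3
    have h5 : (1 / (2 ^ (d + 1) * (d.factorial : ℚ))) ≠ 0 := by
      have : (d.factorial : ℚ) ≠ 0 := by exact_mod_cast d.factorial_ne_zero
      positivity
    apply mul_left_cancel₀ h5
    linarith
  intro P
  induction P using Polynomial.induction_on' with
  | add P Q hP hQ =>
    rw [Polynomial.add_comp, Polynomial.add_comp, mul_add, mul_add, map_add, map_add, hP, hQ]
  | monomial j r =>
    rw [Polynomial.monomial_comp, Polynomial.monomial_comp, mul_pow, ← Polynomial.C_pow,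
      show Polynomial.X * (Polynomial.C r * (1 - Polynomial.X ^ 2) ^ j) =
        Polynomial.C r * (Polynomial.X * (1 - Polynomial.X ^ 2) ^ j) by ring,
      show Polynomial.X * (Polynomial.C r * (Polynomial.C (lam ^ j) *
        (1 - Polynomial.X ^ 2) ^ j)) = Polynomial.C (r * lam ^ j) *
          (Polynomial.X * (1 - Polynomial.X ^ 2) ^ j) by rw [Polynomial.C_mul]; ring,
      ← Polynomial.smul_eq_C_mul, ← Polynomial.smul_eq_C_mul, map_smul, map_smul, smul_eq_mul,
      smul_eq_mul, key j]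
    ring

/-- all pairs -/
theorem all_pairs {J J' : ℤ → ℚ⟦X⟧} {c c' : ℚ} (h : JonesFn J c) (h' : JonesFn J' c')
    (hcc : c ≠ 0 ∨ c' ≠ 0) (hne : J ≠ J') :
    {x : ℤ × ℤ | x.1 ≠ 0 ∧ x.2 ≠ 0 ∧ ohtsuki x.1 J = ohtsuki x.2 J'}.Finite := by
  by_contra hinf
  set S := {x : ℤ × ℤ | x.1 ≠ 0 ∧ x.2 ≠ 0 ∧ ohtsuki x.1 J = ohtsuki x.2 J'} with hS
  have hS' : S.Infinite := hinf
  have h1 : ∀ x ∈ S, c * x.1 = c' * x.2 := by
    rintro x ⟨a1, a2, a3⟩
    have e1 := h.first a1
    have e2 := h'.first a2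
    rw [a3, e2] at e1
    linarith
  obtain ⟨x₀, hx₀⟩ := hS'.nonempty
  have hx1 : (x₀.1 : ℚ) ≠ 0 := by exact_mod_cast hx₀.1
  have hx2 : (x₀.2 : ℚ) ≠ 0 := by exact_mod_cast hx₀.2.1
  have hc : c ≠ 0 := by
    rintro rfl
    have := h1 x₀ hx₀
    rw [zero_mul] at this
    rcases hcc with h3 | h3
    · exact h3 rfl
    · exact (mul_ne_zero h3 hx2) this.symm
  have hc' : c' ≠ 0 := by
    rintro rfl
    have := h1 x₀ hx₀
    rw [zero_mul] at this
    exact (mul_ne_zero hc hx1) this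
  have hlam : c / c' ≠ 0 := div_ne_zero hc hc'
  have h3 : ∀ x ∈ S, (x.2 : ℚ) = c / c' * x.1 := by
    intro x hx
    have := h1 x hx
    field_simp
    linarith
  have hrel := rel_of_infinite hlam hS' h3 (fun x hx => hx.2.2)
  obtain ⟨B₁, k₁, hB₁, hw₁⟩ := h.alex.nonneg
  obtain ⟨B₂, k₂, hB₂, hw₂⟩ := h'.alex.nonneg
  have hodd' := wf_odd h'.odd (bd_of_mm h'.mm)
  obtain ⟨i, j, hij, hi, hj⟩ := not_monomial hB₂ hw₂ hodd' (by
    rw [h'.phi_one]
    exact mul_ne_zero (by norm_num) hc')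
  have hlam1 := lam_eq_one (w₁ := wf J) (w₂ := wf J') (B₁ := Polynomial.expand ℤ 2 B₁)
    (by rw [Polynomial.expand_eval, one_pow, hB₁]) hw₁ hB₂ hw₂ hodd' hij hi hj hlam hrel
  have hdiag := finite_equal h.odd h'.odd (bd_of_mm h.mm) (bd_of_mm h'.mm) hne
  apply hinf
  apply (hdiag.image (fun n : ℤ => (n, n))).subset
  intro x hx
  have h4 := h3 x hx
  rw [hlam1, one_mul] at h4
  have h5 : x.2 = x.1 := by exact_mod_cast h4
  refine ⟨x.1, ?_, Prod.ext rfl h5.symm⟩
  have := hx.2.2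
  rw [h5] at this
  exact this

theorem jonesFn_graph (K : GraphKnot) : ∃ c : ℚ, JonesFn (colouredJones K) c ∧
    (c = 0 → Isotopic K GraphKnot.unknot) := by
  obtain ⟨c, _, hL, hI⟩ := graph_lead K
  exact ⟨c, ⟨colouredJones_odd K, colouredJones_one K, mm_of_bd (graph_bd K), hL, graph_alex K⟩, hI⟩

/-- all pairs of surgeries on two graph knots -/
theorem all_pairs_graph {K K' : GraphKnot} (h : ¬ Isotopic K K') :
    {x : ℤ × ℤ | x.1 ≠ 0 ∧ x.2 ≠ 0 ∧ ohtsuki x.1 (colouredJones K) =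
      ohtsuki x.2 (colouredJones K')}.Finite := by
  obtain ⟨c, hc, hc0⟩ := jonesFn_graph K
  obtain ⟨c', hc', hc0'⟩ := jonesFn_graph K'
  apply all_pairs hc hc'
  · by_contra hcc
    push Not at hcc
    exact h ((hc0 hcc.1).trans (hc0' hcc.2).symm)
  · intro heq
    apply h
    apply (graph_main K K').mp
    intro N n
    rw [heq]

end

end Pool.Agent.H765.MM
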