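import Mathlib
import Pool.Agent.H765.MM.Fin
import Pool.Agent.H765.MM.Torus

/-! Surgeries on the doubles of graph knots. -/

namespace Pool.Agent.H765.MM

open PowerSeries GK DB Pool.Agent.H765.ST

noncomputable section

theorem seed_graph (K : GraphKnot) (hK : ¬ Isotopic K GraphKnot.unknot) :
    ∃ c : ℚ, SeedFn (colouredJones K) c := by
  obtain ⟨c, _, hL, hI⟩ := graph_lead K
  exact ⟨c, colouredJones_odd K, colouredJones_one K, mm_of_bd (graph_bd K), hL,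
    fun h => hK (hI h)⟩

/-- the non-trivial graph knots as seeds -/
abbrev GSeed : Type := {K : GraphKnot // ¬ Isotopic K GraphKnot.unknot}

/-- every graph knot is the unknot or a seed -/
theorem exists_knot (K : GraphKnot) : ∃ K₀ : Knot GSeed,
    (K₀.Trivial ↔ Isotopic K GraphKnot.unknot) ∧
      colJ (fun i : GSeed => colouredJones i.1) K₀ = colouredJones K := by
  by_cases hK : Isotopic K GraphKnot.unknot
  · refine ⟨.unknot, ⟨fun _ => hK, fun _ => trivial⟩, ?_⟩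
    rw [hK.colouredJones_eq]
    rfl
  · exact ⟨.seed ⟨K, hK⟩, ⟨fun h => absurd h id, fun h => absurd h hK⟩, rfl⟩

/-- the pairs of surgeries on two different doubles of graph knots -/
theorem double_graph_finite {m m' ε ε' : ℤ} (hε : ε = 1 ∨ ε = -1) (hε' : ε' = 1 ∨ ε' = -1)
    (K K' : GraphKnot) (hD : ¬ (Isotopic K GraphKnot.unknot ∧ m = 0))
    (hD' : ¬ (Isotopic K' GraphKnot.unknot ∧ m' = 0)) :
    {x : ℤ × ℤ | x.1 ≠ 0 ∧ x.2 ≠ 0 ∧ x.1 ≠ x.2 ∧ ohtsuki x.1 (doubleJ m ε (colouredJones K)) =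
      ohtsuki x.2 (doubleJ m' ε' (colouredJones K'))}.Subsingleton ∧
    (¬ ((Isotopic K K' ∧ m = m' ∧ ε = ε') ∨ (Isotopic K GraphKnot.unknot ∧
      Isotopic K' GraphKnot.unknot ∧ m = -ε ∧ m' = -ε')) →
      {x : ℤ × ℤ | x.1 ≠ 0 ∧ x.2 ≠ 0 ∧ ohtsuki x.1 (doubleJ m ε (colouredJones K)) =
        ohtsuki x.2 (doubleJ m' ε' (colouredJones K'))}.Finite) := by
  choose c hc using fun i : GSeed => seed_graph i.1 i.2
  obtain ⟨K₀, h1, h2⟩ := exists_knot K
  obtain ⟨K₁, h3, h4⟩ := exists_knot K'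
  have hn : ε ≠ 0 := by rcases hε with rfl | rfl <;> norm_num
  have hn' : ε' ≠ 0 := by rcases hε' with rfl | rfl <;> norm_num
  have e1 : doubleJ m ε (colouredJones K) =
      colJ (fun i : GSeed => colouredJones i.1) (.plumb K₀ m .unknot ε) := by
    rw [← h2]
    rfl
  have e2 : doubleJ m' ε' (colouredJones K') =
      colJ (fun i : GSeed => colouredJones i.1) (.plumb K₁ m' .unknot ε') := by
    rw [← h4]
    rfl
  have t1 : ¬ (Knot.plumb K₀ m .unknot ε).Trivial := by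
    rintro (⟨a, b⟩ | ⟨_, b⟩)
    · exact hD ⟨h1.mp a, b⟩
    · exact hn b
  have t2 : ¬ (Knot.plumb K₁ m' .unknot ε').Trivial := by
    rintro (⟨a, b⟩ | ⟨_, b⟩)
    · exact hD' ⟨h3.mp a, b⟩
    · exact hn' b
  constructor
  · obtain ⟨e, b, g, hb, h⟩ := plumb_data (fun i => hc i) K₀ m .unknot ε t1
    obtain ⟨e', b', g', hb', h'⟩ := plumb_data (fun i => hc i) K₁ m' .unknot ε' t2
    rintro ⟨n, n'⟩ ⟨a1, a2, a3, a4⟩ ⟨k, k'⟩ ⟨b1, b2, b3, b4⟩
    rw [e1, e2] at a4 b4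
    obtain ⟨r1, r2⟩ := h.offdiag h' hb hb' a1 a2 b1 b2 a3 a4 b4
    exact Prod.ext r1 r2
  · intro hne
    rw [e1, e2]
    apply cls_finite (fun i => hc i) t1 t2
    intro heq
    rw [← e1, ← e2] at heq
    rcases (double_graph hε hε' K K').mp (fun N => by rw [heq]) with h | ⟨h, h', h0 | h0⟩
    · exact hne (Or.inl h)
    · exact hD ⟨h, h0.1⟩
    · exact hne (Or.inr ⟨h, h', h0.1, h0.2⟩)

end

end Pool.Agent.H765.MM
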